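import Pool.Agent.H40.FS.KUM

set_option autoImplicit false

/-!
# [H40 FS FIX] Points fixed by the Galois group

* `exists_fixed`: `Z = 0` or `Z = (x, y)`; `τ x = x`, `τ y = y` for all `τ`, so `x`, `y ∈ M` (`mem_base`), and `(x, y)` is a nonsingular point over `M` (`baseChange_nonsingular` with the injective map `M → Ω`).
* `pt_cont`: the extension `M(x, y)` is finite (`x`, `y` are algebraic over `M`: `IsGalois`), a `τ'` fixing it fixes `Z`, `actM e (τ * τ') Z = actM e τ (actM e τ' Z)` (`Affine.Point.map_map`).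
-/

namespace Pool.Agent.H40.FS

open WeierstrassCurve Pool.Agent.H94.MW Pool.Agent.H94.PL

variable {K : Type} [Field K] {e : Fin 3 → K} {M : Type} [Field M] [Algebra K M] [DecidableEq M]
  {Ω : Type} [Field Ω] [Algebra M Ω] [Algebra K Ω] [IsScalarTower K M Ω] [DecidableEq Ω]

theorem actM_mul (τ τ' : Ω ≃ₐ[M] Ω) (Z : Pt e Ω) : actM e (τ * τ') Z = actM e τ (actM e τ' Z) := by
  cases Z <;> rfl

variable [IsGalois M Ω]

theorem exists_fixed {Z : Pt e Ω} (h : ∀ τ : Ω ≃ₐ[M] Ω, actM e τ Z = Z) :
    ∃ Q : Pt e M, act e (IsScalarTower.toAlgHom K M Ω) Q = Z := by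
  cases Z with
  | zero => exact ⟨0, rfl⟩
  | some x y hn =>
    have h1 : ∀ τ : Ω ≃ₐ[M] Ω, τ x = x ∧ τ y = y := by
      intro τ
      have h2 := h τ
      have h3 : Affine.Point.some (W' := ((crv e)⁄Ω).toAffine) (τ x) (τ y)
          (((crv e).toAffine.baseChange_nonsingular
            (f := ((τ : Ω →ₐ[M] Ω).restrictScalars K)) (RingHom.injective _) ..).mpr hn) =
          Affine.Point.some x y hn := h2
      injection h3 with h4 h5
      exact ⟨h4, h5⟩
    obtain ⟨x', hx⟩ := mem_base (K := M) (x := x) fun τ => (h1 τ).1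
    obtain ⟨y', hy⟩ := mem_base (K := M) (x := y) fun τ => (h1 τ).2
    subst hx hy
    have hn' : ((crv e)⁄M).toAffine.Nonsingular x' y' :=
      ((crv e).toAffine.baseChange_nonsingular (f := IsScalarTower.toAlgHom K M Ω)
        (RingHom.injective _) ..).mp hn
    exact ⟨Affine.Point.some x' y' hn', rfl⟩

theorem pt_cont (Z : Pt e Ω) : IsCont M (fun τ : Ω ≃ₐ[M] Ω => actM e τ Z) := by
  cases Z with
  | zero =>
    refine ⟨⊥, inferInstance, fun σ τ _ => rfl⟩
  | some x y hn =>
    have h1 : FiniteDimensional M (IntermediateField.adjoin M {x}) :=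
      IntermediateField.adjoin.finiteDimensional (Algebra.IsIntegral.isIntegral x)
    have h2 : FiniteDimensional M (IntermediateField.adjoin M {y}) :=
      IntermediateField.adjoin.finiteDimensional (Algebra.IsIntegral.isIntegral y)
    refine ⟨IntermediateField.adjoin M {x} ⊔ IntermediateField.adjoin M {y}, inferInstance, ?_⟩
    intro σ τ h
    have hx : τ x = x := h x ((le_sup_left (a := IntermediateField.adjoin M {x}))
      (IntermediateField.mem_adjoin_simple_self M x))
    have hy : τ y = y := h y ((le_sup_right (a := IntermediateField.adjoin M {x}))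
      (IntermediateField.mem_adjoin_simple_self M y))
    show actM e (σ * τ) _ = actM e σ _
    rw [actM_mul]
    congr 1
    show Affine.Point.some (W' := ((crv e)⁄Ω).toAffine) (τ x) (τ y) _ = Affine.Point.some x y hn
    simp only [hx, hy]

end Pool.Agent.H40.FS
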