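import Pool.Agent.H40.FS.DTA

set_option autoImplicit false

/-!
# [H40 FS TAU] The points of order two

`L` is a field over `K`, `2 ≠ 0`, `e` injective, `w : XX 3 2` (vectors in `(ZMod 2)^3` with sum zero: `0` and the three vectors with exactly one component `0`).  The curve `(crv e)⁄L` is `crv (algebraMap K L ∘ e)` (`WeierstrassCurve.ext`, `map_add`, .. ; to use the lemmas of `H94/MW`
state them for an arbitrary curve `W` with `W = crv e'` and `subst`).
* `tor_ns`: `(e k, 0)` is nonsingular (`H94.MW.tor_ns`).  So for `w ≠ 0` the `k` with `w k = 0` exists and is unique, `tau e L w = (e k, 0)`, and `tau 0 = 0` (the condition `w ≠ 0` fails).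
* `two_tau`: `2 • (x, 0) = 0` (`two_smul_some`).
* `tau_add`: if `w = 0`, `w' = 0` or `w = w'` (then `w + w' = 0`, `2 • tau w = 0`) clear.  Otherwise `w`, `w'` have their zeros at `i ≠ j` and `w + w'` has its zero at the third index `k`: `(e i, 0) + (e j, 0) = (e k, 0)`: slope `0`, `x = 0 - a₂ - e i - e j = e k`, `y = 0` (`add_of_X_ne`).
* `tau_inj`: `e k` determine `k` (`algebraMap` and `e` injective).
* `exists_tau`: `2 • (x, y) = 0` gives `y = 0`, so `∏ (x - e k) = 0` and `x = e k`.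
* `isT_tau`: `tau w = 0` iff `w = 0`; `IsT e k P` says `P = 0` or `x(P) = e k` (then `y = 0`).  `act_tau`: by definition (`Affine.Point.map_some`).
-/

namespace Pool.Agent.H40.FS

open WeierstrassCurve Pool.Agent.H94.MW Pool.Agent.H94.PL

variable {K : Type} [Field K] {e : Fin 3 → K} {L : Type} [Field L] [Algebra K L] [DecidableEq L]
  {L' : Type} [Field L'] [Algebra K L'] [DecidableEq L']

omit [DecidableEq L] in
private theorem tau_bc : ((crv e)⁄L) = crv (fun k => algebraMap K L (e k)) := by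
  unfold crv
  ext
  · exact map_zero _
  · show algebraMap K L _ = _
    simp only [map_neg, map_add]
  · exact map_zero _
  · show algebraMap K L _ = _
    simp only [map_add, map_mul]
  · show algebraMap K L _ = _
    simp only [map_neg, map_mul]

omit [DecidableEq L] in
private theorem tau_two (h2 : (2 : K) ≠ 0) : (2 : L) ≠ 0 := by
  have h := (map_ne_zero (algebraMap K L)).2 h2
  rwa [map_ofNat] at h

omit [DecidableEq L] in
private theorem tau_einj (he : Function.Injective e) :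
    Function.Injective (fun k => algebraMap K L (e k)) :=
  (algebraMap K L).injective.comp he

private theorem tau_gns {M : Type} [Field M] [DecidableEq M] {W : WeierstrassCurve M} {E : Fin 3 → M}
    (hW : W = crv E) (h2 : (2 : M) ≠ 0) (hE : Function.Injective E) (k : Fin 3) :
    W.toAffine.Nonsingular (E k) 0 := by
  subst hW
  exact tor_ns h2 hE k

private theorem tau_gtwo {M : Type} [Field M] [DecidableEq M] {W : WeierstrassCurve M}
    {E : Fin 3 → M} (hW : W = crv E) (h2 : (2 : M) ≠ 0) {x y : M}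
    (h : W.toAffine.Nonsingular x y) :
    2 • (Affine.Point.some x y h : W.toAffine.Point) = 0 ↔ y = 0 := by
  subst hW
  exact two_smul_some h2 h

private theorem tau_gx {M : Type} [Field M] {W : WeierstrassCurve M}
    {E : Fin 3 → M} (hW : W = crv E) (h2 : (2 : M) ≠ 0) (hE : Function.Injective E) {x : M}
    (h : W.toAffine.Nonsingular x 0) : ∃ k, x = E k := by
  subst hW
  have h1 := (nonsing_iff h2 hE x 0).1 h
  rw [zero_pow (by norm_num)] at h1
  obtain ⟨i, -, hi⟩ := Finset.prod_eq_zero_iff.1 h1.symm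
  exact ⟨i, sub_eq_zero.1 hi⟩

private theorem tau_perm : ∀ i j k : Fin 3, i ≠ j → i ≠ k → j ≠ k →
    (i = 0 ∧ j = 1 ∧ k = 2) ∨ (i = 0 ∧ j = 2 ∧ k = 1) ∨ (i = 1 ∧ j = 0 ∧ k = 2) ∨
      (i = 1 ∧ j = 2 ∧ k = 0) ∨ (i = 2 ∧ j = 0 ∧ k = 1) ∨ (i = 2 ∧ j = 1 ∧ k = 0) := by
  decide

private theorem tau_gadd {M : Type} [Field M] [DecidableEq M] {W : WeierstrassCurve M}
    {E : Fin 3 → M} (hW : W = crv E) (hE : Function.Injective E) {i j k : Fin 3}
    (hij : i ≠ j) (hik : i ≠ k) (hjk : j ≠ k) (hi : W.toAffine.Nonsingular (E i) 0)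
    (hj : W.toAffine.Nonsingular (E j) 0) (hk : W.toAffine.Nonsingular (E k) 0) :
    (Affine.Point.some (E i) 0 hi : W.toAffine.Point) + Affine.Point.some (E j) 0 hj =
      Affine.Point.some (E k) 0 hk := by
  subst hW
  have hne : E i ≠ E j := hE.ne hij
  have hsum : E 0 + E 1 + E 2 = E i + E j + E k := by
    rcases tau_perm i j k hij hik hjk with ⟨h1, h2, h3⟩ | ⟨h1, h2, h3⟩ | ⟨h1, h2, h3⟩ |
      ⟨h1, h2, h3⟩ | ⟨h1, h2, h3⟩ | ⟨h1, h2, h3⟩ <;> rw [h1, h2, h3] <;> ring
  have hs : (crv E).toAffine.slope (E i) (E j) 0 0 = 0 := by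
    rw [Affine.slope_of_X_ne hne, sub_self, zero_div]
  rw [Affine.Point.add_of_X_ne hne, Affine.Point.some.injEq]
  have hX : (crv E).toAffine.addX (E i) (E j) ((crv E).toAffine.slope (E i) (E j) 0 0) = E k := by
    rw [hs, Affine.addX]
    show 0 ^ 2 + 0 * 0 - -(E 0 + E 1 + E 2) - E i - E j = E k
    linear_combination hsum
  refine ⟨hX, ?_⟩
  rw [Affine.addY, hX, Affine.negAddY, hX, hs, Affine.negY]
  show -(0 * (E k - E i) + 0) - 0 * E k - 0 = 0
  ring

theorem ns_tor (h2 : (2 : K) ≠ 0) (he : Function.Injective e) (k : Fin 3) :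
    ((crv e)⁄L).toAffine.Nonsingular (algebraMap K L (e k)) 0 :=
  tau_gns tau_bc (tau_two h2) (tau_einj he) k

theorem tau_zero : tau e L 0 = 0 := by
  unfold tau
  rw [dif_neg]
  · rfl
  · rintro ⟨k, -, h, -⟩
    exact h rfl

private theorem tau_sum (w : XX 3 2) : ∑ k, w.1 k = 0 := w.2

private theorem tau_dec1 : ∀ w : Fin 3 → ZMod 2, ∑ k, w k = 0 → w ≠ 0 → ∀ k k' : Fin 3,
    w k = 0 → w k' = 0 → k = k' := by
  decide

private theorem tau_dec2 : ∀ w : Fin 3 → ZMod 2, ∑ k, w k = 0 → w ≠ 0 → ∃ k : Fin 3,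
    w k = 0 := by
  decide

private theorem tau_dec3 : ∀ w w' : Fin 3 → ZMod 2, ∑ k, w k = 0 → ∑ k, w' k = 0 → w ≠ 0 →
    w' ≠ 0 → w ≠ w' → ∃ i j k : Fin 3, w i = 0 ∧ w' j = 0 ∧ w k + w' k = 0 ∧ i ≠ j ∧ i ≠ k ∧
      j ≠ k := by
  decide

private theorem tau_dec4' : ∀ k : Fin 3, ∀ w w' : Fin 3 → ZMod 2, (∑ k, w k = 0 ∧
    ∑ k, w' k = 0 ∧ w ≠ 0 ∧ w' ≠ 0 ∧ w k = 0 ∧ w' k = 0) → ∀ l : Fin 3, w l = w' l := by
  decide

private theorem tau_dec4 (w w' : Fin 3 → ZMod 2) (h1 : ∑ k, w k = 0) (h2 : ∑ k, w' k = 0)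
    (h3 : w ≠ 0) (h4 : w' ≠ 0) (k : Fin 3) (h5 : w k = 0) (h6 : w' k = 0) : w = w' :=
  funext (tau_dec4' k w w' ⟨h1, h2, h3, h4, h5, h6⟩)

private theorem tau_dec5 : ∀ k : Fin 3, ∃ w : Fin 3 → ZMod 2, ∑ k, w k = 0 ∧ w ≠ 0 ∧
    w k = 0 := by
  decide

private theorem tau_val {w : XX 3 2} (hw : w ≠ 0) : w.1 ≠ 0 := fun h => hw (Subtype.ext h)

theorem tau_some (h2 : (2 : K) ≠ 0) (he : Function.Injective e) {w : XX 3 2} {k : Fin 3}
    (hw : w ≠ 0) (hk : w.1 k = 0) : tau e L w = .some _ _ (ns_tor (L := L) h2 he k) := by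
  have hex : ∃ k, w.1 k = 0 ∧ w ≠ 0 ∧
      ((crv e)⁄L).toAffine.Nonsingular (algebraMap K L (e k)) 0 := ⟨k, hk, hw, ns_tor h2 he k⟩
  have hk' : hex.choose = k :=
    tau_dec1 w.1 (tau_sum w) (tau_val hw) _ _ hex.choose_spec.1 hk
  unfold tau
  rw [dif_pos hex, Affine.Point.some.injEq]
  exact ⟨by rw [hk'], rfl⟩

theorem two_tau (h2 : (2 : K) ≠ 0) (he : Function.Injective e) (w : XX 3 2) :
    2 • tau e L w = 0 := by
  by_cases hw : w = 0
  · rw [hw, tau_zero]
    exact nsmul_zero 2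
  · obtain ⟨k, hk⟩ := tau_dec2 w.1 (tau_sum w) (tau_val hw)
    rw [tau_some h2 he hw hk]
    exact (tau_gtwo tau_bc (tau_two h2) _).2 rfl

theorem tau_add (h2 : (2 : K) ≠ 0) (he : Function.Injective e) (w w' : XX 3 2) :
    tau e L (w + w') = tau e L w + tau e L w' := by
  by_cases hw : w = 0
  · rw [hw, tau_zero, zero_add, zero_add]
  by_cases hw' : w' = 0
  · rw [hw', tau_zero, add_zero, add_zero]
  by_cases hww : w = w'
  · subst hww
    have h1 : w + w = 0 := by
      apply Subtype.ext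
      funext k
      exact CharTwo.add_self_eq_zero (w.1 k)
    rw [h1, tau_zero, ← two_nsmul, two_tau h2 he]
  · obtain ⟨i, j, k, hi, hj, hk, hij, hik, hjk⟩ := tau_dec3 w.1 w'.1 (tau_sum w) (tau_sum w')
      (tau_val hw) (tau_val hw') (fun h => hww (Subtype.ext h))
    have hne : w + w' ≠ 0 := by
      intro h
      apply hww
      apply Subtype.ext
      funext l
      have h1 : w.1 l + w'.1 l = 0 := congrFun (congrArg Subtype.val h) l
      exact CharTwo.add_eq_zero.1 h1
    have hk' : (w + w').1 k = 0 := hk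
    rw [tau_some h2 he hw hi, tau_some h2 he hw' hj, tau_some h2 he hne hk']
    exact (tau_gadd tau_bc (tau_einj he) hij hik hjk _ _ _).symm

theorem tau_inj (h2 : (2 : K) ≠ 0) (he : Function.Injective e) :
    Function.Injective (tau e L) := by
  have key : ∀ w : XX 3 2, w ≠ 0 → tau e L w ≠ 0 := by
    intro w hw
    obtain ⟨k, hk⟩ := tau_dec2 w.1 (tau_sum w) (tau_val hw)
    rw [tau_some h2 he hw hk]
    exact Affine.Point.some_ne_zero _
  intro w w' h
  by_cases hw : w = 0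
  · by_cases hw' : w' = 0
    · rw [hw, hw']
    · rw [hw, tau_zero] at h
      exact absurd h.symm (key w' hw')
  · by_cases hw' : w' = 0
    · rw [hw', tau_zero] at h
      exact absurd h (key w hw)
    · obtain ⟨k, hk⟩ := tau_dec2 w.1 (tau_sum w) (tau_val hw)
      obtain ⟨k', hk'⟩ := tau_dec2 w'.1 (tau_sum w') (tau_val hw')
      rw [tau_some h2 he hw hk, tau_some h2 he hw' hk', Affine.Point.some.injEq] at h
      have h1 : k = k' := tau_einj he h.1
      subst h1
      exact Subtype.ext (tau_dec4 w.1 w'.1 (tau_sum w) (tau_sum w') (tau_val hw) (tau_val hw')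
        k hk hk')

theorem exists_tau (h2 : (2 : K) ≠ 0) (he : Function.Injective e) {P : Pt e L}
    (h : 2 • P = 0) : ∃ w : XX 3 2, P = tau e L w := by
  cases P with
  | zero => exact ⟨0, tau_zero.symm⟩
  | some x y hxy =>
    have hy : y = 0 := (tau_gtwo tau_bc (tau_two h2) hxy).1 h
    subst hy
    obtain ⟨k, hk⟩ := tau_gx (E := fun k => algebraMap K L (e k)) tau_bc (tau_two h2)
      (tau_einj he) hxy
    obtain ⟨w, h1, h3, h4⟩ := tau_dec5 k
    refine ⟨⟨w, h1⟩, ?_⟩
    rw [tau_some (w := ⟨w, h1⟩) h2 he (fun h => h3 (congrArg Subtype.val h)) h4,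
      Affine.Point.some.injEq]
    exact ⟨hk, rfl⟩

theorem isT_tau (h2 : (2 : K) ≠ 0) (he : Function.Injective e) (w : XX 3 2) (k : Fin 3) :
    IsT e k (tau e L w) ↔ w.1 k = 0 := by
  by_cases hw : w = 0
  · rw [hw]
    exact ⟨fun _ => rfl, fun _ => Or.inl tau_zero⟩
  · constructor
    · intro h
      obtain ⟨k', hk'⟩ := tau_dec2 w.1 (tau_sum w) (tau_val hw)
      rw [tau_some h2 he hw hk'] at h
      rcases h with h | ⟨y, h3, h4⟩
      · exact absurd h (Affine.Point.some_ne_zero _)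
      · rw [Affine.Point.some.injEq] at h4
        have h1 : k' = k := tau_einj he h4.1
        rw [← h1]
        exact hk'
    · intro h
      refine Or.inr ⟨0, ns_tor h2 he k, tau_some h2 he hw h⟩

theorem act_tau (h2 : (2 : K) ≠ 0) (he : Function.Injective e) (f : L →ₐ[K] L') (w : XX 3 2) :
    act e f (tau e L w) = tau e L' w := by
  by_cases hw : w = 0
  · rw [hw, tau_zero, tau_zero]
    exact map_zero _
  · obtain ⟨k, hk⟩ := tau_dec2 w.1 (tau_sum w) (tau_val hw)
    rw [tau_some h2 he hw hk, tau_some h2 he hw hk]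
    show Affine.Point.map (W' := (crv e).toAffine) f (Affine.Point.some _ _ _) = _
    rw [Affine.Point.map_some, Affine.Point.some.injEq]
    exact ⟨f.commutes _, map_zero f⟩

end Pool.Agent.H40.FS
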