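import Pool.Agent.H40.FS.KUM
import Pool.Agent.H40.FS.TAU

set_option autoImplicit false

/-!
# [H40 FS SGX] The cocycles of triples

* `sgx_apply`: `toX_apply`; the sum is `sg σ (∏ δ k) = sg σ (y ^ 2) = 0` (`sg_mul` twice, `Fin.prod_univ_three`).
* `sgx_mul`, `sgx_comp`, `sgx_compat`: componentwise (`Subtype.ext`, `funext`).
* `sgx_cont`: a common finite extension for the three components (`sg_cont`, supremum of finite extensions is finite), `toX` of equal functions.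
* `sgx_eq_zero`: all components are zero: `sq_of_sg`.
* `exists_sgx`: the components `k = 0, 1, 2` of `f` are continuous homomorphisms: `exists_sg` gives `δ k`; `∑ f σ k = 0`, so `sg σ (∏ δ k) = 0` for all `σ` and `sq_of_sg`.
* `isCls_iff`: `2 • a σ = 0`, `a σ = tau (w σ)` (`exists_tau`), `IsT e k (tau w) ↔ w k = 0` (`isT_tau`), `sg_iff` with a root `r` (`exists_root`): `IsCls` says `(w σ) k = 0 ↔ sg σ (δ k) = 0` for all `k`, i.e. `w σ = sgx σ δ`.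
-/

namespace Pool.Agent.H40.FS

open WeierstrassCurve Pool.Agent.H94.MW Pool.Agent.H94.PL

variable {K : Type} [Field K] {Ω : Type} [Field Ω] [Algebra K Ω] [IsSepClosed Ω]

private theorem sg_prod (h2 : (2 : K) ≠ 0) {δ : Fin 3 → K} (hδ : ∀ k, δ k ≠ 0)
    (σ : Ω ≃ₐ[K] Ω) : sg σ (∏ k, δ k) = ∑ k, sg σ (δ k) := by
  rw [Fin.prod_univ_three, Fin.sum_univ_three, sg_mul h2 (mul_ne_zero (hδ 0) (hδ 1)) (hδ 2),
    sg_mul h2 (hδ 0) (hδ 1)]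

theorem sgx_apply (h2 : (2 : K) ≠ 0) {δ : Fin 3 → K} (hδ : ∀ k, δ k ≠ 0)
    (h : ∃ y, ∏ k, δ k = y ^ 2) (σ : Ω ≃ₐ[K] Ω) (k : Fin 3) : (sgx σ δ).1 k = sg σ (δ k) := by
  obtain ⟨y, hy⟩ := h
  unfold sgx
  refine toX_apply ?_ k
  rw [← sg_prod h2 hδ, hy, sg_sq]

private theorem mul_sq' {δ δ' : Fin 3 → K} (h : ∃ y, ∏ k, δ k = y ^ 2)
    (h' : ∃ y, ∏ k, δ' k = y ^ 2) : ∃ y, ∏ k, (δ * δ') k = y ^ 2 := by
  obtain ⟨y, hy⟩ := h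
  obtain ⟨y', hy'⟩ := h'
  refine ⟨y * y', ?_⟩
  simp only [Pi.mul_apply]
  rw [Finset.prod_mul_distrib, hy, hy', mul_pow]

theorem sgx_mul (h2 : (2 : K) ≠ 0) {δ δ' : Fin 3 → K} (hδ : ∀ k, δ k ≠ 0)
    (h : ∃ y, ∏ k, δ k = y ^ 2) (hδ' : ∀ k, δ' k ≠ 0) (h' : ∃ y, ∏ k, δ' k = y ^ 2)
    (σ : Ω ≃ₐ[K] Ω) : sgx σ (δ * δ') = sgx σ δ + sgx σ δ' := by
  apply Subtype.ext
  funext k
  rw [sgx_apply (δ := δ * δ') h2 (fun k => mul_ne_zero (hδ k) (hδ' k)) (mul_sq' h h')]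
  show _ = (sgx σ δ).1 k + (sgx σ δ').1 k
  rw [sgx_apply h2 hδ h, sgx_apply h2 hδ' h', Pi.mul_apply, sg_mul h2 (hδ k) (hδ' k)]

theorem sgx_one (h2 : (2 : K) ≠ 0) (σ : Ω ≃ₐ[K] Ω) : sgx σ (1 : Fin 3 → K) = 0 := by
  apply Subtype.ext
  funext k
  rw [sgx_apply (δ := 1) h2 (fun _ => one_ne_zero) ⟨1, by simp⟩]
  show sg σ (1 : K) = 0
  have h := sg_sq σ (1 : K)
  rwa [one_pow] at h

theorem sgx_comp (h2 : (2 : K) ≠ 0) {δ : Fin 3 → K} (hδ : ∀ k, δ k ≠ 0)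
    (h : ∃ y, ∏ k, δ k = y ^ 2) (σ τ : Ω ≃ₐ[K] Ω) : sgx (σ * τ) δ = sgx σ δ + sgx τ δ := by
  apply Subtype.ext
  funext k
  rw [sgx_apply h2 hδ h]
  show _ = (sgx σ δ).1 k + (sgx τ δ).1 k
  rw [sgx_apply h2 hδ h, sgx_apply h2 hδ h, sg_comp h2 (hδ k)]

theorem sgx_cont (h2 : (2 : K) ≠ 0) {δ : Fin 3 → K} (hδ : ∀ k, δ k ≠ 0) :
    IsCont K (fun σ : Ω ≃ₐ[K] Ω => sgx σ δ) := by
  choose M hM hMf using fun k => sg_cont (Ω := Ω) h2 (hδ k)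
  have _ := hM 0
  have _ := hM 1
  have _ := hM 2
  refine ⟨M 0 ⊔ M 1 ⊔ M 2, inferInstance, ?_⟩
  intro σ τ h
  show toX (fun k => sg (σ * τ) (δ k)) = toX fun k => sg σ (δ k)
  apply congrArg toX
  funext k
  apply hMf k σ τ
  intro x hx
  apply h
  match k, hx with
  | 0, hx => exact (le_sup_left (a := M 0 ⊔ M 1) (b := M 2)) ((le_sup_left (a := M 0) (b := M 1)) hx)
  | 1, hx => exact (le_sup_left (a := M 0 ⊔ M 1) (b := M 2)) ((le_sup_right (a := M 0) (b := M 1)) hx)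
  | 2, hx => exact (le_sup_right (a := M 0 ⊔ M 1) (b := M 2)) hx

theorem sgx_compat (h2 : (2 : K) ≠ 0) {M : Type} [Field M] [Algebra K M]
    {Ω' : Type} [Field Ω'] [Algebra M Ω'] [Algebra K Ω'] [IsScalarTower K M Ω'] [IsSepClosed Ω']
    {δ : Fin 3 → K} (hδ : ∀ k, δ k ≠ 0) (ι : Ω →ₐ[K] Ω') {τ : Ω' ≃ₐ[M] Ω'} {σ : Ω ≃ₐ[K] Ω}
    (h : ∀ x, ι (σ x) = τ (ι x)) : sgx τ (fun k => algebraMap K M (δ k)) = sgx σ δ := by
  show toX (fun k => sg τ (algebraMap K M (δ k))) = toX fun k => sg σ (δ k)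
  exact congrArg toX (funext fun k => sg_compat h2 (hδ k) ι h)

theorem sgx_eq_zero [IsGalois K Ω] (h2 : (2 : K) ≠ 0) {δ : Fin 3 → K} (hδ : ∀ k, δ k ≠ 0)
    (hp : ∃ y, ∏ k, δ k = y ^ 2) (h : ∀ σ : Ω ≃ₐ[K] Ω, sgx σ δ = 0) (k : Fin 3) :
    ∃ y : K, y ≠ 0 ∧ δ k = y ^ 2 := by
  apply sq_of_sg (Ω := Ω) h2 (hδ k)
  intro σ
  rw [← sgx_apply h2 hδ hp, h σ]
  rfl

theorem exists_sgx [IsGalois K Ω] (h2 : (2 : K) ≠ 0) (f : (Ω ≃ₐ[K] Ω) → XX 3 2)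
    (hf : ∀ σ τ, f (σ * τ) = f σ + f τ) (hc : IsCont K f) :
    ∃ δ : Fin 3 → K, (∀ k, δ k ≠ 0) ∧ (∃ y, ∏ k, δ k = y ^ 2) ∧ ∀ σ, f σ = sgx σ δ := by
  have h1 : ∀ k : Fin 3, ∃ g : K, g ≠ 0 ∧ ∀ σ, (f σ).1 k = sg σ g := by
    intro k
    apply exists_sg h2 (fun σ => (f σ).1 k)
    · intro σ τ
      show (f (σ * τ)).1 k = _
      rw [hf]
      rfl
    · obtain ⟨M, hM, hMf⟩ := hc
      refine ⟨M, hM, fun σ τ h => ?_⟩
      show (f (σ * τ)).1 k = (f σ).1 k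
      rw [hMf σ τ h]
  choose δ hδ hδf using h1
  have hp : ∃ y, ∏ k, δ k = y ^ 2 := by
    obtain ⟨y, -, hy⟩ := sq_of_sg (Ω := Ω) h2 (Finset.prod_ne_zero_iff.2 fun k _ => hδ k)
      (fun σ => by
        rw [sg_prod h2 hδ, ← XX_sum (f σ)]
        exact Finset.sum_congr rfl fun k _ => (hδf k σ).symm)
    exact ⟨y, hy⟩
  refine ⟨δ, hδ, hp, fun σ => ?_⟩
  apply Subtype.ext
  funext k
  rw [sgx_apply h2 hδ hp]
  exact hδf k σ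

theorem isCls_iff [DecidableEq Ω] {e : Fin 3 → K} (h2 : (2 : K) ≠ 0)
    (he : Function.Injective e) {δ : Fin 3 → K} (hδ : ∀ k, δ k ≠ 0) (h : ∃ y, ∏ k, δ k = y ^ 2)
    {a : (Ω ≃ₐ[K] Ω) → Pt e Ω} (ha : ∀ σ, 2 • a σ = 0) :
    IsCls δ a ↔ ∀ σ, a σ = tau e Ω (sgx σ δ) := by
  have z2 : ∀ a b : ZMod 2, (a = 0 ↔ b = 0) → a = b := by decide
  constructor
  · intro hc σ
    obtain ⟨w, hw⟩ := exists_tau h2 he (ha σ)
    rw [hw]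
    congr 1
    apply Subtype.ext
    funext k
    obtain ⟨r, hr⟩ := exists_root (Ω := Ω) h2 (algebraMap K Ω (δ k))
    rw [sgx_apply h2 hδ h]
    apply z2
    rw [← sg_iff h2 (hδ k) σ hr, hc σ k r hr, hw, isT_tau h2 he]
  · intro hc σ k r hr
    rw [hc σ, isT_tau h2 he, sgx_apply h2 hδ h, sg_iff h2 (hδ k) σ hr]

end Pool.Agent.H40.FS
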