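import Pool.Agent.H40.FS.PSI
import Pool.Agent.H40.FS.SGX
import Pool.Agent.H40.FS.FIX

set_option autoImplicit false

/-!
# [H40 FS COC] Cocycles: differences, sums, rational points

* `two_eq`: `IsCoc a`, `IsCls x (2 a)`: `2 • (2 • a σ) = 0`, so `2 • a σ = tau (sgx σ x)` by `isCls_iff`.
* `coc_dif`: `a' σ - a σ` is killed by `2`, so `= tau (w σ)` (`exists_tau`); it is a cocycle and `σ` acts trivially on `tau` (`act_tau`), so `w (σ τ) = w σ + w τ` (`tau_add`, `tau_inj`), continuous (common finite extension), `exists_sgx`.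
* `coc_add`: `a + a'` (`G` acts by homomorphisms); the class: `2 (a + a') = tau (sgx x) + tau (sgx x') = tau (sgx (x x'))` (`isCls_iff`, `sgx_mul`).
* `coc_tau`: `a + tau (sgx h)`: `4 tau = 0`, `sgx_comp`, `sgx_cont`; `2 tau = 0`.
* `coc_pt`: `a σ = σ Z - Z`: cocycle identity clear, `4 (σ Z - Z) = σ (4 Z) - 4 Z = 0` as `4 Z` comes from `K`; continuous by `pt_cont`; `2 a σ = σ (2 Z) - 2 Z` and `2 Z` satisfies the hypothesis `hx` (`isCls_iff`).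
-/

namespace Pool.Agent.H40.FS

open WeierstrassCurve Pool.Agent.H94.MW Pool.Agent.H94.PL

variable {K : Type} [Field K] {e e' : Fin 3 → K} {Ω : Type} [Field Ω] [Algebra K Ω]
  [DecidableEq Ω] [IsSepClosed Ω]

theorem two_eq (h2 : (2 : K) ≠ 0) (he : Function.Injective e) {x : Fin 3 → K}
    (hx : ∀ k, x k ≠ 0) (hp : ∃ y, ∏ k, x k = y ^ 2) {a : (Ω ≃ₐ[K] Ω) → Pt e Ω} (ha : IsCoc a)
    (hax : IsCls x fun σ => 2 • a σ) (σ : Ω ≃ₐ[K] Ω) : 2 • a σ = tau e Ω (sgx σ x) := by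
  have h4 : ∀ σ, 2 • (2 • a σ) = 0 := fun σ => by
    rw [← mul_smul]
    exact ha.four σ
  exact (isCls_iff h2 he hx hp h4).1 hax σ

private theorem mul_sq' {δ δ' : Fin 3 → K} (h : ∃ y, ∏ k, δ k = y ^ 2)
    (h' : ∃ y, ∏ k, δ' k = y ^ 2) : ∃ y, ∏ k, (δ * δ') k = y ^ 2 := by
  obtain ⟨y, hy⟩ := h
  obtain ⟨y', hy'⟩ := h'
  refine ⟨y * y', ?_⟩
  simp only [Pi.mul_apply]
  rw [Finset.prod_mul_distrib, hy, hy', mul_pow]

theorem coc_dif [IsGalois K Ω] (h2 : (2 : K) ≠ 0) (he : Function.Injective e) {x : Fin 3 → K}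
    (hx : ∀ k, x k ≠ 0) (hp : ∃ y, ∏ k, x k = y ^ 2) {a a' : (Ω ≃ₐ[K] Ω) → Pt e Ω}
    (ha : IsCoc a) (hax : IsCls x fun σ => 2 • a σ) (ha' : IsCoc a')
    (hax' : IsCls x fun σ => 2 • a' σ) :
    ∃ h : Fin 3 → K, (∀ k, h k ≠ 0) ∧ (∃ y, ∏ k, h k = y ^ 2) ∧
      ∀ σ, a' σ = a σ + tau e Ω (sgx σ h) := by
  have h1 : ∀ σ, ∃ w : XX 3 2, a' σ - a σ = tau e Ω w := by
    intro σ
    apply exists_tau h2 he
    rw [smul_sub, two_eq h2 he hx hp ha hax, two_eq h2 he hx hp ha' hax', sub_self]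
  choose w hw using h1
  have h3 : ∀ σ τ, w (σ * τ) = w σ + w τ := by
    intro σ τ
    apply tau_inj (L := Ω) h2 he
    rw [tau_add h2 he, ← hw, ← hw, ← act_tau h2 he (σ : Ω →ₐ[K] Ω) (w τ), ← hw, ha.coc, ha'.coc,
      map_sub]
    abel
  have h4 : IsCont K w := by
    obtain ⟨M, hM, hMf⟩ := ha.cont
    obtain ⟨M', hM', hMf'⟩ := ha'.cont
    refine ⟨M ⊔ M', inferInstance, fun σ τ h => ?_⟩
    apply tau_inj (L := Ω) h2 he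
    rw [← hw, ← hw, hMf σ τ fun x hx => h x (le_sup_left (a := M) (b := M') hx),
      hMf' σ τ fun x hx => h x (le_sup_right (a := M) (b := M') hx)]
  obtain ⟨g, hg, hgp, hgf⟩ := exists_sgx h2 w h3 h4
  refine ⟨g, hg, hgp, fun σ => ?_⟩
  rw [← hgf, ← hw]
  abel

theorem coc_add (h2 : (2 : K) ≠ 0) (he : Function.Injective e) {x x' : Fin 3 → K}
    (hx : ∀ k, x k ≠ 0) (hp : ∃ y, ∏ k, x k = y ^ 2) (hx' : ∀ k, x' k ≠ 0)
    (hp' : ∃ y, ∏ k, x' k = y ^ 2) {a a' : (Ω ≃ₐ[K] Ω) → Pt e Ω}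
    (ha : IsCoc a) (hax : IsCls x fun σ => 2 • a σ) (ha' : IsCoc a')
    (hax' : IsCls x' fun σ => 2 • a' σ) :
    IsCoc (fun σ => a σ + a' σ) ∧ IsCls (x * x') fun σ => 2 • (a σ + a' σ) := by
  refine ⟨⟨fun σ => ?_, fun σ τ => ?_, ?_⟩, ?_⟩
  · show 4 • (a σ + a' σ) = 0
    rw [smul_add, ha.four, ha'.four, add_zero]
  · show a (σ * τ) + a' (σ * τ) = a σ + a' σ + act e (σ : Ω →ₐ[K] Ω) (a τ + a' τ)
    rw [ha.coc, ha'.coc, map_add]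
    abel
  · obtain ⟨M, hM, hMf⟩ := ha.cont
    obtain ⟨M', hM', hMf'⟩ := ha'.cont
    refine ⟨M ⊔ M', inferInstance, fun σ τ h => ?_⟩
    show a (σ * τ) + a' (σ * τ) = a σ + a' σ
    rw [hMf σ τ fun x hx => h x (le_sup_left (a := M) (b := M') hx),
      hMf' σ τ fun x hx => h x (le_sup_right (a := M) (b := M') hx)]
  · have h5 : ∀ σ, 2 • (a σ + a' σ) = tau e Ω (sgx σ (x * x')) := by
      intro σ
      rw [smul_add, two_eq h2 he hx hp ha hax, two_eq h2 he hx' hp' ha' hax', ← tau_add h2 he,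
        sgx_mul h2 hx hp hx' hp']
    rw [isCls_iff (δ := x * x') (a := fun σ => 2 • (a σ + a' σ)) h2 he
      (fun k => mul_ne_zero (hx k) (hx' k)) (mul_sq' hp hp')]
    · exact h5
    · intro σ
      rw [h5, two_tau h2 he]

theorem coc_tau (h2 : (2 : K) ≠ 0) (he : Function.Injective e) {x h : Fin 3 → K}
    (hx : ∀ k, x k ≠ 0) (hp : ∃ y, ∏ k, x k = y ^ 2) (hh : ∀ k, h k ≠ 0)
    (hhp : ∃ y, ∏ k, h k = y ^ 2) {a : (Ω ≃ₐ[K] Ω) → Pt e Ω} (ha : IsCoc a)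
    (hax : IsCls x fun σ => 2 • a σ) :
    IsCoc (fun σ => a σ + tau e Ω (sgx σ h)) ∧
      IsCls x fun σ => 2 • (a σ + tau e Ω (sgx σ h)) := by
  have _ := hx
  have _ := hp
  refine ⟨⟨fun σ => ?_, fun σ τ => ?_, ?_⟩, ?_⟩
  · show 4 • (a σ + tau e Ω (sgx σ h)) = 0
    have h4 : 4 • tau e Ω (sgx σ h) = 2 • (2 • tau e Ω (sgx σ h)) := by
      rw [← mul_smul]
      rfl
    rw [smul_add, ha.four, h4, two_tau h2 he, smul_zero, add_zero]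
  · show a (σ * τ) + tau e Ω (sgx (σ * τ) h) =
      a σ + tau e Ω (sgx σ h) + act e (σ : Ω →ₐ[K] Ω) (a τ + tau e Ω (sgx τ h))
    rw [ha.coc, sgx_comp h2 hh hhp, tau_add h2 he, map_add, act_tau h2 he]
    abel
  · obtain ⟨M, hM, hMf⟩ := ha.cont
    obtain ⟨M', hM', hMf'⟩ := sgx_cont (Ω := Ω) h2 hh
    refine ⟨M ⊔ M', inferInstance, fun σ τ h' => ?_⟩
    show a (σ * τ) + tau e Ω (sgx (σ * τ) h) = a σ + tau e Ω (sgx σ h)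
    have h5 : sgx (σ * τ) h = sgx σ h :=
      hMf' σ τ fun x hx => h' x (le_sup_right (a := M) (b := M') hx)
    rw [hMf σ τ fun x hx => h' x (le_sup_left (a := M) (b := M') hx), h5]
  · have h5 : (fun σ => 2 • (a σ + tau e Ω (sgx σ h))) = fun σ => 2 • a σ := by
      funext σ
      rw [smul_add, two_tau h2 he, add_zero]
    rw [h5]
    exact hax

theorem coc_pt [IsGalois K Ω] [DecidableEq K] (h2 : (2 : K) ≠ 0) (he : Function.Injective e) {x : Fin 3 → K}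
    (hx : ∀ k, x k ≠ 0) (hp : ∃ y, ∏ k, x k = y ^ 2) {Z : Pt e Ω}
    (hZ : ∀ σ : Ω ≃ₐ[K] Ω, act e (σ : Ω →ₐ[K] Ω) (2 • Z) = 2 • Z + tau e Ω (sgx σ x)) :
    IsCoc (fun σ : Ω ≃ₐ[K] Ω => act e (σ : Ω →ₐ[K] Ω) Z - Z) ∧
      IsCls x fun σ : Ω ≃ₐ[K] Ω => 2 • (act e (σ : Ω →ₐ[K] Ω) Z - Z) := by
  have h5 : ∀ σ : Ω ≃ₐ[K] Ω, 2 • (act e (σ : Ω →ₐ[K] Ω) Z - Z) = tau e Ω (sgx σ x) := by
    intro σ
    rw [smul_sub, ← map_nsmul, hZ]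
    abel
  refine ⟨⟨fun σ => ?_, fun σ τ => ?_, ?_⟩, ?_⟩
  · show 4 • (act e (σ : Ω →ₐ[K] Ω) Z - Z) = 0
    have h4 : 4 • (act e (σ : Ω →ₐ[K] Ω) Z - Z) = 2 • (2 • (act e (σ : Ω →ₐ[K] Ω) Z - Z)) := by
      rw [← mul_smul]
      rfl
    rw [h4, h5, two_tau h2 he]
  · show act e ((σ * τ : Ω ≃ₐ[K] Ω) : Ω →ₐ[K] Ω) Z - Z =
      act e (σ : Ω →ₐ[K] Ω) Z - Z + act e (σ : Ω →ₐ[K] Ω) (act e (τ : Ω →ₐ[K] Ω) Z - Z)
    have h6 : act e ((σ * τ : Ω ≃ₐ[K] Ω) : Ω →ₐ[K] Ω) Z =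
        act e (σ : Ω →ₐ[K] Ω) (act e (τ : Ω →ₐ[K] Ω) Z) := actM_mul σ τ Z
    rw [h6, map_sub]
    abel
  · obtain ⟨M, hM, hMf⟩ := pt_cont (K := K) (M := K) Z
    refine ⟨M, hM, fun σ τ h => ?_⟩
    have h7 : act e ((σ * τ : Ω ≃ₐ[K] Ω) : Ω →ₐ[K] Ω) Z = act e (σ : Ω →ₐ[K] Ω) Z := hMf σ τ h
    show act e ((σ * τ : Ω ≃ₐ[K] Ω) : Ω →ₐ[K] Ω) Z - Z = _
    rw [h7]
  · rw [isCls_iff (a := fun σ : Ω ≃ₐ[K] Ω => 2 • (act e (σ : Ω →ₐ[K] Ω) Z - Z)) h2 he hx hp]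
    · exact h5
    · intro σ
      rw [h5, two_tau h2 he]

end Pool.Agent.H40.FS
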