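import Pool.Agent.H40.FS.SGX
import Pool.Agent.H94.MW.Hlv

set_option autoImplicit false

/-!
# [H40 FS HSG] Half points and their cocycles

The curve `(crv e)⁄Ω` is `crv (algebraMap K Ω ∘ e)` (see TAU); write `e k` for the images in `M` and `Ω`.  For `ρ : Fin 3 → Ω` with `ρ k ^ 2 = x - e k` let `H(ρ) = (x + ρ₀ρ₁ + ρ₀ρ₂ + ρ₁ρ₂, (ρ₀+ρ₁)(ρ₀+ρ₂)(ρ₁+ρ₂))`; `H(ρ)` is a point and `2 H(ρ) = (x, ρ₀ρ₁ρ₂)` (computation in the header and the proof of `H94.MW.hlv_aux`; the sums `ρ_i + ρ_j` are not zero as `e` is injective).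
* `exists_half`: `Q = (x, y)`: choose `ρ k` (`exists_root`), `(ρ₀ρ₁ρ₂)² = y²`, change the sign of `ρ₀` if needed: `ρ₀ρ₁ρ₂ = y`, `Z = H(ρ)`.  `Q = 0`: `Z = 0`.
* `half_gen`: (a) if `ρ' = (ρ₀, -ρ₁, -ρ₂)` then `H(ρ') = H(ρ) + (e 0, 0)` (and the same with `0` replaced by `1`, `2`): `x(P + T₀) = e 0 + (e 0 - e 1)(e 0 - e 2)/(x_P - e 0)` with `x_P - e 0 = (ρ₀+ρ₁)(ρ₀+ρ₂)`, `e 0 - e i = ρ_i² - ρ₀²`, so `x(P + T₀) = e 0 + (ρ₁-ρ₀)(ρ₂-ρ₀) = x - ρ₀ρ₁ - ρ₀ρ₂ + ρ₁ρ₂`;
  `y(P + T₀) = - y_P (e 0 - e 1)(e 0 - e 2)/(x_P - e 0)² = -(ρ₁+ρ₂)(ρ₁-ρ₀)(ρ₂-ρ₀)` (`add_of_X_ne`, slope `y_P/(x_P - e 0)`).  So for signs `ε` with product `1`, `H(ε ρ) = H(ρ) + tau w` where `w k = 0` iff `ε k = 1`.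
  (b) `2 (Z - H(ρ)) = 0`, so `Z = H(ρ) + tau w₀` (`exists_tau`).  `τ H(ρ) = H(τ ρ)` (`x`, `e k ∈ M` are fixed), `τ (ρ k) = ε k ρ k` with `ε k = 1` if `sg τ (δ k) = 0` and `ε k = -1` otherwise (for `ρ k ≠ 0` by `hs` and `(τ ρ k)² = (ρ k)²`, for `ρ k = 0` trivially).  The product of the `ε k` is one since `∑ sg τ (δ k) = 0` (`sgx_apply`, `XX_sum`).  So `τ Z = H(ρ) + tau (sgx τ δ) + tau w₀`
  (`act_tau`).
* `half_sg`: `half_gen` with `δ k = x - e k`, which is not zero (`y² = ∏ (x - e k) ≠ 0`), `sg_iff`.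
* `half_tor`: `x = e j`, `y = 0`, `δ = kt`: for `k ≠ j` `δ k = e j - e k`, `ρ j = 0`.
-/

namespace Pool.Agent.H40.FS

open WeierstrassCurve Pool.Agent.H94.MW Pool.Agent.H94.PL

/-- the class of the point `(e j, 0)` -/
def kt {M : Type} [Field M] (e : Fin 3 → M) (j : Fin 3) : Fin 3 → M := fun k =>
  if k = j then ∏ i ∈ Finset.univ.erase j, (e j - e i) else e j - e k

section gen
variable {F : Type} [Field F] [DecidableEq F]

private theorem dbl_gen (W : WeierstrassCurve F) (h2 : (2 : F) ≠ 0) {x a b c : F}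
    (h1 : W.a₁ = 0) (h3 : W.a₃ = 0) (ha2 : W.a₂ = -((x - a ^ 2) + (x - b ^ 2) + (x - c ^ 2)))
    (ha4 : W.a₄ = (x - a ^ 2) * (x - b ^ 2) + (x - a ^ 2) * (x - c ^ 2) + (x - b ^ 2) * (x - c ^ 2))
    (hab : a + b ≠ 0) (hac : a + c ≠ 0) (hbc : b + c ≠ 0) {X Y y : F}
    (hX : X = x + a * b + a * c + b * c) (hY : Y = (a + b) * (a + c) * (b + c))
    (hy : y = a * b * c) (hns : W.toAffine.Nonsingular X Y) (h : W.toAffine.Nonsingular x y) :
    2 • (Affine.Point.some X Y hns) = Affine.Point.some x y h := by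
  have hY0 : Y ≠ 0 := by
    rw [hY]
    exact mul_ne_zero (mul_ne_zero hab hac) hbc
  have hneg : W.toAffine.negY X Y = -Y := by
    rw [Affine.negY, h1, h3]
    ring
  have hyne : Y ≠ W.toAffine.negY X Y := by
    rw [hneg]
    intro hh
    have h4 : 2 * Y = 0 := by linear_combination hh
    exact (mul_ne_zero h2 hY0) h4
  have hsl : W.toAffine.slope X X Y Y = a + b + c := by
    rw [Affine.slope_of_Y_ne rfl hyne, hneg]
    have h4 : Y - -Y ≠ 0 := by
      rw [sub_neg_eq_add, ← two_mul]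
      exact mul_ne_zero h2 hY0
    rw [div_eq_iff h4, h1, ha2, ha4, hX, hY]
    ring
  rw [two_nsmul, Affine.Point.add_self_of_Y_ne hyne, Affine.Point.some.injEq]
  constructor
  · rw [hsl, Affine.addX, h1, ha2, hX]
    ring
  · rw [hsl, Affine.addY, Affine.negAddY, Affine.negY, Affine.addX, h1, h3, ha2, hX, hY, hy]
    ring

private theorem add_gen (W : WeierstrassCurve F) {x a b c : F}
    (h1 : W.a₁ = 0) (h3 : W.a₃ = 0) (ha2 : W.a₂ = -((x - a ^ 2) + (x - b ^ 2) + (x - c ^ 2)))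
    (hab : a + b ≠ 0) (hac : a + c ≠ 0) {X Y E X' Y' : F}
    (hX : X = x + a * b + a * c + b * c) (hY : Y = (a + b) * (a + c) * (b + c))
    (hE : E = x - a ^ 2) (hX' : X' = x - a * b - a * c + b * c)
    (hY' : Y' = -((a - b) * (a - c) * (b + c))) (hns : W.toAffine.Nonsingular X Y)
    (hns2 : W.toAffine.Nonsingular E 0) (hns3 : W.toAffine.Nonsingular X' Y') :
    (Affine.Point.some X Y hns) + Affine.Point.some E 0 hns2 = Affine.Point.some X' Y' hns3 := by
  have hne0 : X - E ≠ 0 := by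
    have : X - E = (a + b) * (a + c) := by
      rw [hX, hE]
      ring
    rw [this]
    exact mul_ne_zero hab hac
  have hne : X ≠ E := fun hh => hne0 (by rw [hh, sub_self])
  have hsl : W.toAffine.slope X E Y 0 = b + c := by
    rw [Affine.slope_of_X_ne hne, div_eq_iff hne0, hX, hY, hE]
    ring
  rw [Affine.Point.add_of_X_ne hne, Affine.Point.some.injEq]
  constructor
  · rw [hsl, Affine.addX, h1, ha2, hX, hE, hX']
    ring
  · rw [hsl, Affine.addY, Affine.negAddY, Affine.negY, Affine.addX, h1, h3, ha2, hX, hY, hE, hY']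
    ring

end gen

variable {K : Type} [Field K] {e : Fin 3 → K} {M : Type} [Field M] [Algebra K M] [DecidableEq M]
  {Ω : Type} [Field Ω] [Algebra M Ω] [Algebra K Ω] [IsScalarTower K M Ω] [DecidableEq Ω]
  [IsSepClosed Ω]

section half
variable {L : Type} [Field L] [Algebra K L] [DecidableEq L]

omit [DecidableEq L] in
private theorem bc_eq : ((crv e)⁄L) = crv (fun k => algebraMap K L (e k)) := by
  unfold crv
  ext <;> simp [WeierstrassCurve.map, WeierstrassCurve.baseChange]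

omit [DecidableEq L] in
private theorem two_ne (h2 : (2 : K) ≠ 0) : (2 : L) ≠ 0 := by
  have h := (map_ne_zero (algebraMap K L)).2 h2
  rwa [map_ofNat] at h

omit [DecidableEq L] in
private theorem inj_L (he : Function.Injective e) :
    Function.Injective (fun k => algebraMap K L (e k)) :=
  fun _ _ h => he ((algebraMap K L).injective h)

omit [DecidableEq L] in
private theorem ns_iff (h2 : (2 : K) ≠ 0) (he : Function.Injective e) (x y : L) :
    ((crv e)⁄L).toAffine.Nonsingular x y ↔ y ^ 2 = ∏ k, (x - algebraMap K L (e k)) := by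
  rw [bc_eq]
  exact nonsing_iff (two_ne h2) (inj_L he) x y

omit [DecidableEq L] in
private theorem sums_ne (he : Function.Injective e) {x : L} {ρ : Fin 3 → L}
    (hρ : ∀ k, ρ k ^ 2 = x - algebraMap K L (e k)) {i j : Fin 3} (hij : i ≠ j) :
    ρ i + ρ j ≠ 0 := by
  intro hh
  have h1 := hρ i
  have h2 := hρ j
  have h3 : algebraMap K L (e i) = algebraMap K L (e j) := by
    linear_combination h1 - h2 - (ρ i - ρ j) * hh
  exact (inj_L (L := L) he).ne hij h3

omit [DecidableEq L] in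
private theorem hp_ns (h2 : (2 : K) ≠ 0) (he : Function.Injective e) {x : L} {ρ : Fin 3 → L}
    (hρ : ∀ k, ρ k ^ 2 = x - algebraMap K L (e k)) :
    ((crv e)⁄L).toAffine.Nonsingular (x + ρ 0 * ρ 1 + ρ 0 * ρ 2 + ρ 1 * ρ 2)
      ((ρ 0 + ρ 1) * (ρ 0 + ρ 2) * (ρ 1 + ρ 2)) := by
  rw [ns_iff h2 he, Fin.prod_univ_three]
  have h0 : algebraMap K L (e 0) = x - ρ 0 ^ 2 := by rw [hρ 0]; ring
  have h1 : algebraMap K L (e 1) = x - ρ 1 ^ 2 := by rw [hρ 1]; ring
  have h3 : algebraMap K L (e 2) = x - ρ 2 ^ 2 := by rw [hρ 2]; ring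
  rw [h0, h1, h3]
  ring

/-- the half point of a triple of roots -/
private noncomputable def HP (h2 : (2 : K) ≠ 0) (he : Function.Injective e) {x : L} {ρ : Fin 3 → L}
    (hρ : ∀ k, ρ k ^ 2 = x - algebraMap K L (e k)) : Pt e L := .some _ _ (hp_ns h2 he hρ)

private theorem hp_dbl (h2 : (2 : K) ≠ 0) (he : Function.Injective e) {x y : L} {ρ : Fin 3 → L}
    (hρ : ∀ k, ρ k ^ 2 = x - algebraMap K L (e k)) (h : ((crv e)⁄L).toAffine.Nonsingular x y)
    (hy : ρ 0 * ρ 1 * ρ 2 = y) : 2 • HP h2 he hρ = .some x y h := by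
  have h0 : algebraMap K L (e 0) = x - ρ 0 ^ 2 := by rw [hρ 0]; ring
  have h1 : algebraMap K L (e 1) = x - ρ 1 ^ 2 := by rw [hρ 1]; ring
  have h3 : algebraMap K L (e 2) = x - ρ 2 ^ 2 := by rw [hρ 2]; ring
  refine dbl_gen ((crv e)⁄L) (two_ne h2) ?_ ?_ ?_ ?_ (sums_ne he hρ (by decide))
    (sums_ne he hρ (by decide)) (sums_ne he hρ (by decide)) rfl rfl hy.symm _ h
  · rw [bc_eq]; rfl
  · rw [bc_eq]; rfl
  · rw [bc_eq, ← h0, ← h1, ← h3]; rfl
  · rw [bc_eq, ← h0, ← h1, ← h3]; rfl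

end half

omit [DecidableEq M] [Algebra K M] [Algebra M Ω] [IsScalarTower K M Ω] [Field M] in
theorem exists_half (h2 : (2 : K) ≠ 0) (he : Function.Injective e) (Q : Pt e Ω) :
    ∃ Z : Pt e Ω, 2 • Z = Q := by
  cases Q with
  | zero => exact ⟨0, by rw [smul_zero]; rfl⟩
  | some x y h =>
    have hr : ∀ k : Fin 3, ∃ r : Ω, r ^ 2 = x - algebraMap K Ω (e k) := fun k => exists_root h2 _
    choose ρ hρ using hr
    have h1 := (ns_iff h2 he x y).1 h
    rw [Fin.prod_univ_three, ← hρ, ← hρ, ← hρ] at h1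
    have h3 : (y - ρ 0 * ρ 1 * ρ 2) * (y + ρ 0 * ρ 1 * ρ 2) = 0 := by linear_combination h1
    rcases mul_eq_zero.1 h3 with h4 | h4
    · exact ⟨HP h2 he hρ, hp_dbl h2 he hρ h (by linear_combination -h4)⟩
    · have hρ' : ∀ k : Fin 3, (Function.update ρ 0 (-ρ 0)) k ^ 2 = x - algebraMap K Ω (e k) := by
        intro k
        by_cases hk : k = 0
        · subst hk
          rw [Function.update_self, neg_sq]
          exact hρ 0
        · rw [Function.update_of_ne hk]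
          exact hρ k
      refine ⟨HP h2 he hρ', hp_dbl h2 he hρ' h ?_⟩
      rw [Function.update_self, Function.update_of_ne (by decide), Function.update_of_ne (by decide)]
      linear_combination -h4

private theorem z2_cases (a : ZMod 2) : a = 0 ∨ a = 1 := by
  revert a
  decide

omit [DecidableEq M] [Algebra K M] [IsScalarTower K M Ω] [DecidableEq Ω] [IsSepClosed Ω]
  [Algebra K Ω] in
private theorem sgn_cases {x' : Fin 3 → M} {ρ : Fin 3 → Ω}
    (hρ : ∀ k, ρ k ^ 2 = algebraMap M Ω (x' k)) {s : Fin 3 → ZMod 2} (τ : Ω ≃ₐ[M] Ω)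
    (hs : ∀ k, ρ k ≠ 0 → (τ (ρ k) = ρ k ↔ s k = 0)) (k : Fin 3) :
    (s k = 0 ∧ τ (ρ k) = ρ k) ∨ (s k = 1 ∧ τ (ρ k) = -ρ k) := by
  by_cases h0 : ρ k = 0
  · rcases z2_cases (s k) with h | h
    · exact Or.inl ⟨h, by rw [h0, map_zero]⟩
    · exact Or.inr ⟨h, by rw [h0, map_zero, neg_zero]⟩
  · by_cases h1 : τ (ρ k) = ρ k
    · exact Or.inl ⟨(hs k h0).1 h1, h1⟩
    · have h2 : s k ≠ 0 := fun h => h1 ((hs k h0).2 h)
      have h3 : s k = 1 := (z2_cases (s k)).resolve_left h2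
      refine Or.inr ⟨h3, ?_⟩
      have h4 : τ (ρ k) ^ 2 = ρ k ^ 2 := by
        rw [← map_pow, hρ k, τ.commutes]
      rcases sq_eq_sq_iff_eq_or_eq_neg.1 h4 with h5 | h5
      · exact absurd h5 h1
      · exact h5

theorem half_gen (h2 : (2 : K) ≠ 0) (he : Function.Injective e) {x y : M}
    (h : ((crv e)⁄M).toAffine.Nonsingular x y) {ρ : Fin 3 → Ω}
    (hρ : ∀ k, ρ k ^ 2 = algebraMap M Ω (x - algebraMap K M (e k)))
    (hy : ρ 0 * ρ 1 * ρ 2 = algebraMap M Ω y) {δ : Fin 3 → M} (hδ : ∀ k, δ k ≠ 0)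
    (hp : ∃ z, ∏ k, δ k = z ^ 2)
    (hs : ∀ (τ : Ω ≃ₐ[M] Ω) (k : Fin 3), ρ k ≠ 0 → (τ (ρ k) = ρ k ↔ sg τ (δ k) = 0)) {Z : Pt e Ω}
    (hZ : 2 • Z = act e (IsScalarTower.toAlgHom K M Ω) (.some x y h)) (τ : Ω ≃ₐ[M] Ω) :
    actM e τ Z = Z + tau e Ω (sgx τ δ) := by
  have h2M : (2 : M) ≠ 0 := two_ne h2
  have hρ' : ∀ k, ρ k ^ 2 = algebraMap M Ω x - algebraMap K Ω (e k) := by
    intro k
    rw [hρ k, map_sub, ← IsScalarTower.algebraMap_apply]
  obtain ⟨hns, hQ⟩ : ∃ hns : ((crv e)⁄Ω).toAffine.Nonsingular (algebraMap M Ω x) (algebraMap M Ω y),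
      act e (IsScalarTower.toAlgHom K M Ω) (.some x y h) = .some _ _ hns := ⟨_, rfl⟩
  have hH := hp_dbl h2 he hρ' hns hy
  have h20 : 2 • (Z - HP h2 he hρ') = 0 := by
    rw [nsmul_sub, hZ, hQ, hH, sub_self]
  obtain ⟨w₀, hw₀⟩ := exists_tau h2 he h20
  have hZH : Z = HP h2 he hρ' + tau e Ω w₀ := by
    rw [← hw₀]
    abel
  have key : actM e τ (HP h2 he hρ') = HP h2 he hρ' + tau e Ω (sgx τ δ) := by
    have h0 : algebraMap K Ω (e 0) = algebraMap M Ω x - ρ 0 ^ 2 := by rw [hρ' 0]; ring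
    have h1 : algebraMap K Ω (e 1) = algebraMap M Ω x - ρ 1 ^ 2 := by rw [hρ' 1]; ring
    have h3 : algebraMap K Ω (e 2) = algebraMap M Ω x - ρ 2 ^ 2 := by rw [hρ' 2]; ring
    have ha1 : ((crv e)⁄Ω).a₁ = 0 := by rw [bc_eq]; rfl
    have ha3 : ((crv e)⁄Ω).a₃ = 0 := by rw [bc_eq]; rfl
    have ha2 : ((crv e)⁄Ω).a₂ = -((algebraMap M Ω x - ρ 0 ^ 2) + (algebraMap M Ω x - ρ 1 ^ 2) +
        (algebraMap M Ω x - ρ 2 ^ 2)) := by
      rw [bc_eq, ← h0, ← h1, ← h3]; rfl
    have hsum := XX_sum (sgx τ δ)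
    rw [Fin.sum_univ_three] at hsum
    have hap : ∀ k, (sgx τ δ).1 k = sg τ (δ k) := fun k => sgx_apply h2M hδ hp τ k
    obtain ⟨hns', hact⟩ : ∃ hns' : ((crv e)⁄Ω).toAffine.Nonsingular
        (τ (algebraMap M Ω x + ρ 0 * ρ 1 + ρ 0 * ρ 2 + ρ 1 * ρ 2))
        (τ ((ρ 0 + ρ 1) * (ρ 0 + ρ 2) * (ρ 1 + ρ 2))),
        actM e τ (HP h2 he hρ') = .some _ _ hns' := ⟨_, rfl⟩
    rw [hact]
    have hc := sgn_cases hρ τ (s := fun k => sg τ (δ k)) (hs τ)
    rcases hc 0 with ⟨a0, b0⟩ | ⟨a0, b0⟩ <;> rcases hc 1 with ⟨a1, b1⟩ | ⟨a1, b1⟩ <;>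
      rcases hc 2 with ⟨a2, b2⟩ | ⟨a2, b2⟩
    · have hw : sgx τ δ = 0 := by
        apply Subtype.ext
        funext k
        rw [hap k]
        fin_cases k
        · exact a0
        · exact a1
        · exact a2
      rw [hw, tau_zero, add_zero]
      show Affine.Point.some _ _ hns' = Affine.Point.some _ _ (hp_ns h2 he hρ')
      rw [Affine.Point.some.injEq]
      constructor
      · simp only [map_add, map_mul, b0, b1, b2, τ.commutes]
      · simp only [map_add, map_mul, b0, b1, b2]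
    · exfalso
      rw [hap, hap, hap] at hsum
      rw [a0, a1, a2] at hsum
      revert hsum
      decide
    · exfalso
      rw [hap, hap, hap] at hsum
      rw [a0, a1, a2] at hsum
      revert hsum
      decide
    · have hw0 : (sgx τ δ).1 0 = 0 := by rw [hap]; exact a0
      have hw : sgx τ δ ≠ 0 := by
        intro hh
        have h4 := hap 1
        rw [hh] at h4
        rw [a1] at h4
        revert h4
        decide
      rw [tau_some h2 he hw hw0]
      refine (add_gen ((crv e)⁄Ω) (a := ρ 0) (b := ρ 1) (c := ρ 2) ha1 ha3 ha2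
        (sums_ne he hρ' (by decide)) (sums_ne he hρ' (by decide)) rfl rfl h0 ?_ ?_ _ _ _).symm
      · simp only [map_add, map_mul, b0, b1, b2, τ.commutes]
        ring
      · simp only [map_add, map_mul, b0, b1, b2, τ.commutes]
        ring
    · exfalso
      rw [hap, hap, hap] at hsum
      rw [a0, a1, a2] at hsum
      revert hsum
      decide
    · have hw0 : (sgx τ δ).1 1 = 0 := by rw [hap]; exact a1
      have hw : sgx τ δ ≠ 0 := by
        intro hh
        have h4 := hap 0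
        rw [hh] at h4
        rw [a0] at h4
        revert h4
        decide
      rw [tau_some h2 he hw hw0]
      refine (add_gen ((crv e)⁄Ω) (a := ρ 1) (b := ρ 0) (c := ρ 2) ha1 ha3 (by rw [ha2]; ring)
        (sums_ne he hρ' (by decide)) (sums_ne he hρ' (by decide)) (by ring) (by ring) h1 ?_ ?_
        _ _ _).symm
      · simp only [map_add, map_mul, b0, b1, b2, τ.commutes]
        ring
      · simp only [map_add, map_mul, b0, b1, b2, τ.commutes]
        ring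
    · have hw0 : (sgx τ δ).1 2 = 0 := by rw [hap]; exact a2
      have hw : sgx τ δ ≠ 0 := by
        intro hh
        have h4 := hap 0
        rw [hh] at h4
        rw [a0] at h4
        revert h4
        decide
      rw [tau_some h2 he hw hw0]
      refine (add_gen ((crv e)⁄Ω) (a := ρ 2) (b := ρ 0) (c := ρ 1) ha1 ha3 (by rw [ha2]; ring)
        (sums_ne he hρ' (by decide)) (sums_ne he hρ' (by decide)) (by ring) (by ring) h3 ?_ ?_
        _ _ _).symm
      · simp only [map_add, map_mul, b0, b1, b2, τ.commutes]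
        ring
      · simp only [map_add, map_mul, b0, b1, b2, τ.commutes]
        ring
    · exfalso
      rw [hap, hap, hap] at hsum
      rw [a0, a1, a2] at hsum
      revert hsum
      decide
  rw [hZH, map_add, key]
  have h5 : actM e τ (tau e Ω w₀) = tau e Ω w₀ := act_tau h2 he _ w₀
  rw [h5]
  abel

theorem half_sg (h2 : (2 : K) ≠ 0) (he : Function.Injective e) {x y : M}
    (h : ((crv e)⁄M).toAffine.Nonsingular x y) (hy : y ≠ 0) {Z : Pt e Ω}
    (hZ : 2 • Z = act e (IsScalarTower.toAlgHom K M Ω) (.some x y h)) (τ : Ω ≃ₐ[M] Ω) :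
    actM e τ Z = Z + tau e Ω (sgx τ fun k => x - algebraMap K M (e k)) := by
  have h2M : (2 : M) ≠ 0 := two_ne h2
  have h1 := (ns_iff h2 he x y).1 h
  have hδ : ∀ k, x - algebraMap K M (e k) ≠ 0 := by
    intro k hk
    rw [Finset.prod_eq_zero (Finset.mem_univ k) hk] at h1
    exact hy (pow_eq_zero_iff (two_ne_zero)|>.1 h1)
  have hr : ∀ k : Fin 3, ∃ r : Ω, r ^ 2 = algebraMap M Ω (x - algebraMap K M (e k)) :=
    fun k => exists_root h2M _
  choose ρ hρ using hr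
  have h4 : (algebraMap M Ω y - ρ 0 * ρ 1 * ρ 2) * (algebraMap M Ω y + ρ 0 * ρ 1 * ρ 2) = 0 := by
    have h5 := congrArg (algebraMap M Ω) h1
    rw [map_pow, map_prod, Fin.prod_univ_three, ← hρ, ← hρ, ← hρ] at h5
    linear_combination h5
  rcases mul_eq_zero.1 h4 with h5 | h5
  · exact half_gen h2 he h hρ (by linear_combination -h5) hδ ⟨y, h1.symm⟩
      (fun τ k _ => sg_iff h2M (hδ k) τ (hρ k)) hZ τ
  · have hρ' : ∀ k : Fin 3, (Function.update ρ 0 (-ρ 0)) k ^ 2 =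
        algebraMap M Ω (x - algebraMap K M (e k)) := by
      intro k
      by_cases hk : k = 0
      · subst hk
        rw [Function.update_self, neg_sq]
        exact hρ 0
      · rw [Function.update_of_ne hk]
        exact hρ k
    refine half_gen h2 he h hρ' ?_ hδ ⟨y, h1.symm⟩
      (fun τ k _ => sg_iff h2M (hδ k) τ (hρ' k)) hZ τ
    rw [Function.update_self, Function.update_of_ne (by decide), Function.update_of_ne (by decide)]
    linear_combination -h5

theorem half_tor (h2 : (2 : K) ≠ 0) (he : Function.Injective e) {j : Fin 3} {y : M}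
    (h : ((crv e)⁄M).toAffine.Nonsingular (algebraMap K M (e j)) y) {Z : Pt e Ω}
    (hZ : 2 • Z = act e (IsScalarTower.toAlgHom K M Ω) (.some _ y h)) (τ : Ω ≃ₐ[M] Ω) :
    actM e τ Z = Z + tau e Ω (sgx τ fun k => algebraMap K M (kt e j k)) := by
  have h2M : (2 : M) ≠ 0 := two_ne h2
  have h1 := (ns_iff h2 he _ y).1 h
  have hy : y = 0 := by
    rw [Finset.prod_eq_zero (Finset.mem_univ j) (sub_self _)] at h1
    exact pow_eq_zero_iff (two_ne_zero)|>.1 h1
  have hne : ∀ i, i ≠ j → e j - e i ≠ 0 := fun i hi => sub_ne_zero.2 (he.ne (Ne.symm hi))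
  have hk0 : ∀ k, kt e j k ≠ 0 := by
    intro k
    unfold kt
    split_ifs with hk
    · exact Finset.prod_ne_zero_iff.2 fun i hi => hne i (Finset.ne_of_mem_erase hi)
    · exact hne k hk
  have hδ : ∀ k, algebraMap K M (kt e j k) ≠ 0 := fun k => (map_ne_zero _).2 (hk0 k)
  have hpr : ∏ k, kt e j k = (∏ i ∈ Finset.univ.erase j, (e j - e i)) ^ 2 := by
    rw [← Finset.mul_prod_erase Finset.univ (kt e j) (Finset.mem_univ j), sq]
    congr 1
    · unfold kt
      rw [if_pos rfl]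
    · refine Finset.prod_congr rfl fun i hi => ?_
      unfold kt
      rw [if_neg (Finset.ne_of_mem_erase hi)]
  have hr : ∀ k : Fin 3, ∃ r : Ω, r ^ 2 = algebraMap M Ω (algebraMap K M (e j) - algebraMap K M (e k)) :=
    fun k => exists_root h2M _
  choose ρ hρ using hr
  have hρj : ρ j = 0 := by
    have h3 := hρ j
    rw [sub_self, map_zero] at h3
    exact pow_eq_zero_iff (two_ne_zero)|>.1 h3
  have hprod : ρ 0 * ρ 1 * ρ 2 = algebraMap M Ω y := by
    rw [hy, map_zero, ← Fin.prod_univ_three]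
    exact Finset.prod_eq_zero (Finset.mem_univ j) hρj
  refine half_gen h2 he h hρ hprod hδ ⟨algebraMap K M (∏ i ∈ Finset.univ.erase j, (e j - e i)), ?_⟩
    ?_ hZ τ
  · rw [← map_prod, hpr, map_pow]
  · intro τ k hk
    have hkj : k ≠ j := fun hh => hk (by rw [hh]; exact hρj)
    refine sg_iff h2M (hδ k) τ ?_
    rw [hρ k]
    unfold kt
    rw [if_neg hkj, map_sub (algebraMap K M)]

end Pool.Agent.H40.FS
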