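import Pool.Agent.H40.FS.DTA

set_option autoImplicit false

/-!
# [H40 FS RES] Restriction of automorphisms

`Ω / K` is Galois (normal), `ι : Ω → Ω'` an embedding over `K`.
* `exists_rst`: for `x ∈ Ω` the polynomial `minpoly K x` splits in `Ω`, so all its roots in `Ω'` are in `ι Ω`; `τ (ι x)` is a root (`τ` fixes `K`, `IsScalarTower`), so `τ` maps `ι Ω` to itself, and so does `τ⁻¹`.  So `σ = ι⁻¹ τ ι` is an automorphism.  (Mathlib: `AlgEquiv.restrictNormal`, `AlgHom.restrictNormal'`, `AlgHom.normal_bijective`, with `Ω` as a `K`-algebra with the algebra structure on `Ω'` given by `ι`: `letI := ι.toRingHom.toAlgebra`.)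
* `exists_cnj`: the same for another embedding `ι'`: `ι' Ω = ι Ω` (both are generated by the roots in `Ω'` of the polynomials `minpoly K x`).
* `rst_unique`: `ι` is injective.  `rst_mul`: `ι (σ σ' x) = τ (ι (σ' x)) = τ τ' (ι x)`.
* `rst_cont`: `M₀` finite over `K` as in `IsCont`, `M₁ = M(ι M₀) ⊆ Ω'` (`IntermediateField.adjoin M (ι '' M₀)`), generated by the images of a finite basis of `M₀`, which are algebraic over `K`, so over `M`: finite.  If `τ'` fixes `M₁` then `σ'` fixes `M₀`.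
-/

namespace Pool.Agent.H40.FS

variable {K : Type} [Field K] {Ω : Type} [Field Ω] [Algebra K Ω] [IsGalois K Ω]
  {M : Type} [Field M] [Algebra K M] {Ω' : Type} [Field Ω'] [Algebra M Ω'] [Algebra K Ω']
  [IsScalarTower K M Ω']

private theorem cnj_aux (ι ι' : Ω →ₐ[K] Ω') : ∃ σ : Ω ≃ₐ[K] Ω, ∀ x, ι' x = ι (σ x) := by
  let _ : Algebra Ω Ω' := ι.toRingHom.toAlgebra
  have hst : IsScalarTower K Ω Ω' := IsScalarTower.of_algebraMap_eq fun x => (ι.commutes x).symm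
  refine ⟨AlgHom.restrictNormal' ι' Ω, fun x => ?_⟩
  exact (AlgHom.restrictNormal_commutes ι' Ω x).symm

theorem exists_rst (ι : Ω →ₐ[K] Ω') (τ : Ω' ≃ₐ[M] Ω') :
    ∃ σ : Ω ≃ₐ[K] Ω, ∀ x, ι (σ x) = τ (ι x) := by
  obtain ⟨σ, h⟩ := cnj_aux ι (((τ : Ω' →ₐ[M] Ω').restrictScalars K).comp ι)
  exact ⟨σ, fun x => (h x).symm⟩

theorem exists_cnj (ι ι' : Ω →ₐ[K] Ω') : ∃ σ : Ω ≃ₐ[K] Ω, ∀ x, ι' x = ι (σ x) := cnj_aux ι ι'

/-- the restriction -/
noncomputable def rst (ι : Ω →ₐ[K] Ω') (τ : Ω' ≃ₐ[M] Ω') : Ω ≃ₐ[K] Ω := (exists_rst ι τ).choose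

theorem rst_spec (ι : Ω →ₐ[K] Ω') (τ : Ω' ≃ₐ[M] Ω') (x : Ω) : ι (rst ι τ x) = τ (ι x) :=
  (exists_rst ι τ).choose_spec x

theorem rst_unique (ι : Ω →ₐ[K] Ω') {τ : Ω' ≃ₐ[M] Ω'} {σ : Ω ≃ₐ[K] Ω}
    (h : ∀ x, ι (σ x) = τ (ι x)) : rst ι τ = σ := by
  refine AlgEquiv.ext fun x => ι.injective ?_
  exact (rst_spec ι τ x).trans (h x).symm

theorem rst_mul (ι : Ω →ₐ[K] Ω') (τ τ' : Ω' ≃ₐ[M] Ω') :
    rst ι (τ * τ') = rst ι τ * rst ι τ' := by
  refine rst_unique ι fun x => ?_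
  rw [AlgEquiv.mul_apply, AlgEquiv.mul_apply, rst_spec, rst_spec]

theorem rst_cont (ι : Ω →ₐ[K] Ω') {S : Type} {f : (Ω ≃ₐ[K] Ω) → S} (hf : IsCont K f) :
    IsCont M (fun τ : Ω' ≃ₐ[M] Ω' => f (rst ι τ)) := by
  obtain ⟨M₀, hM₀, h⟩ := hf
  obtain ⟨T, hT⟩ : ∃ T : Set Ω', T = Set.range fun i => ι ((Module.finBasis K M₀ i : M₀) : Ω) := ⟨_, rfl⟩
  have hfin : Finite T := by
    rw [hT]
    exact Set.finite_range _
  have hint : ∀ x ∈ T, IsIntegral M x := by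
    rintro x hx
    rw [hT] at hx
    obtain ⟨i, rfl⟩ := hx
    have h1 : IsIntegral K (ι ((Module.finBasis K M₀ i : M₀) : Ω)) :=
      (Algebra.IsIntegral.isIntegral (R := K) ((Module.finBasis K M₀ i : M₀) : Ω)).map ι
    exact h1.tower_top
  refine ⟨IntermediateField.adjoin M T, IntermediateField.finiteDimensional_adjoin hint, ?_⟩
  intro σ τ hτ
  show f (rst ι (σ * τ)) = f (rst ι σ)
  rw [rst_mul]
  apply h
  intro x hx
  have h1 : ∀ i, rst ι τ ((Module.finBasis K M₀ i : M₀) : Ω) = ((Module.finBasis K M₀ i : M₀) : Ω) := by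
    intro i
    apply ι.injective
    refine (rst_spec ι τ _).trans ?_
    apply hτ
    apply IntermediateField.subset_adjoin
    rw [hT]
    exact ⟨i, rfl⟩
  have h2 := (Module.finBasis K M₀).sum_repr ⟨x, hx⟩
  have h3 : x = ∑ i, (Module.finBasis K M₀).repr ⟨x, hx⟩ i • ((Module.finBasis K M₀ i : M₀) : Ω) := by
    have h4 := congrArg (fun y : M₀ => (y : Ω)) h2
    simp only [AddSubmonoidClass.coe_finsetSum] at h4
    exact h4.symm
  rw [h3, map_sum]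
  refine Finset.sum_congr rfl fun i _ => ?_
  rw [map_smul, h1]

end Pool.Agent.H40.FS
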