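import Pool.Agent.H40.FS.COC
import Pool.Agent.H40.FS.RES
import Pool.Agent.H40.FS.HSG

set_option autoImplicit false

/-!
# [H40 FS LOC] Local classes of a cocycle: existence, uniqueness

`IsLoc e ι a g`: `ι (a σ) = τ Z - Z + tau (sgx τ g)` for the pairs `σ`, `τ` with `ι σ = τ ι` (every `τ` has exactly one such `σ`, `rst`).
* `loc_iota`: `ι' = ι ∘ σ₀` (`exists_cnj`).  If `ι' σ = τ ι'` then `ι (σ₀ σ σ₀⁻¹) = τ ι`.  `a (σ₀ σ σ₀⁻¹) = a σ₀ + σ₀ a σ - (σ₀ σ σ₀⁻¹) a σ₀` (cocycle: `a (σ₀ σ) = a σ₀ + σ₀ a σ`, `a (σ₀ σ) = a (σ'' σ₀) = a σ'' + σ'' a σ₀`).  So `ι' (a σ) = ι (σ₀ a σ) = ι (a σ'') - S + τ S` with `S = ι (a σ₀)`: the new `Z` is `Z + S`.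
* `loc_ex`: `Z'` as in `IsKum` for `x`, `Z` with `2 Z = Z'` (`exists_half`).  `f τ = ι (a (rst τ)) - (τ Z - Z)`: `2 f τ = ι (tau (sgx (rst τ) x)) - tau (sgx τ x) = 0` (`two_eq`, `act_tau`, `sgx_compat`), so `f τ = tau (w τ)` (`exists_tau`), `w (τ τ') = w τ + w τ'` (`a` and `τ Z - Z` are cocycles, `rst_mul`, `rst_spec`, `τ` acts trivially on `tau`), continuous (`rst_cont` with `ha.cont`, `pt_cont`), `exists_sgx` over `M`.
* `loc_dif`: the same `ι` for both by `loc_iota`; subtract: `τ (Z - Z') = Z - Z' + tau (sgx τ g' - sgx τ g)`, signs do not matter in `ZMod 2`, `sgx_mul`.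
-/

namespace Pool.Agent.H40.FS

open WeierstrassCurve Pool.Agent.H94.MW Pool.Agent.H94.PL

variable {K : Type} [Field K] {e e' : Fin 3 → K} {Ω : Type} [Field Ω] [Algebra K Ω]
  [DecidableEq Ω] [IsSepClosed Ω] [IsGalois K Ω]
  {M : Type} [Field M] [Algebra K M] {Ω' : Type} [Field Ω'] [Algebra M Ω'] [Algebra K Ω']
  [IsScalarTower K M Ω'] [DecidableEq Ω'] [IsSepClosed Ω'] [IsGalois M Ω']

omit [IsSepClosed Ω] [IsGalois K Ω] [IsSepClosed Ω'] [IsGalois M Ω'] in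
private theorem act_comm {ι : Ω →ₐ[K] Ω'} {τ : Ω' ≃ₐ[M] Ω'} {σ : Ω ≃ₐ[K] Ω}
    (h : ∀ x, ι (σ x) = τ (ι x)) (P : Pt e Ω) :
    act e ι (act e (σ : Ω →ₐ[K] Ω) P) = actM e τ (act e ι P) := by
  unfold actM act
  rw [Affine.Point.map_map, Affine.Point.map_map]
  congr 1
  refine congrArg _ (AlgHom.ext fun x => h x)

theorem loc_iota {a : (Ω ≃ₐ[K] Ω) → Pt e Ω} (ha : IsCoc a) {ι : Ω →ₐ[K] Ω'} {g : Fin 3 → M}
    (h : IsLoc e ι a g) (ι' : Ω →ₐ[K] Ω') : IsLoc e ι' a g := by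
  obtain ⟨σ₀, hσ₀⟩ := exists_cnj ι ι'
  obtain ⟨Z, hZ⟩ := h
  refine ⟨Z + act e ι (a σ₀), fun τ σ hτ => ?_⟩
  obtain ⟨σ', hσ'⟩ : ∃ σ', σ' = σ₀ * σ * σ₀⁻¹ := ⟨_, rfl⟩
  have h1 : ∀ x, ι (σ' x) = τ (ι x) := by
    intro x
    have e1 : ι (σ' x) = ι' (σ (σ₀⁻¹ x)) := by
      rw [hσ₀, hσ']
      rfl
    have e2 : σ₀ (σ₀⁻¹ x) = x := by
      have e3 : σ₀ (σ₀⁻¹ x) = (σ₀ * σ₀⁻¹) x := rfl
      rw [e3, mul_inv_cancel]
      rfl
    rw [e1, hτ, hσ₀, e2]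
  have h3 := hZ τ σ' h1
  have h4 := ha.coc σ₀ σ
  have h5 := ha.coc σ' σ₀
  have h6 : σ' * σ₀ = σ₀ * σ := by
    rw [hσ', inv_mul_cancel_right]
  rw [h6, h4] at h5
  have h7 : act e (σ₀ : Ω →ₐ[K] Ω) (a σ) = a σ' + act e (σ' : Ω →ₐ[K] Ω) (a σ₀) - a σ₀ := by
    rw [← h5]
    abel
  have h8 : act e ι' (a σ) = act e ι (act e (σ₀ : Ω →ₐ[K] Ω) (a σ)) := by
    unfold act
    rw [Affine.Point.map_map]
    congr 1
    exact congrArg _ (AlgHom.ext fun x => hσ₀ x)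
  rw [h8, h7, map_sub, map_add, act_comm h1, h3, map_add]
  abel

theorem loc_ex (h2 : (2 : K) ≠ 0) (he : Function.Injective e) {x : Fin 3 → K}
    (hx : ∀ k, x k ≠ 0) (hp : ∃ y, ∏ k, x k = y ^ 2) {a : (Ω ≃ₐ[K] Ω) → Pt e Ω} (ha : IsCoc a)
    (hax : IsCls x fun σ => 2 • a σ) (ι : Ω →ₐ[K] Ω')
    (hM : IsKum e Ω' fun k => algebraMap K M (x k)) :
    ∃ g : Fin 3 → M, (∀ k, g k ≠ 0) ∧ (∃ y, ∏ k, g k = y ^ 2) ∧ IsLoc e ι a g := by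
  classical
  have h2M : (2 : M) ≠ 0 := by
    intro h
    apply h2
    apply (algebraMap K M).injective
    rw [map_zero, map_ofNat]
    exact h
  obtain ⟨Z', hZ'⟩ := hM
  obtain ⟨Z, hZ⟩ := exists_half h2 he Z'
  obtain ⟨f, hf⟩ : ∃ f : (Ω' ≃ₐ[M] Ω') → Pt e Ω', ∀ τ, f τ =
      act e ι (a (rst ι τ)) - (actM e τ Z - Z) := ⟨_, fun τ => rfl⟩
  have hf2 : ∀ τ, 2 • f τ = 0 := by
    intro τ
    have e1 : 2 • act e ι (a (rst ι τ)) = tau e Ω' (sgx (rst ι τ) x) := by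
      rw [← map_nsmul, two_eq h2 he hx hp ha hax, act_tau h2 he]
    have e2 : 2 • (actM e τ Z - Z) = tau e Ω' (sgx (rst ι τ) x) := by
      rw [smul_sub, ← map_nsmul, hZ, hZ', sgx_compat h2 hx ι (rst_spec ι τ)]
      abel
    rw [hf, smul_sub, e1, e2, sub_self]
  choose w hw using fun τ => exists_tau h2 he (hf2 τ)
  have hcoc : ∀ τ τ', f (τ * τ') = f τ + f τ' := by
    intro τ τ'
    have e1 : actM e τ (f τ') = f τ' := by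
      rw [hw τ']
      exact act_tau h2 he _ _
    have e2 : act e ι (a (rst ι (τ * τ'))) =
        act e ι (a (rst ι τ)) + actM e τ (act e ι (a (rst ι τ'))) := by
      rw [rst_mul, ha.coc, map_add, act_comm (rst_spec ι τ)]
    rw [← e1, hf, hf, hf, e2, actM_mul, map_sub, map_sub]
    abel
  have hwadd : ∀ τ τ', w (τ * τ') = w τ + w τ' := by
    intro τ τ'
    apply tau_inj (L := Ω') h2 he
    rw [tau_add h2 he, ← hw, ← hw, ← hw, hcoc]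
  have hcont : IsCont M w := by
    obtain ⟨M₁, hM₁, h3⟩ := rst_cont (M := M) ι (f := a) ha.cont
    obtain ⟨M₂, hM₂, h4⟩ := pt_cont (M := M) Z
    refine ⟨M₁ ⊔ M₂, inferInstance, fun σ τ hτ => ?_⟩
    have e1 := h3 σ τ fun y hy => hτ y ((le_sup_left : M₁ ≤ M₁ ⊔ M₂) hy)
    have e2 := h4 σ τ fun y hy => hτ y ((le_sup_right : M₂ ≤ M₁ ⊔ M₂) hy)
    apply tau_inj (L := Ω') h2 he
    rw [← hw, ← hw, hf, hf]
    have e1' : a (rst ι (σ * τ)) = a (rst ι σ) := e1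
    have e2' : actM e (σ * τ) Z = actM e σ Z := e2
    rw [e1', e2']
  obtain ⟨g, hg, hgp, hgw⟩ := exists_sgx h2M w hwadd hcont
  refine ⟨g, hg, hgp, Z, fun τ σ hτ => ?_⟩
  have e1 := rst_unique ι hτ
  have e2 := hf τ
  rw [hw τ, hgw, e1] at e2
  rw [e2]
  abel

theorem loc_dif (h2 : (2 : K) ≠ 0) (he : Function.Injective e) {a : (Ω ≃ₐ[K] Ω) → Pt e Ω}
    (ha : IsCoc a) {ι ι' : Ω →ₐ[K] Ω'} {g g' : Fin 3 → M} (hg : ∀ k, g k ≠ 0)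
    (hp : ∃ y, ∏ k, g k = y ^ 2) (hg' : ∀ k, g' k ≠ 0) (hp' : ∃ y, ∏ k, g' k = y ^ 2)
    (h : IsLoc e ι a g) (h' : IsLoc e ι' a g') : IsKum e Ω' (g * g') := by
  have h2M : (2 : M) ≠ 0 := by
    intro h
    apply h2
    apply (algebraMap K M).injective
    rw [map_zero, map_ofNat]
    exact h
  obtain ⟨Z, hZ⟩ := h
  obtain ⟨Z', hZ'⟩ := loc_iota ha h' ι
  refine ⟨Z - Z', fun τ => ?_⟩
  have e1 := hZ τ (rst ι τ) (rst_spec ι τ)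
  have e2 := hZ' τ (rst ι τ) (rst_spec ι τ)
  rw [e1] at e2
  have e3 : tau e Ω' (sgx τ g) + tau e Ω' (sgx τ g) = 0 := by
    rw [← two_nsmul]
    exact two_tau h2 he _
  rw [sgx_mul h2M hg hp hg' hp', tau_add h2 he, map_sub]
  have e4 : actM e τ Z = actM e τ Z' - Z' + tau e Ω' (sgx τ g') + Z - tau e Ω' (sgx τ g) := by
    rw [← e2]
    abel
  have e5 : -tau e Ω' (sgx τ g) = tau e Ω' (sgx τ g) := neg_eq_of_add_eq_zero_left e3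
  rw [e4, sub_eq_add_neg _ (tau e Ω' (sgx τ g)), e5]
  abel

end Pool.Agent.H40.FS
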