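import Pool.Agent.H40.FS.COC
import Pool.Agent.H40.FS.RES

set_option autoImplicit false

/-!
# [H40 FS LOD] Local classes of a cocycle: sums

`IsLoc e ι a g`: `ι (a σ) = τ Z - Z + tau (sgx τ g)` for the pairs `σ`, `τ` with `ι σ = τ ι` (every `τ` has exactly one such `σ`, `rst`).
* `loc_add`, `loc_tau`, `loc_kum`: add the equations (`sgx_mul`, `sgx_compat`).  `loc_one`: `sgx τ 1 = 0`.
* `loc_cob`: `a σ = σ Z - Z`: `ι (a σ) = τ (ι Z) - ι Z`.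
-/

namespace Pool.Agent.H40.FS

open WeierstrassCurve Pool.Agent.H94.MW Pool.Agent.H94.PL

variable {K : Type} [Field K] {e e' : Fin 3 → K} {Ω : Type} [Field Ω] [Algebra K Ω]
  [DecidableEq Ω] [IsSepClosed Ω] [IsGalois K Ω]
  {M : Type} [Field M] [Algebra K M] {Ω' : Type} [Field Ω'] [Algebra M Ω'] [Algebra K Ω']
  [IsScalarTower K M Ω'] [DecidableEq Ω'] [IsSepClosed Ω'] [IsGalois M Ω']

private theorem lod_two {K M : Type} [Field K] [Field M] [Algebra K M] (h2 : (2 : K) ≠ 0) :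
    (2 : M) ≠ 0 := by
  have h := (map_ne_zero_iff _ (algebraMap K M).injective).2 h2
  rwa [map_ofNat] at h

theorem loc_add (h2 : (2 : K) ≠ 0) (he : Function.Injective e) {a a' : (Ω ≃ₐ[K] Ω) → Pt e Ω}
    {ι : Ω →ₐ[K] Ω'} {g g' : Fin 3 → M} (hg : ∀ k, g k ≠ 0)
    (hp : ∃ y, ∏ k, g k = y ^ 2) (hg' : ∀ k, g' k ≠ 0) (hp' : ∃ y, ∏ k, g' k = y ^ 2)
    (h : IsLoc e ι a g) (h' : IsLoc e ι a' g') : IsLoc e ι (fun σ => a σ + a' σ) (g * g') := by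
  have h2M : (2 : M) ≠ 0 := lod_two h2
  obtain ⟨Z, hZ⟩ := h
  obtain ⟨Z', hZ'⟩ := h'
  refine ⟨Z + Z', fun τ σ hτ => ?_⟩
  rw [map_add, map_add, hZ τ σ hτ, hZ' τ σ hτ, sgx_mul h2M hg hp hg' hp', tau_add h2 he]
  abel

theorem loc_tau (h2 : (2 : K) ≠ 0) (he : Function.Injective e) {a : (Ω ≃ₐ[K] Ω) → Pt e Ω}
    {ι : Ω →ₐ[K] Ω'} {g : Fin 3 → M} (hg : ∀ k, g k ≠ 0) (hp : ∃ y, ∏ k, g k = y ^ 2)
    {h : Fin 3 → K} (hh : ∀ k, h k ≠ 0) (hhp : ∃ y, ∏ k, h k = y ^ 2) (hl : IsLoc e ι a g) :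
    IsLoc e ι (fun σ => a σ + tau e Ω (sgx σ h)) fun k => g k * algebraMap K M (h k) := by
  have h2M : (2 : M) ≠ 0 := lod_two h2
  have hh' : ∀ k, algebraMap K M (h k) ≠ 0 := fun k =>
    (map_ne_zero_iff _ (algebraMap K M).injective).2 (hh k)
  have hhp' : ∃ y, ∏ k, algebraMap K M (h k) = y ^ 2 := by
    obtain ⟨y, hy⟩ := hhp
    refine ⟨algebraMap K M y, ?_⟩
    rw [← map_pow, ← hy, map_prod]
  obtain ⟨Z, hZ⟩ := hl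
  refine ⟨Z, fun τ σ hτ => ?_⟩
  have e1 : sgx τ (fun k => g k * algebraMap K M (h k)) =
      sgx τ g + sgx τ (fun k => algebraMap K M (h k)) :=
    sgx_mul h2M hg hp hh' hhp' τ
  rw [map_add, hZ τ σ hτ, act_tau h2 he, e1, tau_add h2 he, sgx_compat h2 hh ι hτ]
  abel

theorem loc_kum (h2 : (2 : K) ≠ 0) (he : Function.Injective e) {a : (Ω ≃ₐ[K] Ω) → Pt e Ω}
    {ι : Ω →ₐ[K] Ω'} {g g' : Fin 3 → M} (hg : ∀ k, g k ≠ 0) (hp : ∃ y, ∏ k, g k = y ^ 2)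
    (hg' : ∀ k, g' k ≠ 0) (hp' : ∃ y, ∏ k, g' k = y ^ 2) (h : IsLoc e ι a g)
    (h' : IsKum e Ω' g') : IsLoc e ι a (g * g') := by
  have h2M : (2 : M) ≠ 0 := lod_two h2
  obtain ⟨Z, hZ⟩ := h
  obtain ⟨Z', hZ'⟩ := h'
  refine ⟨Z - Z', fun τ σ hτ => ?_⟩
  rw [hZ τ σ hτ, map_sub, hZ' τ, sgx_mul h2M hg hp hg' hp', tau_add h2 he]
  abel

theorem loc_sq (h2 : (2 : K) ≠ 0) {a : (Ω ≃ₐ[K] Ω) → Pt e Ω}
    {ι : Ω →ₐ[K] Ω'} {g y : Fin 3 → M} (hg : ∀ k, g k ≠ 0) (hy : ∀ k, y k ≠ 0) :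
    IsLoc e ι a g ↔ IsLoc e ι a fun k => g k * y k ^ 2 := by
  have h2M : (2 : M) ≠ 0 := lod_two h2
  have e1 : ∀ τ : Ω' ≃ₐ[M] Ω', sgx τ (fun k => g k * y k ^ 2) = sgx τ g := by
    intro τ
    unfold sgx
    congr 1
    funext k
    exact sg_sqm h2M (hg k) (hy k) τ
  unfold IsLoc
  simp only [e1]

theorem loc_one (h2 : (2 : K) ≠ 0) {a : (Ω ≃ₐ[K] Ω) → Pt e Ω} :
    IsTriv M Ω' a ↔ ∃ ι : Ω →ₐ[K] Ω', IsLoc (M := M) e ι a 1 := by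
  have h2M : (2 : M) ≠ 0 := lod_two h2
  unfold IsTriv IsLoc
  simp only [sgx_one h2M, tau_zero, add_zero]

theorem loc_cob (h2 : (2 : K) ≠ 0) (ι : Ω →ₐ[K] Ω') (Z : Pt e Ω) :
    IsLoc (M := M) e ι (fun σ : Ω ≃ₐ[K] Ω => act e (σ : Ω →ₐ[K] Ω) Z - Z) 1 := by
  have h2M : (2 : M) ≠ 0 := lod_two h2
  refine ⟨act e ι Z, fun τ σ hτ => ?_⟩
  rw [sgx_one h2M, tau_zero, add_zero, map_sub]
  congr 1
  have e1 : ι.comp (σ : Ω →ₐ[K] Ω) = ((τ : Ω' →ₐ[M] Ω').restrictScalars K).comp ι :=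
    AlgHom.ext fun x => hτ x
  calc act e ι (act e (σ : Ω →ₐ[K] Ω) Z) = act e (ι.comp (σ : Ω →ₐ[K] Ω)) Z :=
        Affine.Point.map_map (W' := (crv e).toAffine) (σ : Ω →ₐ[K] Ω) ι Z
    _ = act e (((τ : Ω' →ₐ[M] Ω').restrictScalars K).comp ι) Z := by rw [e1]
    _ = actM e τ (act e ι Z) :=
        (Affine.Point.map_map (W' := (crv e).toAffine) ι
          ((τ : Ω' →ₐ[M] Ω').restrictScalars K) Z).symm

end Pool.Agent.H40.FS
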