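import Pool.Agent.H40.FS.HSG
import Pool.Agent.H40.FS.FIX

set_option autoImplicit false

/-!
# [H40 FS KUA] Classes of points

* `kum_mul`: add the points; `sgx_mul`, `tau_add`.  `kum_sq`: `Z = 0`, `sgx τ (γ²) = 0` (`sg_sq`).
* `kum_pt`: `Z` with `2 Z = (x, y)` (`exists_half`), `half_sg`.  `kum_tor`: the same with `(e j, 0)` (`ns_tor`), `half_tor`.
* `kum_cases`: `2 Z` is fixed by all `τ` (`two_tau`, `act`), so `2 Z = (the image of) Q ∈ Pt e M` (`exists_fixed`).  Compare `τ Z - Z = tau (sgx τ g)` with `half_sg` / `half_tor`: `sgx τ g = sgx τ g'` (`tau_inj`) for all `τ`, where `g' = (x - e k)_k` if `Q = (x, y)`, `y ≠ 0`, `g' = kt e j` if `Q = (e j, 0)` (`y = 0` gives `∏ (x - e k) = 0`), and `g' = 1` if `Q = 0` (then `2 Z = 0`, `Z = tau w`, `τ Z = Z`).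
  So `sgx τ (g g') = 0` for all `τ` (`sgx_mul`; in `ZMod 2` `a + a = 0`) and `g k g' k` is a square (`sgx_eq_zero`).  (`∏ g' k` is a square: `y²`, resp. `(∏ i ≠ j, (e j - e i))²`.)
-/

namespace Pool.Agent.H40.FS

open WeierstrassCurve Pool.Agent.H94.MW Pool.Agent.H94.PL

variable {K : Type} [Field K] {e : Fin 3 → K} {M : Type} [Field M] [Algebra K M] [DecidableEq M]
  {Ω : Type} [Field Ω] [Algebra M Ω] [Algebra K Ω] [IsScalarTower K M Ω] [DecidableEq Ω]
  [IsSepClosed Ω]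

omit [DecidableEq M] in
private theorem kua_two (h2 : (2 : K) ≠ 0) : (2 : M) ≠ 0 := by
  have h := (map_ne_zero (algebraMap K M)).2 h2
  rwa [map_ofNat] at h

omit [DecidableEq M] in
private theorem kua_bc : ((crv e)⁄M) = crv (fun k => algebraMap K M (e k)) := by
  unfold crv
  ext
  · exact map_zero _
  · show algebraMap K M _ = _
    simp only [map_neg, map_add]
  · exact map_zero _
  · show algebraMap K M _ = _
    simp only [map_add, map_mul]
  · show algebraMap K M _ = _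
    simp only [map_neg, map_mul]

omit [DecidableEq M] in
private theorem kua_ns (h2 : (2 : K) ≠ 0) (he : Function.Injective e) {x y : M}
    (h : ((crv e)⁄M).toAffine.Nonsingular x y) : y ^ 2 = ∏ k, (x - algebraMap K M (e k)) := by
  rw [kua_bc] at h
  exact (nonsing_iff (kua_two h2) ((algebraMap K M).injective.comp he) x y).1 h

omit [DecidableEq M] [Algebra K M] [IsScalarTower K M Ω] [DecidableEq Ω] [Algebra K Ω] in
private theorem kua_fin [IsGalois M Ω] (h2 : (2 : M) ≠ 0) {g g' : Fin 3 → M}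
    (hg : ∀ k, g k ≠ 0) (hp : ∃ y, ∏ k, g k = y ^ 2) (hg' : ∀ k, g' k ≠ 0)
    (hp' : ∃ y, ∏ k, g' k = y ^ 2) (heq : ∀ τ : Ω ≃ₐ[M] Ω, sgx τ g = sgx τ g') :
    ∃ γ : Fin 3 → M, (∀ k, γ k ≠ 0) ∧ ∀ k, g k * γ k ^ 2 = g' k := by
  have hprod : ∃ y, ∏ k, (g * g') k = y ^ 2 := by
    obtain ⟨y, hy⟩ := hp
    obtain ⟨y', hy'⟩ := hp'
    refine ⟨y * y', ?_⟩
    simp only [Pi.mul_apply]
    rw [Finset.prod_mul_distrib, hy, hy', mul_pow]
  have hne : ∀ k, (g * g') k ≠ 0 := fun k => mul_ne_zero (hg k) (hg' k)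
  have hz : ∀ τ : Ω ≃ₐ[M] Ω, sgx τ (g * g') = 0 := by
    intro τ
    rw [sgx_mul h2 hg hp hg' hp', heq τ]
    apply Subtype.ext
    funext k
    exact CharTwo.add_self_eq_zero _
  have h3 := fun k => sgx_eq_zero h2 hne hprod hz k
  choose y hy0 hy using h3
  refine ⟨fun k => y k / g k, fun k => div_ne_zero (hy0 k) (hg k), fun k => ?_⟩
  show g k * (y k / g k) ^ 2 = g' k
  have h4 : g k * g' k = y k ^ 2 := hy k
  have h5 := hg k
  rw [div_pow, ← h4]
  field_simp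

theorem kum_mul (h2 : (2 : K) ≠ 0) (he : Function.Injective e) {g g' : Fin 3 → M}
    (hg : ∀ k, g k ≠ 0) (hp : ∃ y, ∏ k, g k = y ^ 2) (hg' : ∀ k, g' k ≠ 0)
    (hp' : ∃ y, ∏ k, g' k = y ^ 2) (h : IsKum e Ω g) (h' : IsKum e Ω g') :
    IsKum e Ω (g * g') := by
  obtain ⟨Z, hZ⟩ := h
  obtain ⟨Z', hZ'⟩ := h'
  refine ⟨Z + Z', fun τ => ?_⟩
  rw [map_add, hZ, hZ', sgx_mul (kua_two h2) hg hp hg' hp', tau_add h2 he]
  abel

theorem kum_sq (h2 : (2 : K) ≠ 0) (γ : Fin 3 → M) :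
    IsKum e Ω fun k => γ k ^ 2 := by
  refine ⟨0, fun τ => ?_⟩
  have h1 : sgx τ (fun k => γ k ^ 2) = 0 := by
    have h3 : ∑ k : Fin 3, sg τ (γ k ^ 2) = 0 := by
      refine Finset.sum_eq_zero fun k _ => sg_sq τ (γ k)
    apply Subtype.ext
    funext k
    have h4 := toX_apply h3 k
    rw [sg_sq] at h4
    exact h4
  rw [h1, map_zero, tau_zero, add_zero]

theorem kum_pt (h2 : (2 : K) ≠ 0) (he : Function.Injective e) {x y : M}
    (h : ((crv e)⁄M).toAffine.Nonsingular x y) (hy : y ≠ 0) :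
    IsKum e Ω fun k => x - algebraMap K M (e k) := by
  obtain ⟨Z, hZ⟩ := exists_half h2 he (act e (IsScalarTower.toAlgHom K M Ω) (.some x y h))
  exact ⟨Z, fun τ => half_sg h2 he h hy hZ τ⟩

theorem kum_tor (h2 : (2 : K) ≠ 0) (he : Function.Injective e) (j : Fin 3) :
    IsKum e Ω fun k => algebraMap K M (kt e j k) := by
  obtain ⟨Z, hZ⟩ := exists_half h2 he (act e (IsScalarTower.toAlgHom K M Ω)
    (.some _ 0 (ns_tor (L := M) h2 he j)))
  exact ⟨Z, fun τ => half_tor h2 he (ns_tor (L := M) h2 he j) hZ τ⟩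

theorem kum_cases [IsGalois M Ω] (h2 : (2 : K) ≠ 0) (he : Function.Injective e) {g : Fin 3 → M}
    (hg : ∀ k, g k ≠ 0) (hp : ∃ y, ∏ k, g k = y ^ 2) (h : IsKum e Ω g) :
    ∃ γ : Fin 3 → M, (∀ k, γ k ≠ 0) ∧ ((∀ k, g k * γ k ^ 2 = 1) ∨
      (∃ x y : M, ((crv e)⁄M).toAffine.Nonsingular x y ∧ y ≠ 0 ∧
        ∀ k, g k * γ k ^ 2 = x - algebraMap K M (e k)) ∨
      ∃ j, ∀ k, g k * γ k ^ 2 = algebraMap K M (kt e j k)) := by
  have h2M : (2 : M) ≠ 0 := kua_two h2
  obtain ⟨Z, hZ⟩ := h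
  have h20 : ∀ τ : Ω ≃ₐ[M] Ω, actM e τ (2 • Z) = 2 • Z := by
    intro τ
    rw [map_nsmul, hZ, nsmul_add, two_tau h2 he, add_zero]
  obtain ⟨Q, hQ⟩ := exists_fixed h20
  have key : ∀ (g' : Fin 3 → M), (∀ τ : Ω ≃ₐ[M] Ω, actM e τ Z = Z + tau e Ω (sgx τ g')) →
      ∀ τ : Ω ≃ₐ[M] Ω, sgx τ g = sgx τ g' := by
    intro g' h3 τ
    have h4 := h3 τ
    rw [hZ τ] at h4
    exact tau_inj h2 he (add_left_cancel h4)
  cases Q with
  | zero =>
    have h3 : 2 • Z = 0 := by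
      rw [← hQ]
      exact map_zero _
    obtain ⟨w, hw⟩ := exists_tau h2 he h3
    have h4 := key 1 fun τ => by
      rw [sgx_one h2M, tau_zero, add_zero, hw]
      exact act_tau h2 he _ w
    obtain ⟨γ, hγ, h5⟩ := kua_fin h2M hg hp (g' := 1) (fun k => one_ne_zero)
      ⟨1, by simp⟩ h4
    exact ⟨γ, hγ, Or.inl h5⟩
  | some x y hns =>
    have hprod := kua_ns h2 he hns
    by_cases hy : y = 0
    · rw [hy, zero_pow two_ne_zero] at hprod
      obtain ⟨j, -, hj⟩ := Finset.prod_eq_zero_iff.1 hprod.symm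
      have hxj : x = algebraMap K M (e j) := sub_eq_zero.1 hj
      subst hxj
      have hne : ∀ i, i ≠ j → e j - e i ≠ 0 := fun i hi => sub_ne_zero.2 (he.ne (Ne.symm hi))
      have hk0 : ∀ k, kt e j k ≠ 0 := by
        intro k
        unfold kt
        split_ifs with hk
        · exact Finset.prod_ne_zero_iff.2 fun i hi => hne i (Finset.ne_of_mem_erase hi)
        · exact hne k hk
      have hpr : ∏ k, kt e j k = (∏ i ∈ Finset.univ.erase j, (e j - e i)) ^ 2 := by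
        rw [← Finset.mul_prod_erase Finset.univ (kt e j) (Finset.mem_univ j), sq]
        congr 1
        · unfold kt
          rw [if_pos rfl]
        · refine Finset.prod_congr rfl fun i hi => ?_
          unfold kt
          rw [if_neg (Finset.ne_of_mem_erase hi)]
      have h4 := key (fun k => algebraMap K M (kt e j k))
        fun τ => half_tor h2 he hns hQ.symm τ
      obtain ⟨γ, hγ, h5⟩ := kua_fin h2M hg hp (g' := fun k => algebraMap K M (kt e j k))
        (fun k => (map_ne_zero _).2 (hk0 k))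
        ⟨algebraMap K M (∏ i ∈ Finset.univ.erase j, (e j - e i)), by
          rw [← map_prod, hpr, map_pow]⟩ h4
      exact ⟨γ, hγ, Or.inr (Or.inr ⟨j, h5⟩)⟩
    · have hδ : ∀ k, x - algebraMap K M (e k) ≠ 0 := by
        intro k hk
        rw [Finset.prod_eq_zero (Finset.mem_univ k) hk] at hprod
        exact hy (pow_eq_zero_iff (two_ne_zero)|>.1 hprod)
      have h4 := key (fun k => x - algebraMap K M (e k))
        fun τ => half_sg h2 he hns hy hQ.symm τ
      obtain ⟨γ, hγ, h5⟩ := kua_fin h2M hg hp (g' := fun k => x - algebraMap K M (e k))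
        hδ ⟨y, hprod.symm⟩ h4
      exact ⟨γ, hγ, Or.inr (Or.inl ⟨x, y, hns, hy, h5⟩)⟩

end Pool.Agent.H40.FS
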