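import Pool.Agent.H40.FS.RD1
import Pool.Agent.H40.FS.KUA

set_option autoImplicit false

/-!
# [H40 FS VLK] Values of the descent map are the classes of the points

`e k = D A k` in `M`; the curve `y² = ∏ (x - e k)`.
* `kum_of_mum`: strong induction on `n = deg P`.  `n = 0`: `P = 1`, the value is `1` (`kum_sq`).  `n = 1`: `P = X - C u`, `w = Q(u)`: `D w² = ∏ (u - A k) ≠ 0`; `(x, y) = (D u, D² w)` is a point: `y² = D³ ∏ (u - A k) = ∏ (x - e k)`, `y ≠ 0`; `dvn 1 D P (A k) = (-D) (A k - u) = x - e k`: `kum_pt`.  `n ≥ 2`: `mum_red`: `dvn P = (dvn P')⁻¹ (∏ kt)⁻¹ γ²`, up to squares `dvn P' * ∏ kt`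
  (`δ⁻¹ = δ (δ⁻¹)²`), so `kum_mul`, the induction hypothesis, `kum_tor` (`kt (D A) j k` is the image of `kt e j k`) and `kum_sq`.  (`∏ k, dvn 1 D P (A k)` is a square: `norm_dvn` with `ℓ = 2`, `α = 1`, `m = 3`.)
* `kum_of_vln`: `IsVln`: `δ k γ k² = ∏ i, dvn 1 D (P i) (A k)`: product of finitely many, `kum_mul`, and `δ = (δ γ²) (γ⁻¹)²`.
* `vln_of_kum`: `kum_cases`.  `g γ² = 1`: `isVln_one`, `isVln_congr`.  `g γ² = x - e k`: the pair `P = X - C (x / D)`, `Q = C (y / D²)`: `D Q² = y² / D³ = ∏ (x / D - A k)`, so `P ∣ D Q² - f`, `P(A k) = A k - x / D ≠ 0`, `dvn 1 D P (A k) = x - e k`.  `g γ² = kt e j k`: `isVln_T` (`ℓ = 2`, `α = 1`, `m = 3`, `i = j`) gives the value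
  `((-D) (A k - A j))⁻¹` for `k ≠ j`, which is `kt e j k` up to a square (`kt e j k = D (A j - A k)`), and `(-D)² ∏ (A j - A k')` for `k = j`, which is `kt e j j`.
-/

namespace Pool.Agent.H40.FS

open Polynomial WeierstrassCurve Pool.Agent.H94.MW Pool.Agent.H94.PL Pool.Agent.H94.PM

variable {K : Type} [Field K] {e : Fin 3 → K} {M : Type} [Field M] [Algebra K M] [DecidableEq M]
  {Ω : Type} [Field Ω] [Algebra M Ω] [Algebra K Ω] [IsScalarTower K M Ω] [DecidableEq Ω]
  [IsSepClosed Ω]

omit [DecidableEq M] in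
private theorem vlk_two (h2 : (2 : K) ≠ 0) : (2 : M) ≠ 0 := by
  have h := (map_ne_zero (algebraMap K M)).2 h2
  rwa [map_ofNat] at h

omit [DecidableEq M] in
private theorem vlk_bc : ((crv e)⁄M) = crv (fun k => algebraMap K M (e k)) := by
  unfold crv
  ext
  · exact map_zero _
  · show algebraMap K M _ = _
    simp only [map_neg, map_add]
  · exact map_zero _
  · show algebraMap K M _ = _
    simp only [map_add, map_mul]
  · show algebraMap K M _ = _
    simp only [map_neg, map_mul]

omit [DecidableEq M] in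
private theorem vlk_ns (h2 : (2 : K) ≠ 0) (he : Function.Injective e) {x y : M} :
    ((crv e)⁄M).toAffine.Nonsingular x y ↔ y ^ 2 = ∏ k, (x - algebraMap K M (e k)) := by
  rw [vlk_bc]
  exact nonsing_iff (vlk_two h2) ((algebraMap K M).injective.comp he) x y

omit [DecidableEq M] in
private theorem vlk_kt {D : M} {A : Fin 3 → M} (hA : ∀ k, algebraMap K M (e k) = D * A k)
    (j k : Fin 3) : kt (fun i => D * A i) j k = algebraMap K M (kt e j k) := by
  unfold kt
  split_ifs
  · rw [map_prod]
    exact Finset.prod_congr rfl fun i _ => by rw [map_sub, hA, hA]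
  · rw [map_sub, hA, hA]

private theorem kt_ne {F : Type} [Field F] {f : Fin 3 → F} (hf : Function.Injective f)
    (j k : Fin 3) : kt f j k ≠ 0 := by
  have hne : ∀ i, i ≠ j → f j - f i ≠ 0 := fun i hi => sub_ne_zero.2 (hf.ne (Ne.symm hi))
  unfold kt
  split_ifs with hk
  · exact Finset.prod_ne_zero_iff.2 fun i hi => hne i (Finset.ne_of_mem_erase hi)
  · exact hne k hk

private theorem kt_prod {F : Type} [Field F] (f : Fin 3 → F) (j : Fin 3) :
    ∏ k, kt f j k = (∏ i ∈ Finset.univ.erase j, (f j - f i)) ^ 2 := by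
  rw [← Finset.mul_prod_erase Finset.univ (kt f j) (Finset.mem_univ j), sq]
  congr 1
  · unfold kt
    rw [if_pos rfl]
  · refine Finset.prod_congr rfl fun i hi => ?_
    unfold kt
    rw [if_neg (Finset.ne_of_mem_erase hi)]

/-- classes of points, with the side conditions -/
private structure Gk (e : Fin 3 → K) (Ω : Type) [Field Ω] [Algebra M Ω] [Algebra K Ω]
    [IsScalarTower K M Ω] [DecidableEq Ω] (δ : Fin 3 → M) : Prop where
  ne : ∀ k, δ k ≠ 0
  pr : ∃ y, ∏ k, δ k = y ^ 2
  km : IsKum e Ω δ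

omit [DecidableEq M] in
private theorem Gk.mul (h2 : (2 : K) ≠ 0) (he : Function.Injective e) {δ δ' : Fin 3 → M}
    (h : Gk e Ω δ) (h' : Gk e Ω δ') : Gk e Ω (fun k => δ k * δ' k) := by
  classical
  refine ⟨fun k => mul_ne_zero (h.ne k) (h'.ne k), ?_, kum_mul h2 he h.ne h.pr h'.ne h'.pr h.km h'.km⟩
  obtain ⟨y, hy⟩ := h.pr
  obtain ⟨y', hy'⟩ := h'.pr
  exact ⟨y * y', by rw [Finset.prod_mul_distrib, hy, hy', mul_pow]⟩

omit [DecidableEq M] in
private theorem Gk.sq (h2 : (2 : K) ≠ 0) {γ : Fin 3 → M} (hγ : ∀ k, γ k ≠ 0) :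
    Gk e Ω (fun k => γ k ^ 2) := by
  classical
  exact ⟨fun k => pow_ne_zero 2 (hγ k), ⟨∏ k, γ k, by rw [Finset.prod_pow]⟩, kum_sq h2 γ⟩

omit [DecidableEq M] in
private theorem Gk.prod (h2 : (2 : K) ≠ 0) (he : Function.Injective e) {κ : Type} (s : Finset κ)
    (δ : κ → Fin 3 → M) (h : ∀ i ∈ s, Gk e Ω (δ i)) : Gk e Ω (fun k => ∏ i ∈ s, δ i k) := by
  classical
  induction s using Finset.induction_on with
  | empty =>
    have h1 := Gk.sq (e := e) (Ω := Ω) (M := M) h2 (γ := fun _ => 1) (fun _ => one_ne_zero)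
    have h3 : (fun k => ∏ i ∈ (∅ : Finset κ), δ i k) = (fun _ : Fin 3 => (1 : M) ^ 2) := by
      funext k
      rw [Finset.prod_empty, one_pow]
    rw [h3]
    exact h1
  | insert a s ha ih =>
    have h1 := Gk.mul h2 he (h a (Finset.mem_insert_self a s))
      (ih fun i hi => h i (Finset.mem_insert_of_mem hi))
    have h3 : (fun k => ∏ i ∈ insert a s, δ i k) = fun k => δ a k * ∏ i ∈ s, δ i k := by
      funext k
      rw [Finset.prod_insert ha]
    rw [h3]
    exact h1

omit [DecidableEq M] in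
private theorem Gk.tor (h2 : (2 : K) ≠ 0) (he : Function.Injective e) (j : Fin 3) :
    Gk e Ω (fun k => algebraMap K M (kt e j k)) := by
  classical
  refine ⟨fun k => (_root_.map_ne_zero _).2 (kt_ne he j k),
    ⟨algebraMap K M (∏ i ∈ Finset.univ.erase j, (e j - e i)), ?_⟩, kum_tor h2 he j⟩
  rw [← map_prod, kt_prod, map_pow]

omit [DecidableEq M] in
private theorem vlk_inj (he : Function.Injective e) {D : M} {A : Fin 3 → M}
    (hA : ∀ k, algebraMap K M (e k) = D * A k) : Function.Injective A := by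
  intro i j hij
  apply he
  apply (algebraMap K M).injective
  rw [hA, hA, hij]

omit [DecidableEq M] in
private theorem vlk_pr {D : M} {A : Fin 3 → M} {P Q : M[X]} (h : IsMum 2 D A P Q) :
    ∃ y, ∏ k, dvn 1 D P (A k) = y ^ 2 :=
  norm_dvn Nat.prime_two (by norm_num) D A h.1 h.2.2

omit [DecidableEq M] in
private theorem vlk_ind (h2 : (2 : K) ≠ 0) (he : Function.Injective e) {D : M} (hD : D ≠ 0)
    {A : Fin 3 → M} (hA : ∀ k, algebraMap K M (e k) = D * A k) (n : ℕ) :
    ∀ P Q : M[X], P.natDegree = n → IsMum 2 D A P Q → Gk e Ω fun k => dvn 1 D P (A k) := by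
  classical
  induction n using Nat.strong_induction_on with
  | _ n ih =>
    intro P Q hPn h
    have hAi := vlk_inj he hA
    have hne : ∀ k, dvn 1 D P (A k) ≠ 0 := dvn_ne hD h
    rcases Nat.lt_or_ge n 2 with hn | hn
    · rcases Nat.lt_or_ge n 1 with hn0 | hn1
      · -- degree zero
        have hP1 : P = 1 := eq_one_of_monic_natDegree_zero h.1 (by omega)
        have h3 : (fun k => dvn 1 D P (A k)) = (fun _ : Fin 3 => (1 : M) ^ 2) := by
          funext k
          rw [hP1, dvn_one, one_pow]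
        rw [h3]
        exact Gk.sq h2 fun _ => one_ne_zero
      · -- degree one
        have hP1 : P.natDegree = 1 := by omega
        obtain ⟨u, hu⟩ : ∃ u : M, P = X - C u := by
          refine ⟨-P.coeff 0, ?_⟩
          have h3 := h.1.eq_X_add_C hP1
          rw [C_neg, sub_neg_eq_add]
          exact h3
        obtain ⟨w, hw⟩ : ∃ w : M, w = Q.eval u := ⟨_, rfl⟩
        have h4 : D * w ^ 2 = ∏ k, (u - A k) := by
          obtain ⟨R, hR⟩ := h.2.2
          have h5 : eval u (C D * Q ^ 2 - fA A) = 0 := by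
            rw [hR, eval_mul, hu]
            simp
          rw [eval_sub, eval_mul, eval_C, eval_pow, ← hw, sub_eq_zero, fA, eval_prod] at h5
          rw [h5]
          exact Finset.prod_congr rfl fun k _ => by simp
        have hx : ∀ k, D * u - algebraMap K M (e k) = D * (u - A k) := by
          intro k
          rw [hA]
          ring
        have hns : ((crv e)⁄M).toAffine.Nonsingular (D * u) (D ^ 2 * w) := by
          rw [vlk_ns h2 he, Finset.prod_congr rfl fun k _ => hx k, Finset.prod_mul_distrib,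
            Finset.prod_const, Finset.card_univ, Fintype.card_fin, ← h4]
          ring
        have huk : ∀ k, u - A k ≠ 0 := by
          intro k h5
          apply h.2.1 k
          rw [hu, eval_sub, eval_X, eval_C]
          linear_combination -h5
        have hy : D ^ 2 * w ≠ 0 := by
          refine mul_ne_zero (pow_ne_zero 2 hD) ?_
          intro h5
          rw [h5] at h4
          have h6 : ∏ k, (u - A k) ≠ 0 := Finset.prod_ne_zero_iff.2 fun k _ => huk k
          apply h6
          rw [← h4]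
          ring
        have h7 := kum_pt (Ω := Ω) h2 he hns hy
        have h8 : (fun k => dvn 1 D P (A k)) = fun k => D * u - algebraMap K M (e k) := by
          funext k
          rw [hx, dvn, hP1, hu, eval_sub, eval_X, eval_C]
          ring
        refine ⟨hne, vlk_pr h, ?_⟩
        rw [h8]
        exact h7
    · obtain ⟨P', Q', hM', hlt, J, γ, hγ, hid⟩ := mum_red (vlk_two h2) hD hAi h (by omega)
      have h3 := ih P'.natDegree (by omega) P' Q' rfl hM'
      have h4 : Gk e Ω (fun k => ∏ j ∈ J, algebraMap K M (kt e j k)) :=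
        Gk.prod h2 he J (fun j k => algebraMap K M (kt e j k)) fun j _ => Gk.tor h2 he j
      have h5 := Gk.mul h2 he h3 h4
      have hz : ∀ k, γ k * (dvn 1 D P' (A k) * ∏ j ∈ J, algebraMap K M (kt e j k))⁻¹ ≠ 0 :=
        fun k => mul_ne_zero (hγ k) (inv_ne_zero (h5.ne k))
      have h6 := Gk.mul h2 he h5 (Gk.sq (e := e) (Ω := Ω) h2 hz)
      have h7 : (fun k => dvn 1 D P (A k)) = fun k =>
          (dvn 1 D P' (A k) * ∏ j ∈ J, algebraMap K M (kt e j k)) *
            (γ k * (dvn 1 D P' (A k) * ∏ j ∈ J, algebraMap K M (kt e j k))⁻¹) ^ 2 := by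
        funext k
        have h8 := hid k
        rw [Finset.prod_congr rfl fun j _ => vlk_kt hA j k, mul_assoc] at h8
        have h9 := h5.ne k
        rw [mul_pow, ← h8]
        generalize dvn 1 D P' (A k) * ∏ j ∈ J, algebraMap K M (kt e j k) = z at h9 ⊢
        field_simp
      rw [h7]
      exact h6

theorem kum_of_mum (h2 : (2 : K) ≠ 0) (he : Function.Injective e) {D : M} (hD : D ≠ 0)
    {A : Fin 3 → M} (hA : ∀ k, algebraMap K M (e k) = D * A k) {P Q : M[X]}
    (h : IsMum 2 D A P Q) : IsKum e Ω fun k => dvn 1 D P (A k) :=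
  (vlk_ind h2 he hD hA _ P Q rfl h).km

theorem kum_of_vln (h2 : (2 : K) ≠ 0) (he : Function.Injective e) {D : M} (hD : D ≠ 0)
    {A : Fin 3 → M} (hA : ∀ k, algebraMap K M (e k) = D * A k) {δ : Fin 3 → M}
    (h : IsVln 2 1 D A δ) : IsKum e Ω δ := by
  obtain ⟨r, P, Q, γ, h1, h3, h4⟩ := h
  have h5 : Gk e Ω (fun k => ∏ i, dvn 1 D (P i) (A k)) :=
    Gk.prod h2 he Finset.univ (fun i k => dvn 1 D (P i) (A k))
      fun i _ => vlk_ind h2 he hD hA _ (P i) (Q i) rfl (h1 i)
  have h6 := Gk.mul h2 he h5 (Gk.sq (e := e) (Ω := Ω) h2 (γ := fun k => (γ k)⁻¹)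
    fun k => inv_ne_zero (h3 k))
  have h7 : δ = fun k => (∏ i, dvn 1 D (P i) (A k)) * (γ k)⁻¹ ^ 2 := by
    funext k
    rw [← h4 k]
    have h8 := h3 k
    field_simp
  rw [h7]
  exact h6.km

theorem vln_of_kum [IsGalois M Ω] (h2 : (2 : K) ≠ 0) (he : Function.Injective e) {D : M}
    (hD : D ≠ 0) {A : Fin 3 → M} (hA : ∀ k, algebraMap K M (e k) = D * A k) {g : Fin 3 → M}
    (hg : ∀ k, g k ≠ 0) (hp : ∃ y, ∏ k, g k = y ^ 2) (h : IsKum e Ω g) : IsVln 2 1 D A g := by
  have hAi := vlk_inj he hA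
  obtain ⟨γ, hγ, hc | ⟨x, y, hns, hy, hc⟩ | ⟨j, hc⟩⟩ := kum_cases h2 he hg hp h
  · have h3 := isVln_congr (isVln_one (ℓ := 2) (α := 1) D A) (γ := fun k => (γ k)⁻¹)
      fun k => inv_ne_zero (hγ k)
    have h4 : g = fun k => (1 : Fin 3 → M) k * (γ k)⁻¹ ^ 2 := by
      funext k
      rw [Pi.one_apply, ← hc k]
      have h8 := hγ k
      field_simp
    rw [h4]
    exact h3
  · rw [vlk_ns h2 he] at hns
    have hδ : ∀ k, x - algebraMap K M (e k) ≠ 0 := by
      intro k hk
      rw [Finset.prod_eq_zero (Finset.mem_univ k) hk] at hns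
      exact hy (pow_eq_zero_iff (two_ne_zero)|>.1 hns)
    have hx : ∀ k, x - algebraMap K M (e k) = D * (x / D - A k) := by
      intro k
      rw [hA]
      field_simp
    have hval : ∀ k, dvn 1 D (X - C (x / D)) (A k) = x - algebraMap K M (e k) := by
      intro k
      rw [dvn, natDegree_X_sub_C, eval_sub, eval_X, eval_C, hx]
      ring
    refine ⟨1, fun _ => X - C (x / D), fun _ => C (y / D ^ 2), γ, fun _ => ⟨monic_X_sub_C _, ?_, ?_⟩,
      hγ, fun k => ?_⟩
    · intro k h5
      apply hδ k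
      rw [eval_sub, eval_X, eval_C] at h5
      rw [hx]
      have h6 : x / D - A k = 0 := by linear_combination -h5
      rw [h6, mul_zero]
    · rw [dvd_iff_isRoot, IsRoot.def, eval_sub, eval_mul, eval_pow, eval_C, eval_C, fA, eval_prod]
      have h5 : ∏ k, (x / D - A k) = D * (y / D ^ 2) ^ 2 := by
        rw [Finset.prod_congr rfl fun k _ => hx k, Finset.prod_mul_distrib,
            Finset.prod_const, Finset.card_univ, Fintype.card_fin] at hns
        have h6 : D ^ 3 * ∏ k, (x / D - A k) = D ^ 3 * (D * (y / D ^ 2) ^ 2) := by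
          rw [← hns]
          field_simp
        exact mul_left_cancel₀ (pow_ne_zero 3 hD) h6
      rw [← h5, sub_eq_zero]
      exact Finset.prod_congr rfl fun k _ => by simp
    · rw [hc k, Finset.prod_const, Finset.card_univ, Fintype.card_fin, pow_one, hval]
  · have hT := isVln_T (ℓ := 2) (α := 1) (m := 3) Nat.prime_two (by decide) (by norm_num) hD
      (A := A) (fun i k hik => hAi.ne hik) j
    have hne : ∀ k, k ≠ j → (-D) * (A k - A j) ≠ 0 := fun k hk =>
      mul_ne_zero (neg_ne_zero.2 hD) (sub_ne_zero.2 (hAi.ne hk))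
    have h3 := isVln_congr hT (γ := fun k => (if k = j then 1 else (-D) * (A k - A j)) * (γ k)⁻¹)
      fun k => by
        refine mul_ne_zero ?_ (inv_ne_zero (hγ k))
        split_ifs with hk
        · exact one_ne_zero
        · exact hne k hk
    have h4 : g = fun k => (if k = j then
      (-D) ^ (1 * (3 - 1)) * ∏ k' ∈ Finset.univ.erase j, (A j - A k')
      else ((-D) ^ 1 * (A k - A j))⁻¹) *
        ((if k = j then 1 else (-D) * (A k - A j)) * (γ k)⁻¹) ^ 2 := by
      funext k
      have h8 := hγ k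
      have h9 : g k = algebraMap K M (kt e j k) * (γ k)⁻¹ ^ 2 := by
        rw [← hc k]
        field_simp
      rw [h9, ← vlk_kt hA]
      unfold kt
      by_cases hk : k = j
      · rw [if_pos hk, if_pos hk, if_pos hk]
        have h10 : ∏ i ∈ Finset.univ.erase j, (D * A j - D * A i) =
            (-D) ^ (1 * (3 - 1)) * ∏ k' ∈ Finset.univ.erase j, (A j - A k') := by
          have h11 : ∀ i ∈ Finset.univ.erase j, D * A j - D * A i = D * (A j - A i) :=
            fun i _ => by ring
          rw [Finset.prod_congr rfl h11, Finset.prod_mul_distrib, Finset.prod_const,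
            Finset.card_erase_of_mem (Finset.mem_univ j), Finset.card_univ, Fintype.card_fin]
          norm_num
        rw [h10]
        ring
      · rw [if_neg hk, if_neg hk, if_neg hk]
        have h10 := hne k hk
        have h11 : D * A j - D * A k = (-D) * (A k - A j) := by ring
        rw [h11, pow_one]
        generalize (-D) * (A k - A j) = z at h10 ⊢
        field_simp
    rw [h4]
    exact h3

end Pool.Agent.H40.FS
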