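import Pool.Agent.H74.FS.KER
import Pool.Agent.H40.FS.VLK
import Pool.Agent.H40.FS.LOC
import Pool.Agent.H40.FS.LOD

set_option autoImplicit false

/-!
# [H40 FS GD0] Global definitions

`Oc F` and `Ow F w` are the separable closures of `F(t)` and of its completion at `w`; the twist `c D` of the curve has the roots `eD c A D k = c D A k`.
-/

namespace Pool.Agent.H40.FS

open Polynomial Pool.Agent.H74.FS
open Pool.Agent.H94.PL (LChar XX DK AK dl)
open Pool.Agent.H94.PM (LU vl IsVln IsSln)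

/-- a separable closure of `F(t)` -/
abbrev Oc (F : Type) [Field F] : Type := SeparableClosure (RatFunc F)

/-- a separable closure of the completion -/
abbrev Ow (F : Type) [Field F] [DecidableEq (RatFunc F)] (w : Pl F) : Type :=
  SeparableClosure (Kw F w)

/-- the Galois group of `F(t)` -/
abbrev GF (F : Type) [Field F] : Type := Oc F ≃ₐ[RatFunc F] Oc F

section
variable {F : Type} [Field F]

/-- the roots for the twist -/
noncomputable def eD (c : F) (A : Fin 3 → F[X]) (D : F[X]) (k : Fin 3) : RatFunc F :=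
  DK c D * AK A k

variable [DecidableEq (RatFunc F)] [DecidableEq (Oc F)] [∀ w : Pl F, DecidableEq (Ow F w)]

/-- a lift of `x`, locally trivial outside `S` -/
structure GLf (S : Finset (Pl F)) (c : F) (A : Fin 3 → F[X]) (D : F[X]) (x : Fin 3 → RatFunc F)
    (a : GF F → Pt (eD c A D) (Oc F)) : Prop where
  coc : IsCoc a
  cls : IsCls x fun σ => 2 • a σ
  triv : ∀ w : Pl F, w ∉ S → IsTriv (Kw F w) (Ow F w) a

/-- `x` is the class of a `2`-Selmer element which is twice a `4`-Selmer element -/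
def Lifts (c : F) (A : Fin 3 → F[X]) (D : F[X]) (x : Fin 3 → RatFunc F) : Prop :=
  ∃ a : GF F → Pt (eD c A D) (Oc F), IsCoc a ∧ IsCls x (fun σ => 2 • a σ) ∧
    ∀ w : Pl F, IsTriv (Kw F w) (Ow F w) a

/-- `g` is a local class of `a` at `w` -/
def LC {c : F} {A : Fin 3 → F[X]} {D : F[X]} (w : Pl F) (a : GF F → Pt (eD c A D) (Oc F))
    (g : Fin 3 → Kw F w) : Prop :=
  (∀ k, g k ≠ 0) ∧ (∃ y, ∏ k, g k = y ^ 2) ∧ ∃ ι : Oc F →ₐ[RatFunc F] Ow F w, IsLoc (eD c A D) ι a g

open Classical in
/-- a chosen local class -/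
noncomputable def lcl {c : F} {A : Fin 3 → F[X]} {D : F[X]} (w : Pl F)
    (a : GF F → Pt (eD c A D) (Oc F)) : Fin 3 → Kw F w :=
  if h : ∃ g, LC w a g then h.choose else 1

/-- the form: the sum of the local symbols of the local classes of the lift `a` with `y` -/
noncomputable def fr [Finite F] (χ : LChar F 2) (S : Finset (Pl F)) {c : F} {A : Fin 3 → F[X]}
    {D : F[X]} (a : GF F → Pt (eD c A D) (Oc F)) (y : Fin 3 → RatFunc F) : ZMod 2 :=
  ∑ w ∈ S, ∑ k, (Uw χ w).hs (lcl w a k) (iw w (y k))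

end

section
variable {F : Type} [Field F] [DecidableEq (RatFunc F)]

/-- `p + q √N` has norm `x m ^ 2` and is even at all places over the `w ∉ S` -/
structure Kg (S : Set (Pl F)) (N x p q m : RatFunc F) : Prop where
  m0 : m ≠ 0
  eq : p ^ 2 - N * q ^ 2 = x * m ^ 2
  sp : ∀ w : Pl F, w ∉ S → ∀ n : Kw F w, n ^ 2 = iw w N → ev w (iw w p + iw w q * n) = 0
  inr : ∀ w : Pl F, w ∉ S → ¬ IsSquare (iw w N) → ev w (iw w m) = 0

end

end Pool.Agent.H40.FS
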