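import Pool.Agent.H40.FS.CAL
import Pool.Agent.H40.FS.GD0

set_option autoImplicit false

/-!
# [H40 FS ALA] The sum of the local terms of the alternation formula

Put `s = q 1 p 0 + q 0 p 1`.  For `w ∈ S` `sy_alt` (`E = Kw F w`, `s = (Uw χ w).sy`, `n = n w ≠ 0`; `Kg.eq` mapped to `Kw F w`): the term is `hw (x 0) (q 0 s) + hw (x 1) (q 1 s)`.  Let `S₂` be a finite set which contains `S`, `U1` and all places where `x 0`, `x 1`, `q 0 s`, `q 1 s` have odd valuation (`ev_fin`): the sum over `S₂` of this is `0` (`hw_sum` twice), and the terms for `w ∈ S₂`, `w ∉ S` are `0`: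
`w ∈ U1`: `al_sq`; `w ∉ U1`, `iw w N = n ^ 2`: `al_sp` (`Kg.sp`; `Even (vl ..)` is `ev w .. = 0`); `iw w N` not a square: `al_in` (`Kg.inr`).  (`2` has valuation `1`: `val_two_w`.)  So the sum over `S` is `0`.
-/

namespace Pool.Agent.H40.FS

open Polynomial WithZero Pool.Agent.H74.FS
open Pool.Agent.H94.PL (LChar XX DK AK dl)
open Pool.Agent.H94.PM (LU vl IsVln IsSln)

variable {F : Type} [Field F] [DecidableEq (RatFunc F)] [Finite F] (χ : LChar F 2)
  {S U1 : Finset (Pl F)} {N : RatFunc F}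

omit [Finite F] in
private theorem ala_even {w : Pl F} {x : Kw F w} (h : ev w x = 0) : Even (vl (vw w) x) :=
  even_iff_two_dvd.2 ((ZMod.intCast_zmod_eq_zero_iff_dvd _ 2).1 h)

theorem al_sum (hq : 2 ∣ Nat.card F - 1) (hN : N ≠ 0)
    (hNu : ∀ w : Pl F, w ∉ S → w ∉ U1 → vw w (iw w N) = 1) {x p q m : Fin 2 → RatFunc F}
    (hx : ∀ i, x i ≠ 0) (hxu : ∀ w : Pl F, w ∉ S → w ∉ U1 → ∀ i, vw w (iw w (x i)) = 1)
    (hxs : ∀ w : Pl F, w ∈ U1 → w ∉ S → ∀ i, IsSquare (iw w (x i)))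
    (hk : ∀ i, Kg {w | w ∈ S ∨ w ∈ U1} N (x i) (p i) (q i) (m i)) (hq0 : ∀ i, q i ≠ 0)
    (hs0 : q 1 * p 0 + q 0 * p 1 ≠ 0) (n : ∀ w : Pl F, Kw F w)
    (hn : ∀ w ∈ S, n w ^ 2 = iw w N) :
    ∑ w ∈ S, ((Uw χ w).hs (iw w (p 0) + iw w (q 0) * n w) (iw w (x 1)) +
      (Uw χ w).hs (iw w (p 1) + iw w (q 1) * n w) (iw w (x 0))) = 0 := by
  classical
  obtain ⟨s, hs⟩ : ∃ s : RatFunc F, s = q 1 * p 0 + q 0 * p 1 := ⟨_, rfl⟩
  rw [← hs] at hs0
  have hmap : ∀ w : Pl F, iw w s = iw w (q 1) * iw w (p 0) + iw w (q 0) * iw w (p 1) := by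
    intro w
    rw [hs, map_add, map_mul, map_mul]
  have hmap0 : ∀ w : Pl F, iw w (q 1) * iw w (p 0) + iw w (q 0) * iw w (p 1) ≠ 0 := by
    intro w
    rw [← hmap w]
    exact iw_ne hs0
  have hkm : ∀ (w : Pl F) (i : Fin 2), iw w (p i) ^ 2 - iw w N * iw w (q i) ^ 2 =
      iw w (x i) * iw w (m i) ^ 2 := by
    intro w i
    rw [← map_pow, ← map_pow, ← map_pow, ← map_mul, ← map_mul, ← map_sub, (hk i).eq]
  have hdef : ∀ (w : Pl F) (i : Fin 2), hw χ w (x i) (q i * s) = (Uw χ w).hs (iw w (x i))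
      (iw w (q i) * (iw w (q 1) * iw w (p 0) + iw w (q 0) * iw w (p 1))) := by
    intro w i
    unfold hw
    rw [map_mul, hmap]
  have hterm : ∀ w ∈ S, (Uw χ w).hs (iw w (p 0) + iw w (q 0) * n w) (iw w (x 1)) +
      (Uw χ w).hs (iw w (p 1) + iw w (q 1) * n w) (iw w (x 0)) =
      hw χ w (x 0) (q 0 * s) + hw χ w (x 1) (q 1 * s) := by
    intro w hw
    have hnw : n w ≠ 0 := by
      intro h0
      have h1 := hn w hw
      rw [h0, zero_pow two_ne_zero] at h1
      exact iw_ne hN h1.symm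
    rw [hdef w 0, hdef w 1]
    exact sy_alt (Uw χ w).sy (two_ne_w hq w) hnw (x := fun i => iw w (x i))
      (p := fun i => iw w (p i)) (q := fun i => iw w (q i)) (m := fun i => iw w (m i))
      (fun i => iw_ne (hx i)) (fun i => iw_ne (hk i).m0)
      (fun i => by rw [hn w hw]; exact hkm w i) (fun i => iw_ne (hq0 i)) (hmap0 w)
  have hout : ∀ w, w ∉ S → hw χ w (x 0) (q 0 * s) + hw χ w (x 1) (q 1 * s) = 0 := by
    intro w hw
    rw [hdef w 0, hdef w 1]
    have h2 : (Valued.v : Valuation (Kw F w) ℤᵐ⁰) (2 : Kw F w) = 1 := by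
      have h := val_two_w hq w
      rwa [Nat.cast_ofNat] at h
    by_cases hU : w ∈ U1
    · exact al_sq (Uw χ w) (x := fun i => iw w (x i))
        (p := fun i => iw w (p i)) (q := fun i => iw w (q i)) (fun i => iw_ne (hx i))
        (fun i => hxs w hU hw i) (fun i => iw_ne (hq0 i)) (hmap0 w)
    · have hnot : w ∉ {w | w ∈ S ∨ w ∈ U1} := by
        rintro (h | h)
        · exact hw h
        · exact hU h
      by_cases hsq : IsSquare (iw w N)
      · obtain ⟨r, hr⟩ := hsq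
        have hr2 : r ^ 2 = iw w N := by rw [pow_two, hr]
        have hr0 : r ≠ 0 := by
          rintro rfl
          rw [zero_pow two_ne_zero] at hr2
          exact iw_ne hN hr2.symm
        exact al_sp (Uw χ w) (x := fun i => iw w (x i))
          (p := fun i => iw w (p i)) (q := fun i => iw w (q i)) (m := fun i => iw w (m i))
          h2 hr0 hr2 (fun i => hxu w hw hU i)
          (fun i => ala_even ((hk i).sp w hnot r hr2)) (fun i => iw_ne (hk i).m0)
          (fun i => hkm w i) (fun i => iw_ne (hq0 i)) (hmap0 w)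
      · exact al_in (Uw χ w) (x := fun i => iw w (x i))
          (p := fun i => iw w (p i)) (q := fun i => iw w (q i)) (m := fun i => iw w (m i))
          h2 (hNu w hw hU) hsq (fun i => hxu w hw hU i)
          (fun i => ala_even ((hk i).inr w hnot hsq)) (fun i => iw_ne (hk i).m0)
          (fun i => hkm w i) (fun i => iw_ne (hq0 i)) (hmap0 w)
  have hqs : ∀ i, q i * s ≠ 0 := fun i => mul_ne_zero (hq0 i) hs0
  obtain ⟨T, hT⟩ : ∃ T : Finset (Pl F), T = S ∪ ((ev_fin (hx 0)).toFinset ∪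
    (ev_fin (hx 1)).toFinset) ∪ ((ev_fin (hqs 0)).toFinset ∪ (ev_fin (hqs 1)).toFinset) :=
    ⟨_, rfl⟩
  have hST : S ⊆ T := by
    intro w hw
    rw [hT]
    exact Finset.mem_union_left _ (Finset.mem_union_left _ hw)
  have hnT : ∀ w, w ∉ T → ∀ i : Fin 2, ev w (iw w (x i)) = 0 ∧ ev w (iw w (q i * s)) = 0 := by
    intro w hw i
    rw [hT] at hw
    simp only [Finset.mem_union, Set.Finite.mem_toFinset, Set.mem_ofPred_eq, not_or,
      not_not] at hw
    fin_cases i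
    · exact ⟨hw.1.2.1, hw.2.1⟩
    · exact ⟨hw.1.2.2, hw.2.2⟩
  rw [Finset.sum_congr rfl hterm, Finset.sum_subset hST fun w _ hw => hout w hw,
    Finset.sum_add_distrib, hw_sum χ T (hx 0) (hqs 0) fun w hw => hnT w hw 0,
    hw_sum χ T (hx 1) (hqs 1) fun w hw => hnT w hw 1, add_zero]

end Pool.Agent.H40.FS
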