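import Pool.Agent.H40.FS.FRA

set_option autoImplicit false

/-!
# [H40 FS FRK] The kernel of the form consists of the lifting classes

`fr_lift`.  (→) Let `a₀` be a lift which is locally trivial everywhere; it is a `GLf S`, so `fr a y = fr a₀ y` (`fr_ind`) and `fr a₀ y = ∑ hs 1 (y k) = 0` (`fr_val` with `g w = 1`, `lc_one`; `hs 1 z = 0`: `hs_mul` or `LU.hs_one` type lemma; `sln_iff` for `Vw`).
(←) For `w` let `g w = lcl w a`, a local class (`lc_ex`, `sln_iff`, `lc_lcl`).  `h` says that `g` is orthogonal to all Selmer tuples (`fr` by definition), so `ker_lift` gives `η` with `Es S η` and `Vw w (g w k * η k)` for `w ∈ S`.  Let `a' σ = a σ + tau (sgx σ η)`: `glf_tau` (trivial outside `S`), and for `w ∈ S` `LC w a' (g w k * η k)` (`lc_tau`), `lc_triv`.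
`lifts_mul`: add the cocycles (`coc_add`; `lc_one`, `lc_add`).  `lifts_sq`: `IsCls` for `x k * z k ^ 2` is the same condition as for `x k`: the square roots are multiplied by `z k ∈ K` (or `isCls_iff` and `sg_sqm`).
`lifts_pt`: a class of a rational point: `Z₀` as in `IsKum`, `Z` with `2 Z = Z₀` (`exists_half`), `coc_pt` (`h` is its hypothesis; for `M = K = RatFunc F` `actM e σ = act e σ`), `loc_cob` and `loc_one` for an embedding `ι` (`IsSepClosed.lift`).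
-/

namespace Pool.Agent.H40.FS

open Polynomial WithZero Pool.Agent.H74.FS
open Pool.Agent.H94.PL (LChar XX DK AK dl)
open Pool.Agent.H94.PM (LU vl IsVln IsSln)

variable {F : Type} [Field F] [DecidableEq (RatFunc F)] [DecidableEq (Oc F)]
  [∀ w : Pl F, DecidableEq (Ow F w)] [Finite F] (χ : LChar F 2) {c : F} {A : Fin 3 → F[X]}
  {D : F[X]} {S : Finset (Pl F)} {a : GF F → Pt (eD c A D) (Oc F)} {x x' : Fin 3 → RatFunc F}

private theorem frk_hs {w : Pl F} {z : Kw F w} (hz : z ≠ 0) : (Uw χ w).hs 1 z = 0 := by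
  have h1 := hs_mul χ (one_ne_zero (α := Kw F w)) one_ne_zero hz
  rw [mul_one] at h1
  exact left_eq_add.1 h1

theorem fr_lift (hq : 2 ∣ Nat.card F - 1) (hc : c ≠ 0) (hA : ∀ i k, i ≠ k → A i ≠ A k)
    (hD : D ≠ 0) (hS : Bad A D S) (ha : GLf S c A D x a) (hx : IsSln 2 1 c A D x) :
    Lifts c A D x ↔ ∀ y : Fin 3 → RatFunc F, IsSln 2 1 c A D y → fr χ S a y = 0 := by
  have hx' := sln_iff.1 hx
  constructor
  · rintro ⟨a₀, h1, h2, h3⟩ y hy
    have hy' := sln_iff.1 hy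
    have h4 : GLf S c A D x a₀ := ⟨h1, h2, fun w _ => h3 w⟩
    rw [fr_ind χ hq hc hA hD hS ha h4 hx hy,
      fr_val χ hq hc hA hD h1 (g := fun w => 1) (fun w _ => (lc_one hq).1 (h3 w))
        (fun w _ => hy'.2.2 w)]
    refine Finset.sum_eq_zero fun w _ => Finset.sum_eq_zero fun k _ => ?_
    exact frk_hs χ (iw_ne (hy'.1 k))
  · intro h
    have hg : ∀ w : Pl F, LC w a (lcl w a) := fun w => by
      obtain ⟨g, hg⟩ := lc_ex hq hc hA hD hx'.1 hx'.2.1 ha.coc ha.cls (hx'.2.2 w)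
      exact lc_lcl hg
    obtain ⟨η, hη, hv⟩ := ker_lift χ hq (by norm_num : Nat.Coprime 3 2) hc hA hD hS
      (fun w => lcl w a) (fun w _ => (hg w).1) (fun w _ => (hg w).2.1) h
    have hga := glf_tau hq hc hA hD hS hη ha hx
    refine ⟨_, hga.coc, hga.cls, fun w => ?_⟩
    by_cases hw : w ∈ S
    · exact lc_triv hq hc hA hD (lc_tau hq hc hA hD hη.ne hη.prod (hg w)) (hv w hw)
    · exact hga.triv w hw

theorem lifts_mul (hq : 2 ∣ Nat.card F - 1) (hc : c ≠ 0) (hA : ∀ i k, i ≠ k → A i ≠ A k)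
    (hD : D ≠ 0) (hx : ∀ k, x k ≠ 0) (hp : ∃ y, ∏ k, x k = y ^ 2) (hx' : ∀ k, x' k ≠ 0)
    (hp' : ∃ y, ∏ k, x' k = y ^ 2) (h : Lifts c A D x) (h' : Lifts c A D x') :
    Lifts c A D fun k => x k * x' k := by
  obtain ⟨a, h1, h2, h3⟩ := h
  obtain ⟨a', h1', h2', h3'⟩ := h'
  obtain ⟨h4, h5⟩ := coc_add (two_rf hq) (eD_inj hc hA hD) hx hp hx' hp' h1 h2 h1' h2'
  refine ⟨_, h4, h5, fun w => (lc_one hq).2 ?_⟩
  have h6 := lc_add hq hc hA hD h1 h1' ((lc_one hq).1 (h3 w)) ((lc_one hq).1 (h3' w))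
  rwa [mul_one] at h6

theorem lifts_sq (hq : 2 ∣ Nat.card F - 1) (hx : ∀ k, x k ≠ 0) {z : Fin 3 → RatFunc F}
    (hz : ∀ k, z k ≠ 0) (h : Lifts c A D x) : Lifts c A D fun k => x k * z k ^ 2 := by
  have _ := hq
  have _ := hx
  obtain ⟨a, h1, h2, h3⟩ := h
  refine ⟨a, h1, fun σ k r hr => ?_, h3⟩
  have hzk : algebraMap (RatFunc F) (Oc F) (z k) ≠ 0 := by
    intro h0
    exact hz k ((algebraMap (RatFunc F) (Oc F)).injective (by rw [h0, map_zero]))
  have h4 : (r / algebraMap (RatFunc F) (Oc F) (z k)) ^ 2 =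
      algebraMap (RatFunc F) (Oc F) (x k) := by
    rw [div_pow, hr, map_mul, map_pow, mul_div_assoc, div_self (pow_ne_zero 2 hzk), mul_one]
  rw [← h2 σ k _ h4, map_div₀, AlgEquiv.commutes, div_left_inj' hzk]

theorem lifts_pt (hq : 2 ∣ Nat.card F - 1) (hc : c ≠ 0) (hA : ∀ i k, i ≠ k → A i ≠ A k)
    (hD : D ≠ 0) (hx : ∀ k, x k ≠ 0) (hp : ∃ y, ∏ k, x k = y ^ 2)
    (h : IsKum (M := RatFunc F) (eD c A D) (Oc F) x) : Lifts c A D x := by
  obtain ⟨Z₀, hZ₀⟩ := h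
  obtain ⟨Z, hZ⟩ := exists_half (two_rf hq) (eD_inj hc hA hD) Z₀
  obtain ⟨h1, h2⟩ := coc_pt (two_rf hq) (eD_inj hc hA hD) hx hp (Z := Z) (fun σ => by
    rw [hZ]
    exact hZ₀ σ)
  refine ⟨_, h1, h2, fun w => ?_⟩
  exact (loc_one (two_rf hq)).2 ⟨IsSepClosed.lift, loc_cob (two_rf hq) _ Z⟩

end Pool.Agent.H40.FS
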