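import Pool.Agent.H94.PM.HEN

set_option autoImplicit false

/-!
# [H40 FS CVL] Local lemmas: units, inert elements

`M` complete, `v 2 = 1` where needed, `U : LU v 2`, `hs` the tame symbol.
* `hs_even`: in `ZMod 2` the valuations are `0` (`hs` is `un x * vl y - vl x * un y + un (-1) * (vl x * vl y)`).
* `hs_unit`: `vl N = 0`, `hs x N = - vl x * un N`, and `un N ≠ 0`, since otherwise `N` is a square (`U.ker` and `hen` with `ℓ = 2`: `N * y ^ 2` is near `1`).
* `hs_odd`: `vl N` odd, `vl x = 0`: `hs x N = un x`.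
* `hs_sq`: `hs (y ^ 2) x = 0`, `hs x (y ^ 2) = 0` (`hs_pow` or the definition).
* `inert_max`: scale by `a` or `b`, see `IN1` (`exists_val`): let `v b ≤ v a` (`a ≠ 0`): `v (a ^ 2 - N b ^ 2) ≤ v a ^ 2`, and if `<` then `v b = v a` and `N b ^ 2 / a ^ 2` is near `1`, hence a square (`hen`), so `N` is a square.  If `v a < v b` the two terms have different valuations.
* `inert_even`: from `inert_max`.
* `inert_q`: `x` a unit, not a square, `p ^ 2 - N q ^ 2 = x m ^ 2`: by `inert_max` `max (v p) (v q) = v m`; if `v q < v m` then `v p = v m`, `x = (p / m) ^ 2 * (1 - N q ^ 2 / p ^ 2)` and the last factor is near `1`, so `x` is a square.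
-/

namespace Pool.Agent.H40.FS

open WithZero Pool.Agent.H94.PM

variable {M : Type} [Field M] [Valued M ℤᵐ⁰] [CompleteSpace M]
  (U : LU (Valued.v : Valuation M ℤᵐ⁰) 2)

private theorem z2 : (2 : ZMod 2) = 0 := rfl

private theorem cast_even {n : ℤ} (h : Even n) : ((n : ℤ) : ZMod 2) = 0 := by
  obtain ⟨k, rfl⟩ := h
  push_cast
  linear_combination (k : ZMod 2) * z2

private theorem cast_odd {n : ℤ} (h : Odd n) : ((n : ℤ) : ZMod 2) = 1 := by
  obtain ⟨k, rfl⟩ := h
  push_cast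
  linear_combination (k : ZMod 2) * z2

private theorem eq_one_of_ne {a : ZMod 2} (h : a ≠ 0) : a = 1 := by
  revert a
  decide

omit [CompleteSpace M] in
private theorem vl_zero {x : M} (h : (Valued.v : Valuation M ℤᵐ⁰) x = 1) : vl Valued.v x = 0 := by
  unfold vl
  rw [h, log_one, neg_zero]

private theorem hen2 (h2 : (Valued.v : Valuation M ℤᵐ⁰) (2 : M) = 1) {x : M}
    (hx : (Valued.v : Valuation M ℤᵐ⁰) (x - 1) < 1) : ∃ y : M, y ^ 2 = x := by
  obtain ⟨y, -, hy⟩ := hen (ℓ := 2) (by rw [Nat.cast_ofNat]; exact h2) hx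
  exact ⟨y, hy⟩

omit [CompleteSpace M] in
theorem hs_even {x y : M} (hx : Even (vl Valued.v x)) (hy : Even (vl Valued.v y)) :
    U.hs x y = 0 := by
  unfold LU.hs
  rw [cast_even hx, cast_even hy]
  ring

theorem hs_unit (h2 : (Valued.v : Valuation M ℤᵐ⁰) (2 : M) = 1) {N x : M}
    (hN : (Valued.v : Valuation M ℤᵐ⁰) N = 1) (hns : ¬ IsSquare N) :
    U.hs x N = (vl Valued.v x : ZMod 2) := by
  have hN0 : N ≠ 0 := by
    rintro rfl
    rw [map_zero] at hN
    exact zero_ne_one hN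
  have hun : U.un N ≠ 0 := by
    intro h0
    obtain ⟨y, hy, hy1⟩ := U.ker N hN h0
    obtain ⟨z, hz⟩ := hen2 h2 hy1
    apply hns
    refine ⟨z / y, ?_⟩
    field_simp
    exact hz.symm
  unfold LU.hs
  rw [vl_zero hN, eq_one_of_ne hun, Int.cast_zero]
  linear_combination (-(vl Valued.v x : ZMod 2)) * z2

omit [CompleteSpace M] in
theorem hs_odd {N x : M} (hN : Odd (vl Valued.v N)) (hx : vl Valued.v x = 0) :
    U.hs x N = U.un x := by
  unfold LU.hs
  rw [hx, cast_odd hN, Int.cast_zero]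
  ring

omit [CompleteSpace M] in
theorem hs_sq {x y : M} (hx : x ≠ 0) (hy : y ≠ 0) : U.hs (x ^ 2) y = 0 ∧ U.hs y (x ^ 2) = 0 := by
  constructor
  · rw [pow_two, U.hs_mul_left x x y hx hx hy]
    linear_combination (U.hs x y) * z2
  · rw [pow_two, U.hs_mul_right y x x hy hx hx]
    linear_combination (U.hs y x) * z2

theorem inert_max (h2 : (Valued.v : Valuation M ℤᵐ⁰) (2 : M) = 1) {N : M}
    (hN : (Valued.v : Valuation M ℤᵐ⁰) N = 1) (hns : ¬ IsSquare N) (a b : M) :
    (Valued.v : Valuation M ℤᵐ⁰) (a ^ 2 - N * b ^ 2) =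
      max ((Valued.v : Valuation M ℤᵐ⁰) a) (Valued.v b) ^ 2 := by
  have hN0 : N ≠ 0 := by
    rintro rfl
    rw [map_zero] at hN
    exact zero_ne_one hN
  have hb2 : (Valued.v : Valuation M ℤᵐ⁰) (N * b ^ 2) = (Valued.v : Valuation M ℤᵐ⁰) b ^ 2 := by
    rw [map_mul, map_pow, hN, one_mul]
  rcases lt_trichotomy ((Valued.v : Valuation M ℤᵐ⁰) b) ((Valued.v : Valuation M ℤᵐ⁰) a)
    with h | h | h
  · rw [max_eq_left h.le, ← map_pow]
    apply Valuation.map_sub_eq_of_lt_left
    rw [hb2, map_pow]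
    exact pow_lt_pow_left₀ h zero_le' two_ne_zero
  · rw [h, max_self]
    by_cases hb : b = 0
    · rw [hb, map_zero] at h
      have ha : a = 0 := (Valuation.zero_iff _).mp h.symm
      rw [ha, hb, map_zero]
      norm_num
    · have ha : a ≠ 0 := by
        intro h0
        rw [h0, map_zero] at h
        exact hb ((Valuation.zero_iff _).mp h)
      by_contra hne
      have hle : (Valued.v : Valuation M ℤᵐ⁰) (a ^ 2 - N * b ^ 2) ≤
          (Valued.v : Valuation M ℤᵐ⁰) a ^ 2 := by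
        refine (Valuation.map_sub _ _ _).trans (max_le ?_ ?_)
        · rw [map_pow]
        · rw [hb2, h]
      have hlt := lt_of_le_of_ne hle hne
      have hNb : N * b ^ 2 ≠ 0 := mul_ne_zero hN0 (pow_ne_zero 2 hb)
      have h1 : a ^ 2 / (N * b ^ 2) - 1 = (a ^ 2 - N * b ^ 2) / (N * b ^ 2) := by
        field_simp
      have h3 : (Valued.v : Valuation M ℤᵐ⁰) (a ^ 2 / (N * b ^ 2) - 1) < 1 := by
        rw [h1, map_div₀, hb2, h]
        rw [div_lt_one₀ (by
          rw [← map_pow]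
          exact zero_lt_iff.mpr ((Valuation.ne_zero_iff _).mpr (pow_ne_zero 2 ha)))]
        exact hlt
      obtain ⟨y, hy⟩ := hen2 h2 h3
      have hy0 : y ≠ 0 := by
        rintro rfl
        have h4 : a ^ 2 / (N * b ^ 2) = 0 := by rw [← hy]; ring
        rw [div_eq_zero_iff] at h4
        rcases h4 with h4 | h4
        · exact pow_ne_zero 2 ha h4
        · exact hNb h4
      apply hns
      refine ⟨a / (b * y), ?_⟩
      rw [eq_div_iff hNb] at hy
      field_simp
      linear_combination hy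
  · rw [max_eq_right h.le, ← hb2]
    apply Valuation.map_sub_eq_of_lt_right
    rw [hb2, map_pow]
    exact pow_lt_pow_left₀ h zero_le' two_ne_zero

theorem inert_even (h2 : (Valued.v : Valuation M ℤᵐ⁰) (2 : M) = 1) {N : M}
    (hN : (Valued.v : Valuation M ℤᵐ⁰) N = 1) (hns : ¬ IsSquare N) (a b : M) :
    Even (vl Valued.v (a ^ 2 - N * b ^ 2)) := by
  have h1 := inert_max h2 hN hns a b
  rcases max_cases ((Valued.v : Valuation M ℤᵐ⁰) a) (Valued.v b) with h | h
  · rw [h.1, ← map_pow] at h1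
    have h3 : vl Valued.v (a ^ 2 - N * b ^ 2) = vl Valued.v (a ^ 2) := by
      unfold vl
      rw [h1]
    rw [h3, vl_pow]
    exact ⟨vl Valued.v a, by push_cast; ring⟩
  · rw [h.1, ← map_pow] at h1
    have h3 : vl Valued.v (a ^ 2 - N * b ^ 2) = vl Valued.v (b ^ 2) := by
      unfold vl
      rw [h1]
    rw [h3, vl_pow]
    exact ⟨vl Valued.v b, by push_cast; ring⟩

theorem inert_q (h2 : (Valued.v : Valuation M ℤᵐ⁰) (2 : M) = 1) {N : M}
    (hN : (Valued.v : Valuation M ℤᵐ⁰) N = 1) (hns : ¬ IsSquare N) {x p q m : M}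
    (hx : (Valued.v : Valuation M ℤᵐ⁰) x = 1) (hxs : ¬ IsSquare x) (hm : m ≠ 0)
    (h : p ^ 2 - N * q ^ 2 = x * m ^ 2) : vl Valued.v q = vl Valued.v m := by
  have h1 := inert_max h2 hN hns p q
  rw [h, map_mul, hx, one_mul, map_pow] at h1
  have h3 : max ((Valued.v : Valuation M ℤᵐ⁰) p) (Valued.v q) = Valued.v m :=
    ((pow_left_inj₀ zero_le' zero_le' two_ne_zero).mp h1).symm
  suffices hs : (Valued.v : Valuation M ℤᵐ⁰) q = Valued.v m by
    unfold vl
    rw [hs]
  have hqm : (Valued.v : Valuation M ℤᵐ⁰) q ≤ Valued.v m := h3 ▸ le_max_right _ _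
  by_contra hne
  have hlt := lt_of_le_of_ne hqm hne
  have hpm : (Valued.v : Valuation M ℤᵐ⁰) p = Valued.v m := by
    rcases max_cases ((Valued.v : Valuation M ℤᵐ⁰) p) (Valued.v q) with h4 | h4
    · rw [← h3, h4.1]
    · rw [h4.1] at h3
      exact absurd h3 hne
  have hp : p ≠ 0 := by
    rintro rfl
    rw [map_zero] at hpm
    exact hm ((Valuation.zero_iff _).mp hpm.symm)
  have h4 : (Valued.v : Valuation M ℤᵐ⁰) (x * m ^ 2 / p ^ 2 - 1) < 1 := by
    have h5 : x * m ^ 2 / p ^ 2 - 1 = -(N * q ^ 2 / p ^ 2) := by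
      rw [← h]
      field_simp
      ring
    rw [h5, Valuation.map_neg, map_div₀, map_mul, map_pow, map_pow, hN, one_mul, hpm]
    rw [div_lt_one₀ (by
      rw [← map_pow]
      exact zero_lt_iff.mpr ((Valuation.ne_zero_iff _).mpr (pow_ne_zero 2 hm)))]
    exact pow_lt_pow_left₀ hlt zero_le' two_ne_zero
  obtain ⟨y, hy⟩ := hen2 h2 h4
  apply hxs
  refine ⟨y * p / m, ?_⟩
  rw [eq_div_iff (pow_ne_zero 2 hp)] at hy
  field_simp
  linear_combination -hy

end Pool.Agent.H40.FS
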