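import Pool.Agent.H40.FS.PAR
import Pool.Agent.H40.FS.GD0
import Pool.Agent.H40.FS.CVL

set_option autoImplicit false

/-!
# [H40 FS KGP] Elements of norm `x` with even valuations: parities, genericity

`k = p + q √N` (`Kg`), `S` a set of places containing infinity, `N`, `x` units outside `S`.
* `kg_par`: for `w ∉ S` call `w` bad if `iw w N = n ^ 2` and `ev w (p + q n) ≠ 0`, or `iw w N` is not a square and `ev w m ≠ 0`.  Only finitely many `w` are bad: let `w ∉ S` with `v m = 1` and `v p ≤ 1`, `v q ≤ 1` (all but finitely many `w`: numerators and denominators have finitely many prime factors).  Then `m` is even, and in the square case `(p + q n)(p - q n) = x m ^ 2` has valuation `1` and both factors are integral (`v n = 1` as `v N = 1`), so both have valuation `1`.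
  In the square case the condition does not depend on the root `n`: the other root is `- n` and `ev (p + q n) + ev (p - q n) = ev (x m ^ 2) = 0`.  Let `f` be the element of `par1` with `T` = the set of the bad `w`, `t = 1` (`none ∈ S`, so `none ∉ T`).  Multiplying `p`, `q`, `m` by `f` changes all these parities exactly at the bad `w` (`ev_mul`; `p + q n ≠ 0` since the norm is not zero).
* `kg_gen`.  For `t ∈ K`, `θ = t + √N`, `k θ ^ 2 = (p (t² + N) + 2 N t q) + (q (t² + N) + 2 t p) √N`, the norm is `x (m (t² - N)) ^ 2`.  If `t² ≠ N` then `Kg` holds for it: in the square case `ev (k θ ^ 2) = ev k` (`θ = t + n ≠ 0`), in the other case `ev (t² - N) = 0` by `inert_even` (`hNu`).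
  The conditions are polynomial conditions on `t`: `q t² + 2 p t + q N ≠ 0` (not the zero polynomial since `(p, q) ≠ (0, 0)`, `2 ≠ 0`), `(p + u m) t² + 2 N q t + N (p - u m) ≠ 0` (if it is the zero polynomial then `q = 0`, `p = - u m = u m`, `p = 0`), `t² ≠ N`.  A nonzero polynomial has finitely many roots and `RatFunc F` is infinite.
  First choose `t = t₁` for `k_1` (conditions `q' 1 ≠ 0`, `p' 1 / m' 1 + u 1 ≠ 0`).  Then `k_0 k_1'` has the components `P = p 0 p' 1 + N q 0 q' 1`, `Q = p 0 q' 1 + q 0 p' 1`, norm `x 0 x 1 (m 0 m' 1) ^ 2 ≠ 0`, and with `k_0 θ ^ 2` in place of `k_0` it becomes `(P + Q √N) θ ^ 2`: the conditions on `q' 1 p' 0 + q' 0 p' 1` and on `u 2` are the same polynomial conditions with `(P, Q, m 0 m' 1)`.  Choose `t₀` for these and the two conditions for `k_0`.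
-/

namespace Pool.Agent.H40.FS

open Polynomial WithZero Pool.Agent.H74.FS
open Pool.Agent.H94.PL (LChar XX DK AK dl)
open Pool.Agent.H94.PM (LU vl IsVln IsSln)

variable {F : Type} [Field F] [DecidableEq (RatFunc F)] [Finite F] {S : Set (Pl F)}
  {N : RatFunc F}

private theorem kg_z2 {a : ZMod 2} (h : a ≠ 0) : a = 1 := by
  revert a
  decide

private theorem kg_two : (1 : ZMod 2) + 1 = 0 := rfl

omit [Finite F] in
private theorem ev_one {w : Pl F} {x : Kw F w} (h : vw w x = 1) : ev w x = 0 := by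
  unfold ev vl
  rw [h, log_one, neg_zero, Int.cast_zero]

omit [Finite F] in
private theorem fin_one {x : RatFunc F} (hx : x ≠ 0) : {w : Pl F | vw w (iw w x) ≠ 1}.Finite := by
  classical
  have hn : x.num ≠ 0 := RatFunc.num_ne_zero hx
  have hd : x.denom ≠ 0 := RatFunc.denom_ne_zero x
  have hnd : x.num * x.denom ≠ 0 := mul_ne_zero hn hd
  have hfin : ((fun P : {P : F[X] // P.Monic ∧ Irreducible P} => P.1) ⁻¹'
      ((UniqueFactorizationMonoid.normalizedFactors (x.num * x.denom)).toFinset :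
        Set F[X])).Finite :=
    Set.Finite.preimage (Subtype.val_injective.injOn) (Finset.finite_toSet _)
  refine ((Set.finite_singleton (none : Pl F)).union (hfin.image some)).subset ?_
  rintro (_ | ⟨P, hP, hi⟩) hw
  · exact Or.inl rfl
  · refine Or.inr ⟨⟨P, hP, hi⟩, ?_, rfl⟩
    rw [Set.mem_preimage, Finset.mem_coe, Multiset.mem_toFinset,
      UniqueFactorizationMonoid.mem_normalizedFactors_iff' hnd]
    refine ⟨hi, hP.normalize_eq_self, ?_⟩
    by_contra hndv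
    apply hw
    have h1 : vw (some ⟨P, hP, hi⟩ : Pl F) (iw _ (algebraMap F[X] (RatFunc F) x.num)) = 1 :=
      H94.PL.wP_eq_one hi fun h => hndv (h.mul_right _)
    have h2 : vw (some ⟨P, hP, hi⟩ : Pl F) (iw _ (algebraMap F[X] (RatFunc F) x.denom)) = 1 :=
      H94.PL.wP_eq_one hi fun h => hndv (h.mul_left _)
    rw [← RatFunc.num_div_denom x, map_div₀, map_div₀, h1, h2, div_one]

theorem kg_par (hq : 2 ∣ Nat.card F - 1) (hS : (none : Pl F) ∈ S) (hN : N ≠ 0)
    (hNu : ∀ w : Pl F, w ∉ S → vw w (iw w N) = 1) {x p q m : RatFunc F} (hx : x ≠ 0)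
    (hxu : ∀ w : Pl F, w ∉ S → vw w (iw w x) = 1) (hm : m ≠ 0)
    (h : p ^ 2 - N * q ^ 2 = x * m ^ 2) :
    ∃ f : RatFunc F, f ≠ 0 ∧ Kg S N x (f * p) (f * q) (f * m) := by
  classical
  have hprod : ∀ (w : Pl F) (n : Kw F w), n ^ 2 = iw w N →
      (iw w p + iw w q * n) * (iw w p + iw w q * (-n)) = iw w x * iw w m ^ 2 := by
    intro w n hn
    have h1 := congrArg (iw w) h
    rw [map_sub, map_mul, map_mul, map_pow, map_pow, map_pow, ← hn] at h1
    rw [← h1]
    ring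
  have hxm : ∀ w : Pl F, iw w x * iw w m ^ 2 ≠ 0 := fun w =>
    mul_ne_zero (iw_ne hx) (pow_ne_zero 2 (iw_ne hm))
  have hne : ∀ (w : Pl F) (n : Kw F w), n ^ 2 = iw w N → iw w p + iw w q * n ≠ 0 := by
    intro w n hn h0
    apply hxm w
    rw [← hprod w n hn, h0, zero_mul]
  have hconj : ∀ (w : Pl F), w ∉ S → ∀ n : Kw F w, n ^ 2 = iw w N →
      ev w (iw w p + iw w q * n) + ev w (iw w p + iw w q * (-n)) = 0 := by
    intro w hw n hn
    rw [← ev_mul (hne w n hn) (hne w (-n) (by rw [neg_sq, hn])), hprod w n hn,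
      ev_mul (iw_ne hx) (pow_ne_zero 2 (iw_ne hm)), ev_sq, ev_one (hxu w hw), add_zero]
  have hfin : {w : Pl F | w ∉ S ∧ ((∃ n : Kw F w, n ^ 2 = iw w N ∧
      ev w (iw w p + iw w q * n) ≠ 0) ∨ (¬ IsSquare (iw w N) ∧ ev w (iw w m) ≠ 0))}.Finite := by
    have hb : ∀ r : RatFunc F, {w : Pl F | ¬ vw w (iw w r) ≤ 1}.Finite := by
      intro r
      by_cases hr : r = 0
      · refine Set.Finite.subset Set.finite_empty ?_
        intro w hw
        apply hw
        rw [hr, map_zero, map_zero]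
        exact zero_le
      · refine (fin_one hr).subset ?_
        intro w hw h1
        exact hw h1.le
    refine (((fin_one hm).union (hb p)).union (hb q)).subset ?_
    rintro w ⟨hw, hw2⟩
    by_contra hc
    have h1 : vw w (iw w m) = 1 := by
      by_contra h1
      exact hc (Or.inl (Or.inl h1))
    have h2 : vw w (iw w p) ≤ 1 := by
      by_contra h1
      exact hc (Or.inl (Or.inr h1))
    have h3 : vw w (iw w q) ≤ 1 := by
      by_contra h1
      exact hc (Or.inr h1)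
    rcases hw2 with ⟨n, hn, hn2⟩ | ⟨-, hn⟩
    · apply hn2
      apply ev_one
      have h4 : vw w n ≤ 1 := by
        have h5 : vw w n ^ 2 = 1 := by rw [← map_pow, hn, hNu w hw]
        by_contra h6
        have h7 : 1 < vw w n := lt_of_not_ge h6
        have h8 : 1 < vw w n ^ 2 := one_lt_pow₀ h7 two_ne_zero
        exact h8.ne' h5
      have hle : ∀ n' : Kw F w, vw w n' ≤ 1 → vw w (iw w p + iw w q * n') ≤ 1 := by
        intro n' hn'
        refine (Valuation.map_add _ _ _).trans (max_le h2 ?_)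
        rw [map_mul]
        exact mul_le_one' h3 hn'
      have h5 := hle n h4
      have h6 := hle (-n) (by rw [Valuation.map_neg]; exact h4)
      have h7 : vw w (iw w p + iw w q * n) * vw w (iw w p + iw w q * (-n)) = 1 := by
        rw [← map_mul, hprod w n hn, map_mul, map_pow, hxu w hw, h1, one_pow, one_mul]
      refine le_antisymm h5 ?_
      calc (1 : ℤᵐ⁰) = vw w (iw w p + iw w q * n) * vw w (iw w p + iw w q * (-n)) := h7.symm
        _ ≤ vw w (iw w p + iw w q * n) * 1 := by gcongr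
        _ = vw w (iw w p + iw w q * n) := mul_one _
    · exact hn (ev_one h1)
  have hnT : (none : Pl F) ∉ hfin.toFinset := by
    rw [Set.Finite.mem_toFinset]
    rintro ⟨h1, -⟩
    exact h1 hS
  obtain ⟨f, hf0, hf1, hf2⟩ := par1 hnT (fun _ => 1)
  refine ⟨f, hf0, mul_ne_zero hf0 hm, ?_, ?_, ?_⟩
  · linear_combination f ^ 2 * h
  · intro w hw n hn
    have hwn : w ≠ none := by
      rintro rfl
      exact hw hS
    have h1 : iw w (f * p) + iw w (f * q) * n = iw w f * (iw w p + iw w q * n) := by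
      rw [map_mul, map_mul]
      ring
    rw [h1, ev_mul (iw_ne hf0) (hne w n hn)]
    by_cases hwT : w ∈ hfin.toFinset
    · rw [hf1 w hwT]
      have h2 : ev w (iw w p + iw w q * n) = 1 := by
        apply kg_z2
        obtain ⟨-, ⟨n', hn', hn2⟩ | ⟨hns, -⟩⟩ := (Set.Finite.mem_toFinset hfin).1 hwT
        · rcases sq_eq_sq_iff_eq_or_eq_neg.1 (hn'.trans hn.symm) with h3 | h3
          · rwa [h3] at hn2
          · intro h4
            have h5 := hconj w hw n hn
            rw [h4, zero_add] at h5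
            rw [h3] at hn2
            exact hn2 h5
        · exact absurd ⟨n, by rw [← hn, sq]⟩ hns
      rw [h2]
      exact kg_two
    · rw [hf2 w hwn hwT, zero_add]
      by_contra h2
      exact hwT ((Set.Finite.mem_toFinset hfin).2 ⟨hw, Or.inl ⟨n, hn, h2⟩⟩)
  · intro w hw hns
    have hwn : w ≠ none := by
      rintro rfl
      exact hw hS
    rw [map_mul, ev_mul (iw_ne hf0) (iw_ne hm)]
    by_cases hwT : w ∈ hfin.toFinset
    · rw [hf1 w hwT]
      have h2 : ev w (iw w m) = 1 := by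
        apply kg_z2
        obtain ⟨-, ⟨n', hn', hn2⟩ | ⟨-, h3⟩⟩ := (Set.Finite.mem_toFinset hfin).1 hwT
        · exact absurd ⟨n', by rw [← hn', sq]⟩ hns
        · exact h3
      rw [h2]
      exact kg_two
    · rw [hf2 w hwn hwT, zero_add]
      by_contra h2
      exact hwT ((Set.Finite.mem_toFinset hfin).2 ⟨hw, Or.inr ⟨hns, h2⟩⟩)

private theorem kg_sq (hq : 2 ∣ Nat.card F - 1)
    (hNu : ∀ w : Pl F, w ∉ S → vw w (iw w N) = 1) {x p q m : RatFunc F} (h : Kg S N x p q m)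
    (t : RatFunc F) (ht : t ^ 2 ≠ N) :
    Kg S N x (p * (t ^ 2 + N) + 2 * N * t * q) (q * (t ^ 2 + N) + 2 * t * p)
      (m * (t ^ 2 - N)) := by
  have htN : t ^ 2 - N ≠ 0 := sub_ne_zero.2 ht
  refine ⟨mul_ne_zero h.m0 htN, ?_, ?_, ?_⟩
  · linear_combination (t ^ 2 - N) ^ 2 * h.eq
  · intro w hw n hn
    have h1 : iw w (p * (t ^ 2 + N) + 2 * N * t * q) + iw w (q * (t ^ 2 + N) + 2 * t * p) * n =
        (iw w p + iw w q * n) * (iw w t + n) ^ 2 := by
      simp only [map_add, map_mul, map_pow, map_ofNat, ← hn]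
      ring
    have h2 : iw w t + n ≠ 0 := by
      intro h3
      apply ht
      apply (iw w).injective
      rw [map_pow, ← hn, eq_neg_of_add_eq_zero_left h3, neg_sq]
    by_cases h3 : iw w p + iw w q * n = 0
    · rw [h1, h3, zero_mul]
      have h4 := h.sp w hw n hn
      rwa [h3] at h4
    · rw [h1, ev_mul h3 (pow_ne_zero 2 h2), ev_sq, h.sp w hw n hn, add_zero]
  · intro w hw hns
    rw [map_mul, ev_mul (iw_ne h.m0) (iw_ne htN), h.inr w hw hns, zero_add]
    have h2 := val_two_w hq w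
    rw [Nat.cast_ofNat] at h2
    have h1 := inert_even h2 (hNu w hw) hns (iw w t) 1
    have h3 : iw w (t ^ 2 - N) = iw w t ^ 2 - iw w N * 1 ^ 2 := by
      rw [map_sub, map_pow]
      ring
    rw [h3]
    obtain ⟨j, hj⟩ := h1
    unfold ev
    rw [hj, Int.cast_add]
    exact CharTwo.add_self_eq_zero _

omit [DecidableEq (RatFunc F)] [Finite F] in
private theorem kg_fin {a b c : RatFunc F} (h : ¬ (a = 0 ∧ b = 0 ∧ c = 0)) :
    {t : RatFunc F | a * t ^ 2 + b * t + c = 0}.Finite := by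
  have hP : (C a * X ^ 2 + C b * X + C c : (RatFunc F)[X]) ≠ 0 := by
    intro h0
    apply h
    have h2 := congrArg (fun P => coeff P 2) h0
    have h1 := congrArg (fun P => coeff P 1) h0
    have h3 := congrArg (fun P => coeff P 0) h0
    simp [coeff_X, coeff_C] at h2 h1 h3
    exact ⟨h2, h1, h3⟩
  refine (finite_setOf_isRoot hP).subset ?_
  intro t ht
  show IsRoot _ t
  rw [IsRoot.def, eval_add, eval_add, eval_mul, eval_mul, eval_pow, eval_C, eval_C, eval_C, eval_X]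
  exact ht

private theorem kg_b1 (h2 : (2 : RatFunc F) ≠ 0) {p q : RatFunc F} (h : ¬ (p = 0 ∧ q = 0)) :
    {t : RatFunc F | q * (t ^ 2 + N) + 2 * t * p = 0}.Finite := by
  have h1 : ¬ (q = 0 ∧ 2 * p = 0 ∧ q * N = 0) := by
    rintro ⟨h3, h4, -⟩
    exact h ⟨(mul_eq_zero.1 h4).resolve_left h2, h3⟩
  refine (kg_fin h1).subset ?_
  intro t ht
  show _ = _
  rw [← (show q * (t ^ 2 + N) + 2 * t * p = 0 from ht)]
  ring

private theorem kg_b2 (h2 : (2 : RatFunc F) ≠ 0) (hN : N ≠ 0) {p q : RatFunc F}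
    (h : ¬ (p = 0 ∧ q = 0)) (u : RatFunc F) :
    {t : RatFunc F | p * (t ^ 2 + N) + 2 * N * t * q + u * (t ^ 2 - N) = 0}.Finite := by
  have h1 : ¬ (p + u = 0 ∧ 2 * N * q = 0 ∧ N * (p - u) = 0) := by
    rintro ⟨h3, h4, h5⟩
    have h6 := (mul_eq_zero.1 h5).resolve_left hN
    refine h ⟨?_, (mul_eq_zero.1 h4).resolve_left (mul_ne_zero h2 hN)⟩
    have h7 : 2 * p = 0 := by linear_combination h3 + h6
    exact (mul_eq_zero.1 h7).resolve_left h2
  refine (kg_fin h1).subset ?_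
  intro t ht
  show _ = _
  rw [← (show p * (t ^ 2 + N) + 2 * N * t * q + u * (t ^ 2 - N) = 0 from ht)]
  ring

private theorem kg_b3 : {t : RatFunc F | t ^ 2 = N}.Finite := by
  have h1 : ¬ ((1 : RatFunc F) = 0 ∧ (0 : RatFunc F) = 0 ∧ -N = 0) := fun h => one_ne_zero h.1
  refine (kg_fin h1).subset ?_
  intro t ht
  show _ = _
  rw [(show t ^ 2 = N from ht)]
  ring

theorem kg_gen (hq : 2 ∣ Nat.card F - 1) (hN : N ≠ 0)
    (hNu : ∀ w : Pl F, w ∉ S → vw w (iw w N) = 1) {x p q m : Fin 2 → RatFunc F}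
    (hx : ∀ i, x i ≠ 0) (h : ∀ i, Kg S N (x i) (p i) (q i) (m i)) (u : Fin 3 → RatFunc F) :
    ∃ p' q' m' : Fin 2 → RatFunc F, (∀ i, Kg S N (x i) (p' i) (q' i) (m' i)) ∧
      (∀ i, q' i ≠ 0) ∧ q' 1 * p' 0 + q' 0 * p' 1 ≠ 0 ∧ p' 0 / m' 0 + u 0 ≠ 0 ∧
      p' 1 / m' 1 + u 1 ≠ 0 ∧
      (p' 0 * p' 1 + N * (q' 0 * q' 1)) / (m' 0 * m' 1) + u 2 ≠ 0 := by
  have h2 : (2 : RatFunc F) ≠ 0 := by
    intro h3
    apply two_ne_w hq (none : Pl F)
    have h4 := congrArg (iw (none : Pl F)) h3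
    rwa [map_ofNat, map_zero] at h4
  haveI : Infinite (RatFunc F) :=
    Infinite.of_injective (algebraMap F[X] (RatFunc F)) (IsFractionRing.injective _ _)
  have hpq : ∀ i, ¬ (p i = 0 ∧ q i = 0) := by
    rintro i ⟨h3, h4⟩
    have h5 := (h i).eq
    rw [h3, h4] at h5
    apply mul_ne_zero (hx i) (pow_ne_zero 2 (h i).m0)
    rw [← h5]
    ring
  obtain ⟨t1, ht1⟩ := (((kg_b1 (N := N) h2 (hpq 1)).union
    (kg_b2 h2 hN (hpq 1) (u 1 * m 1))).union (kg_b3 (N := N))).exists_notMem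
  have ht1a : q 1 * (t1 ^ 2 + N) + 2 * t1 * p 1 ≠ 0 := fun h3 => ht1 (Or.inl (Or.inl h3))
  have ht1b : p 1 * (t1 ^ 2 + N) + 2 * N * t1 * q 1 + u 1 * m 1 * (t1 ^ 2 - N) ≠ 0 :=
    fun h3 => ht1 (Or.inl (Or.inr h3))
  have ht1c : t1 ^ 2 ≠ N := fun h3 => ht1 (Or.inr h3)
  have hk1 := kg_sq hq hNu (h 1) t1 ht1c
  generalize hp1 : p 1 * (t1 ^ 2 + N) + 2 * N * t1 * q 1 = p1 at *
  generalize hq1 : q 1 * (t1 ^ 2 + N) + 2 * t1 * p 1 = q1 at *
  have hm1' : m 1 * (t1 ^ 2 - N) = m 1 * (t1 ^ 2 - N) := rfl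
  generalize hm1 : m 1 * (t1 ^ 2 - N) = m1 at *
  have hPQ : ¬ (p 0 * p1 + N * (q 0 * q1) = 0 ∧ p 0 * q1 + q 0 * p1 = 0) := by
    rintro ⟨h3, h4⟩
    apply mul_ne_zero (mul_ne_zero (hx 0) (pow_ne_zero 2 (h 0).m0))
      (mul_ne_zero (hx 1) (pow_ne_zero 2 hk1.m0))
    rw [← (h 0).eq, ← hk1.eq]
    linear_combination (p 0 * p1 + N * (q 0 * q1)) * h3 - N * (p 0 * q1 + q 0 * p1) * h4
  obtain ⟨t0, ht0⟩ := (((((kg_b1 (N := N) h2 (hpq 0)).union
    (kg_b2 h2 hN (hpq 0) (u 0 * m 0))).union (kg_b3 (N := N))).union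
    (kg_b1 (N := N) h2 hPQ)).union (kg_b2 h2 hN hPQ (u 2 * (m 0 * m1)))).exists_notMem
  have ht0a : q 0 * (t0 ^ 2 + N) + 2 * t0 * p 0 ≠ 0 :=
    fun h3 => ht0 (Or.inl (Or.inl (Or.inl (Or.inl h3))))
  have ht0b : p 0 * (t0 ^ 2 + N) + 2 * N * t0 * q 0 + u 0 * m 0 * (t0 ^ 2 - N) ≠ 0 :=
    fun h3 => ht0 (Or.inl (Or.inl (Or.inl (Or.inr h3))))
  have ht0c : t0 ^ 2 ≠ N := fun h3 => ht0 (Or.inl (Or.inl (Or.inr h3)))
  have ht0d : (p 0 * q1 + q 0 * p1) * (t0 ^ 2 + N) + 2 * t0 * (p 0 * p1 + N * (q 0 * q1)) ≠ 0 :=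
    fun h3 => ht0 (Or.inl (Or.inr h3))
  have ht0e : (p 0 * p1 + N * (q 0 * q1)) * (t0 ^ 2 + N) +
      2 * N * t0 * (p 0 * q1 + q 0 * p1) + u 2 * (m 0 * m1) * (t0 ^ 2 - N) ≠ 0 :=
    fun h3 => ht0 (Or.inr h3)
  have hk0 := kg_sq hq hNu (h 0) t0 ht0c
  have hdiv : ∀ a b c : RatFunc F, b ≠ 0 → a + c * b ≠ 0 → a / b + c ≠ 0 := by
    intro a b c hb h3 h4
    apply h3
    have h5 : (a / b + c) * b = a + c * b := by
      field_simp
    rw [← h5, h4, zero_mul]
  refine ⟨![p 0 * (t0 ^ 2 + N) + 2 * N * t0 * q 0, p1],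
    ![q 0 * (t0 ^ 2 + N) + 2 * t0 * p 0, q1], ![m 0 * (t0 ^ 2 - N), m1], ?_, ?_, ?_, ?_, ?_, ?_⟩
  · intro i
    fin_cases i
    · exact hk0
    · exact hk1
  · intro i
    fin_cases i
    · exact ht0a
    · exact ht1a
  · show q1 * (p 0 * (t0 ^ 2 + N) + 2 * N * t0 * q 0) +
      (q 0 * (t0 ^ 2 + N) + 2 * t0 * p 0) * p1 ≠ 0
    intro h3
    apply ht0d
    rw [← h3]
    ring
  · refine hdiv _ _ _ hk0.m0 ?_
    intro h3
    apply ht0b
    rw [← h3]
    show _ = p 0 * (t0 ^ 2 + N) + 2 * N * t0 * q 0 + u 0 * (m 0 * (t0 ^ 2 - N))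
    ring
  · refine hdiv _ _ _ hk1.m0 ?_
    intro h3
    apply ht1b
    rw [← h3]
    show _ = p1 + u 1 * m1
    rw [← hm1]
    ring
  · refine hdiv _ _ _ (mul_ne_zero hk0.m0 hk1.m0) ?_
    intro h3
    apply ht0e
    rw [← h3]
    show _ = (p 0 * (t0 ^ 2 + N) + 2 * N * t0 * q 0) * p1 +
      N * ((q 0 * (t0 ^ 2 + N) + 2 * t0 * p 0) * q1) + u 2 * (m 0 * (t0 ^ 2 - N) * m1)
    ring

end Pool.Agent.H40.FS
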