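import Pool.Agent.H40.FS.FRK
import Pool.Agent.H74.FS.CLB
import Pool.Agent.H74.FS.HAS

set_option autoImplicit false

/-!
# [H40 FS NFM] Normal forms; the condition at a prime of the twist

* `nfm`: `x = a s ^ 2` with `a : F[X]`, `a ≠ 0` (`H74.FS.rat_poly` in `H74/FS/HAS`, or `num / denom`); `a = u b g ^ 2` with `u` a constant, `b` monic squarefree (`Polynomial` is a unique factorization domain: `Nat`-like lemma `exists_squarefree_mul_sq` or by strong induction on the degree: if `a` is not squarefree, `π ^ 2 ∣ a`).  `z = (s g)⁻¹`: `x z ^ 2 = u b`.  At `w = some P` with `ev w x = 0`: `ev w (u b) = 0`, so `P ∤ b` (otherwise the valuation is exactly one), so `vw w (u b) = 1` (`H94.PL.wP_eq_one`).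
* `sln_sqm`: `sln_iff`, `Vw_sq`.
* `glf_sq`: `IsCls` for `x k` and for `x k * z k ^ 2` is the same condition (`r ↦ r / z k`, `z k ∈ K`).
* `vd_tr`: `w = some P`, `P ∣ D`, `D` squarefree, `P ∤ dl A`: `ev w (DK c D) = 1`, differences are units.  For `j : Fin 3` the triple `T_j`: `T_j k = DK c D (A j - A k)` for `k ≠ j`, `T_j j = DK c D ^ 2 ∏ i ≠ j, (A j - A i)` is in `Vw` (`kum_tor` and `kum_iff`: it is the image of `kt (eD c A D) j`; or `H94.PM.isVln_T`).  `ev (T_j k) = 1` for `k ≠ j` and `ev (T_j j) = 0`.  `Vw_iso`: `0 = ∑ k, hs (δ k) (T_j k) = ∑ k ≠ j, un (δ k)` (`ev (δ k) = 0`; definition of `hs`), and `∑ k, un (δ k) = 0` (`Vw_prod`, `un_sq`), so `un (δ j) = 0` and `δ j` is a square (`sq_iff`).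
-/

namespace Pool.Agent.H40.FS

open Polynomial WithZero Pool.Agent.H74.FS
open Pool.Agent.H94.PL (LChar XX DK AK dl)
open Pool.Agent.H94.PM (LU vl IsVln IsSln)

variable {F : Type} [Field F] [DecidableEq (RatFunc F)]

omit [DecidableEq (RatFunc F)] in
private theorem nfm_sqf : ∀ (n : ℕ) (a : F[X]), a ≠ 0 → a.natDegree ≤ n →
    ∃ b g : F[X], Squarefree b ∧ g ≠ 0 ∧ a = b * g ^ 2 := by
  intro n
  induction n with
  | zero =>
    intro a ha hn
    refine ⟨a, 1, ?_, one_ne_zero, by rw [one_pow, mul_one]⟩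
    have hu : IsUnit a := by
      rw [Polynomial.isUnit_iff_degree_eq_zero, degree_eq_natDegree ha, Nat.le_zero.1 hn]
      rfl
    exact hu.squarefree
  | succ n ih =>
    intro a ha hn
    by_cases hs : Squarefree a
    · exact ⟨a, 1, hs, one_ne_zero, by rw [one_pow, mul_one]⟩
    · unfold Squarefree at hs
      push Not at hs
      obtain ⟨d, ⟨a', rfl⟩, hd⟩ := hs
      have ha' : a' ≠ 0 := right_ne_zero_of_mul ha
      have hd0 : d ≠ 0 := left_ne_zero_of_mul (left_ne_zero_of_mul ha)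
      have hdeg : 0 < d.natDegree := by
        rw [Nat.pos_iff_ne_zero]
        intro h0
        apply hd
        rw [Polynomial.isUnit_iff_degree_eq_zero, degree_eq_natDegree hd0, h0]
        rfl
      have hle : a'.natDegree ≤ n := by
        rw [natDegree_mul (mul_ne_zero hd0 hd0) ha', natDegree_mul hd0 hd0] at hn
        omega
      obtain ⟨b, g, hb, hg, hab⟩ := ih a' ha' hle
      refine ⟨b, g * d, hb, mul_ne_zero hg hd0, ?_⟩
      rw [hab]
      ring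

theorem nfm {x : RatFunc F} (hx : x ≠ 0) :
    ∃ z : RatFunc F, z ≠ 0 ∧ ∀ w : Pl F, w ≠ none → ev w (iw w x) = 0 →
      vw w (iw w (x * z ^ 2)) = 1 := by
  obtain ⟨a, s, ha, hs, hxa⟩ := rat_poly hx
  obtain ⟨b, g, hb, hg, hab⟩ := nfm_sqf a.natDegree a ha le_rfl
  have hg' : algebraMap F[X] (RatFunc F) g ≠ 0 := RatFunc.algebraMap_ne_zero hg
  have hb' : algebraMap F[X] (RatFunc F) b ≠ 0 := RatFunc.algebraMap_ne_zero hb.ne_zero
  have hz : (s * algebraMap F[X] (RatFunc F) g)⁻¹ ≠ 0 := inv_ne_zero (mul_ne_zero hs hg')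
  have hxb : x * ((s * algebraMap F[X] (RatFunc F) g)⁻¹) ^ 2 = algebraMap F[X] (RatFunc F) b := by
    rw [hxa, hab, map_mul, map_pow]
    field_simp
  refine ⟨_, hz, fun w hw he => ?_⟩
  rw [hxb]
  obtain ⟨⟨P, hP, hi⟩, rfl⟩ := Option.ne_none_iff_exists'.1 hw
  have hev : ev (some ⟨P, hP, hi⟩ : Pl F) (iw _ (algebraMap F[X] (RatFunc F) b)) = 0 := by
    rw [← hxb, map_mul, map_pow, ev_mul (iw_ne hx) (pow_ne_zero 2 (iw_ne hz)), he, ev_sq, add_zero]
  have hPb : ¬ P ∣ b := by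
    rintro ⟨b', rfl⟩
    have hb1 : b' ≠ 0 := right_ne_zero_of_mul hb.ne_zero
    have h1 : ¬ P ∣ b' := by
      rintro ⟨b'', rfl⟩
      exact hi.not_isUnit (hb P ⟨b'', by ring⟩)
    rw [map_mul, map_mul, ev_mul (iw_ne (RatFunc.algebraMap_ne_zero hi.ne_zero))
      (iw_ne (RatFunc.algebraMap_ne_zero hb1)), ev_self hP hi, ev_poly_zero hP hi h1,
      add_zero] at hev
    exact one_ne_zero hev
  exact H94.PL.wP_eq_one hi hPb

theorem sln_sqm [Finite F] {c : F} {A : Fin 3 → F[X]} {D : F[X]} {x z : Fin 3 → RatFunc F}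
    (hx : IsSln 2 1 c A D x) (hz : ∀ k, z k ≠ 0) :
    IsSln 2 1 c A D fun k => x k * z k ^ 2 := by
  obtain ⟨h1, ⟨y, hy⟩, h3⟩ := sln_iff.1 hx
  refine sln_iff.2 ⟨fun k => mul_ne_zero (h1 k) (pow_ne_zero 2 (hz k)), ⟨y * ∏ k, z k, ?_⟩,
    fun w => ?_⟩
  · rw [Finset.prod_mul_distrib, hy, Finset.prod_pow, mul_pow]
  · have h4 := Vw_sq (h3 w) (γ := fun k => iw w (z k)) fun k => iw_ne (hz k)
    have h5 : (fun k => iw w (x k * z k ^ 2)) = fun k => iw w (x k) * iw w (z k) ^ 2 := by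
      funext k
      rw [map_mul, map_pow]
    rw [h5]
    exact h4

theorem glf_sq [DecidableEq (Oc F)] [∀ w : Pl F, DecidableEq (Ow F w)] {c : F}
    {A : Fin 3 → F[X]} {D : F[X]} {S : Finset (Pl F)} {x z : Fin 3 → RatFunc F}
    {a : GF F → Pt (eD c A D) (Oc F)} (ha : GLf S c A D x a) (hz : ∀ k, z k ≠ 0) :
    GLf S c A D (fun k => x k * z k ^ 2) a := by
  refine ⟨ha.coc, fun σ k r hr => ?_, ha.triv⟩
  have hzk : algebraMap (RatFunc F) (Oc F) (z k) ≠ 0 := by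
    intro h0
    exact hz k ((algebraMap (RatFunc F) (Oc F)).injective (by rw [h0, map_zero]))
  have h4 : (r / algebraMap (RatFunc F) (Oc F) (z k)) ^ 2 =
      algebraMap (RatFunc F) (Oc F) (x k) := by
    rw [div_pow, hr, map_mul, map_pow, mul_div_assoc, div_self (pow_ne_zero 2 hzk), mul_one]
  rw [← ha.cls σ k _ h4, map_div₀, AlgEquiv.commutes, div_left_inj' hzk]

theorem vd_tr [Finite F] (χ : LChar F 2) (hq : 2 ∣ Nat.card F - 1) {c : F} {A : Fin 3 → F[X]}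
    {D : F[X]} (hc : c ≠ 0) (hA : ∀ i k, i ≠ k → A i ≠ A k) (hD : Squarefree D) {P : F[X]}
    (hP : P.Monic ∧ Irreducible P) (h1 : P ∣ D) (h2 : ¬ P ∣ dl A)
    {δ : Fin 3 → Kw F (some ⟨P, hP⟩)} (h : Vw c A D (some ⟨P, hP⟩) δ)
    (he : ∀ k, ev (some ⟨P, hP⟩) (δ k) = 0) (k : Fin 3) : IsSquare (δ k) := by
  have _ := χ
  have h3 : ¬ P ^ 2 ∣ D := fun h4 => hP.2.not_isUnit (hD P (by rwa [← pow_two]))
  exact (vw_sq_P hq hc hA hP h1 h3 h2 (Vw_ne hc hD.ne_zero h) he).1 h k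

end Pool.Agent.H40.FS
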