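import Pool.Agent.H40.FS.TR3

set_option autoImplicit false

/-!
# [H40 FS TR4] The two forms for two twists

Let `a'`, `h`, `n` be as in `tr_good`.  `y` is a Selmer tuple for both twists and a square at the places of `U \ S` and `U1 \ S`.
`fr χ U a' y = ∑ w ∈ U, ..`: for `w ∈ U \ S` the `y k` are squares, the terms are `0` (`hs_sq`).  For `w ∈ S`: `lcl w a` is a local class of `a` (`lc_ex` for `a`: `x` is a Selmer tuple for `D1`; `lc_lcl`), so `LC w a' (lcl w a * kap * h)`, and by `lc_dif`, `Vw_iso` (as in `fr_val`) the term is `∑ k, hs (lcl w a k * kap k * h k) (y k) = ∑ k, hs (lcl w a k) (y k) + ∑ k, hs (kap k) (y k) + ∑ k, hw (h k) (y k)`.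
The sum over `w ∈ S` of the first is `fr χ U1 a y` (for `w ∈ U1 \ S` the terms are `0`).  The third: `∑ w ∈ S, ∑ k, hw (h k) (y k) = ∑ w ∈ U1, ..` (the terms for `w ∈ U1 \ S` are `0`) `= 0` by `glo_hs` (`Es U1 h`, `Es U1 y` by `sln_even`).  The second: `y 0 * y 1 * y 2 = z ^ 2`, so `hs X (y 2) = hs X (y 0) + hs X (y 1)` and with `kap = (k_0, k_1, k_0 k_1)` `∑ k, hs (kap k) (y k) = hs k_0 (y 1) + hs k_1 (y 0)` (in `ZMod 2`; `k_i ≠ 0` from the norm equation).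
-/

namespace Pool.Agent.H40.FS

open Polynomial WithZero Pool.Agent.H74.FS
open Pool.Agent.H94.PL (LChar XX DK AK dl)
open Pool.Agent.H94.PM (LU vl IsVln IsSln)

variable {F : Type} [Field F] [DecidableEq (RatFunc F)] [DecidableEq (Oc F)]
  [∀ w : Pl F, DecidableEq (Ow F w)] [Finite F] (χ : LChar F 2) {S U U1 : Finset (Pl F)}
  {c c1 : F} {A : Fin 3 → F[X]} {D D1 : F[X]}

omit [Finite F] in
private theorem tr4_ne {c : F} {A : Fin 3 → F[X]} {D : F[X]} (w : Pl F)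
    (a : GF F → Pt (eD c A D) (Oc F)) (k : Fin 3) : lcl w a k ≠ 0 := by
  by_cases h : ∃ g, LC w a g
  · obtain ⟨g, hg⟩ := h
    exact (lc_lcl hg).1 k
  · unfold lcl
    rw [dif_neg h]
    exact one_ne_zero

private theorem tr4_fr {V : Finset (Pl F)} (hSV : S ⊆ V) {c : F} {A : Fin 3 → F[X]} {D : F[X]}
    (a : GF F → Pt (eD c A D) (Oc F)) {y : Fin 3 → RatFunc F} (hy : ∀ k, y k ≠ 0)
    (hys : ∀ w ∈ V, w ∉ S → ∀ k, IsSquare (iw w (y k))) : fr χ V a y = fr χ S a y := by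
  unfold fr
  refine (Finset.sum_subset hSV fun w hw hws => Finset.sum_eq_zero fun k _ => ?_).symm
  obtain ⟨r, hr⟩ := hys w hw hws k
  have hr0 : r ≠ 0 := by
    rintro rfl
    apply iw_ne (w := w) (hy k)
    rw [hr, zero_mul]
  rw [hr, ← sq]
  exact Pool.Agent.H74.FS.hs_sq χ (tr4_ne w a k) hr0

private theorem tr4_z2 : (2 : ZMod 2) = 0 := rfl

theorem trf (hq : 2 ∣ Nat.card F - 1) (hA : ∀ i k, i ≠ k → A i ≠ A k)
    (hT : TP S U U1 c c1 A D D1) {x y : Fin 3 → RatFunc F} (hx : IsSln 2 1 c A D x)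
    (hx1 : IsSln 2 1 c1 A D1 x) (hy : IsSln 2 1 c A D y) (hy1 : IsSln 2 1 c1 A D1 y)
    (hxu : ∀ w : Pl F, w ∉ U → w ∉ U1 → ∀ k, vw w (iw w (x k)) = 1)
    (hxs : ∀ w : Pl F, w ∈ U1 → w ∉ U → ∀ k, IsSquare (iw w (x k)))
    (hys : ∀ w : Pl F, (w ∈ U ∧ w ∉ U1) ∨ (w ∈ U1 ∧ w ∉ U) → ∀ k, IsSquare (iw w (y k)))
    {p q m : Fin 2 → RatFunc F}
    (hk : ∀ i : Fin 2, Kg {w | w ∈ U ∨ w ∈ U1} (tn c c1 D D1) (x i.castSucc) (p i) (q i) (m i))
    {a : GF F → Pt (eD c1 A D1) (Oc F)} (ha : GLf U1 c1 A D1 x a) :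
    ∃ (a' : GF F → Pt (eD c A D) (Oc F)) (n : ∀ w : Pl F, Kw F w),
      GLf U c A D x a' ∧ (∀ w ∈ S, n w ^ 2 = iw w (tn c c1 D D1)) ∧
        fr χ U a' y = fr χ U1 a y +
          ∑ w ∈ S, ((Uw χ w).hs (iw w (p 0) + iw w (q 0) * n w) (iw w (y 1)) +
            (Uw χ w).hs (iw w (p 1) + iw w (q 1) * n w) (iw w (y 0))) := by
  obtain ⟨hx0, hxp, -⟩ := sln_iff.1 hx
  obtain ⟨-, -, hx1v⟩ := sln_iff.1 hx1
  obtain ⟨hy0, ⟨z, hz⟩, hyv⟩ := sln_iff.1 hy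
  have h32 : Nat.Coprime 3 2 := by norm_num
  obtain ⟨a', h, n, h1, h2, h3⟩ := tr_good hq hA hT hx0 hxp hxu hxs hk ha
  refine ⟨a', n, h1, fun w hw => (h3 w hw).1, ?_⟩
  have hLC : ∀ w : Pl F, LC w a (lcl w a) := fun w => by
    obtain ⟨g, hg⟩ := lc_ex hq hT.c10 hA hT.D10 hx0 hxp ha.coc ha.cls (hx1v w)
    exact lc_lcl hg
  have hLC' : ∀ w ∈ S, LC w a' (fun k => lcl w a k * kap p q (n w) k * iw w (h k)) :=
    fun w hw => (h3 w hw).2 _ (hLC w)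
  have hSU : S ⊆ U := fun w hw => ((hT.mem w).1 hw).1
  have hSU1 : S ⊆ U1 := fun w hw => ((hT.mem w).1 hw).2
  have hyU : ∀ w ∈ U, w ∉ S → ∀ k, IsSquare (iw w (y k)) := fun w hw hws =>
    hys w (Or.inl ⟨hw, fun h4 => hws ((hT.mem w).2 ⟨hw, h4⟩)⟩)
  have hyU1 : ∀ w ∈ U1, w ∉ S → ∀ k, IsSquare (iw w (y k)) := fun w hw hws =>
    hys w (Or.inr ⟨hw, fun h4 => hws ((hT.mem w).2 ⟨h4, hw⟩)⟩)
  rw [tr4_fr χ hSU a' hy0 hyU, tr4_fr χ hSU1 a hy0 hyU1,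
    fr_val χ hq hT.c0 hA hT.D0 h1.coc hLC' fun w _ => hyv w]
  have hglo : ∑ w ∈ S, ∑ k, hw χ w (h k) (y k) = 0 := by
    rw [← es_sln χ hq h32 hT.c10 hA hT.D10 hT.bad1 h2 hy1]
    refine Finset.sum_subset hSU1 fun w hw hws => Finset.sum_eq_zero fun k _ => ?_
    obtain ⟨r, hr⟩ := hyU1 w hw hws k
    have hr0 : r ≠ 0 := by
      rintro rfl
      apply iw_ne (w := w) (hy0 k)
      rw [hr, zero_mul]
    unfold Pool.Agent.H74.FS.hw
    rw [hr, ← sq]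
    exact Pool.Agent.H74.FS.hs_sq χ (iw_ne (h2.ne k)) hr0
  have hterm : ∀ w ∈ S, ∑ k, (Uw χ w).hs (lcl w a k * kap p q (n w) k * iw w (h k))
      (iw w (y k)) = ∑ k, (Uw χ w).hs (lcl w a k) (iw w (y k)) +
        ((Uw χ w).hs (iw w (p 0) + iw w (q 0) * n w) (iw w (y 1)) +
            (Uw χ w).hs (iw w (p 1) + iw w (q 1) * n w) (iw w (y 0))) +
          ∑ k, hw χ w (h k) (y k) := by
    intro w hw'
    have hg := (hLC w).1
    have hall := (hLC' w hw').1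
    have hkap : ∀ k, kap p q (n w) k ≠ 0 := fun k =>
      right_ne_zero_of_mul (left_ne_zero_of_mul (hall k))
    have hyw : ∀ k, iw w (y k) ≠ 0 := fun k => iw_ne (hy0 k)
    have h5 : ∀ k, (Uw χ w).hs (lcl w a k * kap p q (n w) k * iw w (h k)) (iw w (y k)) =
        (Uw χ w).hs (lcl w a k) (iw w (y k)) + (Uw χ w).hs (kap p q (n w) k) (iw w (y k)) +
          hw χ w (h k) (y k) := fun k => by
      rw [hs_mul χ (mul_ne_zero (hg k) (hkap k)) (iw_ne (h2.ne k)) (hyw k),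
        hs_mul χ (hg k) (hkap k) (hyw k)]
      rfl
    rw [Finset.sum_congr rfl fun k _ => h5 k, Finset.sum_add_distrib, Finset.sum_add_distrib]
    congr 2
    have hk0 : iw w (p 0) + iw w (q 0) * n w ≠ 0 := hkap 0
    have hk1 : iw w (p 1) + iw w (q 1) * n w ≠ 0 := hkap 1
    rw [Fin.sum_univ_three]
    show (Uw χ w).hs (iw w (p 0) + iw w (q 0) * n w) (iw w (y 0)) +
      (Uw χ w).hs (iw w (p 1) + iw w (q 1) * n w) (iw w (y 1)) +
      (Uw χ w).hs ((iw w (p 0) + iw w (q 0) * n w) * (iw w (p 1) + iw w (q 1) * n w))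
        (iw w (y 2)) = _
    generalize iw w (p 0) + iw w (q 0) * n w = k0 at *
    generalize iw w (p 1) + iw w (q 1) * n w = k1 at *
    rw [hs_mul χ hk0 hk1 (hyw 2)]
    have hz0 : iw w z ≠ 0 := by
      apply iw_ne
      rintro rfl
      have h6 : ∏ k, y k ≠ 0 := Finset.prod_ne_zero_iff.2 fun k _ => hy0 k
      apply h6
      rw [hz]
      ring
    have h7 : ∀ X : Kw F w, X ≠ 0 → (Uw χ w).hs X (iw w (y 0)) + (Uw χ w).hs X (iw w (y 1)) +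
        (Uw χ w).hs X (iw w (y 2)) = 0 := by
      intro X hX
      rw [← hs_mul' χ hX (hyw 0) (hyw 1), ← hs_mul' χ hX (mul_ne_zero (hyw 0) (hyw 1)) (hyw 2)]
      have h8 : iw w (y 0) * iw w (y 1) * iw w (y 2) = iw w z ^ 2 := by
        rw [← map_mul, ← map_mul, ← map_pow, ← hz, Fin.prod_univ_three]
      rw [h8]
      exact Pool.Agent.H74.FS.hs_sq χ hX hz0
    have h9 := h7 k0 hk0
    have h10 := h7 k1 hk1
    linear_combination h9 + h10 - ((Uw χ w).hs k0 (iw w (y 1)) + (Uw χ w).hs k1 (iw w (y 0))) *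
      tr4_z2
  rw [Finset.sum_congr rfl hterm, Finset.sum_add_distrib, Finset.sum_add_distrib, hglo, add_zero]
  rfl

end Pool.Agent.H40.FS
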