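import Pool.Agent.H40.FS.BT3
import Pool.Agent.H40.FS.TR4
import Pool.Agent.H40.FS.ALA
import Pool.Agent.H40.FS.KGP
import Pool.Agent.H40.FS.NFM
import Pool.Agent.H40.FS.FRK

set_option autoImplicit false

/-!
# [H40 FS ALT] Existence of good lifts and alternation

`alt_ex`, steps:
1. Normal form: let `z k` be as in `nfm` for `x k`, `x' k = x k * z k ^ 2`; `sln_sqm`.  For `w ∉ S` (`w ≠ none`) `ev w (x k) = 0` (`sln_even`), so `vw w (x' k) = 1`.  From `a` with `GLf S c A D x' a`, `fr χ S a x' = 0` one gets the claim: `x k = x' k * (z k⁻¹) ^ 2` (`glf_sq`), `fr χ S a x' = fr χ S a x` (`fr_sqr`).  So assume `vw w (x k) = 1` for `w ∉ S`.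
2. `btw`: `c1`, `D1`.  Let `U = S`, `U1 = S ∪ {some P | P monic irreducible, P ∣ D1}` (finite: `pf D1`).  `TP S S U1 c c1 A D D1`: `Bad A D1 U1` (`P ∣ dl A` gives `P ∣ D * dl A`, so `some P ∈ S`).
3. `x` is a Selmer tuple for `c1 D1`: `sln_iff`, `kum_res`.
4. For `w ∈ U1`, `w ∉ S`: `w = some P`, `P ∣ D1`, and `P ∤ dl A` (otherwise `some P ∈ S`): `vd_tr` (for `c1 D1`, valuations even since `vw w (x k) = 1`): `iw w (x k)` is a square.
5. `hw χ w (x i) N = 0` for all `w`, `N = tn c c1 D D1`, `i = 0, 1`: `w ∈ S`: `N` is a square; `w ∈ U1 \ S`: `x i` is a square; `w ∉ U1`: both are units (`tp_unit`; `hw_even`).  `norm_hasse` (`H74/FS/HAS`), `kg_par` and `kg_gen` (with `u = 0`, the set `{w | w ∈ S ∨ w ∈ U1}`) give `p q m` with `Kg`, `q i ≠ 0`, `s = q 1 p 0 + q 0 p 1 ≠ 0`.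
6. `lifts_pt` for `c1 D1`: a cocycle `a₁` which is locally trivial everywhere, so `GLf U1 c1 A D1 x a₁`.  `trf` with `y = x` gives `a'`, `n`.  `fr χ U1 a₁ x = 0` (`fr_val` with `g = 1`, `lc_one`, the symbol of `1` is `0`).
7. The sum of the local terms over `S` is `0`: `al_sum` (module `ALA`) with `x 0`, `x 1` (`x i.castSucc`).
* `fr_alt`: `fr_ind` with the `a` of `alt_ex`.
* `fr_symm`: `a + b` is a lift of `x y` (`fr_add`), so `0 = fr (a + b) (x y) = fr a x + fr a y + fr b x + fr b y` (`fr_add`, `fr_mul`, `fr_alt`; the product of two Selmer tuples is one: `sln_iff`, `Vw_mul`).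
-/

namespace Pool.Agent.H40.FS

open Polynomial WithZero Pool.Agent.H74.FS
open Pool.Agent.H94.PL (LChar XX DK AK dl)
open Pool.Agent.H94.PM (LU vl IsVln IsSln)

variable {F : Type} [Field F] [DecidableEq (RatFunc F)] [DecidableEq (Oc F)]
  [∀ w : Pl F, DecidableEq (Ow F w)] [Finite F] (χ : LChar F 2) {S : Finset (Pl F)}
  {c : F} {A : Fin 3 → F[X]} {D : F[X]}

omit [DecidableEq (Oc F)] [∀ w : Pl F, DecidableEq (Ow F w)] in
private theorem alt_hs1 {w : Pl F} {z : Kw F w} (hz : z ≠ 0) : (Uw χ w).hs 1 z = 0 := by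
  have h1 := hs_mul χ (one_ne_zero (α := Kw F w)) one_ne_zero hz
  rw [mul_one] at h1
  exact left_eq_add.1 h1

omit [DecidableEq (Oc F)] [∀ w : Pl F, DecidableEq (Ow F w)] [Finite F] in
private theorem alt_ev {w : Pl F} {z : Kw F w} (h : vw w z = 1) : ev w z = 0 := by
  unfold ev vl
  rw [h, log_one, neg_zero, Int.cast_zero]

omit [DecidableEq (RatFunc F)] [DecidableEq (Oc F)] [∀ w : Pl F, DecidableEq (Ow F w)] [Finite F] in
private theorem alt_T {D1 : F[X]} (hD1 : D1 ≠ 0) : ∃ T : Finset (Pl F), ∀ w, w ∈ T ↔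
    ∃ (P : F[X]) (hP : P.Monic ∧ Irreducible P), w = some ⟨P, hP⟩ ∧ P ∣ D1 := by
  classical
  have hfin : ((fun P : {P : F[X] // P.Monic ∧ Irreducible P} => P.1) ⁻¹'
      ((UniqueFactorizationMonoid.normalizedFactors D1).toFinset : Set F[X])).Finite :=
    Set.Finite.preimage (Subtype.val_injective.injOn) (Finset.finite_toSet _)
  refine ⟨(hfin.image some).toFinset, fun w => ?_⟩
  rw [Set.Finite.mem_toFinset]
  constructor
  · rintro ⟨⟨P, hP⟩, h1, rfl⟩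
    rw [Set.mem_preimage, Finset.mem_coe, Multiset.mem_toFinset,
      UniqueFactorizationMonoid.mem_normalizedFactors_iff' hD1] at h1
    exact ⟨P, hP, rfl, h1.2.2⟩
  · rintro ⟨P, hP, rfl, h1⟩
    refine ⟨⟨P, hP⟩, ?_, rfl⟩
    rw [Set.mem_preimage, Finset.mem_coe, Multiset.mem_toFinset,
      UniqueFactorizationMonoid.mem_normalizedFactors_iff' hD1]
    exact ⟨hP.2, hP.1.normalize_eq_self, h1⟩

private theorem alt_core (hq : 2 ∣ Nat.card F - 1) (hc : c ≠ 0) (hA : ∀ i k, i ≠ k → A i ≠ A k)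
    (hD : D ≠ 0) (hS : Bad A D S) {x : Fin 3 → RatFunc F} (hx : IsSln 2 1 c A D x)
    (hxu : ∀ w : Pl F, w ∉ S → ∀ k, vw w (iw w (x k)) = 1) :
    ∃ a : GF F → Pt (eD c A D) (Oc F), GLf S c A D x a ∧ fr χ S a x = 0 := by
  classical
  obtain ⟨hx0, hxp, hxv⟩ := sln_iff.1 hx
  obtain ⟨c1, D1, hc1, hD1m, hD1s, hkum, hsq⟩ := btw χ hq hc hA hD hS.inf hx
  have hD10 : D1 ≠ 0 := hD1m.ne_zero
  obtain ⟨T, hT⟩ := alt_T hD10
  have hTP : TP S S (S ∪ T) c c1 A D D1 := by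
    refine ⟨hc, hc1, hD, hD10, hS, ⟨Finset.mem_union_left _ hS.inf, fun P hP h1 => ?_⟩,
      fun w => ⟨fun h => ⟨h, Finset.mem_union_left _ h⟩, fun h => h.1⟩, hsq⟩
    rcases hP.2.prime.dvd_or_dvd h1 with h2 | h2
    · exact Finset.mem_union_right _ ((hT _).2 ⟨P, hP, rfl, h2⟩)
    · exact Finset.mem_union_left _ (hS.fin P hP (Dvd.dvd.mul_left h2 _))
  have hN := tn_ne hTP
  have hxv1 : ∀ w : Pl F, Vw c1 A D1 w fun k => iw w (x k) := fun w =>
    kum_res hq hc1 hA hD10 hx0 hxp hkum w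
  have hx1 : IsSln 2 1 c1 A D1 x := sln_iff.2 ⟨hx0, hxp, hxv1⟩
  have hxs : ∀ w : Pl F, w ∈ S ∪ T → w ∉ S → ∀ k, IsSquare (iw w (x k)) := by
    intro w hw hws k
    obtain ⟨P, hP, rfl, h1⟩ := (hT w).1 ((Finset.mem_union.1 hw).resolve_left hws)
    refine vd_tr χ hq hc1 hA hD1s hP h1 (fun h2 => ?_) (hxv1 _) (fun k => alt_ev (hxu _ hws k)) k
    exact hws (hS.fin P hP (Dvd.dvd.mul_left h2 _))
  have hNu : ∀ w : Pl F, w ∉ S → w ∉ S ∪ T → vw w (iw w (tn c c1 D D1)) = 1 :=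
    fun w hw hw1 => tp_unit hTP hw hw1
  have hNu' : ∀ w : Pl F, w ∉ {w : Pl F | w ∈ S ∨ w ∈ S ∪ T} →
      vw w (iw w (tn c c1 D D1)) = 1 :=
    fun w hw => hNu w (fun h => hw (Or.inl h)) (fun h => hw (Or.inr h))
  have hhw : ∀ (w : Pl F) (k : Fin 3), hw χ w (x k) (tn c c1 D D1) = 0 := by
    intro w k
    by_cases hw1 : w ∈ S
    · obtain ⟨r, hr⟩ := hsq w hw1
      have hr0 : r ≠ 0 := by
        rintro rfl
        apply iw_ne (w := w) hN
        rw [hr, zero_mul]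
      unfold hw
      rw [hr, ← sq]
      exact Pool.Agent.H74.FS.hs_sq χ (iw_ne (hx0 k)) hr0
    · by_cases hw2 : w ∈ S ∪ T
      · obtain ⟨r, hr⟩ := hxs w hw2 hw1 k
        have hr0 : r ≠ 0 := by
          rintro rfl
          apply iw_ne (w := w) (hx0 k)
          rw [hr, zero_mul]
        rw [hw_comm]
        unfold hw
        rw [hr, ← sq]
        exact Pool.Agent.H74.FS.hs_sq χ (iw_ne hN) hr0
      · exact hw_even χ (alt_ev (hxu w hw1 k)) (alt_ev (hNu w hw1 hw2))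
  have hkg : ∀ i : Fin 2, ∃ p q m : RatFunc F,
      Kg {w | w ∈ S ∨ w ∈ S ∪ T} (tn c c1 D D1) (x i.castSucc) p q m := by
    intro i
    obtain ⟨p, q, m, hm, he⟩ := norm_hasse χ hq (hx0 i.castSucc) hN fun w => hhw w i.castSucc
    obtain ⟨f, -, hf⟩ := kg_par (S := {w | w ∈ S ∨ w ∈ S ∪ T}) hq (Or.inl hS.inf) hN hNu'
      (hx0 i.castSucc) (fun w hw => hxu w (fun h => hw (Or.inl h)) _) hm he
    exact ⟨_, _, _, hf⟩
  choose p0 q0 m0 hk0 using hkg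
  obtain ⟨p, q, m, hk, hq0, hs0, -, -, -⟩ := kg_gen hq hN hNu' (fun i => hx0 i.castSucc) hk0
    fun _ => 0
  obtain ⟨a₁, h1, h2, h3⟩ := lifts_pt hq hc1 hA hD10 hx0 hxp hkum
  have hga : GLf (S ∪ T) c1 A D1 x a₁ := ⟨h1, h2, fun w _ => h3 w⟩
  obtain ⟨a', n, hga', hn, heq⟩ := trf χ hq hA hTP hx hx1 hx hx1 (fun w hw _ => hxu w hw) hxs
    (fun w hw => hw.elim (fun h => absurd (Finset.mem_union_left _ h.1) h.2)
      (fun h => hxs w h.1 h.2)) hk hga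
  refine ⟨a', hga', ?_⟩
  have hal := al_sum χ hq hN hNu (x := fun i : Fin 2 => x i.castSucc)
    (fun i => hx0 _) (fun w hw _ i => hxu w hw _) (fun w hw hws i => hxs w hw hws _) hk hq0 hs0
    n hn
  rw [heq, fr_val χ hq hc1 hA hD10 h1 (g := fun w => 1) (fun w _ => (lc_one hq).1 (h3 w))
    (fun w _ => hxv1 w)]
  refine (congrArg₂ (fun s t : ZMod 2 => s + t) ?_ hal).trans (add_zero 0)
  refine Finset.sum_eq_zero fun w _ => Finset.sum_eq_zero fun k _ => ?_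
  exact alt_hs1 χ (iw_ne (hx0 k))

theorem alt_ex (hq : 2 ∣ Nat.card F - 1) (hc : c ≠ 0) (hA : ∀ i k, i ≠ k → A i ≠ A k)
    (hD : D ≠ 0) (hS : Bad A D S) {x : Fin 3 → RatFunc F} (hx : IsSln 2 1 c A D x) :
    ∃ a : GF F → Pt (eD c A D) (Oc F), GLf S c A D x a ∧ fr χ S a x = 0 := by
  have hx0 := (sln_iff.1 hx).1
  have hev := sln_even hq (by norm_num : Nat.Coprime 3 2) hc hA hD hS hx
  choose z hz0 hz using fun k => nfm (hx0 k)
  have hx' := sln_sqm hx hz0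
  obtain ⟨a, ha, h0⟩ := alt_core χ hq hc hA hD hS hx' fun w hw k => hz k w (fun h => by
    rw [h] at hw
    exact hw hS.inf) (hev.even w hw k)
  have h1 : (fun k => x k * z k ^ 2 * (z k)⁻¹ ^ 2) = x := by
    funext k
    rw [inv_pow, mul_assoc, mul_inv_cancel₀ (pow_ne_zero 2 (hz0 k)), mul_one]
  have h2 := glf_sq ha (z := fun k => (z k)⁻¹) fun k => inv_ne_zero (hz0 k)
  rw [h1] at h2
  refine ⟨a, h2, ?_⟩
  rw [← fr_sqr χ hx0 hz0]
  exact h0

theorem fr_alt (hq : 2 ∣ Nat.card F - 1) (hc : c ≠ 0) (hA : ∀ i k, i ≠ k → A i ≠ A k)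
    (hD : D ≠ 0) (hS : Bad A D S) {x : Fin 3 → RatFunc F} (hx : IsSln 2 1 c A D x)
    {a : GF F → Pt (eD c A D) (Oc F)} (ha : GLf S c A D x a) : fr χ S a x = 0 := by
  obtain ⟨b, hb, h0⟩ := alt_ex χ hq hc hA hD hS hx
  rw [fr_ind χ hq hc hA hD hS ha hb hx hx, h0]

private theorem alt_z2 : ∀ s t : ZMod 2, 0 + s + (t + 0) = 0 → s = t := by decide

theorem fr_symm (hq : 2 ∣ Nat.card F - 1) (hc : c ≠ 0) (hA : ∀ i k, i ≠ k → A i ≠ A k)
    (hD : D ≠ 0) (hS : Bad A D S) {x y : Fin 3 → RatFunc F} (hx : IsSln 2 1 c A D x)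
    (hy : IsSln 2 1 c A D y) {a b : GF F → Pt (eD c A D) (Oc F)} (ha : GLf S c A D x a)
    (hb : GLf S c A D y b) : fr χ S a y = fr χ S b x := by
  have hxy : IsSln 2 1 c A D fun k => x k * y k := by
    obtain ⟨h1, ⟨u, hu⟩, h3⟩ := sln_iff.1 hx
    obtain ⟨h1', ⟨u', hu'⟩, h3'⟩ := sln_iff.1 hy
    refine sln_iff.2 ⟨fun k => mul_ne_zero (h1 k) (h1' k), ⟨u * u', ?_⟩, fun w => ?_⟩
    · rw [Finset.prod_mul_distrib, hu, hu', mul_pow]
    · have h4 := Vw_mul (h3 w) (h3' w)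
      have h5 : (fun k => iw w (x k * y k)) = fun k => iw w (x k) * iw w (y k) :=
        funext fun k => map_mul _ _ _
      rw [h5]
      exact h4
  have hx0 := (sln_iff.1 hx).1
  have hy0 := (sln_iff.1 hy).1
  obtain ⟨h1, h2⟩ := fr_add χ hq hc hA hD ha hb hx hy hxy
  rw [fr_alt χ hq hc hA hD hS hxy h1, fr_mul χ hx0 hy0, fr_mul χ hx0 hy0,
    fr_alt χ hq hc hA hD hS hx ha, fr_alt χ hq hc hA hD hS hy hb] at h2
  exact alt_z2 _ _ h2.symm

end Pool.Agent.H40.FS
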