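import Pool.Agent.H40.FS.SGX

set_option autoImplicit false

/-!
# [H40 FS BEX] The cochain of a pair of elements of `K(√N)`

`c² = N`, `k_i = p i + q i c` (`i = 0, 1`) with `p i ² - N q i ² = x i * (m i)²`, `m i ≠ 0`, `x 0 x 1 x 2` a square.
Construction.  `κ i ∈ Ω` with `κ i ² = k_i` (`exists_root`; `k_i ≠ 0` since `k_i (p i - q i c) ≠ 0`), `r i ∈ Ω` with `r i ² = x i`, `ν i = r i * m i`, `κ' i = ν i / κ i`, so `κ' i ² = p i - q i c`.
For `σ ∈ G`: `σ c = ± c` (`c² ∈ K`).  If `σ c = c` then `σ (κ i) = ± κ i`, otherwise (`σ c = - c ≠ c`) `(σ (κ i))² = p i - q i c`, so `σ (κ i) = ± κ' i`.  Let `β i σ ∈ ZMod 2` be `0` for the sign `+` and `1` for the sign `-`, and `X σ ∈ ZMod 2`, `X σ = 0` iff `σ c = c` (this is `sg σ N`, `sg_iff`).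
(1) `β i (σ τ) = β i σ + β i τ + X τ * sg σ (x i)`: if `τ c = c`: `σ τ κ = ± σ κ` with the sign of `β τ`.  If `τ c ≠ c`: `τ κ = (-1)^(β τ) ν / κ`, `σ (ν / κ) = (-1)^(sg σ x) ν / σ κ`, and if `σ c = c` this is `(-1)^(sg σ x + β σ) ν / κ = .. κ'`, if `σ c ≠ c`, `σ κ = (-1)^(β σ) κ'`, it is `(-1)^(sg σ x + β σ) ν / κ' = .. κ` (`σ τ c = c` in this case).
(2) `b i σ = β i σ + X σ * sg σ (x i)`: `b i (σ τ) = b i σ + b i τ + X σ * sg τ (x i)` (`X`, `sg · (x i)` are homomorphisms).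
`b σ = toX` of `(b 0 σ, b 1 σ, b 0 σ + b 1 σ)`.  The third component of the identity: `sg τ (x 0) + sg τ (x 1) = sg τ (x 2)`.  Continuity: all depends on the restriction of `σ` to `K(c, κ 0, κ 1, r 0, r 1)`; write it as: if `τ` fixes this field then `b (σ τ) = b σ` (by the identity it is enough that `b τ = 0`, `sgx τ x = 0`).
If `σ c = c` then `b i σ = β i σ`, and for any square root `r` of `k_i` `σ r = r ↔ σ κ i = κ i`.
-/

namespace Pool.Agent.H40.FS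

open WeierstrassCurve Pool.Agent.H94.MW Pool.Agent.H94.PL

variable {K : Type} [Field K] {Ω : Type} [Field Ω] [Algebra K Ω] [IsSepClosed Ω] [IsGalois K Ω]

private theorem z01 : ∀ a : ZMod 2, a = 0 ∨ a = 1 := by decide

private noncomputable def ss (L : Type) [Field L] (a : ZMod 2) : L := if a = 0 then 1 else -1

private theorem ss_zero (L : Type) [Field L] : ss L 0 = 1 := if_pos rfl

private theorem ss_one (L : Type) [Field L] : ss L 1 = -1 := if_neg (by decide)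

private theorem ss_add (L : Type) [Field L] (a b : ZMod 2) : ss L (a + b) = ss L a * ss L b := by
  have h11 : (1 : ZMod 2) + 1 = 0 := by decide
  rcases z01 a with rfl | rfl <;> rcases z01 b with rfl | rfl
  · rw [add_zero, ss_zero, one_mul]
  · rw [zero_add, ss_zero, one_mul]
  · rw [add_zero, ss_zero, mul_one]
  · rw [h11, ss_zero, ss_one]
    ring

private theorem ss_inj {L : Type} [Field L] (h2 : (2 : L) ≠ 0) {z : L} (hz : z ≠ 0) {a b : ZMod 2}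
    (h : ss L a * z = ss L b * z) : a = b := by
  have h1 : ss L a = ss L b := mul_right_cancel₀ hz h
  have hne : (1 : L) ≠ -1 := by
    intro h3
    apply h2
    linear_combination h3
  rcases z01 a with rfl | rfl <;> rcases z01 b with rfl | rfl
  · rfl
  · rw [ss_zero, ss_one] at h1
    exact absurd h1 hne
  · rw [ss_zero, ss_one] at h1
    exact absurd h1.symm hne
  · rfl

/-- one component -/
private theorem one_b (h2 : (2 : K) ≠ 0) {N : K} (hN : N ≠ 0) {c : Ω} (hc : c ^ 2 = algebraMap K Ω N)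
    {x p q m : K} (hx : x ≠ 0) (hm : m ≠ 0) (h0 : p ^ 2 - N * q ^ 2 = x * m ^ 2) :
    ∃ b : (Ω ≃ₐ[K] Ω) → ZMod 2, IsCont K b ∧
      (∀ σ τ, b (σ * τ) = b σ + b τ + sg σ N * sg τ x) ∧
      ∀ σ : Ω ≃ₐ[K] Ω, σ c = c →
        ∀ r : Ω, r ^ 2 = algebraMap K Ω p + algebraMap K Ω q * c → (σ r = r ↔ b σ = 0) := by
  have h2' : (2 : Ω) ≠ 0 := by
    intro h
    apply h2
    apply (algebraMap K Ω).injective
    rw [map_zero, map_ofNat]
    exact h
  obtain ⟨k, hk⟩ : ∃ k : Ω, k = algebraMap K Ω p + algebraMap K Ω q * c := ⟨_, rfl⟩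
  obtain ⟨k', hk'⟩ : ∃ k' : Ω, k' = algebraMap K Ω p - algebraMap K Ω q * c := ⟨_, rfl⟩
  have hkk : k * k' = algebraMap K Ω x * algebraMap K Ω m ^ 2 := by
    have h3 := congrArg (algebraMap K Ω) h0
    rw [map_sub, map_mul, map_mul, map_pow, map_pow, map_pow, ← hc] at h3
    rw [hk, hk', ← h3]
    ring
  have hxΩ : algebraMap K Ω x ≠ 0 := (map_ne_zero _).2 hx
  have hmΩ : algebraMap K Ω m ≠ 0 := (map_ne_zero _).2 hm
  have hkk0 : k * k' ≠ 0 := by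
    rw [hkk]
    exact mul_ne_zero hxΩ (pow_ne_zero 2 hmΩ)
  have hk0 : k ≠ 0 := left_ne_zero_of_mul hkk0
  obtain ⟨κ, hκ⟩ := exists_root (Ω := Ω) h2 k
  obtain ⟨r, hr⟩ := exists_root (Ω := Ω) h2 (algebraMap K Ω x)
  have hκ0 : κ ≠ 0 := by
    rintro rfl
    apply hk0
    rw [← hκ]
    ring
  have hr0 : r ≠ 0 := by
    rintro rfl
    apply hxΩ
    rw [← hr]
    ring
  obtain ⟨κ', hκ'⟩ : ∃ κ' : Ω, κ' = r * algebraMap K Ω m / κ := ⟨_, rfl⟩
  have hκκ : κ * κ' = r * algebraMap K Ω m := by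
    rw [hκ']
    field_simp
  have hκ'0 : κ' ≠ 0 := by
    intro h
    rw [h, mul_zero] at hκκ
    exact mul_ne_zero hr0 hmΩ hκκ.symm
  have hκ'2 : κ' ^ 2 = k' := by
    apply mul_left_cancel₀ hk0
    rw [hkk, ← hr, ← mul_pow, ← hκκ, mul_pow, hκ]
  obtain ⟨kk, hkk1⟩ : ∃ kk : ZMod 2 → Ω, ∀ a, kk a = if a = 0 then κ else κ' := ⟨_, fun a => rfl⟩
  have kk0 : kk 0 = κ := by rw [hkk1, if_pos rfl]
  have kk1 : kk 1 = κ' := by rw [hkk1, if_neg (by decide)]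
  have kkne : ∀ a, kk a ≠ 0 := by
    intro a
    rcases z01 a with rfl | rfl
    · rw [kk0]
      exact hκ0
    · rw [kk1]
      exact hκ'0
  have h11 : (1 : ZMod 2) + 1 = 0 := by decide
  have kkmul : ∀ a, kk a * kk (a + 1) = r * algebraMap K Ω m := by
    intro a
    rcases z01 a with rfl | rfl
    · rw [zero_add, kk0, kk1, hκκ]
    · rw [h11, kk0, kk1, mul_comm, hκκ]
  -- the action on c and r
  have hcX : ∀ σ : Ω ≃ₐ[K] Ω, σ c = ss Ω (sg σ N) * c := by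
    intro σ
    rcases z01 (sg σ N) with h | h
    · rw [h, ss_zero, one_mul]
      exact (sg_iff h2 hN σ hc).2 h
    · rw [h, ss_one, (sg_neg h2 hN σ hc).2 h]
      ring
  have hrY : ∀ σ : Ω ≃ₐ[K] Ω, σ r = ss Ω (sg σ x) * r := by
    intro σ
    rcases z01 (sg σ x) with h | h
    · rw [h, ss_zero, one_mul]
      exact (sg_iff h2 hx σ hr).2 h
    · rw [h, ss_one, (sg_neg h2 hx σ hr).2 h]
      ring
  have hex : ∀ σ : Ω ≃ₐ[K] Ω, ∃ a : ZMod 2, σ κ = ss Ω a * kk (sg σ N) := by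
    intro σ
    have h3 : (σ κ) ^ 2 = kk (sg σ N) ^ 2 := by
      rw [← map_pow, hκ, hk, map_add, map_mul, AlgEquiv.commutes, AlgEquiv.commutes, hcX]
      rcases z01 (sg σ N) with h | h
      · rw [h, ss_zero, kk0, hκ, hk]
        ring
      · rw [h, ss_one, kk1, hκ'2, hk']
        ring
    rcases sq_eq_sq_iff_eq_or_eq_neg.1 h3 with h | h
    · exact ⟨0, by rw [ss_zero, one_mul, h]⟩
    · exact ⟨1, by rw [ss_one, h]; ring⟩
  choose β hβ using hex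
  have hssne : ∀ a, ss Ω a ≠ 0 := by
    intro a
    rcases z01 a with rfl | rfl
    · rw [ss_zero]
      exact one_ne_zero
    · rw [ss_one]
      exact neg_ne_zero.2 one_ne_zero
  have hsss : ∀ a, ss Ω a * ss Ω a = 1 := by
    intro a
    rcases z01 a with rfl | rfl
    · rw [ss_zero, one_mul]
    · rw [ss_one]
      ring
  have hssσ : ∀ (σ : Ω ≃ₐ[K] Ω) (a : ZMod 2), σ (ss Ω a) = ss Ω a := by
    intro σ a
    rcases z01 a with rfl | rfl
    · rw [ss_zero, map_one]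
    · rw [ss_one, map_neg, map_one]
  have hact : ∀ (σ : Ω ≃ₐ[K] Ω) (a : ZMod 2), σ (kk a) = ss Ω (β σ + a * sg σ x) * kk (a + sg σ N) := by
    intro σ a
    rcases z01 a with rfl | rfl
    · rw [kk0, zero_mul, add_zero, zero_add]
      exact hβ σ
    · have h3 := congrArg σ hκκ
      rw [map_mul, map_mul, AlgEquiv.commutes, hrY, hβ] at h3
      have h4 := kkmul (sg σ N)
      have h5 : ss Ω (β σ) * kk (sg σ N) ≠ 0 := mul_ne_zero (hssne _) (kkne _)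
      rw [kk1, one_mul, add_comm (1 : ZMod 2)]
      apply mul_left_cancel₀ h5
      rw [h3, ss_add]
      have h6 := hsss (β σ)
      calc ss Ω (sg σ x) * r * algebraMap K Ω m = ss Ω (sg σ x) * (r * algebraMap K Ω m) := by ring
        _ = ss Ω (sg σ x) * (kk (sg σ N) * kk (sg σ N + 1)) := by rw [h4]
        _ = (ss Ω (β σ) * ss Ω (β σ)) * (ss Ω (sg σ x) * (kk (sg σ N) * kk (sg σ N + 1))) := by
            rw [h6, one_mul]
        _ = ss Ω (β σ) * kk (sg σ N) * (ss Ω (β σ) * ss Ω (sg σ x) * kk (sg σ N + 1)) := by ring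
  have hβmul : ∀ σ τ : Ω ≃ₐ[K] Ω, β (σ * τ) = β σ + β τ + sg τ N * sg σ x := by
    intro σ τ
    have h3 := hβ (σ * τ)
    have h4 : (σ * τ) κ = σ (τ κ) := rfl
    rw [h4, hβ τ, map_mul, hssσ, hact, sg_comp h2 hN, ← mul_assoc, ← ss_add, add_comm (sg σ N)] at h3
    have h5 := ss_inj h2' (kkne _) h3
    rw [← h5]
    ring
  have hβ0 : ∀ τ : Ω ≃ₐ[K] Ω, sg τ N = 0 → (τ κ = κ ↔ β τ = 0) := by
    intro τ hτ
    have h3 := hβ τ
    rw [hτ, kk0] at h3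
    constructor
    · intro h
      rw [h] at h3
      refine ss_inj h2' hκ0 (a := β τ) (b := 0) ?_
      rw [← h3, ss_zero, one_mul]
    · intro h
      rw [h3, h, ss_zero, one_mul]
  refine ⟨fun σ => β σ + sg σ N * sg σ x, ?_, ?_, ?_⟩
  · have hint : ∀ y ∈ ({κ, c, r} : Set Ω), IsIntegral K y := fun y _ =>
      Algebra.IsIntegral.isIntegral y
    refine ⟨IntermediateField.adjoin K {κ, c, r}, IntermediateField.finiteDimensional_adjoin hint, ?_⟩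
    intro σ τ hτ
    have hτκ : τ κ = κ := hτ _ (IntermediateField.subset_adjoin K _ (by simp))
    have hτc : τ c = c := hτ _ (IntermediateField.subset_adjoin K _ (by simp))
    have hτr : τ r = r := hτ _ (IntermediateField.subset_adjoin K _ (by simp))
    have e1 : sg τ N = 0 := (sg_iff h2 hN τ hc).1 hτc
    have e2 : sg τ x = 0 := (sg_iff h2 hx τ hr).1 hτr
    have e3 : β τ = 0 := (hβ0 τ e1).1 hτκ
    show β (σ * τ) + sg (σ * τ) N * sg (σ * τ) x = β σ + sg σ N * sg σ x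
    rw [hβmul, sg_comp h2 hN, sg_comp h2 hx, e1, e2, e3]
    ring
  · intro σ τ
    show β (σ * τ) + sg (σ * τ) N * sg (σ * τ) x =
      (β σ + sg σ N * sg σ x) + (β τ + sg τ N * sg τ x) + sg σ N * sg τ x
    rw [hβmul, sg_comp h2 hN, sg_comp h2 hx]
    have h3 : ∀ a b c d e f : ZMod 2, a + b + c * d + (e + c) * (d + f) =
        a + e * d + (b + c * f) + e * f := by decide
    exact h3 _ _ _ _ _ _
  · intro σ hσ ρ hρ
    have e1 : sg σ N = 0 := (sg_iff h2 hN σ hc).1 hσ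
    show σ ρ = ρ ↔ β σ + sg σ N * sg σ x = 0
    rw [e1, zero_mul, add_zero, ← hβ0 σ e1]
    have h3 : ρ ^ 2 = κ ^ 2 := by rw [hρ, hκ, hk]
    rcases sq_eq_sq_iff_eq_or_eq_neg.1 h3 with h | h
    · rw [h]
    · rw [h, map_neg, neg_inj]

theorem exists_b (h2 : (2 : K) ≠ 0) {N : K} (hN : N ≠ 0) {c : Ω} (hc : c ^ 2 = algebraMap K Ω N)
    {x : Fin 3 → K} (hx : ∀ k, x k ≠ 0) (hp : ∃ y, ∏ k, x k = y ^ 2) {p q m : Fin 2 → K}
    (hm : ∀ i, m i ≠ 0) (h0 : p 0 ^ 2 - N * q 0 ^ 2 = x 0 * m 0 ^ 2)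
    (h1 : p 1 ^ 2 - N * q 1 ^ 2 = x 1 * m 1 ^ 2) :
    ∃ b : (Ω ≃ₐ[K] Ω) → XX 3 2, IsCont K b ∧
      (∀ σ τ, b (σ * τ) = b σ + b τ + sg σ N • sgx τ x) ∧
      ∀ σ : Ω ≃ₐ[K] Ω, σ c = c →
        (∀ r : Ω, r ^ 2 = algebraMap K Ω (p 0) + algebraMap K Ω (q 0) * c →
          (σ r = r ↔ (b σ).1 0 = 0)) ∧
        ∀ r : Ω, r ^ 2 = algebraMap K Ω (p 1) + algebraMap K Ω (q 1) * c →
          (σ r = r ↔ (b σ).1 1 = 0) := by
  obtain ⟨b0, hb0c, hb0m, hb0r⟩ := one_b h2 hN hc (hx 0) (hm 0) h0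
  obtain ⟨b1, hb1c, hb1m, hb1r⟩ := one_b h2 hN hc (hx 1) (hm 1) h1
  have hsum : ∀ σ : Ω ≃ₐ[K] Ω, ∑ k, (![b0 σ, b1 σ, b0 σ + b1 σ] : Fin 3 → ZMod 2) k = 0 := by
    intro σ
    rw [Fin.sum_univ_three]
    show b0 σ + b1 σ + (b0 σ + b1 σ) = 0
    have h3 : ∀ a b : ZMod 2, a + b + (a + b) = 0 := by decide
    exact h3 _ _
  have hb : ∀ (σ : Ω ≃ₐ[K] Ω) (k : Fin 3), (toX ![b0 σ, b1 σ, b0 σ + b1 σ] : XX 3 2).1 k =
      (![b0 σ, b1 σ, b0 σ + b1 σ] : Fin 3 → ZMod 2) k := fun σ k => toX_apply (hsum σ) k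
  refine ⟨fun σ => toX ![b0 σ, b1 σ, b0 σ + b1 σ], ?_, ?_, ?_⟩
  · obtain ⟨M0, hM0, hf0⟩ := hb0c
    obtain ⟨M1, hM1, hf1⟩ := hb1c
    refine ⟨M0 ⊔ M1, inferInstance, fun σ τ hτ => ?_⟩
    have e0 := hf0 σ τ fun y hy => hτ y ((le_sup_left : M0 ≤ M0 ⊔ M1) hy)
    have e1 := hf1 σ τ fun y hy => hτ y ((le_sup_right : M1 ≤ M0 ⊔ M1) hy)
    show (toX ![b0 (σ * τ), b1 (σ * τ), b0 (σ * τ) + b1 (σ * τ)] : XX 3 2) =
      toX ![b0 σ, b1 σ, b0 σ + b1 σ]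
    rw [e0, e1]
  · intro σ τ
    apply Subtype.ext
    funext k
    have hsx := sgx_apply h2 hx hp τ
    have hs3 := XX_sum (sgx τ x)
    rw [Fin.sum_univ_three, hsx, hsx, hsx] at hs3
    show (toX ![b0 (σ * τ), b1 (σ * τ), b0 (σ * τ) + b1 (σ * τ)] : XX 3 2).1 k =
      (toX ![b0 σ, b1 σ, b0 σ + b1 σ] : XX 3 2).1 k + (toX ![b0 τ, b1 τ, b0 τ + b1 τ] : XX 3 2).1 k +
        sg σ N * (sgx τ x).1 k
    rw [hb, hb, hb, hsx]
    fin_cases k
    · exact hb0m σ τ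
    · exact hb1m σ τ
    · show b0 (σ * τ) + b1 (σ * τ) = (b0 σ + b1 σ) + (b0 τ + b1 τ) + sg σ N * sg τ (x 2)
      rw [hb0m, hb1m]
      have h3 : ∀ a b c : ZMod 2, a + b + c = 0 → c = a + b := by decide
      rw [h3 _ _ _ hs3]
      ring
  · intro σ hσ
    refine ⟨fun r hr => ?_, fun r hr => ?_⟩
    · show σ r = r ↔ (toX ![b0 σ, b1 σ, b0 σ + b1 σ] : XX 3 2).1 0 = 0
      rw [hb]
      exact hb0r σ hσ r hr
    · show σ r = r ↔ (toX ![b0 σ, b1 σ, b0 σ + b1 σ] : XX 3 2).1 1 = 0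
      rw [hb]
      exact hb1r σ hσ r hr

end Pool.Agent.H40.FS
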