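import Pool.Agent.H40.FS.KV1

set_option autoImplicit false

/-!
# [H40 FS BT1] Local points on the covering of a local class

`e k = iw w (DK c D) * iw w (AK A k)` in `Kw F w`.  By `kum_iff` `x` is the class of a point (`IsKum`), so by `kum_cases` (module `KUA`; `Vw_ne`, `Vw_prod`) there are `γ k ≠ 0` with one of:
* `x k * γ k ^ 2 = X - e k` for a point `(X, y)`, `y ≠ 0`: take this `X`, `z = γ`.
* `x k * γ k ^ 2 = 1` for all `k`: let `X = (ϖ⁻¹) ^ (2 n)` with `ϖ` a uniformizer (`unif_w`) and `n` so large that `v (ϖ ^ (2 n) e k) < 1` for all `k`: `X - e k = X (1 - ϖ ^ (2 n) e k)`, `X` a square and the second factor a square `≠ 0` (`sq_near`), so `X - e k = s k ^ 2 = x k * (γ k s k) ^ 2`.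
* `x k * γ k ^ 2 = kt e j k` for all `k`: let `d = ∏ i ≠ j, (e j - e i) ≠ 0` and `X = e j + d t ^ 2` with `t = ϖ ^ n`, `n` large: `X - e j = d t ^ 2 = kt e j j * t ^ 2`; for `k ≠ j` `X - e k = (e j - e k) (1 + d t ^ 2 / (e j - e k))` and the second factor is a square `≠ 0` (`sq_near`).
-/

namespace Pool.Agent.H40.FS

open Polynomial WithZero Pool.Agent.H74.FS
open Pool.Agent.H94.PL (LChar XX DK AK dl)
open Pool.Agent.H94.PM (LU vl IsVln IsSln)

variable {F : Type} [Field F] [DecidableEq (RatFunc F)] [Finite F] {c : F} {A : Fin 3 → F[X]}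
  {D : F[X]}

omit [Finite F] in
private theorem bt_small {w : Pl F} {ϖ : Kw F w} (hϖ : vw w ϖ = exp (-1 : ℤ)) (b : Kw F w) :
    ∃ n0 : ℕ, ∀ n, n0 ≤ n → vw w (ϖ ^ (2 * n) * b) < 1 := by
  by_cases hb : b = 0
  · refine ⟨0, fun n _ => ?_⟩
    rw [hb, mul_zero, map_zero]
    exact zero_lt_one
  · have h0 : vw w b ≠ 0 := (Valuation.ne_zero_iff _).2 hb
    obtain ⟨m, hm⟩ : ∃ m : ℤ, vw w b = exp m := ⟨log (vw w b), (exp_log h0).symm⟩
    refine ⟨m.natAbs + 1, fun n hn => ?_⟩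
    rw [map_mul, map_pow, hϖ, hm, ← exp_nsmul, ← exp_add, ← exp_zero, exp_lt_exp]
    simp only [nsmul_eq_mul]
    push_cast
    omega

omit [Finite F] in
private theorem bt_small3 {w : Pl F} {ϖ : Kw F w} (hϖ : vw w ϖ = exp (-1 : ℤ))
    (b : Fin 3 → Kw F w) : ∃ n : ℕ, ∀ k, vw w (ϖ ^ (2 * n) * b k) < 1 := by
  choose n0 hn0 using fun k => bt_small hϖ (b k)
  refine ⟨∑ k, n0 k, fun k => hn0 k _ ?_⟩
  exact Finset.single_le_sum (f := n0) (fun i _ => Nat.zero_le _) (Finset.mem_univ k)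

theorem bt_loc (hq : 2 ∣ Nat.card F - 1) (hc : c ≠ 0) (hA : ∀ i k, i ≠ k → A i ≠ A k)
    (hD : D ≠ 0) {w : Pl F} {x : Fin 3 → Kw F w} (hx : Vw c A D w x) :
    ∃ (X : Kw F w) (z : Fin 3 → Kw F w), (∀ k, z k ≠ 0) ∧
      ∀ k, X - iw w (DK c D) * iw w (AK A k) = x k * z k ^ 2 := by
  classical
  have hx0 := fun k => Vw_ne hc hD hx k
  have hp := Vw_prod (by norm_num) hx
  have h2 := two_rf (F := F) hq
  have he := eD_inj hc hA hD
  have hE : ∀ k, algebraMap (RatFunc F) (Kw F w) (eD c A D k) =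
      iw w (DK c D) * iw w (AK A k) := fun k => map_mul _ _ _
  have hEinj : ∀ i k, i ≠ k → algebraMap (RatFunc F) (Kw F w) (eD c A D i) -
      algebraMap (RatFunc F) (Kw F w) (eD c A D k) ≠ 0 := by
    intro i k hik
    rw [sub_ne_zero]
    exact fun h => hik (he ((algebraMap (RatFunc F) (Kw F w)).injective h))
  obtain ⟨ϖ, hϖ⟩ := unif_w (F := F) w
  have hϖ0 : ϖ ≠ 0 := by
    intro h
    rw [h, map_zero] at hϖ
    exact exp_ne_zero hϖ.symm
  have hk := (kum_iff hq hc hA hD hx0 hp).2 hx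
  obtain ⟨γ, hγ, hcase⟩ := kum_cases h2 he hx0 hp hk
  rcases hcase with h1 | ⟨X, y, -, -, h1⟩ | ⟨j, h1⟩
  · obtain ⟨n, hn⟩ := bt_small3 hϖ (fun k => algebraMap (RatFunc F) (Kw F w) (eD c A D k))
    have hs : ∀ k, ∃ s : Kw F w, s ≠ 0 ∧
        1 - ϖ ^ (2 * n) * algebraMap (RatFunc F) (Kw F w) (eD c A D k) = s ^ 2 := by
      intro k
      refine sq_near hq ?_
      rw [sub_sub_cancel_left, Valuation.map_neg]
      exact hn k
    choose s hs0 hs using hs
    refine ⟨(ϖ⁻¹) ^ (2 * n), fun k => γ k * ((ϖ⁻¹) ^ n * s k), fun k => mul_ne_zero (hγ k)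
      (mul_ne_zero (pow_ne_zero _ (inv_ne_zero hϖ0)) (hs0 k)), fun k => ?_⟩
    rw [← hE]
    have h3 : (ϖ⁻¹) ^ (2 * n) * ϖ ^ (2 * n) = 1 := by
      rw [← mul_pow, inv_mul_cancel₀ hϖ0, one_pow]
    calc (ϖ⁻¹) ^ (2 * n) - algebraMap (RatFunc F) (Kw F w) (eD c A D k)
        = (ϖ⁻¹) ^ (2 * n) - ((ϖ⁻¹) ^ (2 * n) * ϖ ^ (2 * n)) *
            algebraMap (RatFunc F) (Kw F w) (eD c A D k) := by rw [h3, one_mul]
      _ = (ϖ⁻¹) ^ (2 * n) *
          (1 - ϖ ^ (2 * n) * algebraMap (RatFunc F) (Kw F w) (eD c A D k)) := by ring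
      _ = (x k * γ k ^ 2) * ((ϖ⁻¹) ^ (2 * n) * s k ^ 2) := by rw [h1 k, hs k, one_mul]
      _ = x k * (γ k * ((ϖ⁻¹) ^ n * s k)) ^ 2 := by ring
  · refine ⟨X, γ, hγ, fun k => ?_⟩
    rw [← hE]
    exact (h1 k).symm
  · obtain ⟨d, hd⟩ : ∃ d : Kw F w, d = algebraMap (RatFunc F) (Kw F w) (kt (eD c A D) j j) :=
      ⟨_, rfl⟩
    have hd0 : d ≠ 0 := by
      rw [hd, ← h1 j]
      exact mul_ne_zero (hx0 j) (pow_ne_zero _ (hγ j))
    obtain ⟨n, hn⟩ := bt_small3 hϖ (fun k => d / (algebraMap (RatFunc F) (Kw F w) (eD c A D j) -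
      algebraMap (RatFunc F) (Kw F w) (eD c A D k)))
    have hs : ∀ k, ∃ s : Kw F w, s ≠ 0 ∧
        1 + ϖ ^ (2 * n) * (d / (algebraMap (RatFunc F) (Kw F w) (eD c A D j) -
          algebraMap (RatFunc F) (Kw F w) (eD c A D k))) = s ^ 2 := by
      intro k
      refine sq_near hq ?_
      rw [add_sub_cancel_left]
      exact hn k
    choose s hs0 hs using hs
    refine ⟨algebraMap (RatFunc F) (Kw F w) (eD c A D j) + d * (ϖ ^ n) ^ 2,
      fun k => if k = j then γ k * ϖ ^ n else γ k * s k, fun k => ?_, fun k => ?_⟩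
    · beta_reduce
      split_ifs
      · exact mul_ne_zero (hγ k) (pow_ne_zero _ hϖ0)
      · exact mul_ne_zero (hγ k) (hs0 k)
    · rw [← hE]
      beta_reduce
      split_ifs with hkj
      · subst hkj
        rw [add_sub_cancel_left, hd, ← h1 k]
        ring
      · have h3 : algebraMap (RatFunc F) (Kw F w) (kt (eD c A D) j k) =
            algebraMap (RatFunc F) (Kw F w) (eD c A D j) -
              algebraMap (RatFunc F) (Kw F w) (eD c A D k) := by
          unfold kt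
          rw [if_neg hkj, map_sub]
        have h4 := hEinj j k (Ne.symm hkj)
        have h5 := hs k
        have h6 := h1 k
        rw [h3] at h6
        calc algebraMap (RatFunc F) (Kw F w) (eD c A D j) + d * (ϖ ^ n) ^ 2 -
            algebraMap (RatFunc F) (Kw F w) (eD c A D k)
            = (algebraMap (RatFunc F) (Kw F w) (eD c A D j) -
                algebraMap (RatFunc F) (Kw F w) (eD c A D k)) *
              (1 + ϖ ^ (2 * n) * (d / (algebraMap (RatFunc F) (Kw F w) (eD c A D j) -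
                algebraMap (RatFunc F) (Kw F w) (eD c A D k)))) := by
              field_simp
              ring
          _ = (x k * γ k ^ 2) * s k ^ 2 := by rw [h5, h6]
          _ = x k * (γ k * s k) ^ 2 := by ring

end Pool.Agent.H40.FS
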