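import Pool.Agent.H40.FS.BT1
import Pool.Agent.H74.FS.HAS

set_option autoImplicit false

/-!
# [H40 FS BT2] From a point on the conic to a twist with a rational point

`a 0 = (A 1 - A 2) x 0`, `a 1 = (A 2 - A 0) x 1`, `a 2 = (A 0 - A 1) x 2` (in `RatFunc F`); the conic `∑ a i y i ^ 2 = 0`; the form `B y = (x 0 y 0 ^ 2 - x 1 y 1 ^ 2) / (A 1 - A 0)`.
* `bt_conic`: local zeros: for `w` let `X`, `z` be as in `bt_loc` (`Vw` from `sln_iff`): `∑ a i z i ^ 2 = ∑ (A 1 - A 2)(X - d A 0) + .. = 0` with `d = iw w (DK c D)`; `z ≠ 0`.  And `B z = d ((A 1) - (A 0)) / (A 1 - A 0) = d`.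
* `bt_twist`: let `∑ a i y i ^ 2 = 0` and `E = B y ≠ 0`.  Write `E = DK c1 D1 * r ^ 2` with `c1 ≠ 0`, `D1` monic squarefree, `r ≠ 0` (as in `nfm`: a rational function is a constant times a monic squarefree polynomial times a square).  `X = x 0 y 0 ^ 2 + E A 0`: then `X - E A k = x k y k ^ 2` for `k = 0` clear, `k = 1`: `x 0 y 0 ^ 2 - E (A 1 - A 0) = x 1 y 1 ^ 2`, `k = 2`: `X - E A 2 = ((A 1 - A 2) x 0 y 0 ^ 2 + (A 2 - A 0) x 1 y 1 ^ 2) / (A 1 - A 0) = x 2 y 2 ^ 2` (from the equation of the conic).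
  Divide by `r ^ 2`: `X' = X / r ^ 2`, `y' k = y k / r`: `X' - eD c1 A D1 k = x k y' k ^ 2`.
  If all `y k ≠ 0`: `Y ^ 2 = ∏ (X' - eD c1 A D1 k)` has a solution `Y ≠ 0` (`∏ x k` is a square), `(X', Y)` is a nonsingular point, `kum_pt` says that `X' - e k = x k * y' k ^ 2` is `IsKum`, so is `x k = (x k * y' k ^ 2) * (y' k⁻¹) ^ 2` (`kum_mul`, `kum_sq`).
  If `y j = 0` for some `j`, then only for this one (if two are zero so is the third since all `a i ≠ 0`, and `E = 0`); `X' = e j`, for `k ≠ j` `e j - e k = x k * y' k ^ 2` is `kt e j k`, and for the component `j`: `x j = x i x k` up to a square (the product of the three is a square) `= (e j - e i)(e j - e k)` up to a square `= kt e j j` up to a square: `kum_tor`, `kum_mul`, `kum_sq`.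
-/

namespace Pool.Agent.H40.FS

open Polynomial WithZero Pool.Agent.H74.FS
open Pool.Agent.H94.PL (LChar XX DK AK dl)
open Pool.Agent.H94.PM (LU vl IsVln IsSln)

section gen
open WeierstrassCurve Pool.Agent.H94.MW
variable {M : Type} [Field M] [DecidableEq M] {e : Fin 3 → M} {Ω : Type} [Field Ω] [Algebra M Ω]
  [DecidableEq Ω] [IsSepClosed Ω]

private theorem bt_kum_of (h2 : (2 : M) ≠ 0) (he : Function.Injective e) {g g' γ : Fin 3 → M}
    (hg' : ∀ k, g' k ≠ 0) (hp' : ∃ y, ∏ k, g' k = y ^ 2) (hγ : ∀ k, γ k ≠ 0)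
    (h : ∀ k, g k = g' k * γ k ^ 2) (hk : IsKum (M := M) e Ω g') : IsKum (M := M) e Ω g := by
  have h1 : g = g' * fun k => γ k ^ 2 := funext h
  rw [h1]
  refine kum_mul h2 he hg' hp' (fun k => pow_ne_zero 2 (hγ k)) ⟨∏ k, γ k, ?_⟩ hk (kum_sq h2 γ)
  rw [Finset.prod_pow]

omit [DecidableEq M] in
private theorem bt_bc : ((crv e)⁄M) = crv e := by
  unfold crv
  ext
  · exact map_zero _
  · rfl
  · exact map_zero _
  · rfl
  · rfl

private theorem bt_gen (h2 : (2 : M) ≠ 0) (he : Function.Injective e) {x y : Fin 3 → M}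
    (hx : ∀ k, x k ≠ 0) (hp : ∃ y, ∏ k, x k = y ^ 2) {X : M}
    (h : ∀ k, X - e k = x k * y k ^ 2) : IsKum (M := M) e Ω x := by
  obtain ⟨u, hu⟩ := hp
  have hu0 : u ≠ 0 := by
    rintro rfl
    rw [zero_pow two_ne_zero] at hu
    exact Finset.prod_ne_zero_iff.2 (fun k _ => hx k) hu
  by_cases hy : ∀ k, y k ≠ 0
  · have hns : ((crv e)⁄M).toAffine.Nonsingular X (u * ∏ k, y k) := by
      rw [bt_bc, nonsing_iff h2 he, mul_pow, ← hu, ← Finset.prod_pow, ← Finset.prod_mul_distrib]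
      exact Finset.prod_congr rfl fun k _ => (h k).symm
    have hk := kum_pt (Ω := Ω) (K := M) (M := M) h2 he hns
      (mul_ne_zero hu0 (Finset.prod_ne_zero_iff.2 fun k _ => hy k))
    refine bt_kum_of h2 he (g' := fun k => X - algebraMap M M (e k)) (γ := fun k => (y k)⁻¹)
      ?_ ⟨u * ∏ k, y k, ?_⟩ (fun k => inv_ne_zero (hy k)) ?_ hk
    · intro k
      show X - e k ≠ 0
      rw [h k]
      exact mul_ne_zero (hx k) (pow_ne_zero 2 (hy k))
    · show ∏ k, (X - e k) = _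
      rw [mul_pow, ← hu, ← Finset.prod_pow, ← Finset.prod_mul_distrib]
      exact Finset.prod_congr rfl fun k _ => h k
    · intro k
      show x k = (X - e k) * ((y k)⁻¹) ^ 2
      rw [h k]
      have := hy k
      field_simp
  · push Not at hy
    obtain ⟨j, hj⟩ := hy
    have hXj : X = e j := by
      have h1 := h j
      rw [hj, zero_pow two_ne_zero, mul_zero] at h1
      exact sub_eq_zero.1 h1
    subst hXj
    have hne : ∀ k, k ≠ j → y k ≠ 0 := by
      intro k hk h0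
      have h1 := h k
      rw [h0, zero_pow two_ne_zero, mul_zero] at h1
      exact hk (he (sub_eq_zero.1 h1)).symm
    have hkt : ∀ k, k ≠ j → kt e j k = e j - e k := fun k hk => by
      unfold kt
      rw [if_neg hk]
    have hktj : kt e j j = ∏ i ∈ Finset.univ.erase j, (e j - e i) := by
      unfold kt
      rw [if_pos rfl]
    have hkt0 : ∀ k, kt e j k ≠ 0 := by
      intro k
      by_cases hk : k = j
      · rw [hk, hktj]
        refine Finset.prod_ne_zero_iff.2 fun i hi => ?_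
        rw [h i]
        exact mul_ne_zero (hx i) (pow_ne_zero 2 (hne i (Finset.ne_of_mem_erase hi)))
      · rw [hkt k hk, h k]
        exact mul_ne_zero (hx k) (pow_ne_zero 2 (hne k hk))
    have hpr : ∏ k, kt e j k = (∏ i ∈ Finset.univ.erase j, (e j - e i)) ^ 2 := by
      rw [← Finset.mul_prod_erase Finset.univ (kt e j) (Finset.mem_univ j), sq, hktj]
      congr 1
      exact Finset.prod_congr rfl fun i hi => hkt i (Finset.ne_of_mem_erase hi)
    have hk := kum_tor (Ω := Ω) (K := M) (M := M) h2 he j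
    have hP0 : (∏ i ∈ Finset.univ.erase j, y i) ≠ 0 :=
      Finset.prod_ne_zero_iff.2 fun i hi => hne i (Finset.ne_of_mem_erase hi)
    refine bt_kum_of h2 he (g' := fun k => algebraMap M M (kt e j k))
      (γ := fun k => if k = j then u * (∏ i ∈ Finset.univ.erase j, y i) / kt e j j else (y k)⁻¹)
      hkt0 ⟨_, hpr⟩ ?_ ?_ hk
    · intro k
      beta_reduce
      split_ifs with hkj
      · exact div_ne_zero (mul_ne_zero hu0 hP0) (hkt0 j)
      · exact inv_ne_zero (hne k hkj)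
    · intro k
      show x k = kt e j k * (if k = j then u * (∏ i ∈ Finset.univ.erase j, y i) / kt e j j
        else (y k)⁻¹) ^ 2
      split_ifs with hkj
      · subst hkj
        have h3 : kt e k k = (∏ i ∈ Finset.univ.erase k, x i) *
            (∏ i ∈ Finset.univ.erase k, y i) ^ 2 := by
          rw [hktj, ← Finset.prod_pow, ← Finset.prod_mul_distrib]
          exact Finset.prod_congr rfl fun i _ => h i
        have h4 : x k * ∏ i ∈ Finset.univ.erase k, x i = u ^ 2 := by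
          rw [Finset.mul_prod_erase Finset.univ x (Finset.mem_univ k), hu]
        have h5 := hkt0 k
        have h6 : x k * kt e k k = (u * ∏ i ∈ Finset.univ.erase k, y i) ^ 2 := by
          rw [h3, ← mul_assoc, h4, mul_pow]
        rw [div_pow, ← h6]
        field_simp
      · rw [hkt k hkj, h k]
        have := hne k hkj
        field_simp

end gen

variable {F : Type} [Field F]

/-- the coefficients of the conic -/
noncomputable def cnc (A : Fin 3 → F[X]) (x : Fin 3 → RatFunc F) : Fin 3 → RatFunc F :=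
  ![(AK A 1 - AK A 2) * x 0, (AK A 2 - AK A 0) * x 1, (AK A 0 - AK A 1) * x 2]

/-- the coefficients of the form of the twist -/
noncomputable def cnb (A : Fin 3 → F[X]) (x : Fin 3 → RatFunc F) : Fin 3 → RatFunc F :=
  ![x 0 / (AK A 1 - AK A 0), -x 1 / (AK A 1 - AK A 0), 0]

variable [DecidableEq (RatFunc F)] [Finite F] {c : F} {A : Fin 3 → F[X]} {D : F[X]}

theorem bt_conic (hq : 2 ∣ Nat.card F - 1) (hc : c ≠ 0) (hA : ∀ i k, i ≠ k → A i ≠ A k)
    (hD : D ≠ 0) {x : Fin 3 → RatFunc F} (hx : IsSln 2 1 c A D x) (w : Pl F) :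
    ∃ z : Fin 3 → Kw F w, z ≠ 0 ∧ ∑ i, iw w (cnc A x i) * z i ^ 2 = 0 ∧
      ∑ i, iw w (cnb A x i) * z i ^ 2 = iw w (DK c D) := by
  obtain ⟨-, -, hw⟩ := sln_iff.1 hx
  obtain ⟨X, z, hz, h⟩ := bt_loc hq hc hA hD (hw w)
  have hA10 : iw w (AK A 1) - iw w (AK A 0) ≠ 0 := by
    rw [← map_sub]
    refine iw_ne (sub_ne_zero.2 fun h0 => ?_)
    exact hA 1 0 (by decide) (RatFunc.algebraMap_injective F h0)
  have h0 := h 0
  have h1 := h 1
  have h2 := h 2
  refine ⟨z, fun hz0 => hz 0 (congrFun hz0 0), ?_, ?_⟩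
  · rw [Fin.sum_univ_three]
    simp only [cnc, Matrix.cons_val_zero, Matrix.cons_val_one, Matrix.cons_val, map_mul, map_sub]
    linear_combination (-(iw w (AK A 1) - iw w (AK A 2))) * h0 -
      (iw w (AK A 2) - iw w (AK A 0)) * h1 - (iw w (AK A 0) - iw w (AK A 1)) * h2
  · rw [Fin.sum_univ_three]
    simp only [cnb, Matrix.cons_val_zero, Matrix.cons_val_one, Matrix.cons_val, map_div₀, map_neg,
      map_sub, map_zero]
    field_simp
    linear_combination -h0 + h1

private theorem bt_sqf : ∀ (n : ℕ) (a : F[X]), a ≠ 0 → a.natDegree ≤ n →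
    ∃ b g : F[X], Squarefree b ∧ g ≠ 0 ∧ a = b * g ^ 2 := by
  intro n
  induction n with
  | zero =>
    intro a ha hn
    refine ⟨a, 1, ?_, one_ne_zero, by rw [one_pow, mul_one]⟩
    have hu : IsUnit a := by
      rw [Polynomial.isUnit_iff_degree_eq_zero, degree_eq_natDegree ha, Nat.le_zero.1 hn]
      rfl
    exact hu.squarefree
  | succ n ih =>
    intro a ha hn
    by_cases hs : Squarefree a
    · exact ⟨a, 1, hs, one_ne_zero, by rw [one_pow, mul_one]⟩
    · unfold Squarefree at hs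
      push Not at hs
      obtain ⟨d, ⟨a', rfl⟩, hd⟩ := hs
      have ha' : a' ≠ 0 := right_ne_zero_of_mul ha
      have hd0 : d ≠ 0 := left_ne_zero_of_mul (left_ne_zero_of_mul ha)
      have hdeg : 0 < d.natDegree := by
        rw [Nat.pos_iff_ne_zero]
        intro h0
        apply hd
        rw [Polynomial.isUnit_iff_degree_eq_zero, degree_eq_natDegree hd0, h0]
        rfl
      have hle : a'.natDegree ≤ n := by
        rw [natDegree_mul (mul_ne_zero hd0 hd0) ha', natDegree_mul hd0 hd0] at hn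
        omega
      obtain ⟨b, g, hb, hg, hab⟩ := ih a' ha' hle
      refine ⟨b, g * d, hb, mul_ne_zero hg hd0, ?_⟩
      rw [hab]
      ring

private theorem bt_form {E : RatFunc F} (hE : E ≠ 0) :
    ∃ (c1 : F) (D1 : F[X]) (r : RatFunc F), c1 ≠ 0 ∧ D1.Monic ∧ Squarefree D1 ∧ r ≠ 0 ∧
      E = DK c1 D1 * r ^ 2 := by
  obtain ⟨a, s, ha, hs, hEa⟩ := rat_poly hE
  obtain ⟨b, g, hb, hg, hab⟩ := bt_sqf a.natDegree a ha le_rfl
  have hb0 : b ≠ 0 := hb.ne_zero
  have hl : b.leadingCoeff ≠ 0 := leadingCoeff_ne_zero.2 hb0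
  have hu : IsUnit (C b.leadingCoeff⁻¹) := isUnit_C.2 (isUnit_iff_ne_zero.2 (inv_ne_zero hl))
  have hD : C b.leadingCoeff * (b * C b.leadingCoeff⁻¹) = b := by
    rw [mul_comm b, ← mul_assoc, ← C_mul, mul_inv_cancel₀ hl, C_1, one_mul]
  refine ⟨b.leadingCoeff, b * C b.leadingCoeff⁻¹, s * algebraMap F[X] (RatFunc F) g, hl,
    monic_mul_leadingCoeff_inv hb0, ?_, mul_ne_zero hs (RatFunc.algebraMap_ne_zero hg), ?_⟩
  · exact Squarefree.squarefree_of_dvd (associated_mul_unit_left b _ hu).dvd hb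
  · rw [DK, hD, hEa, hab, map_mul, map_pow]
    ring

theorem bt_twist [DecidableEq (Oc F)] (hq : 2 ∣ Nat.card F - 1)
    (hA : ∀ i k, i ≠ k → A i ≠ A k) {x : Fin 3 → RatFunc F} (hx : ∀ k, x k ≠ 0)
    (hp : ∃ y, ∏ k, x k = y ^ 2) {y : Fin 3 → RatFunc F}
    (h1 : ∑ i, cnc A x i * y i ^ 2 = 0) (h2 : ∑ i, cnb A x i * y i ^ 2 ≠ 0) :
    ∃ (c1 : F) (D1 : F[X]) (r : RatFunc F), c1 ≠ 0 ∧ D1.Monic ∧ Squarefree D1 ∧ r ≠ 0 ∧
      ∑ i, cnb A x i * y i ^ 2 = DK c1 D1 * r ^ 2 ∧
      IsKum (M := RatFunc F) (eD c1 A D1) (Oc F) x := by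
  obtain ⟨c1, D1, r, hc1, hD1, hD1s, hr, hE⟩ := bt_form h2
  refine ⟨c1, D1, r, hc1, hD1, hD1s, hr, hE, ?_⟩
  have hdif : ∀ i k, i ≠ k → AK A i - AK A k ≠ 0 := fun i k hik =>
    sub_ne_zero.2 fun h0 => hA i k hik (RatFunc.algebraMap_injective F h0)
  have h10 := hdif 1 0 (by decide)
  have h01 := hdif 0 1 (by decide)
  have hE' := hE
  rw [Fin.sum_univ_three] at hE' h1
  simp only [cnc, cnb, Matrix.cons_val_zero, Matrix.cons_val_one, Matrix.cons_val] at hE' h1
  have hE2 : x 0 * y 0 ^ 2 - x 1 * y 1 ^ 2 = DK c1 D1 * r ^ 2 * (AK A 1 - AK A 0) := by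
    rw [← hE']
    field_simp
    ring
  have hX : ∀ k, (x 0 * y 0 ^ 2 + DK c1 D1 * r ^ 2 * AK A 0) - DK c1 D1 * r ^ 2 * AK A k =
      x k * y k ^ 2 := by
    intro k
    fin_cases k
    · simp only [Fin.zero_eta]
      ring
    · simp only [Fin.mk_one]
      linear_combination hE2
    · simp only [Fin.reduceFinMk]
      refine mul_left_cancel₀ h01 ?_
      linear_combination (AK A 0 - AK A 2) * hE2 - h1
  refine bt_gen (M := RatFunc F) (e := eD c1 A D1) (Ω := Oc F) (two_rf hq)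
    (eD_inj hc1 hA hD1.ne_zero) hx hp
    (X := (x 0 * y 0 ^ 2 + DK c1 D1 * r ^ 2 * AK A 0) / r ^ 2) (y := fun k => y k / r) fun k => ?_
  have h3 := hX k
  have h4 : x k * (y k / r) ^ 2 = (x k * y k ^ 2) / r ^ 2 := by
    rw [div_pow, mul_div_assoc]
  rw [h4, ← h3, eD]
  field_simp

end Pool.Agent.H40.FS
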