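import Pool.Agent.H74.FS.KER

set_option autoImplicit false

/-!
# [H40 FS PAR] Elements of `F(t)` with prescribed parities of the valuations

* `par1`: `T` a finite set of places `≠ none`; `f = ∏ P, P` over the monic irreducible `P` with `some P ∈ T` and `t (some P) = 1`.  Valuations: `ev_self`, `ev_poly_zero` (different monic irreducible polynomials do not divide each other), `ev_mul` / `ev_prod`.
* `par3`: `h 0`, `h 1` from `par1` (with `t w 0`, `t w 1`), `h 2 = h 0 * h 1`; `ev (h 2) = t w 0 + t w 1 = t w 2` since the sum of the three is zero in `ZMod 2`; the product is `(h 0 * h 1) ^ 2`.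
-/

namespace Pool.Agent.H40.FS

open Polynomial WithZero Pool.Agent.H74.FS
open Pool.Agent.H94.PL (LChar XX DK AK dl)
open Pool.Agent.H94.PM (LU vl IsVln IsSln)

variable {F : Type} [Field F] [DecidableEq (RatFunc F)]

/-- the polynomial of a place -/
private noncomputable def gen : Pl F → RatFunc F
  | none => 1
  | some P => algebraMap F[X] (RatFunc F) P.1

omit [DecidableEq (RatFunc F)] in
private theorem gen_ne (w : Pl F) : gen w ≠ 0 := by
  rcases w with _ | ⟨P, hP, hi⟩
  · exact one_ne_zero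
  · exact RatFunc.algebraMap_ne_zero hP.ne_zero

open Classical in
private theorem ev_gen {u w : Pl F} (hu : u ≠ none) (hw : w ≠ none) :
    ev u (iw u (gen w)) = if u = w then 1 else 0 := by
  rcases u with _ | ⟨Q, hQ, hQi⟩
  · exact absurd rfl hu
  rcases w with _ | ⟨P, hP, hi⟩
  · exact absurd rfl hw
  by_cases h : P = Q
  · subst h
    rw [if_pos rfl]
    exact ev_self hP hi
  · rw [if_neg]
    · refine ev_poly_zero hQ hQi fun hd => h ?_
      exact (eq_of_monic_of_associated hQ hP (hQi.associated_of_dvd hi hd)).symm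
    · intro h1
      exact h (congrArg Subtype.val (Option.some.inj h1)).symm

private theorem z2 : ∀ a : ZMod 2, a ≠ 1 → a = 0 := by decide

theorem par1 {T : Finset (Pl F)} (hT : (none : Pl F) ∉ T) (t : Pl F → ZMod 2) :
    ∃ f : RatFunc F, f ≠ 0 ∧ (∀ w ∈ T, ev w (iw w f) = t w) ∧
      ∀ w : Pl F, w ≠ none → w ∉ T → ev w (iw w f) = 0 := by
  classical
  have key : ∀ u : Pl F, u ≠ none →
      ev u (iw u (∏ w ∈ T.filter (fun w => t w = 1), gen w)) =
        if u ∈ T.filter (fun w => t w = 1) then 1 else 0 := by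
    intro u hu
    rw [map_prod, ev_prod _ _ fun w _ => iw_ne (gen_ne w)]
    have h1 : ∀ w ∈ T.filter (fun w => t w = 1), ev u (iw u (gen w)) = if u = w then 1 else 0 := by
      intro w hw
      refine ev_gen hu ?_
      rintro rfl
      exact hT (Finset.mem_filter.1 hw).1
    rw [Finset.sum_congr rfl h1, Finset.sum_ite_eq]
  refine ⟨∏ w ∈ T.filter (fun w => t w = 1), gen w,
    Finset.prod_ne_zero_iff.2 fun w _ => gen_ne w, fun w hw => ?_, fun w hw hwT => ?_⟩
  · have hn : w ≠ none := fun h => hT (h ▸ hw)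
    rw [key w hn]
    by_cases h1 : t w = 1
    · rw [if_pos (Finset.mem_filter.2 ⟨hw, h1⟩), h1]
    · have h3 : w ∉ T.filter (fun w => t w = 1) := fun h2 => h1 (Finset.mem_filter.1 h2).2
      rw [if_neg h3, z2 _ h1]
  · have h3 : w ∉ T.filter (fun w => t w = 1) := fun h2 => hwT (Finset.mem_filter.1 h2).1
    rw [key w hw, if_neg h3]

theorem par3 {T : Finset (Pl F)} (hT : (none : Pl F) ∉ T) (t : Pl F → Fin 3 → ZMod 2)
    (ht : ∀ w ∈ T, ∑ k, t w k = 0) :
    ∃ h : Fin 3 → RatFunc F, (∀ k, h k ≠ 0) ∧ (∃ y, ∏ k, h k = y ^ 2) ∧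
      (∀ w ∈ T, ∀ k, ev w (iw w (h k)) = t w k) ∧
      ∀ w : Pl F, w ≠ none → w ∉ T → ∀ k, ev w (iw w (h k)) = 0 := by
  obtain ⟨f, hf, hf1, hf2⟩ := par1 hT (fun w => t w 0)
  obtain ⟨g, hg, hg1, hg2⟩ := par1 hT (fun w => t w 1)
  have hz : ∀ a b c : ZMod 2, a + b + c = 0 → a + b = c := by decide
  refine ⟨![f, g, f * g], ?_, ⟨f * g, ?_⟩, ?_, ?_⟩
  · intro k
    fin_cases k
    · exact hf
    · exact hg
    · exact mul_ne_zero hf hg
  · rw [Fin.prod_univ_three]
    simp only [Matrix.cons_val_zero, Matrix.cons_val_one, Matrix.cons_val]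
    ring
  · intro w hw k
    have h1 := ht w hw
    rw [Fin.sum_univ_three] at h1
    fin_cases k
    · exact hf1 w hw
    · exact hg1 w hw
    · change ev w (iw w (f * g)) = t w 2
      rw [map_mul, ev_mul (iw_ne hf) (iw_ne hg), hf1 w hw, hg1 w hw]
      exact hz _ _ _ h1
  · intro w hw hwT k
    fin_cases k
    · exact hf2 w hw hwT
    · exact hg2 w hw hwT
    · change ev w (iw w (f * g)) = 0
      rw [map_mul, ev_mul (iw_ne hf) (iw_ne hg), hf2 w hw hwT, hg2 w hw hwT, add_zero]

end Pool.Agent.H40.FS
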