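import Pool.Agent.H40.FS.FRA
import Pool.Agent.H40.FS.PAR

set_option autoImplicit false

/-!
# [H40 FS TRD] Two twists

`TP`: the bad places of `c D` are in `U`, those of `c1 D1` in `U1`, and at the places of `S = U ∩ U1` the two twists are in the same square class.  `tn = c D / (c1 D1)`.
* `tp_unit`: `w ∉ U`, `w ∉ U1` is `some P` with `P ∤ D`, `P ∤ D1` (`Bad`), so `vw w (iw w (DK c D)) = 1` (`H94.PL.wP_eq_one`; constants are units), the same for `D1`.
* `tp_int`: `w = some P`: polynomials have valuation `≤ 1`.  `tp_dif`: `P ∤ D`, `P ∤ dl A` so `P ∤ A i - A j` (`dl A` is the product of the differences up to sign, `H94.PL.dvd_dl`).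
* `tn_ne`, `tn_eq`: `DK c D ≠ 0` (`H94.PL.DK_ne`).
-/

namespace Pool.Agent.H40.FS

open Polynomial WithZero Pool.Agent.H74.FS
open Pool.Agent.H94.PL (LChar XX DK AK dl)
open Pool.Agent.H94.PM (LU vl IsVln IsSln)

variable {F : Type} [Field F]

/-- the quotient of two twists -/
noncomputable def tn (c c1 : F) (D D1 : F[X]) : RatFunc F := DK c D / DK c1 D1

variable [DecidableEq (RatFunc F)]

/-- two twists -/
structure TP (S U U1 : Finset (Pl F)) (c c1 : F) (A : Fin 3 → F[X]) (D D1 : F[X]) : Prop where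
  c0 : c ≠ 0
  c10 : c1 ≠ 0
  D0 : D ≠ 0
  D10 : D1 ≠ 0
  bad : Bad A D U
  bad1 : Bad A D1 U1
  mem : ∀ w : Pl F, w ∈ S ↔ w ∈ U ∧ w ∈ U1
  sq : ∀ w ∈ S, IsSquare (iw w (tn c c1 D D1))

variable {S U U1 : Finset (Pl F)} {c c1 : F} {A : Fin 3 → F[X]} {D D1 : F[X]}

omit [DecidableEq (RatFunc F)] in
private theorem trd_nd {P : F[X]} (hi : Irreducible P) {e : F} (he : e ≠ 0) {E : F[X]}
    (hE : ¬ P ∣ E) : ¬ P ∣ C e * E := by
  intro h
  exact hE ((hi.prime.dvd_or_dvd h).resolve_left fun h => hi.not_isUnit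
    (isUnit_of_dvd_unit h (isUnit_C.2 (isUnit_iff_ne_zero.2 he))))

private theorem trd_one {P : F[X]} (hP : P.Monic ∧ Irreducible P) {a : F[X]} (h : ¬ P ∣ a) :
    vw (some ⟨P, hP⟩ : Pl F) (iw (some ⟨P, hP⟩ : Pl F) (algebraMap F[X] (RatFunc F) a)) = 1 :=
  Pool.Agent.H94.PL.wP_eq_one hP.2 h

private theorem trd_le {P : F[X]} (hP : P.Monic ∧ Irreducible P) (a : F[X]) :
    vw (some ⟨P, hP⟩ : Pl F) (iw (some ⟨P, hP⟩ : Pl F) (algebraMap F[X] (RatFunc F) a)) ≤ 1 :=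
  Pool.Agent.H94.PL.wP_le_one P hP.2 a

omit [DecidableEq (RatFunc F)] in
private theorem trd_DK {e : F} (he : e ≠ 0) {E : F[X]} (hE : E ≠ 0) : DK e E ≠ 0 := by
  rw [DK, Ne, FaithfulSMul.algebraMap_eq_zero_iff]
  exact mul_ne_zero (C_ne_zero.2 he) hE

omit [DecidableEq (RatFunc F)] in
private theorem trd_dl {A : Fin 3 → F[X]} {i k : Fin 3} (hik : i ≠ k) : A i - A k ∣ dl A := by
  rcases lt_or_gt_of_ne hik with h1 | h1
  · exact Pool.Agent.H94.PL.syc_dvd A (p := (i, k)) (Pool.Agent.H94.PL.mem_prs.2 h1)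
  · have h2 : A k - A i ∣ dl A :=
      Pool.Agent.H94.PL.syc_dvd A (p := (k, i)) (Pool.Agent.H94.PL.mem_prs.2 h1)
    have h3 : -(A k - A i) ∣ dl A := neg_dvd.2 h2
    rwa [neg_sub] at h3

theorem tn_ne (h : TP S U U1 c c1 A D D1) : tn c c1 D D1 ≠ 0 :=
  div_ne_zero (trd_DK h.c0 h.D0) (trd_DK h.c10 h.D10)

theorem tn_eq (h : TP S U U1 c c1 A D D1) (k : Fin 3) :
    eD c A D k = tn c c1 D D1 * eD c1 A D1 k := by
  have h1 := trd_DK h.c10 h.D10
  unfold tn eD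
  rw [← mul_assoc, div_mul_cancel₀ _ h1]

theorem tp_unit (h : TP S U U1 c c1 A D D1) {w : Pl F} (hw : w ∉ U) (hw1 : w ∉ U1) :
    vw w (iw w (tn c c1 D D1)) = 1 := by
  rcases w with _ | ⟨P, hP⟩
  · exact absurd h.bad.inf hw
  · have h1 : ¬ P ∣ D := fun hd => hw (h.bad.fin P hP (Dvd.dvd.mul_right hd _))
    have h2 : ¬ P ∣ D1 := fun hd => hw1 (h.bad1.fin P hP (Dvd.dvd.mul_right hd _))
    have h3 := trd_one hP (trd_nd hP.2 h.c0 h1)
    have h4 := trd_one hP (trd_nd hP.2 h.c10 h2)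
    unfold tn DK
    rw [map_div₀, map_div₀, h3, h4, div_one]

theorem tp_int (h : TP S U U1 c c1 A D D1) {w : Pl F} (hw : w ∉ U) (k : Fin 3) :
    vw w (iw w (eD c A D k)) ≤ 1 := by
  rcases w with _ | ⟨P, hP⟩
  · exact absurd h.bad.inf hw
  · unfold eD DK AK
    rw [← map_mul]
    exact trd_le hP _

theorem tp_dif (h : TP S U U1 c c1 A D D1) {w : Pl F} (hw : w ∉ U) {i j : Fin 3}
    (hij : i ≠ j) : vw w (iw w (eD c A D i) - iw w (eD c A D j)) = 1 := by
  rcases w with _ | ⟨P, hP⟩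
  · exact absurd h.bad.inf hw
  · have h1 : ¬ P ∣ D := fun hd => hw (h.bad.fin P hP (Dvd.dvd.mul_right hd _))
    have h2 : ¬ P ∣ A i - A j := fun hd => hw (h.bad.fin P hP
      (Dvd.dvd.mul_left (hd.trans (trd_dl hij)) _))
    have h3 := trd_one hP (trd_nd hP.2 h.c0 h1)
    have h4 := trd_one hP h2
    have h5 : iw (some ⟨P, hP⟩ : Pl F) (eD c A D i) - iw (some ⟨P, hP⟩ : Pl F) (eD c A D j) =
        iw (some ⟨P, hP⟩ : Pl F) (algebraMap F[X] (RatFunc F) (C c * D)) *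
          iw (some ⟨P, hP⟩ : Pl F) (algebraMap F[X] (RatFunc F) (A i - A j)) := by
      have h6 : eD c A D i - eD c A D j = algebraMap F[X] (RatFunc F) (C c * D) *
          algebraMap F[X] (RatFunc F) (A i - A j) := by
        unfold eD DK AK
        rw [map_sub (algebraMap F[X] (RatFunc F)), mul_sub]
      rw [← map_sub, h6, map_mul]
    rw [h5, map_mul, h3, h4, one_mul]

end Pool.Agent.H40.FS
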