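import Pool.Agent.H40.FS.BT2
import Pool.Agent.H40.FS.TRD
import Pool.Agent.H13.WA.D

set_option autoImplicit false

/-!
# [H40 FS BT3] The base twist of a Selmer tuple

`btw`: `cnc A x i ≠ 0`.  `bt_conic` at all `w` and `conic_hasse` (`H74/FS/HAS`) give a nonzero global zero `z₀`; `conic_class` (`H13/WA/D`) with the local zeros of `bt_conic` and `b = cnb A x` (`∑ = iw w (DK c D) ≠ 0`) gives `y` with `E = ∑ cnb A x i * y i ^ 2`, `iw w E = iw w (DK c D) * v ^ 2`, `v ≠ 0`, for `w ∈ S`.  `E ≠ 0` (take `w = none`).  `bt_twist`: `E = DK c1 D1 * r ^ 2`.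
For `w ∈ S`: `iw w (tn c c1 D D1) = iw w (DK c D) / iw w (DK c1 D1) = (iw w E / v ^ 2) / (iw w E / (iw w r) ^ 2) = (iw w r / v) ^ 2`.
-/

namespace Pool.Agent.H40.FS

open Polynomial WithZero Pool.Agent.H74.FS
open Pool.Agent.H94.PL (LChar XX DK AK dl)
open Pool.Agent.H94.PM (LU vl IsVln IsSln)

variable {F : Type} [Field F] [DecidableEq (RatFunc F)] [Finite F] (χ : LChar F 2) {c : F}
  {A : Fin 3 → F[X]} {D : F[X]} {S : Finset (Pl F)}

include χ in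
theorem btw [DecidableEq (Oc F)] (hq : 2 ∣ Nat.card F - 1) (hc : c ≠ 0)
    (hA : ∀ i k, i ≠ k → A i ≠ A k) (hD : D ≠ 0) (hS : (none : Pl F) ∈ S)
    {x : Fin 3 → RatFunc F} (hx : IsSln 2 1 c A D x) :
    ∃ (c1 : F) (D1 : F[X]), c1 ≠ 0 ∧ D1.Monic ∧ Squarefree D1 ∧
      IsKum (M := RatFunc F) (eD c1 A D1) (Oc F) x ∧
      ∀ w ∈ S, IsSquare (iw w (tn c c1 D D1)) := by
  obtain ⟨hx0, hp, -⟩ := sln_iff.1 hx
  have hdif : ∀ i k, i ≠ k → AK A i - AK A k ≠ 0 := fun i k hik =>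
    sub_ne_zero.2 fun h0 => hA i k hik (RatFunc.algebraMap_injective F h0)
  have ha : ∀ i, cnc A x i ≠ 0 := by
    intro i
    fin_cases i
    · exact mul_ne_zero (hdif 1 2 (by decide)) (hx0 0)
    · exact mul_ne_zero (hdif 2 0 (by decide)) (hx0 1)
    · exact mul_ne_zero (hdif 0 1 (by decide)) (hx0 2)
  choose z hz0 hz1 hz2 using fun w => bt_conic hq hc hA hD hx w
  obtain ⟨z₀, hz₀, h⟩ := conic_hasse χ hq ha (fun w => ⟨z w, hz0 w, hz1 w⟩)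
  have hDK : ∀ w : Pl F, iw w (DK c D) ≠ 0 := fun w => iw_ne (H94.PL.DK_ne hc hD)
  obtain ⟨y, hy1, hy2⟩ := Pool.Agent.H13.WA.conic_class hq S ha hz₀ h z (fun w _ => hz1 w)
    (cnb A x) (fun w _ => by rw [hz2 w]; exact hDK w)
  have hEw : ∀ w : Pl F, iw w (∑ i, cnb A x i * y i ^ 2) =
      ∑ i, iw w (cnb A x i) * iw w (y i) ^ 2 := by
    intro w
    rw [map_sum]
    exact Finset.sum_congr rfl fun i _ => by rw [map_mul, map_pow]
  have hE0 : ∑ i, cnb A x i * y i ^ 2 ≠ 0 := by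
    intro h0
    obtain ⟨v, hv, hv2⟩ := hy2 none hS
    rw [← hEw, h0, map_zero, hz2] at hv2
    exact mul_ne_zero (hDK none) (pow_ne_zero 2 hv) hv2.symm
  obtain ⟨c1, D1, r, hc1, hD1, hs, hr, hE, hk⟩ := bt_twist hq hA hx0 hp hy1 hE0
  refine ⟨c1, D1, hc1, hD1, hs, hk, fun w hw => ?_⟩
  obtain ⟨v, hv, hv2⟩ := hy2 w hw
  rw [← hEw, hE, hz2, map_mul, map_pow] at hv2
  have h1 : iw w (DK c1 D1) ≠ 0 := iw_ne (H94.PL.DK_ne hc1 hD1.ne_zero)
  refine ⟨iw w r / v, ?_⟩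
  rw [tn, map_div₀, div_mul_div_comm, div_eq_div_iff h1 (mul_ne_zero hv hv)]
  linear_combination -hv2

end Pool.Agent.H40.FS
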