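import Pool.Agent.H40.FS.SYA
import Pool.Agent.H40.FS.CVL

set_option autoImplicit false

/-!
# [H40 FS CAL] The local terms of the alternation formula

`k_i = p i + q i √N` has norm `x i m i ^ 2`, `s = q 1 p 0 + q 0 p 1` (the coefficient of `√N` in `k_0 k_1`).
* `al_in` (`N` a unit, not a square, `x i` units): `hs (x i) z = un (x i) * vl z`.  If `x 0`, `x 1` are squares, both terms are `0`.  If `x 0` is not a square and `x 1` is a square: `vl (q 0) = vl (m 0)` is even (`inert_q`), `x 0 x 1` is not a square and `(p 0 p 1 + N q 0 q 1) ^ 2 - N s ^ 2 = x 0 x 1 (m 0 m 1) ^ 2`, so `vl s = vl (m 0 m 1)` is even.  The same with `0`, `1` interchanged.  If both are not squares: `vl (q 0) + vl s + vl (q 1) + vl s` is even.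
* `al_sp` (`N = n ^ 2`): `sy_alt`, and `hs_even` for the left side.
* `al_sq` (`x i` squares): `hs_sq`.
-/

namespace Pool.Agent.H40.FS

open WithZero Pool.Agent.H94.PM

variable {M : Type} [Field M] [Valued M ℤᵐ⁰] [CompleteSpace M]
  (U : LU (Valued.v : Valuation M ℤᵐ⁰) 2) {N : M} {x p q m : Fin 2 → M}

omit [CompleteSpace M] in
private theorem cal_ne {y : M} (h : (Valued.v : Valuation M ℤᵐ⁰) y = 1) : y ≠ 0 := by
  rintro rfl
  rw [map_zero] at h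
  exact zero_ne_one h

omit [CompleteSpace M] in
private theorem cal_vl {y : M} (h : (Valued.v : Valuation M ℤᵐ⁰) y = 1) :
    vl (Valued.v : Valuation M ℤᵐ⁰) y = 0 := by
  unfold vl
  rw [h, log_one, neg_zero]

omit [CompleteSpace M] in
private theorem cal_sq {y z : M} (hy : y ≠ 0) (h : IsSquare y) (hz : z ≠ 0) : U.hs y z = 0 := by
  obtain ⟨r, hr⟩ := h
  have hr0 : r ≠ 0 := by
    rintro rfl
    exact hy (by rw [hr, mul_zero])
  rw [hr, ← pow_two]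
  exact (hs_sq U hr0 hz).1

private theorem cal_un (h2 : (Valued.v : Valuation M ℤᵐ⁰) (2 : M) = 1) {y : M}
    (hy : (Valued.v : Valuation M ℤᵐ⁰) y = 1) (h : ¬ IsSquare y) : U.un y = 1 := by
  have h0 : U.un y ≠ 0 := by
    intro h0
    obtain ⟨w, hw, hn⟩ := U.ker y hy h0
    have h2' : (Valued.v : Valuation M ℤᵐ⁰) ((2 : ℕ) : M) = 1 := by
      rw [Nat.cast_ofNat]
      exact h2
    obtain ⟨r, -, hr⟩ := hen h2' hn
    refine h ⟨r / w, ?_⟩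
    rw [div_mul_div_comm, eq_div_iff (mul_ne_zero hw hw), ← pow_two, ← pow_two, hr]
  generalize U.un y = u at h0
  revert h0
  revert u
  decide

private theorem cal_mix (h2 : (Valued.v : Valuation M ℤᵐ⁰) (2 : M) = 1)
    (hN : (Valued.v : Valuation M ℤᵐ⁰) N = 1) (hns : ¬ IsSquare N) {x0 x1 p0 p1 q0 q1 m0 m1 : M}
    (hx0 : (Valued.v : Valuation M ℤᵐ⁰) x0 = 1) (hx1 : (Valued.v : Valuation M ℤᵐ⁰) x1 = 1)
    (hm0 : Even (vl Valued.v m0)) (hm1 : Even (vl Valued.v m1)) (hm00 : m0 ≠ 0) (hm10 : m1 ≠ 0)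
    (hk0 : p0 ^ 2 - N * q0 ^ 2 = x0 * m0 ^ 2) (hk1 : p1 ^ 2 - N * q1 ^ 2 = x1 * m1 ^ 2)
    (hq0 : q0 ≠ 0) {S : M} (hS : S = q1 * p0 + q0 * p1) (hs : S ≠ 0) (h0 : ¬ IsSquare x0)
    (h1 : IsSquare x1) : U.hs x0 (q0 * S) = 0 := by
  have hv1 : vl Valued.v q0 = vl Valued.v m0 := inert_q h2 hN hns hx0 h0 hm00 hk0
  have hx10 : x1 ≠ 0 := cal_ne hx1
  have hns2 : ¬ IsSquare (x0 * x1) := by
    rintro ⟨r, hr⟩
    obtain ⟨w, hw⟩ := h1
    have hw0 : w ≠ 0 := by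
      rintro rfl
      exact hx10 (by rw [hw, mul_zero])
    refine h0 ⟨r / w, ?_⟩
    rw [div_mul_div_comm, eq_div_iff (mul_ne_zero hw0 hw0), ← hw, hr]
  have hv2 : vl Valued.v S = vl Valued.v (m0 * m1) := by
    refine inert_q h2 hN hns (x := x0 * x1) (p := p0 * p1 + N * (q0 * q1)) ?_ hns2
      (mul_ne_zero hm00 hm10) ?_
    · rw [map_mul, hx0, hx1, mul_one]
    · rw [hS]
      have e1 : (p0 * p1 + N * (q0 * q1)) ^ 2 - N * (q1 * p0 + q0 * p1) ^ 2 =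
          (p0 ^ 2 - N * q0 ^ 2) * (p1 ^ 2 - N * q1 ^ 2) := by ring
      rw [e1, hk0, hk1]
      ring
  refine hs_even U ?_ ?_
  · rw [cal_vl hx0]
    exact Even.zero
  · rw [vl_mul hq0 hs, hv1, hv2, vl_mul hm00 hm10]
    exact hm0.add (hm0.add hm1)

theorem al_in (h2 : (Valued.v : Valuation M ℤᵐ⁰) (2 : M) = 1)
    (hN : (Valued.v : Valuation M ℤᵐ⁰) N = 1) (hns : ¬ IsSquare N)
    (hx : ∀ i, (Valued.v : Valuation M ℤᵐ⁰) (x i) = 1) (hm : ∀ i, Even (vl Valued.v (m i)))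
    (hm0 : ∀ i, m i ≠ 0) (hk : ∀ i, p i ^ 2 - N * q i ^ 2 = x i * m i ^ 2)
    (hq : ∀ i, q i ≠ 0) (hs : q 1 * p 0 + q 0 * p 1 ≠ 0) :
    U.hs (x 0) (q 0 * (q 1 * p 0 + q 0 * p 1)) + U.hs (x 1) (q 1 * (q 1 * p 0 + q 0 * p 1)) =
      0 := by
  have hxn : ∀ i, x i ≠ 0 := fun i => cal_ne (hx i)
  by_cases h0 : IsSquare (x 0)
  · rw [cal_sq U (hxn 0) h0 (mul_ne_zero (hq 0) hs), zero_add]
    by_cases h1 : IsSquare (x 1)
    · exact cal_sq U (hxn 1) h1 (mul_ne_zero (hq 1) hs)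
    · exact cal_mix U h2 hN hns (hx 1) (hx 0) (hm 1) (hm 0) (hm0 1) (hm0 0) (hk 1) (hk 0) (hq 1)
        (add_comm _ _) hs h1 h0
  · by_cases h1 : IsSquare (x 1)
    · rw [cal_sq U (hxn 1) h1 (mul_ne_zero (hq 1) hs), add_zero]
      exact cal_mix U h2 hN hns (hx 0) (hx 1) (hm 0) (hm 1) (hm0 0) (hm0 1) (hk 0) (hk 1) (hq 0)
        rfl hs h0 h1
    · have a0 : vl Valued.v (q 0) = vl Valued.v (m 0) :=
        inert_q h2 hN hns (hx 0) h0 (hm0 0) (hk 0)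
      have a1 : vl Valued.v (q 1) = vl Valued.v (m 1) :=
        inert_q h2 hN hns (hx 1) h1 (hm0 1) (hk 1)
      have b0 : U.un (x 0) = 1 := cal_un U h2 (hx 0) h0
      have b1 : U.un (x 1) = 1 := cal_un U h2 (hx 1) h1
      unfold LU.hs
      rw [cal_vl (hx 0), cal_vl (hx 1), vl_mul (hq 0) hs, vl_mul (hq 1) hs, b0, b1, a0, a1]
      obtain ⟨k0, hk0⟩ := hm 0
      obtain ⟨k1, hk1⟩ := hm 1
      rw [hk0, hk1]
      have h22 : (2 : ZMod 2) = 0 := by decide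
      push_cast
      linear_combination ((k0 : ZMod 2) + (k1 : ZMod 2) +
        ((vl Valued.v (q 1 * p 0 + q 0 * p 1) : ℤ) : ZMod 2)) * h22

theorem al_sp (h2 : (Valued.v : Valuation M ℤᵐ⁰) (2 : M) = 1) {n : M} (hn0 : n ≠ 0)
    (hn : n ^ 2 = N) (hx : ∀ i, (Valued.v : Valuation M ℤᵐ⁰) (x i) = 1)
    (hm : ∀ i, Even (vl Valued.v (p i + q i * n)))
    (hm0 : ∀ i, m i ≠ 0) (hk : ∀ i, p i ^ 2 - N * q i ^ 2 = x i * m i ^ 2)
    (hq : ∀ i, q i ≠ 0) (hs : q 1 * p 0 + q 0 * p 1 ≠ 0) :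
    U.hs (x 0) (q 0 * (q 1 * p 0 + q 0 * p 1)) + U.hs (x 1) (q 1 * (q 1 * p 0 + q 0 * p 1)) =
      0 := by
  have h20 : (2 : M) ≠ 0 := cal_ne h2
  have hk' : ∀ i, p i ^ 2 - n ^ 2 * q i ^ 2 = x i * m i ^ 2 := fun i => by rw [hn]; exact hk i
  have key := sy_alt U.sy h20 hn0 (x := x) (p := p) (q := q) (m := m) (fun i => cal_ne (hx i)) hm0
    hk' hq hs
  rw [U.sy_apply, U.sy_apply, U.sy_apply, U.sy_apply] at key
  rw [← key, hs_even U (hm 0) (by rw [cal_vl (hx 1)]; exact Even.zero),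
    hs_even U (hm 1) (by rw [cal_vl (hx 0)]; exact Even.zero), add_zero]

omit [CompleteSpace M] in
theorem al_sq (hx0 : ∀ i, x i ≠ 0) (hx : ∀ i, IsSquare (x i))
    (hq : ∀ i, q i ≠ 0) (hs : q 1 * p 0 + q 0 * p 1 ≠ 0) :
    U.hs (x 0) (q 0 * (q 1 * p 0 + q 0 * p 1)) + U.hs (x 1) (q 1 * (q 1 * p 0 + q 0 * p 1)) =
      0 := by
  rw [cal_sq U (hx0 0) (hx 0) (mul_ne_zero (hq 0) hs),
    cal_sq U (hx0 1) (hx 1) (mul_ne_zero (hq 1) hs), add_zero]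

end Pool.Agent.H40.FS
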