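import Pool.Agent.H40.FS.SYB
import Pool.Agent.H40.FS.CVL

set_option autoImplicit false

/-!
# [H40 FS CVA] The local terms of the sum `tht`

* `cv_a` (`N` a unit, not a square, `c` a unit): `tht` is a sum of six terms.  First: `e = c y 1` is a unit.  If `e` is not a square, then `N * e` is a square (`un N = un e = 1`, `un (N e) = 0`, `U.ker`, `hen`), the term is `0` (`hs_sq`), and `v (X 0) = 1`: by `inert_max` (for `e`) `v (x 0 X 0 ^ 2) = v (Z 0 ^ 2 - e W 0 ^ 2) = max (v (Z 0)) (v (W 0)) ^ 2`, and if `v (X 0) < 1` then `v (Z 0) = 1` or `v (W 0) = 1`, contradiction.  So the term is `vl (X 0)`.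
  If `e = ε ^ 2`: by `sy_t2` the term is `hs ((Z 0 + W 0 ε) / X 0) N = vl (Z 0 + W 0 ε) - vl (X 0)` (`hs_unit`), and `vl (Z 0 + W 0 ε)` is even: `(Z 0 + W 0 ε) (Z 0 - W 0 ε) = x 0 X 0 ^ 2`, both factors are integral; if both have valuation `< 1` then `v (Z 0) < 1`, `v (W 0) < 1` (`v 2 = v ε = 1`), so `v (X 0) < 1`, contradiction; so one has `vl = 0` and the other `2 vl (X 0)`.  Again the term is `vl (X 0)`.
  The same for the second (`e = c y 0`) and the third term (`e = c`; `p2 ^ 2 - N q2 ^ 2 = x 0 x 1 (m 0 m 1) ^ 2` with `p2 = p 0 p 1 + N q 0 q 1`, `q2 = p 0 q 1 + q 0 p 1`).  `hs (m 0) (y 1) = 0` by `hs_even`, `hs g N = vl g` (`hs_unit`).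
* `cv_b`: `tht_rt`; the first two terms vanish by `hs_even` (`vl (r i) = 0`, `inert_even`, `hm`), the third is `vl (gle ..)` (`hs_unit`).
* `cv_c`: `tht_sq` and `hs_even`.
* `cv_p`: `tht_rt`; `hs (..) (t i ^ 2) = 0` (`hs_sq`), `hs (gle ..) N = un (gle ..)` (`hs_odd`).
* `cv_r`: `x 0 X 0 ^ 2 = Z 0 ^ 2 - e W 0 ^ 2` with `v e < 1`.  If `v (X 0) < 1` then `v (Z 0 ^ 2) < 1`, `v (Z 0) ≤ exp (-1)`, `v (X 0) ≤ exp (-1)`, `v (e W 0 ^ 2) ≤ exp (-2)` and `v e = exp (-1)`, so `v (W 0) < 1`: contradiction.  So `v (X 0) = 1`, `v (Z 0) = 1`, `x 0 = (Z 0 / X 0) ^ 2 * (near 1)`, a square by `hen`.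
-/

namespace Pool.Agent.H40.FS

open WithZero Pool.Agent.H94.PM

variable {M : Type} [Field M] [Valued M ℤᵐ⁰] [CompleteSpace M]
  (U : LU (Valued.v : Valuation M ℤᵐ⁰) 2) {N : M} {x y p q m : Fin 2 → M} {g c : M}
  {X Z W : Fin 3 → M}

omit [CompleteSpace M] in
private theorem vl_zero {a : M} (h : (Valued.v : Valuation M ℤᵐ⁰) a = 1) :
    vl (Valued.v : Valuation M ℤᵐ⁰) a = 0 := by
  unfold vl
  rw [h, log_one, neg_zero]

omit [CompleteSpace M] in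
private theorem ne_of_v {a : M} (h : (Valued.v : Valuation M ℤᵐ⁰) a = 1) : a ≠ 0 := by
  rintro rfl
  rw [map_zero] at h
  exact zero_ne_one h

private theorem sq_near (h2 : (Valued.v : Valuation M ℤᵐ⁰) (2 : M) = 1) {a : M}
    (h : (Valued.v : Valuation M ℤᵐ⁰) (a - 1) < 1) : ∃ r : M, r ^ 2 = a := by
  obtain ⟨y, -, hy⟩ := hen (ℓ := 2) (by exact_mod_cast h2) h
  exact ⟨y, hy⟩

private theorem un_ns (h2 : (Valued.v : Valuation M ℤᵐ⁰) (2 : M) = 1) {N : M}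
    (hN : (Valued.v : Valuation M ℤᵐ⁰) N = 1) (hns : ¬ IsSquare N) : U.un N = 1 := by
  have h01 : ∀ a : ZMod 2, a = 0 ∨ a = 1 := by decide
  rcases h01 (U.un N) with h | h
  · exfalso
    obtain ⟨y, hy, hy1⟩ := U.ker N hN h
    obtain ⟨z, hz⟩ := sq_near h2 hy1
    apply hns
    refine ⟨z / y, ?_⟩
    have : N = z ^ 2 / y ^ 2 := by
      rw [hz]
      field_simp
    rw [this]
    ring
  · exact h

include U in
private theorem sq_mul (h2 : (Valued.v : Valuation M ℤᵐ⁰) (2 : M) = 1) {N e : M}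
    (hN : (Valued.v : Valuation M ℤᵐ⁰) N = 1) (hns : ¬ IsSquare N)
    (he : (Valued.v : Valuation M ℤᵐ⁰) e = 1) (hes : ¬ IsSquare e) : ∃ r : M, r ≠ 0 ∧
    N * e = r ^ 2 := by
  have hu : U.un (N * e) = 0 := by
    rw [U.mul N e (ne_of_v hN) (ne_of_v he), un_ns U h2 hN hns, un_ns U h2 he hes]
    decide
  have hv : (Valued.v : Valuation M ℤᵐ⁰) (N * e) = 1 := by rw [map_mul, hN, he, mul_one]
  obtain ⟨y, hy, hy1⟩ := U.ker (N * e) hv hu
  obtain ⟨z, hz⟩ := sq_near h2 hy1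
  have hz0 : z ≠ 0 := by
    rintro rfl
    have h3 : N * e * y ^ 2 ≠ 0 := mul_ne_zero (mul_ne_zero (ne_of_v hN) (ne_of_v he))
      (pow_ne_zero 2 hy)
    apply h3
    rw [← hz]
    ring
  refine ⟨z / y, div_ne_zero hz0 hy, ?_⟩
  rw [div_pow, hz]
  field_simp

omit [CompleteSpace M] in
private theorem two_term {e : M} {X Z W x ε : M} (h2 : (Valued.v : Valuation M ℤᵐ⁰) (2 : M) = 1)
    (he : ε ^ 2 = e) (hve : (Valued.v : Valuation M ℤᵐ⁰) e = 1)
    (hx : (Valued.v : Valuation M ℤᵐ⁰) x = 1)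
    (hX : (Valued.v : Valuation M ℤᵐ⁰) X ≤ 1) (hX0 : X ≠ 0)
    (hZ : (Valued.v : Valuation M ℤᵐ⁰) Z ≤ 1)
    (hW : (Valued.v : Valuation M ℤᵐ⁰) W ≤ 1)
    (hpr : (Valued.v : Valuation M ℤᵐ⁰) X = 1 ∨ (Valued.v : Valuation M ℤᵐ⁰) Z = 1 ∨
      (Valued.v : Valuation M ℤᵐ⁰) W = 1) (h : Z ^ 2 - x * X ^ 2 = e * W ^ 2) :
    Z + W * ε ≠ 0 ∧ Even (vl (Valued.v : Valuation M ℤᵐ⁰) (Z + W * ε)) := by
  have hve1 : (Valued.v : Valuation M ℤᵐ⁰) ε = 1 := by
    rw [← he, map_pow] at hve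
    exact (pow_eq_one_iff_of_nonneg zero_le (by norm_num)).mp hve
  have hprod : (Z + W * ε) * (Z - W * ε) = x * X ^ 2 := by
    have : (Z + W * ε) * (Z - W * ε) = Z ^ 2 - ε ^ 2 * W ^ 2 := by ring
    rw [this, he, ← h]
    ring
  have hne : x * X ^ 2 ≠ 0 := mul_ne_zero (ne_of_v hx) (pow_ne_zero 2 hX0)
  have hA0 : Z + W * ε ≠ 0 := by
    intro h0
    rw [h0, zero_mul] at hprod
    exact hne hprod.symm
  have hB0 : Z - W * ε ≠ 0 := by
    intro h0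
    rw [h0, mul_zero] at hprod
    exact hne hprod.symm
  refine ⟨hA0, ?_⟩
  have hWe : (Valued.v : Valuation M ℤᵐ⁰) (W * ε) ≤ 1 := by
    rw [map_mul, hve1, mul_one]
    exact hW
  have hA : (Valued.v : Valuation M ℤᵐ⁰) (Z + W * ε) ≤ 1 :=
    (Valuation.map_add _ _ _).trans (max_le hZ hWe)
  have hB : (Valued.v : Valuation M ℤᵐ⁰) (Z - W * ε) ≤ 1 :=
    (Valuation.map_sub _ _ _).trans (max_le hZ hWe)
  have hvl : vl (Valued.v : Valuation M ℤᵐ⁰) (Z + W * ε) +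
      vl (Valued.v : Valuation M ℤᵐ⁰) (Z - W * ε) = 2 * vl (Valued.v : Valuation M ℤᵐ⁰) X := by
    rw [← vl_mul hA0 hB0, hprod, vl_mul (ne_of_v hx) (pow_ne_zero 2 hX0), vl_zero hx, vl_pow]
    push_cast
    ring
  rcases lt_or_eq_of_le hA with hA1 | hA1
  · rcases lt_or_eq_of_le hB with hB1 | hB1
    · exfalso
      have hZ1 : (Valued.v : Valuation M ℤᵐ⁰) Z < 1 := by
        have e1 : 2 * Z = (Z + W * ε) + (Z - W * ε) := by ring
        have e2 : (Valued.v : Valuation M ℤᵐ⁰) (2 * Z) < 1 := by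
          rw [e1]
          exact (Valuation.map_add _ _ _).trans_lt (max_lt hA1 hB1)
        rwa [map_mul, h2, one_mul] at e2
      have hW1 : (Valued.v : Valuation M ℤᵐ⁰) W < 1 := by
        have e1 : 2 * (W * ε) = (Z + W * ε) - (Z - W * ε) := by ring
        have e2 : (Valued.v : Valuation M ℤᵐ⁰) (2 * (W * ε)) < 1 := by
          rw [e1]
          exact (Valuation.map_sub _ _ _).trans_lt (max_lt hA1 hB1)
        rwa [map_mul, h2, one_mul, map_mul, hve1, mul_one] at e2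
      have hX1 : (Valued.v : Valuation M ℤᵐ⁰) X < 1 := by
        have e1 : (Valued.v : Valuation M ℤᵐ⁰) (x * X ^ 2) < 1 := by
          rw [← hprod, map_mul]
          exact mul_lt_one_of_nonneg_of_lt_one_left zero_le hA1 hB1.le
        rw [map_mul, hx, one_mul, map_pow] at e1
        rcases lt_or_eq_of_le hX with h5 | h5
        · exact h5
        · rw [h5, one_pow] at e1
          exact absurd e1 (lt_irrefl _)
      rcases hpr with h5 | h5 | h5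
      · exact absurd (h5 ▸ hX1) (lt_irrefl _)
      · exact absurd (h5 ▸ hZ1) (lt_irrefl _)
      · exact absurd (h5 ▸ hW1) (lt_irrefl _)
    · rw [vl_zero hB1, add_zero] at hvl
      rw [hvl]
      exact even_two_mul _
  · rw [vl_zero hA1]
    exact Even.zero

omit [CompleteSpace M] in
private theorem cast_even {n : ℤ} (h : Even n) : (n : ZMod 2) = 0 := by
  obtain ⟨k, rfl⟩ := h
  rw [ZMod.intCast_zmod_eq_zero_iff_dvd]
  exact ⟨k, by push_cast; ring⟩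

private theorem one_term (h2 : (Valued.v : Valuation M ℤᵐ⁰) (2 : M) = 1)
    (hN : (Valued.v : Valuation M ℤᵐ⁰) N = 1) (hns : ¬ IsSquare N) {p q m x e X Z W : M}
    (hx : (Valued.v : Valuation M ℤᵐ⁰) x = 1) (he : (Valued.v : Valuation M ℤᵐ⁰) e = 1)
    (hm : m ≠ 0) (hX0 : X ≠ 0)
    (hX : (Valued.v : Valuation M ℤᵐ⁰) X ≤ 1)
    (hZ : (Valued.v : Valuation M ℤᵐ⁰) Z ≤ 1)
    (hW : (Valued.v : Valuation M ℤᵐ⁰) W ≤ 1)
    (hpr : (Valued.v : Valuation M ℤᵐ⁰) X = 1 ∨ (Valued.v : Valuation M ℤᵐ⁰) Z = 1 ∨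
      (Valued.v : Valuation M ℤᵐ⁰) W = 1) (hk : p ^ 2 - N * q ^ 2 = x * m ^ 2)
    (h : Z ^ 2 - x * X ^ 2 = e * W ^ 2) (hn : p / m + Z / X ≠ 0) :
    U.hs (2 * (p / m + Z / X)) (N * e) = (vl (Valued.v : Valuation M ℤᵐ⁰) X : ZMod 2) := by
  have h20 : (2 : M) ≠ 0 := ne_of_v h2
  by_cases hes : IsSquare e
  · obtain ⟨ε, hε⟩ := hes
    have hε2 : ε ^ 2 = e := by rw [hε]; ring
    have hε0 : ε ≠ 0 := by
      rintro rfl
      apply ne_of_v he
      rw [hε]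
      ring
    have h3 := sy_t2 U.sy h20 (p := p / m) (q := q / m) (u := Z / X) (w := W / X) (ε := ε)
      (N := N) (d := x) (ne_of_v hN) hε0 (ne_of_v hx)
      (by
        have : (p / m) ^ 2 - N * (q / m) ^ 2 = (p ^ 2 - N * q ^ 2) / m ^ 2 := by ring
        rw [this, hk]
        field_simp)
      (by
        have : (Z / X) ^ 2 - ε ^ 2 * (W / X) ^ 2 = (Z ^ 2 - e * W ^ 2) / X ^ 2 := by
          rw [hε2]
          ring
        rw [this, ← h]
        field_simp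
        ring) hn
    rw [hε2] at h3
    have h4 : U.hs (2 * (p / m + Z / X)) (N * e) = U.hs (Z / X + W / X * ε) N := h3
    rw [h4, hs_unit U h2 hN hns]
    obtain ⟨hA0, hev⟩ := two_term h2 hε2 he hx hX hX0 hZ hW hpr h
    have h5 : Z / X + W / X * ε = (Z + W * ε) / X := by ring
    rw [h5, vl_div hA0 hX0]
    push_cast
    rw [cast_even hev, zero_sub]
    have h6 : ∀ a : ZMod 2, -a = a := by decide
    exact h6 _
  · obtain ⟨r, hr0, hr⟩ := sq_mul U h2 hN hns he hes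
    rw [hr, (hs_sq U hr0 (mul_ne_zero h20 hn)).2]
    have h5 := inert_max h2 he hes Z W
    have h6 : Z ^ 2 - e * W ^ 2 = x * X ^ 2 := by rw [← h]; ring
    rw [h6, map_mul, hx, one_mul, map_pow] at h5
    have h7 : (Valued.v : Valuation M ℤᵐ⁰) X =
        max ((Valued.v : Valuation M ℤᵐ⁰) Z) ((Valued.v : Valuation M ℤᵐ⁰) W) :=
      (pow_left_inj₀ zero_le zero_le (by norm_num)).mp h5
    have h8 : (Valued.v : Valuation M ℤᵐ⁰) X = 1 := by
      rcases hpr with h9 | h9 | h9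
      · exact h9
      · apply le_antisymm hX
        rw [h7, ← h9]
        exact le_max_left _ _
      · apply le_antisymm hX
        rw [h7, ← h9]
        exact le_max_right _ _
    rw [vl_zero h8, Int.cast_zero]

theorem cv_a (h2 : (Valued.v : Valuation M ℤᵐ⁰) (2 : M) = 1) (h : TH N x y p q m g c X Z W)
    (hN : (Valued.v : Valuation M ℤᵐ⁰) N = 1) (hns : ¬ IsSquare N)
    (hx : ∀ i, (Valued.v : Valuation M ℤᵐ⁰) (x i) = 1)
    (hy : ∀ i, (Valued.v : Valuation M ℤᵐ⁰) (y i) = 1)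
    (hc : (Valued.v : Valuation M ℤᵐ⁰) c = 1)
    (hX : ∀ l, (Valued.v : Valuation M ℤᵐ⁰) (X l) ≤ 1)
    (hZ : ∀ l, (Valued.v : Valuation M ℤᵐ⁰) (Z l) ≤ 1)
    (hW : ∀ l, (Valued.v : Valuation M ℤᵐ⁰) (W l) ≤ 1)
    (hpr : ∀ l, (Valued.v : Valuation M ℤᵐ⁰) (X l) = 1 ∨ (Valued.v : Valuation M ℤᵐ⁰) (Z l) = 1 ∨
      (Valued.v : Valuation M ℤᵐ⁰) (W l) = 1)
    (hm : ∀ i, Even (vl Valued.v (m i))) :
    tht U.sy N y p q m g c X Z = (vl Valued.v (g * (X 0 * X 1 * X 2)) : ZMod 2) := by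
  have t0 := one_term U h2 hN hns (e := c * y 1) (hx 0) (by rw [map_mul, hc, hy 1, mul_one])
    (h.m0 0) (h.X0 0) (hX 0) (hZ 0) (hW 0) (hpr 0) (h.k 0) h.e0 h.n0
  have t1 := one_term U h2 hN hns (e := c * y 0) (hx 1) (by rw [map_mul, hc, hy 0, mul_one])
    (h.m0 1) (h.X0 1) (hX 1) (hZ 1) (hW 1) (hpr 1) (h.k 1) h.e1 h.n1
  have t2 := one_term U h2 hN hns (e := c) (x := x 0 * x 1)
    (q := p 0 * q 1 + q 0 * p 1) (by rw [map_mul, hx 0, hx 1, mul_one]) hc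
    (mul_ne_zero (h.m0 0) (h.m0 1)) (h.X0 2) (hX 2) (hZ 2) (hW 2) (hpr 2)
    (by
      have e1 : (p 0 * p 1 + N * (q 0 * q 1)) ^ 2 - N * (p 0 * q 1 + q 0 * p 1) ^ 2 =
          (p 0 ^ 2 - N * q 0 ^ 2) * (p 1 ^ 2 - N * q 1 ^ 2) := by ring
      rw [e1, h.k 0, h.k 1]
      ring) h.e2 h.n2
  have t3 : U.hs (m 0) (y 1) = 0 := hs_even U (hm 0) (by rw [vl_zero (hy 1)]; exact Even.zero)
  have t4 : U.hs (m 1) (y 0) = 0 := hs_even U (hm 1) (by rw [vl_zero (hy 0)]; exact Even.zero)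
  have t5 := hs_unit U h2 (x := g) hN hns
  unfold tht
  simp only [LU.sy_apply]
  rw [t0, t1, t2, t3, t4, t5, vl_mul h.g0 (mul_ne_zero (mul_ne_zero (h.X0 0) (h.X0 1)) (h.X0 2)),
    vl_mul (mul_ne_zero (h.X0 0) (h.X0 1)) (h.X0 2), vl_mul (h.X0 0) (h.X0 1)]
  push_cast
  ring

theorem cv_b (h2 : (Valued.v : Valuation M ℤᵐ⁰) (2 : M) = 1) (h : TH N x y p q m g c X Z W)
    (hN : (Valued.v : Valuation M ℤᵐ⁰) N = 1) (hns : ¬ IsSquare N)
    (hx : ∀ i, (Valued.v : Valuation M ℤᵐ⁰) (x i) = 1)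
    (hy : ∀ i, (Valued.v : Valuation M ℤᵐ⁰) (y i) = 1)
    (hm : ∀ i, Even (vl Valued.v (m i))) {r : Fin 2 → M} (hr : ∀ i, r i ^ 2 = x i) :
    tht U.sy N y p q m g c X Z = (vl Valued.v (gle g X Z (r 0) (r 1)) : ZMod 2) := by
  have h20 : (2 : M) ≠ 0 := ne_of_v h2
  obtain ⟨hg, z0, z1, hz, ht⟩ := tht_rt U.sy h20 h hr
  rw [ht]
  simp only [LU.sy_apply]
  have hr1 : ∀ i, (Valued.v : Valuation M ℤᵐ⁰) (r i) = 1 := by
    intro i
    have h3 := hx i
    rw [← hr i, map_pow] at h3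
    exact (pow_eq_one_iff_of_nonneg zero_le (by norm_num)).mp h3
  have hev : ∀ i, Even (vl (Valued.v : Valuation M ℤᵐ⁰)
      (r i * (z0 i ^ 2 - N * z1 i ^ 2) * m i)) := by
    intro i
    rw [vl_mul (mul_ne_zero (ne_of_v (hr1 i)) (hz i)) (h.m0 i),
      vl_mul (ne_of_v (hr1 i)) (hz i), vl_zero (hr1 i), zero_add]
    exact (inert_even h2 hN hns _ _).add (hm i)
  rw [hs_even U (hev 0) (by rw [vl_zero (hy 1)]; exact Even.zero),
    hs_even U (hev 1) (by rw [vl_zero (hy 0)]; exact Even.zero), hs_unit U h2 hN hns, zero_add,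
    zero_add]

theorem cv_c (h2 : (Valued.v : Valuation M ℤᵐ⁰) (2 : M) = 1) (h : TH N x y p q m g c X Z W)
    (hy : ∀ i, (Valued.v : Valuation M ℤᵐ⁰) (y i) = 1) {n : M} (hn : n ^ 2 = N)
    (hk : ∀ i, Even (vl Valued.v (p i + q i * n))) :
    tht U.sy N y p q m g c X Z = 0 := by
  rw [tht_sq U.sy (ne_of_v h2) h hn]
  simp only [LU.sy_apply]
  rw [hs_even U (hk 0) (by rw [vl_zero (hy 1)]; exact Even.zero),
    hs_even U (hk 1) (by rw [vl_zero (hy 0)]; exact Even.zero), zero_add]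

theorem cv_p (h2 : (2 : M) ≠ 0) (h : TH N x y p q m g c X Z W) (hN : Odd (vl Valued.v N))
    {t : Fin 2 → M} (ht : ∀ i, t i ^ 2 = y i) {r : Fin 2 → M} (hr : ∀ i, r i ^ 2 = x i)
    (hg : vl Valued.v (gle g X Z (r 0) (r 1)) = 0) :
    tht U.sy N y p q m g c X Z = U.un (gle g X Z (r 0) (r 1)) := by
  obtain ⟨hg0, z0, z1, hz, htt⟩ := tht_rt U.sy h2 h hr
  rw [htt]
  simp only [LU.sy_apply]
  have hr0 : ∀ i, r i ≠ 0 := by
    intro i h0
    have h3 := hr i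
    rw [h0] at h3
    apply h.x0 i
    rw [← h3]
    ring
  have ht0 : ∀ i, t i ≠ 0 := by
    intro i h0
    have h3 := ht i
    rw [h0] at h3
    apply h.y0 i
    rw [← h3]
    ring
  rw [← ht 0, ← ht 1,
    (hs_sq U (ht0 1) (mul_ne_zero (mul_ne_zero (hr0 0) (hz 0)) (h.m0 0))).2,
    (hs_sq U (ht0 0) (mul_ne_zero (mul_ne_zero (hr0 1) (hz 1)) (h.m0 1))).2, zero_add, zero_add]
  exact hs_odd U hN hg

theorem cv_r (h2 : (Valued.v : Valuation M ℤᵐ⁰) (2 : M) = 1) {x e X Z W : M}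
    (hx : (Valued.v : Valuation M ℤᵐ⁰) x = 1)
    (he : (Valued.v : Valuation M ℤᵐ⁰) e = exp (-1 : ℤ))
    (hX : (Valued.v : Valuation M ℤᵐ⁰) X ≤ 1) (hZ : (Valued.v : Valuation M ℤᵐ⁰) Z ≤ 1)
    (hW : (Valued.v : Valuation M ℤᵐ⁰) W ≤ 1)
    (hpr : (Valued.v : Valuation M ℤᵐ⁰) X = 1 ∨ (Valued.v : Valuation M ℤᵐ⁰) Z = 1 ∨
      (Valued.v : Valuation M ℤᵐ⁰) W = 1) (h : Z ^ 2 - x * X ^ 2 = e * W ^ 2) :
    (Valued.v : Valuation M ℤᵐ⁰) X = 1 ∧ ∃ r : M, r ^ 2 = x := by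
  have hxX : (Valued.v : Valuation M ℤᵐ⁰) X = 1 := by
    by_contra hne
    have hX1 : (Valued.v : Valuation M ℤᵐ⁰) X < 1 := lt_of_le_of_ne hX hne
    have le_of : ∀ a : ℤᵐ⁰, a < 1 → a ≤ exp (-1 : ℤ) := by
      intro a ha
      rcases eq_or_ne a 0 with rfl | ha0
      · exact zero_le
      · rw [← exp_log ha0] at ha ⊢
        rw [← exp_zero, exp_lt_exp] at ha
        rw [exp_le_exp]
        omega
    have hZ1 : (Valued.v : Valuation M ℤᵐ⁰) Z < 1 := by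
      have e1 : (Valued.v : Valuation M ℤᵐ⁰) (Z ^ 2) < 1 := by
        have e2 : Z ^ 2 = x * X ^ 2 + e * W ^ 2 := by rw [← h]; ring
        rw [e2]
        refine (Valuation.map_add _ _ _).trans_lt (max_lt ?_ ?_)
        · rw [map_mul, hx, one_mul, map_pow]
          exact pow_lt_one₀ zero_le hX1 (by norm_num)
        · rw [map_mul, he, map_pow]
          refine lt_of_le_of_lt (mul_le_of_le_one_right zero_le (pow_le_one₀ zero_le hW)) ?_
          rw [← exp_zero, exp_lt_exp]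
          norm_num
      rcases lt_or_eq_of_le hZ with h5 | h5
      · exact h5
      · rw [map_pow, h5, one_pow] at e1
        exact absurd e1 (lt_irrefl _)
    have hW1 : (Valued.v : Valuation M ℤᵐ⁰) W < 1 := by
      rcases lt_or_eq_of_le hW with h5 | h5
      · exact h5
      · exfalso
        have e1 : (Valued.v : Valuation M ℤᵐ⁰) (e * W ^ 2) = exp (-1 : ℤ) := by
          rw [map_mul, he, map_pow, h5, one_pow, mul_one]
        have e2 : (Valued.v : Valuation M ℤᵐ⁰) (e * W ^ 2) ≤ exp (-1 : ℤ) ^ 2 := by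
          rw [← h]
          refine (Valuation.map_sub _ _ _).trans (max_le ?_ ?_)
          · rw [map_pow]
            exact pow_le_pow_left₀ zero_le (le_of _ hZ1) 2
          · rw [map_mul, hx, one_mul, map_pow]
            exact pow_le_pow_left₀ zero_le (le_of _ hX1) 2
        rw [e1, sq, ← exp_add, exp_le_exp] at e2
        omega
    rcases hpr with h5 | h5 | h5
    · exact hne h5
    · exact absurd (h5 ▸ hZ1) (lt_irrefl _)
    · exact absurd (h5 ▸ hW1) (lt_irrefl _)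
  refine ⟨hxX, ?_⟩
  have hX0 : X ≠ 0 := ne_of_v hxX
  have hxX2 : (Valued.v : Valuation M ℤᵐ⁰) (x * X ^ 2) = 1 := by
    rw [map_mul, hx, one_mul, map_pow, hxX, one_pow]
  have hd : (Valued.v : Valuation M ℤᵐ⁰) (Z ^ 2 - x * X ^ 2) < 1 := by
    rw [h, map_mul, he, map_pow]
    refine lt_of_le_of_lt (mul_le_of_le_one_right zero_le (pow_le_one₀ zero_le hW)) ?_
    rw [← exp_zero, exp_lt_exp]
    norm_num
  have hnear : (Valued.v : Valuation M ℤᵐ⁰) (Z ^ 2 / (x * X ^ 2) - 1) < 1 := by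
    have e1 : Z ^ 2 / (x * X ^ 2) - 1 = (Z ^ 2 - x * X ^ 2) / (x * X ^ 2) := by
      rw [sub_div, div_self (ne_of_v hxX2)]
    rw [e1, map_div₀, hxX2, div_one]
    exact hd
  obtain ⟨s, hs⟩ := sq_near h2 hnear
  have hq0 := ne_of_near hnear
  have hs0 : s ≠ 0 := by
    rintro rfl
    apply hq0
    rw [← hs]
    ring
  have hx0 : x ≠ 0 := ne_of_v hx
  have hZ0 : Z ≠ 0 := by
    rintro rfl
    apply hq0
    rw [zero_pow (by norm_num), zero_div]
  refine ⟨Z / (X * s), ?_⟩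
  rw [div_pow, mul_pow, hs]
  field_simp

end Pool.Agent.H40.FS
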