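import Pool.Agent.H40.FS.GD0
import Pool.Agent.H40.FS.CVA

set_option autoImplicit false

/-!
# [H40 FS GV1] The factor `g` of the governing element

`CD x y c X Z W`: the conic data over `F[t]` (`H74/FS/GDX`).  `pm w f = iw w (f as a rational function)`.
* `cd_prim`: for `w = some P` polynomials have valuation `≤ 1`, and `= 1` if `P` does not divide; `P` does not divide all three of `X l`, `Z l`, `W l`.
* `gv_ex`: Let `w = some P ∉ S` with `P ∣ c`: `vw w (pm w c) = exp (-1)` (`c` squarefree: `H94.PL.wP_simple`), `x i`, `y i` are units at `w`, so by `cv_r` (three times, for `x 0`, `x 1`, `x 0 x 1`; `e = c y 1`, `c y 0`, `c`) `X l` are units at `w` and there are `r i` with `r i ^ 2 = x i`; choose them (`choose`, or `Classical`), and let `Q` be the set of these `P` (in the finite set `pf c`) with `ev w (∏ (Z l + X l ρ l)) = 1`, where `ρ = (r 0, r 1, r 0 r 1)`.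
  (`Z l + X l ρ l ≠ 0` since `(Z l + X l ρ l)(Z l - X l ρ l) = e W l ^ 2 ≠ 0`.)
  `g = X 0 * X 1 * X 2 * ∏ P ∈ Q, P`.  Degree: `∏ P ∈ Q, P` divides `∏ P ∈ pf c, P`, which divides `c`.
  At `w = some P ∉ S`, `P ∤ c`: `g X 0 X 1 X 2 = (X 0 X 1 X 2) ^ 2 * ∏ ..` with `P ∉ Q`: even.  At `P ∣ c`: `gle g X Z (r 0) (r 1) = 2 g X 0 X 1 X 2 ∏ (Z l + X l ρ l)`, its parity is `0 + (if P ∈ Q then 1 else 0) + 0 + ev (∏ ..) = 0`.
-/

namespace Pool.Agent.H40.FS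

open Polynomial WithZero Pool.Agent.H74.FS
open Pool.Agent.H94.PL (LChar XX DK AK dl)
open Pool.Agent.H94.PM (LU vl IsVln IsSln)

variable {F : Type} [Field F]

/-- the conic data -/
structure CD (x y : Fin 2 → F[X]) (c : F[X]) (X Z W : Fin 3 → F[X]) : Prop where
  x0 : ∀ i, x i ≠ 0
  y0 : ∀ i, y i ≠ 0
  c0 : c ≠ 0
  csq : Squarefree c
  X0 : ∀ l, X l ≠ 0
  W0 : ∀ l, W l ≠ 0
  prim : ∀ l, ∀ π : F[X], Irreducible π → ¬ (π ∣ X l ∧ π ∣ Z l ∧ π ∣ W l)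
  e0 : Z 0 ^ 2 - x 0 * X 0 ^ 2 = c * y 1 * W 0 ^ 2
  e1 : Z 1 ^ 2 - x 1 * X 1 ^ 2 = c * y 0 * W 1 ^ 2
  e2 : Z 2 ^ 2 - x 0 * x 1 * X 2 ^ 2 = c * W 2 ^ 2

variable [DecidableEq (RatFunc F)]

/-- a polynomial in the completion -/
noncomputable abbrev pm (w : Pl F) (f : F[X]) : Kw F w := iw w (algebraMap F[X] (RatFunc F) f)

private theorem pm_le {P : F[X]} (hP : P.Monic) (hi : Irreducible P) (f : F[X]) :
    vw (some ⟨P, hP, hi⟩ : Pl F) (pm _ f) ≤ 1 :=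
  Pool.Agent.H94.PL.wP_le_one P hi f

private theorem pm_one {P : F[X]} (hP : P.Monic) (hi : Irreducible P) {f : F[X]} (h : ¬ P ∣ f) :
    vw (some ⟨P, hP, hi⟩ : Pl F) (pm _ f) = 1 :=
  Pool.Agent.H94.PL.wP_eq_one hi h

private theorem pm_sqf {P : F[X]} (hP : P.Monic) (hi : Irreducible P) {f : F[X]} (h : P ∣ f)
    (hs : Squarefree f) : vw (some ⟨P, hP, hi⟩ : Pl F) (pm _ f) = exp (-1 : ℤ) := by
  refine Pool.Agent.H94.PL.wP_simple hi h ?_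
  intro h2
  rw [sq] at h2
  exact hi.not_isUnit (hs P h2)

private theorem pm_ne {w : Pl F} {f : F[X]} (h : f ≠ 0) : pm w f ≠ 0 :=
  iw_ne (RatFunc.algebraMap_ne_zero h)

private theorem pm_mul (w : Pl F) (f g : F[X]) : pm w (f * g) = pm w f * pm w g := by
  show iw w _ = iw w _ * iw w _
  rw [map_mul, map_mul]

private theorem pm_pow (w : Pl F) (f : F[X]) (n : ℕ) : pm w (f ^ n) = pm w f ^ n := by
  show iw w _ = iw w _ ^ n
  rw [map_pow, map_pow]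

private theorem pm_sub (w : Pl F) (f g : F[X]) : pm w (f - g) = pm w f - pm w g := by
  show iw w _ = iw w _ - iw w _
  rw [map_sub, map_sub]

theorem cd_prim {x y : Fin 2 → F[X]} {c : F[X]} {X Z W : Fin 3 → F[X]} (h : CD x y c X Z W)
    {w : Pl F} (hw : w ≠ none) (l : Fin 3) : vw w (pm w (X l)) ≤ 1 ∧ vw w (pm w (Z l)) ≤ 1 ∧
      vw w (pm w (W l)) ≤ 1 ∧
      (vw w (pm w (X l)) = 1 ∨ vw w (pm w (Z l)) = 1 ∨ vw w (pm w (W l)) = 1) := by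
  rcases w with _ | ⟨P, hP, hi⟩
  · exact absurd rfl hw
  · refine ⟨pm_le hP hi _, pm_le hP hi _, pm_le hP hi _, ?_⟩
    by_cases h1 : P ∣ X l
    · by_cases h2 : P ∣ Z l
      · by_cases h3 : P ∣ W l
        · exact absurd ⟨h1, h2, h3⟩ (h.prim l P hi)
        · exact Or.inr (Or.inr (pm_one hP hi h3))
      · exact Or.inr (Or.inl (pm_one hP hi h2))
    · exact Or.inl (pm_one hP hi h1)

private theorem eqs {x y : Fin 2 → F[X]} {c : F[X]} {X Z W : Fin 3 → F[X]} (h : CD x y c X Z W) (w : Pl F) :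
    pm w (Z 0) ^ 2 - pm w (x 0) * pm w (X 0) ^ 2 = pm w (c * y 1) * pm w (W 0) ^ 2 ∧
    pm w (Z 1) ^ 2 - pm w (x 1) * pm w (X 1) ^ 2 = pm w (c * y 0) * pm w (W 1) ^ 2 ∧
    pm w (Z 2) ^ 2 - pm w (x 0 * x 1) * pm w (X 2) ^ 2 = pm w c * pm w (W 2) ^ 2 := by
  have h0 := h.e0
  have h1 := h.e1
  have h2 := h.e2
  refine ⟨?_, ?_, ?_⟩
  · rw [← pm_pow, ← pm_pow, ← pm_pow, ← pm_mul, ← pm_mul, ← pm_sub, h0]
  · rw [← pm_pow, ← pm_pow, ← pm_pow, ← pm_mul, ← pm_mul, ← pm_sub, h1]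
  · rw [← pm_pow, ← pm_pow, ← pm_pow, ← pm_mul, ← pm_mul, ← pm_sub, h2]

private theorem loc_r [Finite F] (hq : 2 ∣ Nat.card F - 1)
    {x y : Fin 2 → F[X]} {c : F[X]} {X Z W : Fin 3 → F[X]} (h : CD x y c X Z W) {w : Pl F}
    (hw : w ≠ none) (hc : vw w (pm w c) ≠ 1) (hx : ∀ i, vw w (pm w (x i)) = 1)
    (hy : ∀ i, vw w (pm w (y i)) = 1) : ∃ r : Fin 2 → Kw F w, ∀ i, r i ^ 2 = pm w (x i) := by
  have hv2 : vw w (2 : Kw F w) = 1 := by
    have := val_two_w hq w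
    rwa [Nat.cast_ofNat] at this
  have hc1 : vw w (pm w c) = exp (-1 : ℤ) := by
    rcases w with _ | ⟨P, hP, hi⟩
    · exact absurd rfl hw
    · by_cases h1 : P ∣ c
      · exact pm_sqf hP hi h1 h.csq
      · exact absurd (pm_one hP hi h1) hc
  obtain ⟨e0, e1, -⟩ := eqs h w
  have he : ∀ i, vw w (pm w (c * y i)) = exp (-1 : ℤ) := by
    intro i
    rw [pm_mul, map_mul, hc1, hy, mul_one]
  obtain ⟨a1, a2, a3, a4⟩ := cd_prim h hw 0
  obtain ⟨b1, b2, b3, b4⟩ := cd_prim h hw 1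
  obtain ⟨-, r0, hr0⟩ := cv_r hv2 (hx 0) (he 1) a1 a2 a3 a4 e0
  obtain ⟨-, r1, hr1⟩ := cv_r hv2 (hx 1) (he 0) b1 b2 b3 b4 e1
  refine ⟨![r0, r1], fun i => ?_⟩
  fin_cases i
  · exact hr0
  · exact hr1

/-- the product of the three factors -/
private noncomputable def EE {w : Pl F} (X Z : Fin 3 → F[X]) (r : Fin 2 → Kw F w) : Kw F w :=
  (pm w (Z 0) + pm w (X 0) * r 0) * (pm w (Z 1) + pm w (X 1) * r 1) *
    (pm w (Z 2) + pm w (X 2) * (r 0 * r 1))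

private theorem ee_ne {x y : Fin 2 → F[X]} {c : F[X]} {X Z W : Fin 3 → F[X]} (h : CD x y c X Z W) {w : Pl F}
    {r : Fin 2 → Kw F w} (hr : ∀ i, r i ^ 2 = pm w (x i)) : EE X Z r ≠ 0 := by
  obtain ⟨e0, e1, e2⟩ := eqs h w
  rw [← hr] at e0 e1
  rw [pm_mul, ← hr, ← hr] at e2
  have hn : ∀ (f : F[X]) (l : Fin 3), f ≠ 0 → pm w f * pm w (W l) ^ 2 ≠ 0 := fun f l hf =>
    mul_ne_zero (pm_ne hf) (pow_ne_zero 2 (pm_ne (h.W0 l)))
  have f0 := hn (c * y 1) 0 (mul_ne_zero h.c0 (h.y0 1))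
  have f1 := hn (c * y 0) 1 (mul_ne_zero h.c0 (h.y0 0))
  have f2 := hn c 2 h.c0
  rw [← e0] at f0
  rw [← e1] at f1
  rw [← e2] at f2
  refine mul_ne_zero (mul_ne_zero ?_ ?_) ?_
  · intro h0
    apply f0
    have : pm w (Z 0) ^ 2 - r 0 ^ 2 * pm w (X 0) ^ 2 =
      (pm w (Z 0) + pm w (X 0) * r 0) * (pm w (Z 0) - pm w (X 0) * r 0) := by ring
    rw [this, h0, zero_mul]
  · intro h0
    apply f1
    have : pm w (Z 1) ^ 2 - r 1 ^ 2 * pm w (X 1) ^ 2 =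
      (pm w (Z 1) + pm w (X 1) * r 1) * (pm w (Z 1) - pm w (X 1) * r 1) := by ring
    rw [this, h0, zero_mul]
  · intro h0
    apply f2
    have : pm w (Z 2) ^ 2 - r 0 ^ 2 * r 1 ^ 2 * pm w (X 2) ^ 2 =
      (pm w (Z 2) + pm w (X 2) * (r 0 * r 1)) * (pm w (Z 2) - pm w (X 2) * (r 0 * r 1)) := by ring
    rw [this, h0, zero_mul]

private theorem gle_eq (w : Pl F) (X Z : Fin 3 → F[X]) (r : Fin 2 → Kw F w) (q : F[X]) :
    gle (pm w (X 0 * X 1 * X 2 * q)) (fun l => pm w (X l)) (fun l => pm w (Z l)) (r 0) (r 1) =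
      2 * (pm w (X 0 * X 1 * X 2) ^ 2 * (pm w q * EE X Z r)) := by
  unfold gle EE
  rw [pm_mul, pm_mul, pm_mul]
  ring

omit [DecidableEq (RatFunc F)] in
/-- the product of a set of prime divisors -/
private theorem prod_q [Finite F] {c : F[X]} {Q : Finset F[X]} (hQ : Q ⊆ Pool.Agent.H94.PC.pf c) :
    (∏ P ∈ Q, P) ∣ c ∧ (∏ P ∈ Q, P) ≠ 0 := by
  have hp : ∀ P ∈ Q, P.Monic ∧ Irreducible P ∧ P ∣ c := fun P h => Pool.Agent.H94.PC.mem_pf' (hQ h)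
  refine ⟨Finset.prod_dvd_of_coprime ?_ fun P h => (hp P h).2.2, Finset.prod_ne_zero_iff.2 fun P h => (hp P h).1.ne_zero⟩
  intro P h1 P' h2 hne
  refine (hp P h1).2.1.coprime_iff_not_dvd.2 fun hd => hne ?_
  exact eq_of_monic_of_associated (hp P h1).1 (hp P' h2).1 ((hp P h1).2.1.associated_of_dvd (hp P' h2).2.1 hd)

private theorem ev_q [Finite F] {c : F[X]} {Q : Finset F[X]} (hQ : Q ⊆ Pool.Agent.H94.PC.pf c) {P : F[X]} (hP : P.Monic)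
    (hi : Irreducible P) [Decidable (P ∈ Q)] :
    ev (some ⟨P, hP, hi⟩ : Pl F) (pm _ (∏ P' ∈ Q, P')) = if P ∈ Q then 1 else 0 := by
  classical
  have hp : ∀ P ∈ Q, P.Monic ∧ Irreducible P ∧ P ∣ c := fun P h => Pool.Agent.H94.PC.mem_pf' (hQ h)
  have hnd : ∀ Q' : Finset F[X], Q' ⊆ Q → P ∉ Q' → ¬ P ∣ ∏ P' ∈ Q', P' := by
    intro Q' hs h1 h2
    obtain ⟨P', h3, h4⟩ := (hi.prime.dvd_finsetProd_iff _).1 h2
    apply h1
    have := eq_of_monic_of_associated hP (hp P' (hs h3)).1 (hi.associated_of_dvd (hp P' (hs h3)).2.1 h4)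
    rwa [this]
  by_cases h1 : P ∈ Q
  · rw [if_pos h1, ← Finset.mul_prod_erase Q _ h1, pm_mul, ev_mul (pm_ne hP.ne_zero)
      (pm_ne (Finset.prod_ne_zero_iff.2 fun P' h => (hp P' (Finset.mem_of_mem_erase h)).1.ne_zero))]
    have h2 := ev_self hP hi
    have h3 := ev_poly_zero hP hi (hnd _ (Finset.erase_subset P Q) (Finset.notMem_erase P Q))
    rw [h2, h3, add_zero]
  · rw [if_neg h1]
    exact ev_poly_zero hP hi (hnd _ Finset.Subset.rfl h1)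

theorem gv_ex [Finite F] (hq : 2 ∣ Nat.card F - 1) {S : Finset (Pl F)} (hS : (none : Pl F) ∈ S)
    {x y : Fin 2 → F[X]} {c : F[X]} {X Z W : Fin 3 → F[X]} (h : CD x y c X Z W)
    (hx : ∀ w : Pl F, w ∉ S → ∀ i, vw w (pm w (x i)) = 1)
    (hy : ∀ w : Pl F, w ∉ S → ∀ i, vw w (pm w (y i)) = 1) :
    ∃ g : F[X], g ≠ 0 ∧
      g.natDegree ≤ (X 0).natDegree + (X 1).natDegree + (X 2).natDegree + c.natDegree ∧
      (∀ w : Pl F, w ∉ S → vw w (pm w c) = 1 → ev w (pm w (g * (X 0 * X 1 * X 2))) = 0) ∧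
      ∀ w : Pl F, w ∉ S → vw w (pm w c) ≠ 1 → ∃ r : Fin 2 → Kw F w,
        (∀ i, r i ^ 2 = pm w (x i)) ∧
        ev w (gle (pm w g) (fun l => pm w (X l)) (fun l => pm w (Z l)) (r 0) (r 1)) = 0 := by
  classical
  have hn : ∀ w : Pl F, w ∉ S → w ≠ none := by
    intro w h1 h2
    rw [h2] at h1
    exact h1 hS
  have hr := fun (w : Pl F) (hw : w ∉ S) (hc : vw w (pm w c) ≠ 1) =>
    loc_r hq h (hn w hw) hc (hx w hw) (hy w hw)
  choose r hr using hr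
  obtain ⟨Q, hQ⟩ : ∃ Q : Finset F[X], Q = (Pool.Agent.H94.PC.pf c).filter fun P =>
      ∃ (w : Pl F) (hw : w ∉ S) (hc : vw w (pm w c) ≠ 1) (hP : P.Monic ∧ Irreducible P), w = some ⟨P, hP⟩ ∧
        ev w (EE X Z (r w hw hc)) = 1 := ⟨_, rfl⟩
  have hQs : Q ⊆ Pool.Agent.H94.PC.pf c := by
    rw [hQ]
    exact Finset.filter_subset _ _
  obtain ⟨hQd, hQ0⟩ := prod_q hQs
  have hX0 : X 0 * X 1 * X 2 ≠ 0 := mul_ne_zero (mul_ne_zero (h.X0 0) (h.X0 1)) (h.X0 2)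
  have hev2 : ∀ w : Pl F, ev w (2 : Kw F w) = 0 := by
    intro w
    have h1 := val_two_w hq w
    rw [Nat.cast_ofNat] at h1
    rw [ev, vl, h1, log_one, neg_zero, Int.cast_zero]
  refine ⟨X 0 * X 1 * X 2 * ∏ P ∈ Q, P, mul_ne_zero hX0 hQ0, ?_, ?_, ?_⟩
  · rw [natDegree_mul hX0 hQ0, natDegree_mul (mul_ne_zero (h.X0 0) (h.X0 1)) (h.X0 2),
      natDegree_mul (h.X0 0) (h.X0 1)]
    exact Nat.add_le_add_left (natDegree_le_of_dvd hQd h.c0) _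
  · intro w hw hc
    have h1 : X 0 * X 1 * X 2 * (∏ P ∈ Q, P) * (X 0 * X 1 * X 2) = (X 0 * X 1 * X 2) ^ 2 * ∏ P ∈ Q, P := by
      ring
    rw [h1, pm_mul, pm_pow, ev_mul (pow_ne_zero 2 (pm_ne hX0)) (pm_ne hQ0), ev_sq, zero_add]
    rcases w with _ | ⟨P, hP, hi⟩
    · exact absurd rfl (hn _ hw)
    · rw [ev_q hQs hP hi, if_neg]
      intro h2
      have h3 := pm_sqf hP hi (Pool.Agent.H94.PC.mem_pf' (hQs h2)).2.2 h.csq
      rw [h3, ← exp_zero] at hc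
      have := exp_injective hc
      omega
  · intro w hw hc
    refine ⟨r w hw hc, hr w hw hc, ?_⟩
    rw [gle_eq, ev_mul (two_ne_w hq w) (mul_ne_zero (pow_ne_zero 2 (pm_ne hX0))
      (mul_ne_zero (pm_ne hQ0) (ee_ne h (hr w hw hc)))), hev2, zero_add,
      ev_mul (pow_ne_zero 2 (pm_ne hX0)) (mul_ne_zero (pm_ne hQ0) (ee_ne h (hr w hw hc))), ev_sq, zero_add,
      ev_mul (pm_ne hQ0) (ee_ne h (hr w hw hc))]
    rcases w with _ | ⟨P, hP, hi⟩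
    · exact absurd rfl (hn _ hw)
    · rw [ev_q hQs hP hi]
      have h01 : ∀ a : ZMod 2, a = 0 ∨ a = 1 := by decide
      by_cases h1 : P ∈ Q
      · rw [if_pos h1]
        rw [hQ, Finset.mem_filter] at h1
        obtain ⟨-, w', hw', hc', hP', rfl, h4⟩ := h1
        rw [h4]
        rfl
      · rw [if_neg h1, zero_add]
        rcases h01 (ev (some ⟨P, hP, hi⟩ : Pl F) (EE X Z (r _ hw hc))) with h2 | h2
        · exact h2
        · exfalso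
          apply h1
          rw [hQ, Finset.mem_filter]
          refine ⟨(Pool.Agent.H94.PC.mem_pf h.c0).2 ⟨hP, hi, ?_⟩, _, hw, hc, ⟨hP, hi⟩, rfl, h2⟩
          by_contra h3
          exact hc (pm_one hP hi h3)

end Pool.Agent.H40.FS
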