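import Pool.Agent.H40.FS.TRD
import Pool.Agent.H40.FS.GV1
import Pool.Agent.H74.FS.CLC

set_option autoImplicit false

namespace Pool.Agent.H40.FS

open Polynomial WithZero Pool.Agent.H74.FS
open Pool.Agent.H94.PL (LChar XX DK AK dl)
open Pool.Agent.H94.PM (LU vl IsVln IsSln)
open Pool.Agent.H94.PC (pf js)
open Pool.Agent.H3.FS (CellD)

variable {F : Type} [Field F] [DecidableEq (RatFunc F)] [Finite F] {S U U1 : Finset (Pl F)}
  {c : F} {A : Fin 3 → F[X]} {D' : F[X]} {m : ℕ} {τ : F[X] → ℝ} {P P₁ : F[X]}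

/-- the sets of places of two primes of a cell -/
structure SU (A : Fin 3 → F[X]) (D' : F[X]) (w0 w1 : Pl F) (S U U1 : Finset (Pl F)) : Prop where
  inf : (none : Pl F) ∈ S
  fin : ∀ (v : F[X]) (hv : v.Monic ∧ Irreducible v), some ⟨v, hv⟩ ∈ S ↔ v ∣ D' * dl A
  u : ∀ w : Pl F, w ∈ U ↔ w ∈ S ∨ w = w0
  u1 : ∀ w : Pl F, w ∈ U1 ↔ w ∈ S ∨ w = w1

omit [DecidableEq (RatFunc F)] [Finite F] in
private theorem c0_eq {v Q : F[X]} (hv : v.Monic ∧ Irreducible v) (hQ : Q.Monic ∧ Irreducible Q)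
    (h : v ∣ Q) : v = Q :=
  eq_of_monic_of_associated hv.1 hQ.1 (hv.2.associated_of_dvd hQ.2 h)

omit [DecidableEq (RatFunc F)] [Finite F] in
private theorem c0_bad {v Q : F[X]} (hv : v.Monic ∧ Irreducible v) (hQ : Q.Monic ∧ Irreducible Q)
    (h : v ∣ D' * Q * dl A) : v ∣ D' * dl A ∨ (some ⟨v, hv⟩ : Pl F) = some ⟨Q, hQ⟩ := by
  have h1 : v ∣ D' * dl A * Q := by
    have e : D' * dl A * Q = D' * Q * dl A := by ring
    rw [e]
    exact h
  rcases hv.2.prime.dvd_or_dvd h1 with h2 | h2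
  · exact Or.inl h2
  · right
    congr 1
    exact Subtype.ext (c0_eq hv hQ h2)

omit [Finite F] in
private theorem c0_sq {w : Pl F} {a b : RatFunc F} (ha : a ≠ 0)
    (h : ∃ y : Kw F w, y ≠ 0 ∧ iw w b = iw w a * y ^ 2) : IsSquare (iw w (a / b)) := by
  obtain ⟨y, hy, h1⟩ := h
  refine ⟨y⁻¹, ?_⟩
  have ha' : iw w a ≠ 0 := iw_ne ha
  rw [map_div₀, h1]
  field_simp

theorem cmp_tp (hq : 2 ∣ Nat.card F - 1) (hc : c ≠ 0) (hA : ∀ i k, i ≠ k → A i ≠ A k)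
    (hD : D' ≠ 0) (hm : ∀ v ∈ pf (D' * dl A), v.natDegree < m) (h : P ∈ CellD (dl A) D' m τ)
    (h₁ : P₁ ∈ CellD (dl A) D' m τ) (hne : P ≠ P₁)
    (hS : SU A D' (some ⟨P, cell_mem h⟩) (some ⟨P₁, cell_mem h₁⟩) S U U1) :
    TP S U U1 c c A (D' * P) (D' * P₁) := by
  have hdl : dl A ≠ 0 := by
    unfold dl
    refine Finset.prod_ne_zero_iff.2 fun p hp => sub_ne_zero.2 (hA p.1 p.2 ?_)
    have h1 := (Finset.mem_filter.1 hp).2
    exact h1.ne
  have h0 : D' * dl A ≠ 0 := mul_ne_zero hD hdl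
  have hP := cell_mem h
  have hP₁ := cell_mem h₁
  have hDP : D' * P ≠ 0 := mul_ne_zero hD hP.2.ne_zero
  have hDP₁ : D' * P₁ ≠ 0 := mul_ne_zero hD hP₁.2.ne_zero
  refine ⟨hc, hc, hDP, hDP₁, ⟨(hS.u none).2 (Or.inl hS.inf), ?_⟩, ⟨(hS.u1 none).2 (Or.inl hS.inf), ?_⟩,
    ?_, ?_⟩
  · intro v hv hd
    rw [hS.u]
    exact (c0_bad hv hP hd).imp (hS.fin v hv).2 id
  · intro v hv hd
    rw [hS.u1]
    exact (c0_bad hv hP₁ hd).imp (hS.fin v hv).2 id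
  · intro w
    rw [hS.u, hS.u1]
    constructor
    · exact fun hw => ⟨Or.inl hw, Or.inl hw⟩
    · rintro ⟨h1 | h1, h2 | h2⟩
      · exact h1
      · exact h1
      · exact h2
      · rw [h1] at h2
        exact absurd (congrArg Subtype.val (Option.some.inj h2)) hne
  · intro w hw
    unfold tn
    apply c0_sq (Pool.Agent.H94.PL.DK_ne hc hDP)
    rcases w with _ | ⟨v, hv⟩
    · exact cell_inf hq hc h0 h h₁
    · exact cell_fin hq hc hm h0 h h₁ hv ((hS.fin v hv).1 hw)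

private theorem c0_tn (hc : c ≠ 0) (hD : D' ≠ 0) (hP : P ≠ 0) (hP₁ : P₁ ≠ 0) :
    tn c c (D' * P) (D' * P₁) * algebraMap F[X] (RatFunc F) P₁ = algebraMap F[X] (RatFunc F) P ∧
      tn c c (D' * P) (D' * P₁) ≠ 0 := by
  have h1 : algebraMap F[X] (RatFunc F) P₁ ≠ 0 := RatFunc.algebraMap_ne_zero hP₁
  have h2 : algebraMap F[X] (RatFunc F) P ≠ 0 := RatFunc.algebraMap_ne_zero hP
  have h3 : algebraMap F[X] (RatFunc F) D' ≠ 0 := RatFunc.algebraMap_ne_zero hD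
  have h4 : algebraMap F[X] (RatFunc F) (C c) ≠ 0 := RatFunc.algebraMap_ne_zero (C_ne_zero.2 hc)
  constructor
  · unfold tn DK
    rw [map_mul, map_mul, map_mul, map_mul]
    field_simp
  · exact div_ne_zero (Pool.Agent.H94.PL.DK_ne hc (mul_ne_zero hD hP))
      (Pool.Agent.H94.PL.DK_ne hc (mul_ne_zero hD hP₁))

theorem cmp_odd (hc : c ≠ 0) (hD : D' ≠ 0) (h : P ∈ CellD (dl A) D' m τ)
    (h₁ : P₁ ∈ CellD (dl A) D' m τ) (hne : P ≠ P₁) :
    ev (some ⟨P, cell_mem h⟩ : Pl F) (iw _ (tn c c (D' * P) (D' * P₁))) = 1 ∧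
      ev (some ⟨P₁, cell_mem h₁⟩ : Pl F) (iw _ (tn c c (D' * P) (D' * P₁))) = 1 := by
  have hP := cell_mem h
  have hP₁ := cell_mem h₁
  obtain ⟨h2, h3⟩ := c0_tn (P := P) (P₁ := P₁) hc hD hP.2.ne_zero hP₁.2.ne_zero
  have h1 : algebraMap F[X] (RatFunc F) P₁ ≠ 0 := RatFunc.algebraMap_ne_zero hP₁.2.ne_zero
  have key : ∀ w : Pl F, ev w (iw w (algebraMap F[X] (RatFunc F) P)) =
      ev w (iw w (tn c c (D' * P) (D' * P₁))) + ev w (iw w (algebraMap F[X] (RatFunc F) P₁)) := by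
    intro w
    rw [← h2, map_mul, ev_mul (iw_ne h3) (iw_ne h1)]
  constructor
  · have h4 := key (some ⟨P, hP⟩)
    rw [ev_self hP.1 hP.2, ev_poly_zero hP.1 hP.2 (fun hd => hne (c0_eq hP hP₁ hd)), add_zero] at h4
    exact h4.symm
  · have h4 := key (some ⟨P₁, hP₁⟩)
    rw [ev_self hP₁.1 hP₁.2, ev_poly_zero hP₁.1 hP₁.2 (fun hd => hne (c0_eq hP₁ hP hd).symm)] at h4
    have h5 : ∀ a : ZMod 2, 0 = a + 1 → a = 1 := by decide
    exact h5 _ h4

theorem cmp_unit (hq : 2 ∣ Nat.card F - 1) (hc : c ≠ 0) (hA : ∀ i k, i ≠ k → A i ≠ A k)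
    (hD : D' ≠ 0) {w0 w1 : Pl F} (hS : SU A D' w0 w1 S U U1) (hU : Bad A (D' * P) U)
    (hP : P ≠ 0) {x : Fin 3 → F[X]}
    (hx : Squarefree (x 0) ∧ Squarefree (x 1) ∧ x 2 = x 0 * x 1)
    (hx' : IsSln 2 1 c A (D' * P) fun k => algebraMap F[X] (RatFunc F) (x k))
    (hs : ∀ k, IsSquare (pm w0 (x k))) {w : Pl F} (hw : w ∉ S) (k : Fin 3) :
    vw w (pm w (x k)) = 1 := by
  have hE := sln_even hq (by decide) hc hA (mul_ne_zero hD hP) hU hx'
  have hev : ∀ k, ev w (pm w (x k)) = 0 := by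
    intro k
    by_cases h1 : w = w0
    · subst h1
      obtain ⟨r, hr⟩ := hs k
      rw [hr, ← sq, ev_sq]
    · have h2 : w ∉ U := fun h3 => ((hS.u w).1 h3).elim hw h1
      exact hE.even w h2 k
  rcases w with _ | ⟨v, hv⟩
  · exact absurd hS.inf hw
  · have h2 : ∀ k, Squarefree (x k) → vw (some ⟨v, hv⟩ : Pl F) (pm _ (x k)) = 1 := by
      intro k hk
      by_cases h3 : v ∣ x k
      · exfalso
        have h4 : ¬ v ^ 2 ∣ x k := by
          intro h5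
          rw [sq] at h5
          exact hv.2.not_isUnit (hk v h5)
        have h5 : vw (some ⟨v, hv⟩ : Pl F) (pm _ (x k)) = exp (-1 : ℤ) :=
          Pool.Agent.H94.PL.wP_simple hv.2 h3 h4
        have h6 := hev k
        rw [ev, vl, h5, log_exp, neg_neg, Int.cast_one] at h6
        exact one_ne_zero h6
      · exact Pool.Agent.H94.PL.wP_eq_one hv.2 h3
    have h30 := h2 0 hx.1
    have h31 := h2 1 hx.2.1
    fin_cases k
    · exact h30
    · exact h31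
    · show vw (some ⟨v, hv⟩ : Pl F) (pm _ (x 2)) = 1
      unfold pm at h30 h31 ⊢
      rw [hx.2.2, map_mul, map_mul, map_mul, h30, h31, one_mul]

end Pool.Agent.H40.FS
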