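import Pool.Agent.H40.FS.GV1
import Pool.Agent.H40.FS.KGP

set_option autoImplicit false

/-!
# [H40 FS GV2] The reciprocity formula for the governing element

`w0 ≠ w1` places outside `S`, `N` a square at the places of `S`, a unit outside `S ∪ {w0, w1}`, of odd valuation at `w0`, `w1`; `x i`, `y i` polynomials, units outside `S`, squares at `w0`, `w1`; `k_i = p i + q i √N` of norm `x i m i ^ 2` (`Kg`), generic (`n0 n1 n2`); the conic data `CD`, `g` as in `gv_ex`.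
`Θ w = tht (Uw χ w).sy (iw w N) ..` (`SYB`) with all data mapped to `Kw F w`.  It is a sum of six symbols of elements of `F(t)` (`hw`; `map_mul`, `map_div₀`, ..), so `∑ w ∈ S₂, Θ w = 0` for every finite `S₂` which contains the places where one of the twelve entries has odd valuation (`ev_fin`, `hw_sum`).  `TH` holds at every `w` (map the equations; `n0 n1 n2` are the conditions on the sums).
* `w ∈ S`: `iw w N = n w ^ 2`: `tht_sq`: `Θ w` is the term of the sum.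
* `w = w0`: `cv_p` (`t` square roots of the `y i`, `r = r0`): `Θ w0 = un (gle ..)`; the same for `w1`.
* other `w ∉ S` (`w ≠ none`): `Θ w = 0`: `N` a unit; if `iw w N = n ^ 2`: `cv_c` (`Kg.sp`).  If not a square and `vw w c = 1`: `cv_a` (`cd_prim`, `Kg.inr`) and `hg1`.  If `vw w c ≠ 1`: `cv_b` with the `r` of `hg2`, so `Θ w = ev w (gle ..) = 0`.
In `ZMod 2`: `∑ w ∈ S = Θ w0 + Θ w1`.
-/

namespace Pool.Agent.H40.FS

open Polynomial WithZero Pool.Agent.H74.FS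
open Pool.Agent.H94.PL (LChar XX DK AK dl)
open Pool.Agent.H94.PM (LU vl IsVln IsSln)

variable {F : Type} [Field F] [DecidableEq (RatFunc F)] [Finite F] (χ : LChar F 2)
  {S : Finset (Pl F)} {N : RatFunc F} {w0 w1 : Pl F}

omit [Finite F] in
private theorem even_ev {w : Pl F} {x : Kw F w} (h : ev w x = 0) :
    Even (vl (Valued.v : Valuation (Kw F w) ℤᵐ⁰) x) := by
  rw [even_iff_two_dvd]
  exact (ZMod.intCast_zmod_eq_zero_iff_dvd _ 2).1 h

omit [Finite F] in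
private theorem odd_ev {w : Pl F} {x : Kw F w} (h : ev w x = 1) :
    Odd (vl (Valued.v : Valuation (Kw F w) ℤᵐ⁰) x) := by
  rw [← Int.not_even_iff_odd, even_iff_two_dvd]
  intro h1
  have h2 : ev w x = 0 := (ZMod.intCast_zmod_eq_zero_iff_dvd _ 2).2 h1
  rw [h2] at h
  exact zero_ne_one h

omit [Finite F] in
private theorem pm_ne {w : Pl F} {f : F[X]} (h : f ≠ 0) : pm w f ≠ 0 :=
  iw_ne ((map_ne_zero_iff _ (IsFractionRing.injective F[X] (RatFunc F))).2 h)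

omit [Finite F] in
private theorem th_map (w : Pl F) {S' : Set (Pl F)} (hN : N ≠ 0) {x y : Fin 2 → F[X]} {c g : F[X]}
    {X Z W : Fin 3 → F[X]} (h : CD x y c X Z W) (hg : g ≠ 0) {p q m : Fin 2 → RatFunc F}
    (hk : ∀ i, Kg S' N (algebraMap F[X] (RatFunc F) (x i)) (p i) (q i) (m i))
    (n0 : p 0 / m 0 + algebraMap F[X] (RatFunc F) (Z 0) / algebraMap F[X] (RatFunc F) (X 0) ≠ 0)
    (n1 : p 1 / m 1 + algebraMap F[X] (RatFunc F) (Z 1) / algebraMap F[X] (RatFunc F) (X 1) ≠ 0)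
    (n2 : (p 0 * p 1 + N * (q 0 * q 1)) / (m 0 * m 1) +
      algebraMap F[X] (RatFunc F) (Z 2) / algebraMap F[X] (RatFunc F) (X 2) ≠ 0) :
    TH (iw w N) (fun i => pm w (x i)) (fun i => pm w (y i)) (fun i => iw w (p i))
      (fun i => iw w (q i)) (fun i => iw w (m i)) (pm w g) (pm w c) (fun l => pm w (X l))
      (fun l => pm w (Z l)) (fun l => pm w (W l)) := by
  have hm : ∀ a b : F[X], a = b → pm w a = pm w b := fun a b h => by rw [h]
  refine ⟨iw_ne hN, fun i => pm_ne (h.x0 i), fun i => pm_ne (h.y0 i), fun i => iw_ne (hk i).m0,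
    pm_ne hg, pm_ne h.c0, fun l => pm_ne (h.X0 l), fun l => pm_ne (h.W0 l), fun i => ?_, ?_, ?_, ?_,
    ?_, ?_, ?_⟩
  · have h1 := congrArg (iw w) (hk i).eq
    simp only [map_sub, map_mul, map_pow] at h1
    exact h1
  · have h1 := hm _ _ h.e0
    simp only [pm, map_sub, map_mul, map_pow] at h1 ⊢
    exact h1
  · have h1 := hm _ _ h.e1
    simp only [pm, map_sub, map_mul, map_pow] at h1 ⊢
    exact h1
  · have h1 := hm _ _ h.e2
    simp only [pm, map_sub, map_mul, map_pow] at h1 ⊢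
    exact h1
  · have h1 := iw_ne (w := w) n0
    simp only [map_add, map_div₀] at h1
    exact h1
  · have h1 := iw_ne (w := w) n1
    simp only [map_add, map_div₀] at h1
    exact h1
  · have h1 := iw_ne (w := w) n2
    simp only [map_add, map_mul, map_div₀] at h1
    exact h1

theorem gov (hq : 2 ∣ Nat.card F - 1) (hS : (none : Pl F) ∈ S) (hw0 : w0 ∉ S) (hw1 : w1 ∉ S)
    (hww : w0 ≠ w1) (hN : N ≠ 0)
    (hNu : ∀ w : Pl F, w ∉ S → w ≠ w0 → w ≠ w1 → vw w (iw w N) = 1)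
    (hN0 : ev w0 (iw w0 N) = 1) (hN1 : ev w1 (iw w1 N) = 1)
    {x y : Fin 2 → F[X]} {c g : F[X]} {X Z W : Fin 3 → F[X]} (h : CD x y c X Z W)
    (hx : ∀ w : Pl F, w ∉ S → ∀ i, vw w (pm w (x i)) = 1)
    (hy : ∀ w : Pl F, w ∉ S → ∀ i, vw w (pm w (y i)) = 1)
    (hy0 : ∀ i, IsSquare (pm w0 (y i))) (hy1 : ∀ i, IsSquare (pm w1 (y i))) (hg : g ≠ 0)
    (hg1 : ∀ w : Pl F, w ∉ S → vw w (pm w c) = 1 → ev w (pm w (g * (X 0 * X 1 * X 2))) = 0)
    (hg2 : ∀ w : Pl F, w ∉ S → vw w (pm w c) ≠ 1 → ∃ r : Fin 2 → Kw F w,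
        (∀ i, r i ^ 2 = pm w (x i)) ∧
        ev w (gle (pm w g) (fun l => pm w (X l)) (fun l => pm w (Z l)) (r 0) (r 1)) = 0)
    {p q m : Fin 2 → RatFunc F}
    (hk : ∀ i, Kg {w | w ∈ S ∨ w = w0 ∨ w = w1} N (algebraMap F[X] (RatFunc F) (x i)) (p i) (q i)
      (m i))
    (n0 : p 0 / m 0 + algebraMap F[X] (RatFunc F) (Z 0) / algebraMap F[X] (RatFunc F) (X 0) ≠ 0)
    (n1 : p 1 / m 1 + algebraMap F[X] (RatFunc F) (Z 1) / algebraMap F[X] (RatFunc F) (X 1) ≠ 0)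
    (n2 : (p 0 * p 1 + N * (q 0 * q 1)) / (m 0 * m 1) +
      algebraMap F[X] (RatFunc F) (Z 2) / algebraMap F[X] (RatFunc F) (X 2) ≠ 0)
    (n : ∀ w : Pl F, Kw F w) (hn : ∀ w ∈ S, n w ^ 2 = iw w N)
    {r0 : Fin 2 → Kw F w0} (hr0 : ∀ i, r0 i ^ 2 = pm w0 (x i))
    (hv0 : vl (vw w0) (gle (pm w0 g) (fun l => pm w0 (X l)) (fun l => pm w0 (Z l)) (r0 0) (r0 1)) = 0)
    {r1 : Fin 2 → Kw F w1} (hr1 : ∀ i, r1 i ^ 2 = pm w1 (x i))
    (hv1 : vl (vw w1) (gle (pm w1 g) (fun l => pm w1 (X l)) (fun l => pm w1 (Z l)) (r1 0) (r1 1)) = 0) :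
    ∑ w ∈ S, ((Uw χ w).hs (iw w (p 0) + iw w (q 0) * n w) (pm w (y 1)) +
      (Uw χ w).hs (iw w (p 1) + iw w (q 1) * n w) (pm w (y 0))) =
      (Uw χ w0).un (gle (pm w0 g) (fun l => pm w0 (X l)) (fun l => pm w0 (Z l)) (r0 0) (r0 1)) +
      (Uw χ w1).un (gle (pm w1 g) (fun l => pm w1 (X l)) (fun l => pm w1 (Z l)) (r1 0) (r1 1)) := by
  classical
  have hTH := fun w : Pl F => th_map w hN h hg hk n0 n1 n2
  have h2w : ∀ w : Pl F, (Valued.v : Valuation (Kw F w) ℤᵐ⁰) (2 : Kw F w) = 1 := by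
    intro w
    have h3 := val_two_w hq w
    rwa [Nat.cast_ofNat] at h3
  have h20 : (2 : RatFunc F) ≠ 0 := by
    intro h3
    apply two_ne_w hq (none : Pl F)
    have h4 := congrArg (iw (none : Pl F)) h3
    rwa [map_ofNat, map_zero] at h4
  have hι : ∀ f : F[X], f ≠ 0 → algebraMap F[X] (RatFunc F) f ≠ 0 := fun f hf =>
    (map_ne_zero_iff _ (IsFractionRing.injective F[X] (RatFunc F))).2 hf
  -- the twelve entries
  set ι := algebraMap F[X] (RatFunc F) with hιd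
  obtain ⟨A, hA⟩ : ∃ A : Fin 6 → RatFunc F, A = ![2 * (p 0 / m 0 + ι (Z 0) / ι (X 0)),
    2 * (p 1 / m 1 + ι (Z 1) / ι (X 1)),
    2 * ((p 0 * p 1 + N * (q 0 * q 1)) / (m 0 * m 1) + ι (Z 2) / ι (X 2)), m 0, m 1, ι g] :=
    ⟨_, rfl⟩
  obtain ⟨B, hB⟩ : ∃ B : Fin 6 → RatFunc F, B = ![N * (ι c * ι (y 1)), N * (ι c * ι (y 0)),
    N * ι c, ι (y 1), ι (y 0), N] := ⟨_, rfl⟩
  have hA0 : ∀ j, A j ≠ 0 := by
    intro j
    rw [hA]
    fin_cases j
    · exact mul_ne_zero h20 n0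
    · exact mul_ne_zero h20 n1
    · exact mul_ne_zero h20 n2
    · exact (hk 0).m0
    · exact (hk 1).m0
    · exact hι _ hg
  have hB0 : ∀ j, B j ≠ 0 := by
    intro j
    rw [hB]
    fin_cases j
    · exact mul_ne_zero hN (mul_ne_zero (hι _ h.c0) (hι _ (h.y0 1)))
    · exact mul_ne_zero hN (mul_ne_zero (hι _ h.c0) (hι _ (h.y0 0)))
    · exact mul_ne_zero hN (hι _ h.c0)
    · exact hι _ (h.y0 1)
    · exact hι _ (h.y0 0)
    · exact hN
  obtain ⟨Θ, hΘ⟩ : ∃ Θ : Pl F → ZMod 2, ∀ w, Θ w = tht (Uw χ w).sy (iw w N)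
      (fun i => pm w (y i)) (fun i => iw w (p i)) (fun i => iw w (q i)) (fun i => iw w (m i))
      (pm w g) (pm w c) (fun l => pm w (X l)) (fun l => pm w (Z l)) := ⟨_, fun w => rfl⟩
  have hΘs : ∀ w, Θ w = ∑ j, hw χ w (A j) (B j) := by
    intro w
    rw [hΘ, hA, hB, Fin.sum_univ_six]
    have e2 : (iw w) (2 : RatFunc F) = 2 := map_ofNat (iw w) 2
    simp only [tht, hw, H94.PM.LU.sy_apply, pm]
    simp [map_mul, map_add, map_div₀]
    rw [e2]
  obtain ⟨S2, hS2, hS2e⟩ : ∃ S2 : Finset (Pl F), insert w0 (insert w1 S) ⊆ S2 ∧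
      ∀ w, w ∉ S2 → ∀ j, ev w (iw w (A j)) = 0 ∧ ev w (iw w (B j)) = 0 := by
    refine ⟨insert w0 (insert w1 S) ∪ Finset.univ.biUnion (fun j : Fin 6 =>
      (ev_fin (hA0 j)).toFinset ∪ (ev_fin (hB0 j)).toFinset), Finset.subset_union_left, ?_⟩
    intro w hw' j
    constructor
    · by_contra hne
      apply hw'
      rw [Finset.mem_union]
      refine Or.inr (Finset.mem_biUnion.2 ⟨j, Finset.mem_univ _, ?_⟩)
      rw [Finset.mem_union]
      exact Or.inl ((Set.Finite.mem_toFinset _).2 hne)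
    · by_contra hne
      apply hw'
      rw [Finset.mem_union]
      refine Or.inr (Finset.mem_biUnion.2 ⟨j, Finset.mem_univ _, ?_⟩)
      rw [Finset.mem_union]
      exact Or.inr ((Set.Finite.mem_toFinset _).2 hne)
  have hsum : ∑ w ∈ S2, Θ w = 0 := by
    simp only [hΘs]
    rw [Finset.sum_comm]
    refine Finset.sum_eq_zero fun j _ => ?_
    exact hw_sum χ S2 (hA0 j) (hB0 j) fun w hw' => hS2e w hw' j
  have hzero : ∀ w ∈ S2, w ∉ insert w0 (insert w1 S) → Θ w = 0 := by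
    intro w _ hw'
    simp only [Finset.mem_insert, not_or] at hw'
    obtain ⟨hw0', hw1', hwS⟩ := hw'
    have hwn : w ≠ none := by
      rintro rfl
      exact hwS hS
    have hwk : w ∉ {w | w ∈ S ∨ w = w0 ∨ w = w1} := by
      rintro (h3 | h3 | h3)
      · exact hwS h3
      · exact hw0' h3
      · exact hw1' h3
    have hNw := hNu w hwS hw0' hw1'
    rw [hΘ]
    by_cases hsq : IsSquare (iw w N)
    · obtain ⟨n', hn'⟩ := hsq
      have hn2 : n' ^ 2 = iw w N := by rw [hn', sq]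
      exact cv_c (Uw χ w) (h2w w) (hTH w) (fun i => hy w hwS i) hn2 fun i =>
        even_ev ((hk i).sp w hwk n' hn2)
    · by_cases hc : vw w (pm w c) = 1
      · rw [cv_a (Uw χ w) (h2w w) (hTH w) hNw hsq (fun i => hx w hwS i) (fun i => hy w hwS i) hc
          (fun l => (cd_prim h hwn l).1) (fun l => (cd_prim h hwn l).2.1)
          (fun l => (cd_prim h hwn l).2.2.1) (fun l => (cd_prim h hwn l).2.2.2)
          (fun i => even_ev ((hk i).inr w hwk hsq))]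
        have h3 := hg1 w hwS hc
        have h4 : pm w (g * (X 0 * X 1 * X 2)) =
            pm w g * (pm w (X 0) * pm w (X 1) * pm w (X 2)) := by
          simp only [pm, map_mul]
        rw [h4] at h3
        exact h3
      · obtain ⟨r, hr, hr2⟩ := hg2 w hwS hc
        rw [cv_b (Uw χ w) (h2w w) (hTH w) hNw hsq (fun i => hx w hwS i) (fun i => hy w hwS i)
          (fun i => even_ev ((hk i).inr w hwk hsq)) hr]
        exact hr2
  have hsum2 : Θ w0 + (Θ w1 + ∑ w ∈ S, Θ w) = 0 := by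
    rw [← Finset.sum_insert hw1, ← Finset.sum_insert (by
      rw [Finset.mem_insert]
      rintro (h3 | h3)
      · exact hww h3
      · exact hw0 h3), Finset.sum_subset hS2 hzero]
    exact hsum
  have hS1 : ∀ w ∈ S, Θ w = (Uw χ w).hs (iw w (p 0) + iw w (q 0) * n w) (pm w (y 1)) +
      (Uw χ w).hs (iw w (p 1) + iw w (q 1) * n w) (pm w (y 0)) := by
    intro w hwS
    rw [hΘ, tht_sq (Uw χ w).sy (two_ne_w hq w) (hTH w) (hn w hwS)]
    rfl
  have hw0e : Θ w0 = (Uw χ w0).un (gle (pm w0 g) (fun l => pm w0 (X l)) (fun l => pm w0 (Z l))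
      (r0 0) (r0 1)) := by
    have ht : ∀ i, ∃ t, t ^ 2 = pm w0 (y i) := fun i => by
      obtain ⟨t, ht⟩ := hy0 i
      exact ⟨t, by rw [ht, sq]⟩
    choose t ht using ht
    rw [hΘ]
    exact cv_p (Uw χ w0) (two_ne_w hq w0) (hTH w0) (odd_ev hN0) ht hr0 hv0
  have hw1e : Θ w1 = (Uw χ w1).un (gle (pm w1 g) (fun l => pm w1 (X l)) (fun l => pm w1 (Z l))
      (r1 0) (r1 1)) := by
    have ht : ∀ i, ∃ t, t ^ 2 = pm w1 (y i) := fun i => by
      obtain ⟨t, ht⟩ := hy1 i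
      exact ⟨t, by rw [ht, sq]⟩
    choose t ht using ht
    rw [hΘ]
    exact cv_p (Uw χ w1) (two_ne_w hq w1) (hTH w1) (odd_ev hN1) ht hr1 hv1
  rw [← hw0e, ← hw1e, ← Finset.sum_congr rfl hS1]
  have hz2 : ∀ a b c : ZMod 2, a + (b + c) = 0 → c = a + b := by decide
  exact hz2 _ _ _ hsum2

end Pool.Agent.H40.FS
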