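import Pool.Agent.H40.FS.GV1
import Pool.Agent.H94.PC.Defs

set_option autoImplicit false

/-!
# [H40 FS JSU] The governing element in the completion and modulo the prime

`w = some P`.  `P ∤ x i`, `P ∣ ρ i ^ 2 - x i`, so `P ∤ ρ i`.
`pm (x i) / pm (ρ i) ^ 2` is near `1` (`v (ρ ^ 2 - x) < 1 = v (ρ ^ 2)`), so it is `s ^ 2` (`sq_near`); `v (s ^ 2 - 1) < 1` gives `v (s - 1) < 1` or `v (s + 1) < 1`, change the sign of `s` so that `v (s - 1) < 1`.  `r i = pm (ρ i) * s i`: `r i ^ 2 = pm (x i)`, `v (r i - pm (ρ i)) < 1`.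
`gle` is a polynomial expression with integral entries, so `v (gle (pm g) .. (r 0) (r 1) - pm (gle g X Z (ρ 0) (ρ 1))) < 1` (`gle` commutes with ring homomorphisms), and `v (pm (gle g X Z (ρ 0) (ρ 1))) = 1` as `P` does not divide it (`H94.PL.wP_eq_one`).  So the quotient is near `1`: `vl = 0`, and `un` is the same (`LU.un_congr`), `un (pm f) = lm χ f P` (`un_some`).
`sg (lm χ f P) = js f P` for `P ∤ f`: `lm χ f P = χ.lg (resultant P f)`, `js f P = ch (resultant P f)` and the resultant is not `0` (coprime); `χ.lg z = 0` iff `z` is a square (`χ.ker`, `χ.mul`), `sg 0 = 1`, `sg 1 = -1`.  (`H74/FS/SLO` contains `js_lm`.)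
-/

namespace Pool.Agent.H40.FS

open Polynomial WithZero Pool.Agent.H74.FS
open Pool.Agent.H94.PL (LChar XX DK AK dl lm)
open Pool.Agent.H94.PM (LU vl IsVln IsSln)

section
variable {M : Type} [Field M] (v : Valuation M ℤᵐ⁰)

/-- integral elements which are congruent modulo the maximal ideal -/
private def Nr (a b : M) : Prop := v a ≤ 1 ∧ v b ≤ 1 ∧ v (a - b) < 1

variable {v}

private theorem Nr.rfl' {a : M} (h : v a ≤ 1) : Nr v a a := by
  refine ⟨h, h, ?_⟩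
  rw [sub_self, map_zero]
  exact zero_lt_one

private theorem Nr.add {a b c d : M} (h : Nr v a b) (h' : Nr v c d) : Nr v (a + c) (b + d) := by
  refine ⟨v.map_add_le h.1 h'.1, v.map_add_le h.2.1 h'.2.1, ?_⟩
  have e : a + c - (b + d) = (a - b) + (c - d) := by ring
  rw [e]
  exact v.map_add_lt h.2.2 h'.2.2

private theorem Nr.mul {a b c d : M} (h : Nr v a b) (h' : Nr v c d) : Nr v (a * c) (b * d) := by
  refine ⟨?_, ?_, ?_⟩
  · rw [map_mul]
    exact mul_le_one' h.1 h'.1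
  · rw [map_mul]
    exact mul_le_one' h.2.1 h'.2.1
  · have e : a * c - b * d = a * (c - d) + (a - b) * d := by ring
    rw [e]
    refine v.map_add_lt ?_ ?_
    · rw [map_mul]
      exact lt_of_le_of_lt (mul_le_of_le_one_left' h.1) h'.2.2
    · rw [map_mul]
      exact lt_of_le_of_lt (mul_le_of_le_one_right' h'.2.1) h.2.2

private theorem Nr.quot {a b : M} (h : Nr v a b) (hb : v b = 1) : v (a / b - 1) < 1 := by
  have hb0 : b ≠ 0 := by
    rintro rfl
    rw [map_zero] at hb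
    exact zero_ne_one hb
  have e : a / b - 1 = (a - b) / b := by
    rw [sub_div, div_self hb0]
  rw [e, map_div₀, hb, div_one]
  exact h.2.2

end

variable {F : Type} [Field F] [DecidableEq (RatFunc F)] [Finite F] (χ : LChar F 2)

omit [DecidableEq (RatFunc F)] [Finite F] in
private theorem js_lm' {A B : F[X]} (hB : B.Monic) (h : IsCoprime A B) :
    H94.PC.js A B = H94.PC.sg (lm χ A B) := by
  have hr : resultant B A ≠ 0 := H94.PL.res_ne_zero hB h
  show H94.PC.ch (resultant B A) = H94.PC.sg (χ.lg (resultant B A))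
  have h2 : ((2 : ℕ) : ZMod 2) = 0 := rfl
  unfold H94.PC.ch
  rw [if_neg hr]
  by_cases hs : IsSquare (resultant B A)
  · rw [if_pos hs]
    obtain ⟨s, hs⟩ := hs
    have hs0 : s ≠ 0 := by
      rintro rfl
      rw [mul_zero] at hs
      exact hr hs
    have h1 : χ.lg (resultant B A) = 0 := by
      rw [hs, ← sq, H94.PL.lg_pow χ hs0, h2, zero_mul]
    rw [h1, H94.PC.sg_zero]
  · rw [if_neg hs]
    have h1 : χ.lg (resultant B A) ≠ 0 := by
      intro h0
      obtain ⟨y, -, hy⟩ := χ.ker hr h0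
      exact hs ⟨y, by rw [hy, sq]⟩
    have h3 : χ.lg (resultant B A) = 1 := by
      revert h1
      generalize χ.lg (resultant B A) = z
      revert z
      decide
    rw [h3, H94.PC.sg_one]

omit [Finite F] in
private theorem pm_le {P : F[X]} (hP : P.Monic ∧ Irreducible P) (a : F[X]) :
    vw (some ⟨P, hP⟩) (pm (some ⟨P, hP⟩) a) ≤ 1 := H94.PL.wP_le_one P hP.2 a

omit [Finite F] in
private theorem pm_one {P : F[X]} (hP : P.Monic ∧ Irreducible P) {a : F[X]} (h : ¬ P ∣ a) :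
    vw (some ⟨P, hP⟩) (pm (some ⟨P, hP⟩) a) = 1 := H94.PL.wP_eq_one hP.2 h

omit [Finite F] in
private theorem pm_lt {P : F[X]} (hP : P.Monic ∧ Irreducible P) {a : F[X]} (h : P ∣ a) :
    vw (some ⟨P, hP⟩) (pm (some ⟨P, hP⟩) a) < 1 := by
  obtain ⟨q, rfl⟩ := h
  show vw (some ⟨P, hP⟩) (iw _ (algebraMap F[X] (RatFunc F) (P * q))) < 1
  rw [map_mul, map_mul, map_mul]
  have h1 : vw (some ⟨P, hP⟩) (iw (some ⟨P, hP⟩) (algebraMap F[X] (RatFunc F) P)) =
      exp (-1 : ℤ) := H94.PL.wP_self P hP.2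
  rw [h1]
  refine lt_of_le_of_lt (mul_le_of_le_one_right' (pm_le hP q)) ?_
  rw [← exp_zero, exp_lt_exp]
  norm_num

omit [Finite F] in
private theorem pm_gle (w : Pl F) (g : F[X]) (X Z : Fin 3 → F[X]) (a b : F[X]) :
    pm w (gle g X Z a b) =
      gle (pm w g) (fun l => pm w (X l)) (fun l => pm w (Z l)) (pm w a) (pm w b) := by
  unfold gle pm
  simp only [map_mul, map_add, map_ofNat]

omit [Finite F] in
private theorem root_near (hq : 2 ∣ Nat.card F - 1) [Finite F] {P : F[X]}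
    (hP : P.Monic ∧ Irreducible P) {x ρ : F[X]} (hx : ¬ P ∣ x) (hρ : P ∣ ρ ^ 2 - x) :
    ∃ r : Kw F (some ⟨P, hP⟩), r ^ 2 = pm _ x ∧ Nr (vw _) r (pm _ ρ) := by
  have hρ' : ¬ P ∣ ρ := by
    intro h
    apply hx
    have h1 : P ∣ ρ ^ 2 := dvd_pow h two_ne_zero
    have h2 := dvd_sub h1 hρ
    rwa [sub_sub_cancel] at h2
  obtain ⟨v, hv⟩ : ∃ v, v = vw (some ⟨P, hP⟩ : Pl F) := ⟨_, rfl⟩
  obtain ⟨R, hR⟩ : ∃ R, R = pm (some ⟨P, hP⟩) ρ := ⟨_, rfl⟩
  obtain ⟨Y, hY⟩ : ∃ Y, Y = pm (some ⟨P, hP⟩) x := ⟨_, rfl⟩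
  have hR1 : v R = 1 := by rw [hv, hR]; exact pm_one hP hρ'
  have hY1 : v Y = 1 := by rw [hv, hY]; exact pm_one hP hx
  have hd : v (R ^ 2 - Y) < 1 := by
    have h1 := pm_lt hP hρ
    have h2 : pm (some ⟨P, hP⟩) (ρ ^ 2 - x) = R ^ 2 - Y := by
      rw [hR, hY]
      show iw _ (algebraMap F[X] (RatFunc F) (ρ ^ 2 - x)) = _
      rw [map_sub, map_sub, map_pow, map_pow]
    rw [h2] at h1
    rw [hv]
    exact h1
  have hR0 : R ≠ 0 := by
    intro h
    rw [h, map_zero] at hR1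
    exact zero_ne_one hR1
  have h3 : v (Y / R ^ 2 - 1) < 1 := by
    refine Nr.quot ⟨hY1.le, ?_, ?_⟩ ?_
    · rw [map_pow, hR1, one_pow]
    · rw [← Valuation.map_neg, neg_sub]
      exact hd
    · rw [map_pow, hR1, one_pow]
  obtain ⟨y, hy0, hy⟩ := sq_near (F := F) hq (w := some ⟨P, hP⟩) (x := Y / R ^ 2) (by rw [← hv]; exact h3)
  have h4 : ∃ s, s ^ 2 = Y / R ^ 2 ∧ v (s - 1) < 1 := by
    rw [hy] at h3
    have h5 : y ^ 2 - 1 = (y - 1) * (y + 1) := by ring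
    rw [h5, map_mul] at h3
    rcases lt_or_ge (v (y - 1)) 1 with h6 | h6
    · exact ⟨y, hy.symm, h6⟩
    · refine ⟨-y, by rw [neg_sq, hy], ?_⟩
      have h7 : -y - 1 = -(y + 1) := by ring
      rw [h7, Valuation.map_neg]
      by_contra h8
      push Not at h8
      exact absurd h3 (not_lt.2 (one_le_mul h6 h8))
  obtain ⟨s, hs, hs1⟩ := h4
  rw [← hR, ← hY, ← hv]
  refine ⟨R * s, ?_, ?_⟩
  · rw [mul_pow, hs, mul_div_cancel₀ _ (pow_ne_zero 2 hR0)]
  · have h9 : Nr v s 1 := by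
      refine ⟨?_, by rw [map_one], hs1⟩
      have h10 : s = (s - 1) + 1 := by ring
      rw [h10]
      exact v.map_add_le hs1.le (by rw [map_one])
    have h11 := (Nr.rfl' hR1.le).mul h9
    rwa [mul_one] at h11

theorem jsu (hq : 2 ∣ Nat.card F - 1) {P : F[X]} (hP : P.Monic ∧ Irreducible P)
    {x ρ : Fin 2 → F[X]} (hx : ∀ i, ¬ P ∣ x i) (hρ : ∀ i, P ∣ ρ i ^ 2 - x i) {g : F[X]}
    {X Z : Fin 3 → F[X]} (hg : ¬ P ∣ gle g X Z (ρ 0) (ρ 1)) :
    ∃ r : Fin 2 → Kw F (some ⟨P, hP⟩), (∀ i, r i ^ 2 = pm _ (x i)) ∧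
      vl (vw _) (gle (pm _ g) (fun l => pm _ (X l)) (fun l => pm _ (Z l)) (r 0) (r 1)) = 0 ∧
      H94.PC.sg ((Uw χ (some ⟨P, hP⟩)).un
        (gle (pm _ g) (fun l => pm _ (X l)) (fun l => pm _ (Z l)) (r 0) (r 1))) =
        H94.PC.js (gle g X Z (ρ 0) (ρ 1)) P := by
  choose r hr hn using fun i => root_near hq hP (hx i) (hρ i)
  refine ⟨r, hr, ?_⟩
  have hN : Nr (vw _) (gle (pm (some ⟨P, hP⟩) g) (fun l => pm _ (X l)) (fun l => pm _ (Z l)) (r 0) (r 1))
      (pm _ (gle g X Z (ρ 0) (ρ 1))) := by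
    rw [pm_gle]
    unfold gle
    have i2 : Nr (vw (some ⟨P, hP⟩ : Pl F)) 2 2 := by
      apply Nr.rfl'
      have h := pm_le hP (2 : F[X])
      have e : pm (some ⟨P, hP⟩ : Pl F) (2 : F[X]) = 2 := by
        show iw _ (algebraMap F[X] (RatFunc F) 2) = 2
        rw [map_ofNat, map_ofNat]
      rw [e] at h
      exact h
    have hp : ∀ f : F[X], Nr (vw (some ⟨P, hP⟩ : Pl F)) (pm _ f) (pm _ f) :=
      fun f => Nr.rfl' (pm_le hP f)
    exact ((((((i2.mul (hp g)).mul (hp _)).mul (hp _)).mul (hp _)).mul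
      ((hp _).add ((hp _).mul (hn 0)))).mul ((hp _).add ((hp _).mul (hn 1)))).mul
      ((hp _).add ((hp _).mul ((hn 0).mul (hn 1))))
  have h1 := pm_one hP hg
  have hq1 := hN.quot h1
  have h0 : pm (some ⟨P, hP⟩ : Pl F) (gle g X Z (ρ 0) (ρ 1)) ≠ 0 := by
    intro h
    rw [h, map_zero] at h1
    exact zero_ne_one h1
  refine ⟨?_, ?_⟩
  · have h3 := H94.PM.vl_near hq1
    have h4 := H94.PM.ne_of_near hq1
    have h5 : gle (pm (some ⟨P, hP⟩) g) (fun l => pm _ (X l)) (fun l => pm _ (Z l)) (r 0) (r 1) =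
        pm _ (gle g X Z (ρ 0) (ρ 1)) * (gle (pm (some ⟨P, hP⟩) g) (fun l => pm _ (X l))
          (fun l => pm _ (Z l)) (r 0) (r 1) / pm _ (gle g X Z (ρ 0) (ρ 1))) :=
      (mul_div_cancel₀ _ h0).symm
    rw [h5, H94.PM.vl_mul h0 h4, h3, add_zero]
    unfold vl
    rw [h1, log_one, neg_zero]
  · rw [(Uw χ (some ⟨P, hP⟩)).un_congr h0 hq1]
    have h3 := un_some χ hP.1 hP.2 hg
    have h4 : (Uw χ (some ⟨P, hP⟩)).un (pm (some ⟨P, hP⟩ : Pl F) (gle g X Z (ρ 0) (ρ 1))) =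
        lm χ (gle g X Z (ρ 0) (ρ 1)) P := h3
    rw [h4]
    have hc : IsCoprime (gle g X Z (ρ 0) (ρ 1)) P := by
      rw [isCoprime_comm]
      exact (hP.2.isCoprime_or_dvd _).resolve_right hg
    exact (js_lm' χ hP.1 hc).symm

end Pool.Agent.H40.FS
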