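import Pool.Agent.H40.FS.ALT
import Pool.Agent.H40.FS.GV2
import Pool.Agent.H40.FS.JSU
import Pool.Agent.H40.FS.CM0

set_option autoImplicit false

/-!
# [H40 FS CMP] The forms for two primes of the same cell

`P ≠ P₁` in the cell of `D'`, `S` = infinity and the primes dividing `D' * dl A`, `U = S ∪ {P}`, `U1 = S ∪ {P₁}`; `x`, `y` triples of polynomials which are Selmer tuples for both twists `D' P`, `D' P₁` and squares at `P` and `P₁`.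
* `cmp`: `cmp_tp`, `cmp_odd`, `cmp_unit` are in `CM0`.  `N = tn c c (D' P) (D' P₁)`.  `hw χ w (x i) N = 0` for all `w` (`i = 0, 1`): `w ∈ S`: `N` a square (`hw_sq` type: `hs` with a square is `0`); `w = P, P₁`: `x i` a square; others: both units (`tp_unit`, `cmp_unit` (`CM0`), `hw_even`).  `norm_hasse` (`H74/FS/HAS`), `kg_par`, `kg_gen` with `u l = Z l / X l` (images in `F(t)`) and the set `{w | w ∈ U ∨ w ∈ U1}`, which is `{w | w ∈ S ∨ w = P ∨ w = P₁}`.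
  `trf` with `a := a₁` gives `a'`, `n`: `fr χ U a' y = fr χ U1 a₁ y + ∑ w ∈ S, ..`, and `fr χ U a y = fr χ U a' y` (`fr_ind`).  `gov` with `w0 = P`, `w1 = P₁` and the roots of `jsu`: the sum is `un (..) + un (..)`.  `sg_add` and `sg a * sg a = 1`.
-/

namespace Pool.Agent.H40.FS

open Polynomial WithZero Pool.Agent.H74.FS
open Pool.Agent.H94.PL (LChar XX DK AK dl)
open Pool.Agent.H94.PM (LU vl IsVln IsSln)
open Pool.Agent.H94.PC (pf js)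
open Pool.Agent.H3.FS (CellD)

variable {F : Type} [Field F] [DecidableEq (RatFunc F)] [Finite F] {S U U1 : Finset (Pl F)}
  {c : F} {A : Fin 3 → F[X]} {D' : F[X]} {m : ℕ} {τ : F[X] → ℝ} {P P₁ : F[X]}

omit [DecidableEq (RatFunc F)] [Finite F] in
private theorem cmp_sg (s a b z : ZMod 2) (h : s = a + (b + z)) :
    H94.PC.sg s * H94.PC.sg a = H94.PC.sg b * H94.PC.sg z := by
  subst h
  have h2 : ∀ a : ZMod 2, a = 0 ∨ a = 1 := by decide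
  have h3 : (1 : ZMod 2) + 1 = 0 := rfl
  rcases h2 a with rfl | rfl <;> rcases h2 b with rfl | rfl <;> rcases h2 z with rfl | rfl <;>
    simp [H94.PC.sg_zero, H94.PC.sg_one, h3]

omit [Finite F] in
private theorem cmp_ev_one {w : Pl F} {x : Kw F w} (h : vw w x = 1) : ev w x = 0 := by
  unfold ev vl
  rw [h, log_one, neg_zero, Int.cast_zero]

omit [Finite F] in
private theorem cmp_nd {P : F[X]} (hP : P.Monic ∧ Irreducible P) {a : F[X]}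
    (h : vw (some ⟨P, hP⟩ : Pl F) (pm _ a) = 1) : ¬ P ∣ a := by
  intro hd
  exact (H94.LT.val_A_eq_one_iff (K := RatFunc F) (H94.LT.place P hP.2) a).1 h
    (Ideal.mem_span_singleton.2 hd)

omit [DecidableEq (RatFunc F)] [Finite F] in
private theorem cmp_dl (hA : ∀ i k, i ≠ k → A i ≠ A k) : dl A ≠ 0 := by
  unfold dl
  refine Finset.prod_ne_zero_iff.2 fun p hp => sub_ne_zero.2 (hA p.1 p.2 ?_)
  exact ((Finset.mem_filter.1 hp).2).ne

variable [DecidableEq (Oc F)] [∀ w : Pl F, DecidableEq (Ow F w)] (χ : LChar F 2)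

include χ in
omit [DecidableEq (Oc F)] [∀ w : Pl F, DecidableEq (Ow F w)] in
private theorem cmp_kg (hq : 2 ∣ Nat.card F - 1) {N : RatFunc F} {w0 w1 : Pl F}
    (hN : N ≠ 0) (hS : (none : Pl F) ∈ S) (hNs : ∀ w ∈ S, IsSquare (iw w N))
    (hNu : ∀ w : Pl F, w ∉ S → w ≠ w0 → w ≠ w1 → vw w (iw w N) = 1)
    {x : Fin 2 → F[X]} (hx0 : ∀ i, x i ≠ 0)
    (hx : ∀ w : Pl F, w ∉ S → ∀ i, vw w (pm w (x i)) = 1)
    (s0 : ∀ i, IsSquare (pm w0 (x i))) (s1 : ∀ i, IsSquare (pm w1 (x i)))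
    (u : Fin 3 → RatFunc F) :
    ∃ p q m : Fin 2 → RatFunc F,
      (∀ i, Kg {w | w ∈ S ∨ w = w0 ∨ w = w1} N (algebraMap F[X] (RatFunc F) (x i)) (p i) (q i)
        (m i)) ∧ p 0 / m 0 + u 0 ≠ 0 ∧ p 1 / m 1 + u 1 ≠ 0 ∧
      (p 0 * p 1 + N * (q 0 * q 1)) / (m 0 * m 1) + u 2 ≠ 0 := by
  have hxa : ∀ i, algebraMap F[X] (RatFunc F) (x i) ≠ 0 := fun i =>
    RatFunc.algebraMap_ne_zero (hx0 i)
  have hsq : ∀ (w : Pl F) (a b : RatFunc F), a ≠ 0 → b ≠ 0 → IsSquare (iw w b) →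
      hw χ w a b = 0 := by
    rintro w a b ha hb ⟨r, hr⟩
    have hr0 : r ≠ 0 := by
      rintro rfl
      apply iw_ne (w := w) hb
      rw [hr, zero_mul]
    unfold Pool.Agent.H74.FS.hw
    rw [hr, ← sq]
    exact Pool.Agent.H74.FS.hs_sq χ (iw_ne ha) hr0
  have hh : ∀ (i : Fin 2) (w : Pl F), hw χ w (algebraMap F[X] (RatFunc F) (x i)) N = 0 := by
    intro i w
    by_cases hwS : w ∈ S
    · exact hsq w _ _ (hxa i) hN (hNs w hwS)
    · by_cases h0 : w = w0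
      · subst h0
        rw [hw_comm]
        exact hsq w _ _ hN (hxa i) (s0 i)
      · by_cases h1 : w = w1
        · subst h1
          rw [hw_comm]
          exact hsq w _ _ hN (hxa i) (s1 i)
        · exact hw_even χ (cmp_ev_one (hx w hwS i)) (cmp_ev_one (hNu w hwS h0 h1))
  have hNu' : ∀ w : Pl F, w ∉ {w : Pl F | w ∈ S ∨ w = w0 ∨ w = w1} → vw w (iw w N) = 1 := by
    intro w hw'
    rw [Set.mem_ofPred_eq, not_or, not_or] at hw'
    exact hNu w hw'.1 hw'.2.1 hw'.2.2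
  have h1 : ∀ i, ∃ p q m : RatFunc F, Kg {w | w ∈ S ∨ w = w0 ∨ w = w1} N
      (algebraMap F[X] (RatFunc F) (x i)) p q m := by
    intro i
    obtain ⟨p, q, m, hm, he⟩ := norm_hasse χ hq (hxa i) hN (hh i)
    obtain ⟨f, -, hf⟩ := kg_par hq (S := {w | w ∈ S ∨ w = w0 ∨ w = w1}) (Or.inl hS) hN hNu'
      (hxa i) (fun w hw' => by
        rw [Set.mem_ofPred_eq, not_or, not_or] at hw'
        exact hx w hw'.1 i) hm he
    exact ⟨_, _, _, hf⟩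
  choose p q m hk using h1
  obtain ⟨p', q', m', h2, -, -, h3, h4, h5⟩ := kg_gen hq hN hNu' hxa hk u
  exact ⟨p', q', m', h2, h3, h4, h5⟩

theorem cmp (hq : 2 ∣ Nat.card F - 1) (hc : c ≠ 0) (hA : ∀ i k, i ≠ k → A i ≠ A k)
    (hD : D' ≠ 0) (hm : ∀ v ∈ pf (D' * dl A), v.natDegree < m) (h : P ∈ CellD (dl A) D' m τ)
    (h₁ : P₁ ∈ CellD (dl A) D' m τ) (hne : P ≠ P₁)
    (hS : SU A D' (some ⟨P, cell_mem h⟩) (some ⟨P₁, cell_mem h₁⟩) S U U1) {x y : Fin 3 → F[X]}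
    (hxs : Squarefree (x 0) ∧ Squarefree (x 1) ∧ x 2 = x 0 * x 1)
    (hys : Squarefree (y 0) ∧ Squarefree (y 1) ∧ y 2 = y 0 * y 1)
    (hx : IsSln 2 1 c A (D' * P) fun k => algebraMap F[X] (RatFunc F) (x k))
    (hx₁ : IsSln 2 1 c A (D' * P₁) fun k => algebraMap F[X] (RatFunc F) (x k))
    (hy : IsSln 2 1 c A (D' * P) fun k => algebraMap F[X] (RatFunc F) (y k))
    (hy₁ : IsSln 2 1 c A (D' * P₁) fun k => algebraMap F[X] (RatFunc F) (y k))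
    (sx : ∀ k, IsSquare (pm (some ⟨P, cell_mem h⟩) (x k)))
    (sx₁ : ∀ k, IsSquare (pm (some ⟨P₁, cell_mem h₁⟩) (x k)))
    (sy : ∀ k, IsSquare (pm (some ⟨P, cell_mem h⟩) (y k)))
    (sy₁ : ∀ k, IsSquare (pm (some ⟨P₁, cell_mem h₁⟩) (y k)))
    {d g : F[X]} {X Z W : Fin 3 → F[X]} (hCD : CD ![x 0, x 1] ![y 0, y 1] d X Z W) (hg : g ≠ 0)
    (hg1 : ∀ w : Pl F, w ∉ S → vw w (pm w d) = 1 → ev w (pm w (g * (X 0 * X 1 * X 2))) = 0)
    (hg2 : ∀ w : Pl F, w ∉ S → vw w (pm w d) ≠ 1 → ∃ r : Fin 2 → Kw F w,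
        (∀ i, r i ^ 2 = pm w (![x 0, x 1] i)) ∧
        ev w (gle (pm w g) (fun l => pm w (X l)) (fun l => pm w (Z l)) (r 0) (r 1)) = 0)
    {a : GF F → Pt (eD c A (D' * P)) (Oc F)}
    (ha : GLf U c A (D' * P) (fun k => algebraMap F[X] (RatFunc F) (x k)) a)
    {a₁ : GF F → Pt (eD c A (D' * P₁)) (Oc F)}
    (ha₁ : GLf U1 c A (D' * P₁) (fun k => algebraMap F[X] (RatFunc F) (x k)) a₁)
    {ρ ρ₁ : Fin 2 → F[X]} (hρ : ∀ i, P ∣ ρ i ^ 2 - ![x 0, x 1] i)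
    (hρ₁ : ∀ i, P₁ ∣ ρ₁ i ^ 2 - ![x 0, x 1] i) (h0 : ¬ P ∣ gle g X Z (ρ 0) (ρ 1))
    (h0₁ : ¬ P₁ ∣ gle g X Z (ρ₁ 0) (ρ₁ 1)) :
    H94.PC.sg (fr χ U a fun k => algebraMap F[X] (RatFunc F) (y k)) *
      H94.PC.sg (fr χ U1 a₁ fun k => algebraMap F[X] (RatFunc F) (y k)) =
      js (gle g X Z (ρ 0) (ρ 1)) P * js (gle g X Z (ρ₁ 0) (ρ₁ 1)) P₁ := by
  have hT : TP S U U1 c c A (D' * P) (D' * P₁) := cmp_tp hq hc hA hD hm h h₁ hne hS
  have hN : tn c c (D' * P) (D' * P₁) ≠ 0 := tn_ne hT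
  have hP0 : P ≠ 0 := (cell_mem h).2.ne_zero
  have hP10 : P₁ ≠ 0 := (cell_mem h₁).2.ne_zero
  have hw01 : (some ⟨P, cell_mem h⟩ : Pl F) ≠ some ⟨P₁, cell_mem h₁⟩ := by
    intro h2
    apply hne
    simpa using h2
  obtain ⟨hN0, hN1⟩ := cmp_odd (c := c) hc hD h h₁ hne
  -- units outside `S`
  have hxu : ∀ w : Pl F, w ∉ S → ∀ k, vw w (pm w (x k)) = 1 := fun w hw' k =>
    cmp_unit hq hc hA hD hS hT.bad hP0 hxs hx sx hw' k
  have hyu : ∀ w : Pl F, w ∉ S → ∀ k, vw w (pm w (y k)) = 1 := fun w hw' k =>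
    cmp_unit hq hc hA hD hS hT.bad hP0 hys hy sy hw' k
  have hxu2 : ∀ w : Pl F, w ∉ S → ∀ i, vw w (pm w (![x 0, x 1] i)) = 1 := by
    intro w hw' i
    fin_cases i
    · exact hxu w hw' 0
    · exact hxu w hw' 1
  have hyu2 : ∀ w : Pl F, w ∉ S → ∀ i, vw w (pm w (![y 0, y 1] i)) = 1 := by
    intro w hw' i
    fin_cases i
    · exact hyu w hw' 0
    · exact hyu w hw' 1
  have hNu : ∀ w : Pl F, w ∉ S → w ≠ some ⟨P, cell_mem h⟩ → w ≠ some ⟨P₁, cell_mem h₁⟩ →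
      vw w (iw w (tn c c (D' * P) (D' * P₁))) = 1 := by
    intro w hw' h2 h3
    refine tp_unit hT ?_ ?_
    · rw [hS.u]
      exact not_or.2 ⟨hw', h2⟩
    · rw [hS.u1]
      exact not_or.2 ⟨hw', h3⟩
  have hUU : {w : Pl F | w ∈ U ∨ w ∈ U1} =
      {w : Pl F | w ∈ S ∨ w = some ⟨P, cell_mem h⟩ ∨ w = some ⟨P₁, cell_mem h₁⟩} := by
    ext w
    rw [Set.mem_ofPred_eq, Set.mem_ofPred_eq, hS.u, hS.u1]
    tauto
  have hw0S : (some ⟨P, cell_mem h⟩ : Pl F) ∉ S := by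
    intro h2
    have h3 := (hT.mem _).1 h2
    rw [hS.u, hS.u1] at h3
    have h4 := (hS.fin P (cell_mem h)).1 h2
    exact cell_ndvd hm (mul_ne_zero hD (cmp_dl hA)) h h4
  have hw1S : (some ⟨P₁, cell_mem h₁⟩ : Pl F) ∉ S := by
    intro h2
    have h4 := (hS.fin P₁ (cell_mem h₁)).1 h2
    exact cell_ndvd hm (mul_ne_zero hD (cmp_dl hA)) h₁ h4
  have sx2 : ∀ i, IsSquare (pm (some ⟨P, cell_mem h⟩) (![x 0, x 1] i)) := by
    intro i
    fin_cases i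
    · exact sx 0
    · exact sx 1
  have sx2₁ : ∀ i, IsSquare (pm (some ⟨P₁, cell_mem h₁⟩) (![x 0, x 1] i)) := by
    intro i
    fin_cases i
    · exact sx₁ 0
    · exact sx₁ 1
  have sy2 : ∀ i, IsSquare (pm (some ⟨P, cell_mem h⟩) (![y 0, y 1] i)) := by
    intro i
    fin_cases i
    · exact sy 0
    · exact sy 1
  have sy2₁ : ∀ i, IsSquare (pm (some ⟨P₁, cell_mem h₁⟩) (![y 0, y 1] i)) := by
    intro i
    fin_cases i
    · exact sy₁ 0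
    · exact sy₁ 1
  obtain ⟨p, q, m', hk, n0, n1, n2⟩ := cmp_kg χ hq hN hS.inf hT.sq hNu hCD.x0 hxu2 sx2 sx2₁
    (fun l => algebraMap F[X] (RatFunc F) (Z l) / algebraMap F[X] (RatFunc F) (X l))
  obtain ⟨a', n, ha', hn, hfr⟩ := trf χ hq hA hT hx hx₁ hy hy₁
    (fun w hw' hw'' k => hxu w (fun h2 => hw' (((hT.mem w).1 h2).1)) k)
    (fun w hw' hw'' k => by
      rcases (hS.u1 w).1 hw' with h2 | h2
      · exact absurd ((hT.mem w).1 h2).1 hw''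
      · subst h2
        exact sx₁ k)
    (fun w hw' k => by
      rcases hw' with ⟨h2, h3⟩ | ⟨h2, h3⟩
      · rcases (hS.u w).1 h2 with h4 | h4
        · exact absurd ((hT.mem w).1 h4).2 h3
        · subst h4
          exact sy k
      · rcases (hS.u1 w).1 h2 with h4 | h4
        · exact absurd ((hT.mem w).1 h4).1 h3
        · subst h4
          exact sy₁ k)
    (p := p) (q := q) (m := m')
    (by
      rw [hUU]
      intro i
      have h2 := hk i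
      fin_cases i
      · exact h2
      · exact h2) ha₁
  obtain ⟨r0, hr0, hv0, hj0⟩ := jsu χ hq (cell_mem h) (x := ![x 0, x 1]) (g := g) (X := X)
    (Z := Z) (fun i => cmp_nd (cell_mem h) (hxu2 _ hw0S i)) hρ h0
  obtain ⟨r1, hr1, hv1, hj1⟩ := jsu χ hq (cell_mem h₁) (x := ![x 0, x 1]) (g := g) (X := X)
    (Z := Z) (fun i => cmp_nd (cell_mem h₁) (hxu2 _ hw1S i)) hρ₁ h0₁
  have hgov := gov χ hq hS.inf hw0S hw1S hw01 hN hNu hN0 hN1 hCD hxu2 hyu2 sy2 sy2₁ hg hg1 hg2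
    hk n0 n1 n2 n hn hr0 hv0 hr1 hv1
  rw [fr_ind χ hq hc hA (mul_ne_zero hD hP0) hT.bad ha ha' hx hy, ← hj0, ← hj1]
  refine cmp_sg _ _ _ _ ?_
  rw [hfr]
  congr 1

end Pool.Agent.H40.FS
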