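import Pool.Agent.H40.FS.COC

set_option autoImplicit false

/-!
# [H40 FS COP] Cocycles: twists

* `coc_psi`: `a' σ = psi c (a σ) + tau (b σ)`.  `c² = N`, `σ c = ± c`, `sg σ N = 0` iff `σ c = c` (`sg_iff`).  `σ (psi c (a τ)) = psi (σ c) (σ (a τ))` (`act_psi`) `= ± psi c (σ a τ)` (`psi_neg`).  Cocycle: `a' (σ τ) = psi (a σ) + psi (σ a τ) + tau (b σ) + tau (b τ) + sg σ N • tau (sgx τ x)`; if `σ c = c` this is `a' σ + σ a' τ`.  If `σ c = - c`: `σ a' τ = - psi (σ a τ) + tau (b τ)`, the difference is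
  `2 psi (σ a τ) + tau (sgx τ x) = psi (σ (2 a τ)) + tau (sgx τ x) = 2 tau (sgx τ x) = 0` (`two_eq`, `act_tau`, `psi_tau`, `two_tau`).  `4 a' = psi (4 a) + 0 = 0`, `2 a' σ = psi (2 a σ) = tau (sgx σ x)`.
-/

namespace Pool.Agent.H40.FS

open WeierstrassCurve Pool.Agent.H94.MW Pool.Agent.H94.PL

variable {K : Type} [Field K] {e e' : Fin 3 → K} {Ω : Type} [Field Ω] [Algebra K Ω]
  [DecidableEq Ω] [IsSepClosed Ω]

theorem coc_psi (h2 : (2 : K) ≠ 0) (he : Function.Injective e) {x : Fin 3 → K}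
    (hx : ∀ k, x k ≠ 0) (hp : ∃ y, ∏ k, x k = y ^ 2) {a : (Ω ≃ₐ[K] Ω) → Pt e Ω} (ha : IsCoc a)
    (hax : IsCls x fun σ => 2 • a σ) {N : K} (hN : N ≠ 0) {c : Ω} (hc : c ^ 2 = algebraMap K Ω N)
    (hee : ∀ k, e' k = N * e k) {b : (Ω ≃ₐ[K] Ω) → XX 3 2} (hb : IsCont K b)
    (hbc : ∀ σ τ, b (σ * τ) = b σ + b τ + sg σ N • sgx τ x) :
    IsCoc (fun σ => psi e e' c (a σ) + tau e' Ω (b σ)) ∧
      IsCls x fun σ => 2 • (psi e e' c (a σ) + tau e' Ω (b σ)) := by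
  have he' : Function.Injective e' := by
    intro i j hij
    rw [hee, hee] at hij
    exact he (mul_left_cancel₀ hN hij)
  have hc0 : c ≠ 0 := by
    rintro rfl
    rw [zero_pow two_ne_zero] at hc
    exact hN ((map_eq_zero (algebraMap K Ω)).1 hc.symm)
  have hrel : ∀ k, algebraMap K Ω (e' k) = c ^ 2 * algebraMap K Ω (e k) := by
    intro k
    rw [hee, map_mul, hc]
  have hpsi : ∀ P Q, psi e e' c (P + Q) = psi e e' c P + psi e e' c Q := psi_add h2 he hc0 hrel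
  have hpsi2 : ∀ P, psi e e' c (2 • P) = 2 • psi e e' c P := by
    intro P
    rw [two_nsmul, two_nsmul, hpsi]
  have htt : ∀ w : XX 3 2, 2 • tau e' Ω w = 0 := two_tau h2 he'
  have h2a : ∀ σ, 2 • (psi e e' c (a σ) + tau e' Ω (b σ)) = tau e' Ω (sgx σ x) := by
    intro σ
    rw [smul_add, htt, add_zero, ← hpsi2, two_eq h2 he hx hp ha hax σ, psi_tau h2 he hc0 hrel]
  refine ⟨⟨?_, ?_, ?_⟩, ?_⟩
  · intro σ
    have h4 : (4 : ℕ) • (psi e e' c (a σ) + tau e' Ω (b σ)) = 2 • (2 • (psi e e' c (a σ) + tau e' Ω (b σ))) := by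
      rw [← mul_smul]
      norm_num
    rw [h4, h2a, htt]
  · intro σ τ
    have h5 : act e' (σ : Ω →ₐ[K] Ω) (psi e e' c (a τ)) = psi e e' (σ c) (act e (σ : Ω →ₐ[K] Ω) (a τ)) :=
      act_psi h2 he hc0 hrel (σ : Ω →ₐ[K] Ω) (a τ)
    have h6 : act e' (σ : Ω →ₐ[K] Ω) (tau e' Ω (b τ)) = tau e' Ω (b τ) := act_tau h2 he' _ _
    have h7 : psi e e' (σ c) (act e (σ : Ω →ₐ[K] Ω) (a τ)) = psi e e' c (act e (σ : Ω →ₐ[K] Ω) (a τ)) + tau e' Ω (sg σ N • sgx τ x) := by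
      have h8 : (σ c) ^ 2 = c ^ 2 := by
        rw [← map_pow, hc, AlgEquiv.commutes]
      rcases sq_eq_sq_iff_eq_or_eq_neg.1 h8 with h9 | h9
      · rw [h9, (sg_iff h2 hN σ hc).1 h9, zero_smul, tau_zero, add_zero]
      · rw [h9, (sg_neg h2 hN σ hc).1 h9, one_smul, psi_neg h2 he hc0 hrel, neg_eq_iff_add_eq_zero, ← add_assoc]
        have h10 : psi e e' c (act e (σ : Ω →ₐ[K] Ω) (a τ)) + psi e e' c (act e (σ : Ω →ₐ[K] Ω) (a τ)) = tau e' Ω (sgx τ x) := by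
          rw [← two_nsmul, ← hpsi2, ← map_nsmul, two_eq h2 he hx hp ha hax τ, act_tau h2 he, psi_tau h2 he hc0 hrel]
        have h11 := htt (sgx τ x)
        rw [two_nsmul] at h11
        rw [h10, h11]
    rw [ha.coc, hbc, hpsi, tau_add h2 he', tau_add h2 he', map_add, h5, h6, h7]
    abel
  · obtain ⟨M1, hf1, hM1⟩ := ha.cont
    obtain ⟨M2, hf2, hM2⟩ := hb
    refine ⟨M1 ⊔ M2, IntermediateField.finiteDimensional_sup M1 M2, fun σ τ h => ?_⟩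
    rw [hM1 σ τ fun y hy => h y (le_sup_left (a := M1) hy), hM2 σ τ fun y hy => h y (le_sup_right (a := M1) hy)]
  · rw [isCls_iff h2 he' hx hp]
    · exact h2a
    · intro σ
      show 2 • (2 • (psi e e' c (a σ) + tau e' Ω (b σ))) = 0
      rw [h2a, htt]

end Pool.Agent.H40.FS
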