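import Pool.Agent.H94.MW.Tor
import Pool.Agent.H94.PM.GAM

set_option autoImplicit false

/-!
# [H40 FS DEF] Cocycles with values in the points of order four

`e : Fin 3 → K`, the curve `y² = ∏ (x - e k)`, `Pt e L` its points over the extension `L` of `K`; `Ω` is a separable
closure of `K`, `G = Ω ≃ₐ[K] Ω`.
-/

namespace Pool.Agent.H40.FS

open WeierstrassCurve Pool.Agent.H94.MW Pool.Agent.H94.PL

section
variable {K : Type} [Field K] (e : Fin 3 → K) (L : Type) [Field L] [Algebra K L]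

/-- the points over `L` of `y² = ∏ (x - e k)` -/
abbrev Pt : Type := ((crv e)⁄L).toAffine.Point

variable {L}

/-- `P = 0` or `P = (e k, 0)` -/
def IsT (k : Fin 3) (P : Pt e L) : Prop :=
  P = 0 ∨ ∃ y h, P = Affine.Point.some (algebraMap K L (e k)) y h

variable {L' : Type} [Field L'] [Algebra K L'] [DecidableEq L] [DecidableEq L']

/-- the action of an embedding on the points -/
noncomputable abbrev act (f : L →ₐ[K] L') : Pt e L →+ Pt e L' :=
  Affine.Point.map (W' := (crv e).toAffine) f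

end

section
variable {K : Type} [Field K] {e : Fin 3 → K} {Ω : Type} [Field Ω] [Algebra K Ω] [DecidableEq Ω]

/-- a locally constant cocycle with values in the points of order four -/
structure IsCoc (a : (Ω ≃ₐ[K] Ω) → Pt e Ω) : Prop where
  four : ∀ σ, 4 • a σ = 0
  coc : ∀ σ τ, a (σ * τ) = a σ + act e (σ : Ω →ₐ[K] Ω) (a τ)
  cont : ∃ M : IntermediateField K Ω, FiniteDimensional K M ∧
    ∀ σ τ : Ω ≃ₐ[K] Ω, (∀ x ∈ M, τ x = x) → a (σ * τ) = a σ

/-- `a`, with values in the points of order two, is the cocycle of `δ ∈ (K^*)^3` -/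
def IsCls (δ : Fin 3 → K) (a : (Ω ≃ₐ[K] Ω) → Pt e Ω) : Prop :=
  ∀ (σ : Ω ≃ₐ[K] Ω) (k : Fin 3) (r : Ω), r ^ 2 = algebraMap K Ω (δ k) → (σ r = r ↔ IsT e k (a σ))

variable {M : Type} [Field M] [Algebra K M] {Ω' : Type} [Field Ω'] [Algebra M Ω'] [Algebra K Ω']
  [IsScalarTower K M Ω'] [DecidableEq Ω']

variable (M Ω') in
/-- the cocycle `a` becomes a coboundary in the points over the closure `Ω'` of `M` -/
def IsTriv (a : (Ω ≃ₐ[K] Ω) → Pt e Ω) : Prop :=
  ∃ (ι : Ω →ₐ[K] Ω') (Z : Pt e Ω'), ∀ (τ : Ω' ≃ₐ[M] Ω') (σ : Ω ≃ₐ[K] Ω), (∀ x, ι (σ x) = τ (ι x)) →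
    act e ι (a σ) = act e ((τ : Ω' →ₐ[M] Ω').restrictScalars K) Z - Z

end

end Pool.Agent.H40.FS
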