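import Pool.Agent.H40.FS.DEF

set_option autoImplicit false

/-!
# [H40 FS DTA] Characters of square roots, the points of order two, twists: definitions
-/

namespace Pool.Agent.H40.FS

open WeierstrassCurve Pool.Agent.H94.MW Pool.Agent.H94.PL

section
variable {K : Type} [Field K] {Ω : Type} [Field Ω] [Algebra K Ω]

/-- `0` if `σ` fixes a square root of `g`, `1` otherwise -/
noncomputable def sg (σ : Ω ≃ₐ[K] Ω) (g : K) : ZMod 2 := by
  classical exact if ∃ r : Ω, r ^ 2 = algebraMap K Ω g ∧ σ r = r then 0 else 1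

/-- the characters of a triple whose product is a square -/
noncomputable def sgx (σ : Ω ≃ₐ[K] Ω) (δ : Fin 3 → K) : XX 3 2 := toX fun k => sg σ (δ k)

variable (K) in
/-- a function on the Galois group which depends only on the restriction to a finite extension -/
def IsCont {S : Type} (f : (Ω ≃ₐ[K] Ω) → S) : Prop :=
  ∃ M : IntermediateField K Ω, FiniteDimensional K M ∧
    ∀ σ τ : Ω ≃ₐ[K] Ω, (∀ x ∈ M, τ x = x) → f (σ * τ) = f σ

end

section
variable {K : Type} [Field K] (e : Fin 3 → K) (L : Type) [Field L] [Algebra K L]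

/-- the point of order two with label `w`: the point `(e k, 0)` has the label with component `0` at `k`
and `1` at the two other places -/
noncomputable def tau (w : XX 3 2) : Pt e L :=
  open Classical in
  if h : ∃ k, w.1 k = 0 ∧ w ≠ 0 ∧ ((crv e)⁄L).toAffine.Nonsingular (algebraMap K L (e k)) 0 then
    .some _ _ h.choose_spec.2.2
  else .zero

variable {L}

/-- the map `(x, y) ↦ (c² x, c³ y)` from `Pt e L` to `Pt e' L`, if `e' k = c² e k` -/
noncomputable def psi (e' : Fin 3 → K) (c : L) (P : Pt e L) : Pt e' L :=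
  open Classical in
  match P with
  | .zero => .zero
  | .some x y _ => if h : ((crv e')⁄L).toAffine.Nonsingular (c ^ 2 * x) (c ^ 3 * y) then
      .some _ _ h else .zero

end

section
variable {K : Type} [Field K] (e : Fin 3 → K) {Ω : Type} [Field Ω] [Algebra K Ω] [DecidableEq Ω]
  {M : Type} [Field M] [Algebra K M] {Ω' : Type} [Field Ω'] [Algebra M Ω'] [Algebra K Ω']
  [IsScalarTower K M Ω'] [DecidableEq Ω']

/-- the action of an automorphism over `M` on the points over `Ω'` -/
noncomputable abbrev actM (τ : Ω' ≃ₐ[M] Ω') : Pt e Ω' →+ Pt e Ω' :=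
  act e ((τ : Ω' →ₐ[M] Ω').restrictScalars K)

/-- `δ ∈ (M^*)^3` is the class of a point over `M`: `τ Z - Z` is the cocycle of `δ` -/
def IsKum (Ω' : Type) [Field Ω'] [Algebra M Ω'] [Algebra K Ω'] [IsScalarTower K M Ω'] [DecidableEq Ω']
    (δ : Fin 3 → M) : Prop :=
  ∃ Z : Pt e Ω', ∀ τ : Ω' ≃ₐ[M] Ω', actM e τ Z = Z + tau e Ω' (sgx τ δ)

/-- over `M` the cocycle `a` is the class of a point plus the cocycle of `g ∈ (M^*)^3` -/
def IsLoc (ι : Ω →ₐ[K] Ω') (a : (Ω ≃ₐ[K] Ω) → Pt e Ω) (g : Fin 3 → M) : Prop :=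
  ∃ Z : Pt e Ω', ∀ (τ : Ω' ≃ₐ[M] Ω') (σ : Ω ≃ₐ[K] Ω), (∀ x, ι (σ x) = τ (ι x)) →
    act e ι (a σ) = actM e τ Z - Z + tau e Ω' (sgx τ g)

end

end Pool.Agent.H40.FS
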