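import Pool.Agent.H40.FS.LCA

set_option autoImplicit false

/-!
# [H40 FS FRA] The form: independence of the choices, additivity

* `fr_val`: for `w ∈ S`: `lcl w a` is a local class (`lc_lcl`), `Vw (g w * lcl w a)` (`lc_dif`), `Vw_iso` with `y`: `∑ k, hs (g w k * lcl w a k) (y k) = 0`, `hs_mul`; in `ZMod 2` the two sums are equal.
* `fr_mul`, `fr_sqr`: `hs_mul'`, `hs_sq` (`lcl w a k ≠ 0`: it is a local class or `1`), sums.
* `glf_tau`: `coc_tau`; for `w ∉ S`: `LC w a 1` (`lc_one`), so `LC w a' (1 * h)` (`lc_tau`), `Vw` of it by `Vw_good` (`w ∉ S` is `some P` with `P ∤ D * dl A` by `Bad`; `Es.even`), `lc_triv`.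
* `fr_tau`: `fr_val` twice with `g w` and `g w * h` (`lc_ex` for the existence of the `g w`, `sln_iff`), `es_sln` (for `y`).
* `fr_ind`: `coc_dif` (module `COC`): `a' = a + tau (sgx h)`; at `w ∉ S`: `LC w a 1`, `LC w a' 1`, `LC w a' (1 * h)` (`lc_tau`), so `Vw w (1 * (1 * h))` (`lc_dif`), so `ev w (h k) = 0` (`Vw_good`): `Es S h`.  `fr_tau`.
* `fr_add`: `coc_add`; at `w ∉ S` `LC w a 1`, `LC w a' 1` give `LC w (a + a') (1 * 1)` (`lc_add`), `lc_one`.  `fr_val` for the three cocycles with `g w`, `g' w`, `g w * g' w`, `hs_mul`.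
-/

namespace Pool.Agent.H40.FS

open Polynomial WithZero Pool.Agent.H74.FS
open Pool.Agent.H94.PL (LChar XX DK AK dl)
open Pool.Agent.H94.PM (LU vl IsVln IsSln)

variable {F : Type} [Field F] [DecidableEq (RatFunc F)] [DecidableEq (Oc F)]
  [∀ w : Pl F, DecidableEq (Ow F w)] [Finite F] (χ : LChar F 2) {c : F} {A : Fin 3 → F[X]}
  {D : F[X]} {S : Finset (Pl F)} {a a' : GF F → Pt (eD c A D) (Oc F)} {x x' y y' : Fin 3 → RatFunc F}

private theorem fra_z2 : ∀ s t : ZMod 2, s + t = 0 → t = s := by decide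

private theorem fra_c : Nat.Coprime 3 2 := by norm_num

omit [Finite F] in
private theorem fra_ne (w : Pl F) (a : GF F → Pt (eD c A D) (Oc F)) (k : Fin 3) : lcl w a k ≠ 0 := by
  by_cases h : ∃ g, LC w a g
  · obtain ⟨g, hg⟩ := h
    exact (lc_lcl hg).1 k
  · unfold lcl
    rw [dif_neg h]
    exact one_ne_zero

theorem fr_val (hq : 2 ∣ Nat.card F - 1) (hc : c ≠ 0) (hA : ∀ i k, i ≠ k → A i ≠ A k)
    (hD : D ≠ 0) (ha : IsCoc a) {g : ∀ w : Pl F, Fin 3 → Kw F w} (hg : ∀ w ∈ S, LC w a (g w))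
    (hy : ∀ w ∈ S, Vw c A D w fun k => iw w (y k)) :
    fr χ S a y = ∑ w ∈ S, ∑ k, (Uw χ w).hs (g w k) (iw w (y k)) := by
  unfold fr
  refine Finset.sum_congr rfl fun w hw => ?_
  have h1 := lc_dif hq hc hA hD ha (hg w hw) (lc_lcl (hg w hw))
  have h2 := Vw_iso χ fra_c hc hD h1 (hy w hw)
  have h3 : ∀ k, (Uw χ w).hs ((g w * lcl w a) k) (iw w (y k)) =
      (Uw χ w).hs (g w k) (iw w (y k)) + (Uw χ w).hs (lcl w a k) (iw w (y k)) := fun k =>
    hs_mul χ ((hg w hw).1 k) (fra_ne w a k) (Vw_ne hc hD (hy w hw) k)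
  rw [Finset.sum_congr rfl fun k _ => h3 k, Finset.sum_add_distrib] at h2
  exact fra_z2 _ _ h2

theorem fr_mul (hy : ∀ k, y k ≠ 0) (hy' : ∀ k, y' k ≠ 0) :
    fr χ S a (fun k => y k * y' k) = fr χ S a y + fr χ S a y' := by
  unfold fr
  rw [← Finset.sum_add_distrib]
  refine Finset.sum_congr rfl fun w _ => ?_
  rw [← Finset.sum_add_distrib]
  refine Finset.sum_congr rfl fun k _ => ?_
  rw [map_mul, hs_mul' χ (fra_ne w a k) (iw_ne (hy k)) (iw_ne (hy' k))]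

theorem fr_sqr {z : Fin 3 → RatFunc F} (hy : ∀ k, y k ≠ 0) (hz : ∀ k, z k ≠ 0) :
    fr χ S a (fun k => y k * z k ^ 2) = fr χ S a y := by
  unfold fr
  refine Finset.sum_congr rfl fun w _ => ?_
  refine Finset.sum_congr rfl fun k _ => ?_
  rw [map_mul, map_pow, hs_mul' χ (fra_ne w a k) (iw_ne (hy k)) (pow_ne_zero 2 (iw_ne (hz k))),
    hs_sq χ (fra_ne w a k) (iw_ne (hz k)), add_zero]

private theorem fra_good (hq : 2 ∣ Nat.card F - 1) (hc : c ≠ 0) (hA : ∀ i k, i ≠ k → A i ≠ A k)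
    (hD : D ≠ 0) (hS : Bad A D S) {w : Pl F} (hw : w ∉ S) {δ : Fin 3 → Kw F w} (h0 : ∀ k, δ k ≠ 0)
    (hy : ∃ y : Kw F w, ∏ k, δ k = y ^ 2) : Vw c A D w δ ↔ ∀ k, ev w (δ k) = 0 := by
  rcases w with _ | ⟨P, hP⟩
  · exact absurd hS.inf hw
  · refine Vw_good hq fra_c hc hA hD hP ?_ ?_ h0 hy
    · intro h
      exact hw (hS.fin P hP (Dvd.dvd.mul_right h _))
    · intro h
      exact hw (hS.fin P hP (Dvd.dvd.mul_left h _))

theorem glf_tau (hq : 2 ∣ Nat.card F - 1) (hc : c ≠ 0) (hA : ∀ i k, i ≠ k → A i ≠ A k)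
    (hD : D ≠ 0) (hS : Bad A D S) {h : Fin 3 → RatFunc F} (hh : Es S h)
    (ha : GLf S c A D x a) (hx : IsSln 2 1 c A D x) :
    GLf S c A D x fun σ => a σ + tau (eD c A D) (Oc F) (sgx σ h) := by
  obtain ⟨hx1, hx2, -⟩ := sln_iff.1 hx
  obtain ⟨h1, h2⟩ := coc_tau (two_rf hq) (eD_inj hc hA hD) hx1 hx2 hh.ne hh.prod ha.coc ha.cls
  refine ⟨h1, h2, fun w hw => ?_⟩
  have h3 : LC w a (1 : Fin 3 → Kw F w) := (lc_one hq).1 (ha.triv w hw)
  have h4 := lc_tau hq hc hA hD hh.ne hh.prod h3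
  refine lc_triv hq hc hA hD h4 ((fra_good hq hc hA hD hS hw h4.1 h4.2.1).2 fun k => ?_)
  rw [Pi.one_apply, one_mul]
  exact hh.even w hw k

theorem fr_tau (hq : 2 ∣ Nat.card F - 1) (hc : c ≠ 0) (hA : ∀ i k, i ≠ k → A i ≠ A k)
    (hD : D ≠ 0) (hS : Bad A D S) {h : Fin 3 → RatFunc F} (hh : Es S h)
    (ha : GLf S c A D x a) (hx : IsSln 2 1 c A D x) (hy : IsSln 2 1 c A D y) :
    fr χ S (fun σ => a σ + tau (eD c A D) (Oc F) (sgx σ h)) y = fr χ S a y := by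
  obtain ⟨hx1, hx2, hx3⟩ := sln_iff.1 hx
  obtain ⟨hy1, -, hy3⟩ := sln_iff.1 hy
  have ha' := glf_tau hq hc hA hD hS hh ha hx
  choose g hg using fun w => lc_ex hq hc hA hD hx1 hx2 ha.coc ha.cls (hx3 w)
  rw [fr_val χ hq hc hA hD ha.coc (fun w _ => hg w) fun w _ => hy3 w,
    fr_val χ hq hc hA hD ha'.coc (g := fun w k => g w k * iw w (h k))
      (fun w _ => lc_tau hq hc hA hD hh.ne hh.prod (hg w)) fun w _ => hy3 w]
  have h1 : ∀ w k, (Uw χ w).hs (g w k * iw w (h k)) (iw w (y k)) =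
      (Uw χ w).hs (g w k) (iw w (y k)) + hw χ w (h k) (y k) := fun w k =>
    hs_mul χ ((hg w).1 k) (iw_ne (hh.ne k)) (iw_ne (hy1 k))
  have h2 : ∑ w ∈ S, ∑ k, (Uw χ w).hs (g w k * iw w (h k)) (iw w (y k)) =
      ∑ w ∈ S, ∑ k, (Uw χ w).hs (g w k) (iw w (y k)) + ∑ w ∈ S, ∑ k, hw χ w (h k) (y k) := by
    rw [← Finset.sum_add_distrib]
    refine Finset.sum_congr rfl fun w _ => ?_
    rw [← Finset.sum_add_distrib]
    exact Finset.sum_congr rfl fun k _ => h1 w k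
  rw [h2, es_sln χ hq fra_c hc hA hD hS hh hy, add_zero]

theorem fr_ind (hq : 2 ∣ Nat.card F - 1) (hc : c ≠ 0) (hA : ∀ i k, i ≠ k → A i ≠ A k)
    (hD : D ≠ 0) (hS : Bad A D S) (ha : GLf S c A D x a) (ha' : GLf S c A D x a')
    (hx : IsSln 2 1 c A D x) (hy : IsSln 2 1 c A D y) : fr χ S a y = fr χ S a' y := by
  obtain ⟨hx1, hx2, hx3⟩ := sln_iff.1 hx
  obtain ⟨h, h1, h2, h3⟩ := coc_dif (two_rf hq) (eD_inj hc hA hD) hx1 hx2 ha.coc ha.cls ha'.coc ha'.cls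
  have h4 : a' = fun σ => a σ + tau (eD c A D) (Oc F) (sgx σ h) := funext h3
  have hh : Es S h := by
    refine ⟨h1, h2, fun w hw k => ?_⟩
    have h5 : LC w a (1 : Fin 3 → Kw F w) := (lc_one hq).1 (ha.triv w hw)
    have h6 : LC w a' (1 : Fin 3 → Kw F w) := (lc_one hq).1 (ha'.triv w hw)
    have h7 := lc_tau hq hc hA hD h1 h2 h5
    rw [← h4] at h7
    have h8 := lc_dif hq hc hA hD ha'.coc h6 h7
    have h9 := (fra_good hq hc hA hD hS hw (Vw_ne hc hD h8) (Vw_prod fra_c h8)).1 h8 k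
    rwa [Pi.mul_apply, Pi.one_apply, one_mul, one_mul] at h9
  rw [h4]
  exact (fr_tau χ hq hc hA hD hS hh ha hx hy).symm

theorem fr_add (hq : 2 ∣ Nat.card F - 1) (hc : c ≠ 0) (hA : ∀ i k, i ≠ k → A i ≠ A k)
    (hD : D ≠ 0) (ha : GLf S c A D x a) (ha' : GLf S c A D x' a')
    (hx : IsSln 2 1 c A D x) (hx' : IsSln 2 1 c A D x') (hy : IsSln 2 1 c A D y) :
    GLf S c A D (fun k => x k * x' k) (fun σ => a σ + a' σ) ∧
      fr χ S (fun σ => a σ + a' σ) y = fr χ S a y + fr χ S a' y := by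
  obtain ⟨hx1, hx2, hx3⟩ := sln_iff.1 hx
  obtain ⟨hx1', hx2', hx3'⟩ := sln_iff.1 hx'
  obtain ⟨hy1, -, hy3⟩ := sln_iff.1 hy
  obtain ⟨h1, h2⟩ := coc_add (two_rf hq) (eD_inj hc hA hD) hx1 hx2 hx1' hx2' ha.coc ha.cls
    ha'.coc ha'.cls
  refine ⟨⟨h1, h2, fun w hw => ?_⟩, ?_⟩
  · have h5 : LC w a (1 : Fin 3 → Kw F w) := (lc_one hq).1 (ha.triv w hw)
    have h6 : LC w a' (1 : Fin 3 → Kw F w) := (lc_one hq).1 (ha'.triv w hw)
    have h7 := lc_add hq hc hA hD ha.coc ha'.coc h5 h6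
    rw [mul_one] at h7
    exact (lc_one hq).2 h7
  · choose g hg using fun w => lc_ex hq hc hA hD hx1 hx2 ha.coc ha.cls (hx3 w)
    choose g' hg' using fun w => lc_ex hq hc hA hD hx1' hx2' ha'.coc ha'.cls (hx3' w)
    rw [fr_val χ hq hc hA hD ha.coc (fun w _ => hg w) fun w _ => hy3 w,
      fr_val χ hq hc hA hD ha'.coc (fun w _ => hg' w) fun w _ => hy3 w,
      fr_val χ hq hc hA hD h1 (g := fun w => g w * g' w)
        (fun w _ => lc_add hq hc hA hD ha.coc ha'.coc (hg w) (hg' w)) fun w _ => hy3 w,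
      ← Finset.sum_add_distrib]
    refine Finset.sum_congr rfl fun w _ => ?_
    rw [← Finset.sum_add_distrib]
    refine Finset.sum_congr rfl fun k _ => ?_
    exact hs_mul χ ((hg w).1 k) ((hg' w).1 k) (iw_ne (hy1 k))

end Pool.Agent.H40.FS
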