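import Pool.Agent.H40.FS.ALT
import Pool.Agent.H74.FS.CLF

set_option autoImplicit false

/-!
# [H40 FS FRV] Products of lifts; the classes of the points of order two

* `glf_one`: the zero cocycle: `IsCoc`, `IsCls` for the tuple `1` (the square roots of `1` are `± 1`, fixed; `IsT e k 0`), `IsTriv` with `Z = 0` (any embedding, `IsSepClosed.lift`).  `fr_one`: `fr_val` with `g w = 1` (`lc_one`), symbols of `1` are `0`.
* `fr_comb`: induction over a finset `t ⊆ Fin r` for `∏ i ∈ t, x i k ^ (v i).val` (values of `v` are `0`, `1`): `glf_one`, `fr_add` (and `funext` for the equality of the tuples; `IsSln` of products: `sln_iff`, `Vw_mul`, or `H74/FS/CLA`).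
* `tr_lifts`: `tr c A D none = 1`: `glf_one`.  `some j`: `kum_tor` (over `M = RatFunc F`): `kt (eD c A D) j` is `IsKum`; `tr c A D (some j) k` is `kt (eD c A D) j k` for `k ≠ j`, and for `k = j` it is `kt .. j j / (DK c D) ^ 2`; `lifts_pt`, `lifts_sq` (with `z k = 1` for `k ≠ j`, `z j = (DK c D)⁻¹`).
* `fr_tr`: `fr_symm` with a lift `b` of `tr` which is locally trivial everywhere: `fr χ S a (tr) = fr χ S b x = 0` (`fr_val` with `g w = 1`); `sln_tr` (`H74/FS/CLA`).
-/

namespace Pool.Agent.H40.FS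

open Polynomial WithZero Pool.Agent.H74.FS
open Pool.Agent.H94.PL (LChar XX DK AK dl)
open Pool.Agent.H94.PM (LU vl IsVln IsSln)

variable {F : Type} [Field F] [DecidableEq (RatFunc F)] [DecidableEq (Oc F)]
  [∀ w : Pl F, DecidableEq (Ow F w)]

/-- the classes of `2`-Selmer tuples which are twice a `4`-Selmer element -/
def S4C (c : F) (A : Fin 3 → F[X]) (D : F[X]) : Set (Fin 3 → Qc F) :=
  {x | ∃ δ : Fin 3 → (RatFunc F)ˣ, (∀ k, x k = QuotientGroup.mk (δ k)) ∧
    IsSln 2 1 c A D (fun k => (δ k : RatFunc F)) ∧ Lifts c A D fun k => (δ k : RatFunc F)}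

variable [Finite F] (χ : LChar F 2) {S : Finset (Pl F)} {c : F} {A : Fin 3 → F[X]} {D : F[X]}

private theorem frv_hs {w : Pl F} {z : Kw F w} (hz : z ≠ 0) : (Uw χ w).hs 1 z = 0 := by
  have h1 := hs_mul χ (one_ne_zero (α := Kw F w)) one_ne_zero hz
  rw [mul_one] at h1
  exact left_eq_add.1 h1

private theorem frv_two : ∀ a : ZMod 2, a = 0 ∨ a = 1 := by decide

private theorem frv_erase {M : Type} [CommMonoid M] (f : Fin 3 → M) (j : Fin 3) :
    ∏ k ∈ Finset.univ.erase j, f k = f (j + 1) * f (j + 2) := by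
  have h : Finset.univ.erase j = {j + 1, j + 2} := by
    revert j
    decide
  have h2 : j + 1 ≠ j + 2 := by
    revert j
    decide
  rw [h, Finset.prod_pair h2]

omit [Finite F] in
theorem glf_one : GLf S c A D (fun _ => 1) (0 : GF F → Pt (eD c A D) (Oc F)) := by
  refine ⟨⟨fun σ => ?_, fun σ τ => ?_, ?_⟩, fun σ k r hr => ?_, fun w _ => ?_⟩
  · show 4 • (0 : Pt (eD c A D) (Oc F)) = 0
    exact smul_zero 4
  · show (0 : Pt (eD c A D) (Oc F)) = 0 + act (eD c A D) (σ : Oc F →ₐ[RatFunc F] Oc F) 0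
    rw [map_zero, add_zero]
  · exact ⟨⊥, inferInstance, fun σ τ _ => rfl⟩
  · constructor
    · intro _
      left
      show 2 • (0 : Pt (eD c A D) (Oc F)) = 0
      exact smul_zero 2
    · intro _
      rw [map_one] at hr
      have hr2 : r ^ 2 = 1 ^ 2 := by rw [hr, one_pow]
      rcases sq_eq_sq_iff_eq_or_eq_neg.1 hr2 with h | h
      · rw [h, map_one]
      · rw [h, map_neg, map_one]
  · refine ⟨IsSepClosed.lift, 0, fun τ σ _ => ?_⟩
    show act (eD c A D) (IsSepClosed.lift : Oc F →ₐ[RatFunc F] Ow F w) 0 = _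
    rw [map_zero, map_zero, sub_zero]

theorem fr_one (hq : 2 ∣ Nat.card F - 1) (hc : c ≠ 0) (hA : ∀ i k, i ≠ k → A i ≠ A k)
    (hD : D ≠ 0) {y : Fin 3 → RatFunc F} (hy : IsSln 2 1 c A D y)
    {a : GF F → Pt (eD c A D) (Oc F)} (ha : IsCoc a)
    (h : ∀ w : Pl F, IsTriv (Kw F w) (Ow F w) a) : fr χ S a y = 0 := by
  have hy' := sln_iff.1 hy
  rw [fr_val χ hq hc hA hD ha (g := fun w => 1) (fun w _ => (lc_one hq).1 (h w))
    (fun w _ => hy'.2.2 w)]
  refine Finset.sum_eq_zero fun w _ => Finset.sum_eq_zero fun k _ => ?_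
  exact frv_hs χ (iw_ne (hy'.1 k))

theorem fr_comb (hq : 2 ∣ Nat.card F - 1) (hc : c ≠ 0) (hA : ∀ i k, i ≠ k → A i ≠ A k)
    (hD : D ≠ 0) {r : ℕ} {x : Fin r → Fin 3 → RatFunc F} (hx : ∀ i, IsSln 2 1 c A D (x i))
    {a : Fin r → GF F → Pt (eD c A D) (Oc F)} (ha : ∀ i, GLf S c A D (x i) (a i))
    (v : Fin r → ZMod 2) :
    IsSln 2 1 c A D (fun k => ∏ i, x i k ^ (v i).val) ∧
    ∃ b : GF F → Pt (eD c A D) (Oc F), GLf S c A D (fun k => ∏ i, x i k ^ (v i).val) b ∧
      ∀ y : Fin 3 → RatFunc F, IsSln 2 1 c A D y →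
        fr χ S b y = ∑ i, v i * fr χ S (a i) y := by
  classical
  have key : ∀ t : Finset (Fin r), IsSln 2 1 c A D (fun k => ∏ i ∈ t, x i k ^ (v i).val) ∧
      ∃ b : GF F → Pt (eD c A D) (Oc F), GLf S c A D (fun k => ∏ i ∈ t, x i k ^ (v i).val) b ∧
        ∀ y : Fin 3 → RatFunc F, IsSln 2 1 c A D y →
          fr χ S b y = ∑ i ∈ t, v i * fr χ S (a i) y := by
    intro t
    induction t using Finset.induction_on with
    | empty =>
      have e1 : (fun k => ∏ i ∈ (∅ : Finset (Fin r)), x i k ^ (v i).val) =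
          fun _ : Fin 3 => (1 : RatFunc F) := by
        funext k
        exact Finset.prod_empty
      rw [e1]
      refine ⟨sln_one, 0, glf_one, fun y hy => ?_⟩
      rw [Finset.sum_empty]
      have h1 := glf_one (S := (∅ : Finset (Pl F))) (c := c) (A := A) (D := D)
      exact fr_one χ hq hc hA hD hy h1.coc fun w => h1.triv w (Finset.notMem_empty w)
    | insert i t hi ih =>
      obtain ⟨hs, b, hb, hbf⟩ := ih
      rcases frv_two (v i) with h0 | h0
      · have e1 : (fun k => ∏ i ∈ insert i t, x i k ^ (v i).val) =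
            fun k => ∏ i ∈ t, x i k ^ (v i).val := by
          funext k
          rw [Finset.prod_insert hi, h0, ZMod.val_zero, pow_zero, one_mul]
        rw [e1]
        refine ⟨hs, b, hb, fun y hy => ?_⟩
        rw [Finset.sum_insert hi, h0, zero_mul, zero_add, hbf y hy]
      · have hv : (v i).val = 1 := by
          rw [h0]
          rfl
        have e1 : (fun k => ∏ i ∈ insert i t, x i k ^ (v i).val) =
            fun k => x i k * ∏ i ∈ t, x i k ^ (v i).val := by
          funext k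
          rw [Finset.prod_insert hi, hv, pow_one]
        rw [e1]
        refine ⟨sln_mul (hx i) hs, fun σ => a i σ + b σ, ?_, fun y hy => ?_⟩
        · exact (fr_add χ hq hc hA hD (ha i) hb (hx i) hs (hx i)).1
        · rw [(fr_add χ hq hc hA hD (ha i) hb (hx i) hs hy).2, Finset.sum_insert hi, h0, one_mul,
            hbf y hy]
  exact key Finset.univ

theorem tr_lifts (hq : 2 ∣ Nat.card F - 1) (hc : c ≠ 0) (hA : ∀ i k, i ≠ k → A i ≠ A k)
    (hD : D ≠ 0) (t : Option (Fin 3)) : Lifts c A D (tr c A D t) := by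
  cases t with
  | none =>
    have h1 := glf_one (S := (∅ : Finset (Pl F))) (c := c) (A := A) (D := D)
    exact ⟨0, h1.coc, h1.cls, fun w => h1.triv w (Finset.notMem_empty w)⟩
  | some j =>
    have hDK : DK c D ≠ 0 := H94.PL.DK_ne hc hD
    obtain ⟨z, hz⟩ : ∃ z : Fin 3 → RatFunc F, z = fun k => if k = j then DK c D else 1 := ⟨_, rfl⟩
    have hz0 : ∀ k, z k ≠ 0 := by
      intro k
      rw [hz]
      show (if k = j then DK c D else 1) ≠ 0
      split_ifs
      · exact hDK
      · exact one_ne_zero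
    have hkt : ∀ k, kt (eD c A D) j k = tr c A D (some j) k * z k ^ 2 := by
      intro k
      rw [hz]
      unfold kt tr eD
      show (if k = j then _ else _) = (if k = j then _ else _) * (if k = j then DK c D else 1) ^ 2
      split_ifs with h
      · rw [frv_erase]
        ring
      · ring
    have hx : ∀ k, kt (eD c A D) j k ≠ 0 := by
      intro k
      rw [hkt]
      exact mul_ne_zero (tr_ne hc hA hD _ k) (pow_ne_zero 2 (hz0 k))
    have hp : ∃ y, ∏ k, kt (eD c A D) j k = y ^ 2 := by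
      obtain ⟨y, hy⟩ := tr_prod (c := c) (A := A) (D := D) (some j)
      refine ⟨y * ∏ k, z k, ?_⟩
      rw [Finset.prod_congr rfl fun k _ => hkt k, Finset.prod_mul_distrib, hy, Finset.prod_pow,
        mul_pow]
    have h1 : Lifts c A D fun k => kt (eD c A D) j k :=
      lifts_pt hq hc hA hD hx hp (kum_tor (two_rf hq) (eD_inj hc hA hD) j)
    have h2 := lifts_sq hq hx (z := fun k => (z k)⁻¹) (fun k => inv_ne_zero (hz0 k)) h1
    have e1 : (fun k => kt (eD c A D) j k * (z k)⁻¹ ^ 2) = tr c A D (some j) := by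
      funext k
      rw [hkt, mul_assoc, ← mul_pow, mul_inv_cancel₀ (hz0 k), one_pow, mul_one]
    rw [e1] at h2
    exact h2

theorem fr_tr (hq : 2 ∣ Nat.card F - 1) (hc : c ≠ 0) (hA : ∀ i k, i ≠ k → A i ≠ A k)
    (hD : D ≠ 0) (hS : Bad A D S) {x : Fin 3 → RatFunc F} (hx : IsSln 2 1 c A D x)
    {a : GF F → Pt (eD c A D) (Oc F)} (ha : GLf S c A D x a) (t : Option (Fin 3)) :
    fr χ S a (tr c A D t) = 0 := by
  obtain ⟨b, h1, h2, h3⟩ := tr_lifts hq hc hA hD t
  have hb : GLf S c A D (tr c A D t) b := ⟨h1, h2, fun w _ => h3 w⟩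
  rw [fr_symm χ hq hc hA hD hS hx (sln_tr hc hA hD t) ha hb]
  exact fr_one χ hq hc hA hD hx h1 h3

end Pool.Agent.H40.FS
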