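import Pool.Agent.H94.PM.HEN

set_option autoImplicit false

/-!
# [H40 FS IN1] The unramified quadratic extension, points have even valuations

* `exists_val`: every `z : M'` is `p + q c` with unique `p`, `q` (`c ∉ M` since `N` is not a square).  Define `v' (p + q c) = max (v p) (v q)`.  Claim: `v (p² - N q²) = (max (v p) (v q))²`.  Scale: let `v q ≤ v p`: `v (p² - N q²) ≤ v p²`; if `<` then `v q = v p` (else `v (N q²) < v (p²)` gives equality), and `x = p² / (N q²)` has `v (x - 1) < 1`, so `x` is a square (`hen`, `ℓ = 2`), so `N` is a square: contradiction.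
  If `v p < v q`: `v (p²) < v (N q²)`, equality.  So `v' z ^ 2 = v (nrm z)` with `nrm (p + q c) = p² - N q²`, which is multiplicative (`ring`), so `v'` is multiplicative (squares are injective in a linearly ordered group with zero: `pow_left_injective` type lemma, or `sq` comparison).  `v' (z + z') ≤ max`: clear.  `v' 0 = 0`, `v' 1 = 1`.
* `even_pt`: all in a field with a valuation in `ℤᵐ⁰`.  Let `v x > 1`: `v (x - e k) = v x` for all `k`, `2 vl y = 3 vl x`, `vl x` even.  Let `v x ≤ 1`: all `v (x - e k) ≤ 1` and at most one of them is `< 1` (`v (e i - e j) = 1`), the others have `vl = 0`; `2 vl y = ∑ vl (x - e k)`, so this one is even too.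
-/

namespace Pool.Agent.H40.FS

open WithZero Pool.Agent.H94.PM

private theorem in1_key {M : Type} [Field M] [Valued M ℤᵐ⁰] [CompleteSpace M]
    (h2 : (Valued.v : Valuation M ℤᵐ⁰) (2 : M) = 1) {N : M}
    (hN : (Valued.v : Valuation M ℤᵐ⁰) N = 1) (hns : ¬ IsSquare N) (p q : M) :
    (Valued.v : Valuation M ℤᵐ⁰) (p ^ 2 - N * q ^ 2) =
      (max ((Valued.v : Valuation M ℤᵐ⁰) p) (Valued.v q)) ^ 2 := by
  have hNq : (Valued.v : Valuation M ℤᵐ⁰) (N * q ^ 2) = (Valued.v q) ^ 2 := by
    rw [map_mul, hN, one_mul, map_pow]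
  rcases lt_trichotomy ((Valued.v : Valuation M ℤᵐ⁰) p) (Valued.v q) with h | h | h
  · have h1 : (Valued.v : Valuation M ℤᵐ⁰) (p ^ 2) < Valued.v (N * q ^ 2) := by
      rw [hNq, map_pow]
      exact pow_lt_pow_left₀ h zero_le' two_ne_zero
    rw [max_eq_right h.le, Valuation.map_sub_eq_of_lt_right _ h1, hNq]
  · by_cases hq : q = 0
    · subst hq
      rw [map_zero] at h
      have hp : p = 0 := (Valuation.zero_iff _).1 h
      subst hp
      simp
    · have hN0 : N ≠ 0 := by
        rintro rfl
        rw [map_zero] at hN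
        exact zero_ne_one hN
      have hp : p ≠ 0 := by
        rintro rfl
        rw [map_zero] at h
        exact hq ((Valuation.zero_iff _).1 h.symm)
      have hx : (Valued.v : Valuation M ℤᵐ⁰) (p ^ 2 / (N * q ^ 2) - 1) = 1 := by
        have hle : (Valued.v : Valuation M ℤᵐ⁰) (p ^ 2 / (N * q ^ 2) - 1) ≤ 1 := by
          refine (Valuation.map_sub _ _ _).trans (max_le ?_ (by rw [map_one]))
          rw [map_div₀, hNq, map_pow, h, div_self]
          exact pow_ne_zero _ ((Valuation.ne_zero_iff _).2 hq)
        rcases hle.lt_or_eq with hlt | heq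
        · exfalso
          obtain ⟨y, hy1, hy⟩ := hen (ℓ := 2) (by exact_mod_cast h2) hlt
          apply hns
          have hy0 : y ≠ 0 := ne_of_near hy1
          refine ⟨p / (q * y), ?_⟩
          have h3 : p ^ 2 = y ^ 2 * (N * q ^ 2) := by
            rw [hy]
            field_simp
          field_simp
          rw [h3]
          ring
        · exact heq
      have e : p ^ 2 - N * q ^ 2 = (p ^ 2 / (N * q ^ 2) - 1) * (N * q ^ 2) := by
        field_simp
      rw [e, map_mul, hx, one_mul, hNq, h, max_self]
  · have h1 : (Valued.v : Valuation M ℤᵐ⁰) (N * q ^ 2) < Valued.v (p ^ 2) := by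
      rw [hNq, map_pow]
      exact pow_lt_pow_left₀ h zero_le' two_ne_zero
    rw [max_eq_left h.le, Valuation.map_sub_eq_of_lt_left _ h1, map_pow]

theorem exists_val {M : Type} [Field M] [Valued M ℤᵐ⁰] [CompleteSpace M]
    (h2 : (Valued.v : Valuation M ℤᵐ⁰) (2 : M) = 1) {M' : Type} [Field M'] [Algebra M M'] {N : M}
    (hN : (Valued.v : Valuation M ℤᵐ⁰) N = 1) (hns : ¬ IsSquare N) {c : M'}
    (hc : c ^ 2 = algebraMap M M' N)
    (hM' : ∀ z : M', ∃ p q : M, z = algebraMap M M' p + algebraMap M M' q * c) :
    ∃ v' : Valuation M' ℤᵐ⁰, (∀ m : M, v' (algebraMap M M' m) = Valued.v m) ∧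
      ∀ p q : M, v' (algebraMap M M' p + algebraMap M M' q * c) =
        max ((Valued.v : Valuation M ℤᵐ⁰) p) (Valued.v q) := by
  classical
  have huniq : ∀ p q p' q' : M, algebraMap M M' p + algebraMap M M' q * c =
      algebraMap M M' p' + algebraMap M M' q' * c → p = p' ∧ q = q' := by
    intro p q p' q' h
    have hq : q = q' := by
      by_contra hne
      apply hns
      have hd : q - q' ≠ 0 := sub_ne_zero.2 hne
      have hd' : algebraMap M M' (q - q') ≠ 0 := by
        rw [Ne, map_eq_zero]
        exact hd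
      refine ⟨(p' - p) / (q - q'), ?_⟩
      have h1 : c = algebraMap M M' ((p' - p) / (q - q')) := by
        rw [map_div₀, eq_div_iff hd', map_sub, map_sub]
        linear_combination h
      apply (algebraMap M M').injective
      rw [← hc, map_mul, ← h1, pow_two]
    subst hq
    refine ⟨(algebraMap M M').injective ?_, rfl⟩
    exact add_right_cancel h
  choose P Q hPQ using hM'
  have hP : ∀ p q : M, P (algebraMap M M' p + algebraMap M M' q * c) = p ∧
      Q (algebraMap M M' p + algebraMap M M' q * c) = q := by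
    intro p q
    have h := huniq _ _ _ _ (hPQ (algebraMap M M' p + algebraMap M M' q * c))
    exact ⟨h.1.symm, h.2.symm⟩
  obtain ⟨f, hf⟩ : ∃ f : M' → ℤᵐ⁰, ∀ z, f z =
      max ((Valued.v : Valuation M ℤᵐ⁰) (P z)) (Valued.v (Q z)) := ⟨_, fun _ => rfl⟩
  have hfpq : ∀ p q : M, f (algebraMap M M' p + algebraMap M M' q * c) =
      max ((Valued.v : Valuation M ℤᵐ⁰) p) (Valued.v q) := by
    intro p q
    rw [hf, (hP p q).1, (hP p q).2]
  have hfm : ∀ m : M, f (algebraMap M M' m) = Valued.v m := by
    intro m
    have h1 := hfpq m 0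
    rw [map_zero, zero_mul, add_zero, map_zero, max_eq_left zero_le'] at h1
    exact h1
  have hmul : ∀ z z' : M', f (z * z') = f z * f z' := by
    intro z z'
    obtain ⟨p, hp⟩ : ∃ p, p = P z := ⟨_, rfl⟩
    obtain ⟨q, hq⟩ : ∃ q, q = Q z := ⟨_, rfl⟩
    obtain ⟨p', hp'⟩ : ∃ p', p' = P z' := ⟨_, rfl⟩
    obtain ⟨q', hq'⟩ : ∃ q', q' = Q z' := ⟨_, rfl⟩
    have e1 : z = algebraMap M M' p + algebraMap M M' q * c := by
      rw [hp, hq]
      exact hPQ z
    have e2 : z' = algebraMap M M' p' + algebraMap M M' q' * c := by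
      rw [hp', hq']
      exact hPQ z'
    have e3 : z * z' = algebraMap M M' (p * p' + N * (q * q')) +
        algebraMap M M' (p * q' + p' * q) * c := by
      rw [e1, e2]
      simp only [map_add, map_mul]
      rw [← hc]
      ring
    rw [e3, hfpq, e1, e2, hfpq, hfpq]
    rw [← pow_left_inj₀ (n := 2) zero_le' zero_le' two_ne_zero, mul_pow,
      ← in1_key h2 hN hns, ← in1_key h2 hN hns, ← in1_key h2 hN hns, ← map_mul]
    congr 1
    ring
  refine ⟨{ toFun := f
            map_zero' := by
              have h1 := hfm 0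
              rwa [map_zero, map_zero] at h1
            map_one' := by
              have h1 := hfm 1
              rwa [map_one, map_one] at h1
            map_mul' := hmul
            map_add_le_max' := ?_ }, hfm, hfpq⟩
  intro z z'
  show f (z + z') ≤ max (f z) (f z')
  have e3 : z + z' = algebraMap M M' (P z + P z') + algebraMap M M' (Q z + Q z') * c := by
    conv_lhs => rw [hPQ z, hPQ z']
    simp only [map_add]
    ring
  rw [e3, hfpq, hf z, hf z']
  refine max_le ?_ ?_
  · refine (Valuation.map_add _ _ _).trans (max_le ?_ ?_)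
    · exact (le_max_left _ _).trans (le_max_left _ _)
    · exact (le_max_left _ _).trans (le_max_right _ _)
  · refine (Valuation.map_add _ _ _).trans (max_le ?_ ?_)
    · exact (le_max_right _ _).trans (le_max_left _ _)
    · exact (le_max_right _ _).trans (le_max_right _ _)

theorem even_pt {L : Type} [Field L] (v : Valuation L ℤᵐ⁰) {e : Fin 3 → L}
    (he : ∀ k, v (e k) ≤ 1) (hd : ∀ i j, i ≠ j → v (e i - e j) = 1) {x y : L}
    (h : y ^ 2 = ∏ k, (x - e k)) (hy : y ≠ 0) (k : Fin 3) : Even (vl v (x - e k)) := by
  classical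
  have hne : ∀ k, x - e k ≠ 0 := by
    intro k hk
    apply hy
    have h1 : y ^ 2 = 0 := by
      rw [h]
      exact Finset.prod_eq_zero (Finset.mem_univ k) hk
    exact pow_eq_zero_iff two_ne_zero |>.1 h1
  have hsum : 2 * vl v y = ∑ k, vl v (x - e k) := by
    have h1 := vl_prod (v := v) Finset.univ (fun k => x - e k) (fun k _ => hne k)
    rw [← h, vl_pow] at h1
    exact_mod_cast h1
  rcases lt_or_ge 1 (v x) with hx | hx
  · have h1 : ∀ k, vl v (x - e k) = vl v x := by
      intro k
      unfold vl
      rw [Valuation.map_sub_eq_of_lt_left _ ((he k).trans_lt hx)]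
    rw [h1]
    simp only [h1] at hsum
    rw [Finset.sum_const, Finset.card_univ, Fintype.card_fin, nsmul_eq_mul] at hsum
    push_cast at hsum
    rw [Int.even_iff]
    omega
  · have hle : v (x - e k) ≤ 1 := (Valuation.map_sub _ _ _).trans (max_le hx (he k))
    rcases hle.lt_or_eq with hlt | heq
    · have h0 : ∀ j, j ≠ k → vl v (x - e j) = 0 := by
        intro j hj
        have hle' : v (x - e j) ≤ 1 := (Valuation.map_sub _ _ _).trans (max_le hx (he j))
        have h3 : v (x - e j) = 1 := by
          rcases hle'.lt_or_eq with hlt' | heq'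
          · exfalso
            have h4 : v (e j - e k) < 1 := by
              have h5 : e j - e k = (x - e k) - (x - e j) := by ring
              rw [h5]
              exact (Valuation.map_sub _ _ _).trans_lt (max_lt hlt hlt')
            rw [hd j k hj] at h4
            exact lt_irrefl _ h4
          · exact heq'
        unfold vl
        rw [h3, log_one, neg_zero]
      rw [Finset.sum_eq_single k (fun j _ hj => h0 j hj)
        (fun hk => absurd (Finset.mem_univ k) hk)] at hsum
      rw [← hsum]
      exact even_two_mul _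
    · unfold vl
      rw [heq, log_one, neg_zero]
      exact Even.zero

end Pool.Agent.H40.FS
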