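import Pool.Agent.H40.FS.LOP
import Pool.Agent.H40.FS.LOD
import Pool.Agent.H40.FS.KUA
import Pool.Agent.H40.FS.IN1
import Pool.Agent.H40.FS.CVL

set_option autoImplicit false

/-!
# [H40 FS IN3] The local class of a twisted cocycle at an inert place

`N` is a unit of the complete field `M`, not a square there, `c ^ 2 = N` in `Ω`, `e' = N e`, the cocycle `a` is locally trivial (`IsLoc e ι a 1`) and `a' σ = psi c (a σ) + tau (b σ)`, where `b` restricted to the `σ` with `σ c = c` belongs to `k_0 = p 0 + q 0 c`, `k_1 = p 1 + q 1 c`, elements of norm `x i m i ^ 2` with `x i` units, `vl (m i)` even.  If `IsLoc e' ι a' g` then all `vl (g k)` are even.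

Proof.  Let `M' = M(ι c) ⊆ Ω'` (`IntermediateField.adjoin M {ι c}`); every `z ∈ M'` is `p + q (ι c)` with `p`, `q ∈ M` (`(ι c) ^ 2 = N ∈ M`; e.g. these elements form a subfield, or `IntermediateField.adjoin.powerBasis`).  `Ω'` is a separable closure of `M'` too (`IsSepClosed Ω'`; `IsGalois M' Ω'` by the tower), with the `K`-algebra structures as before.
For `τ' ∈ Gal(Ω'/M')` let `τ = τ'.restrictScalars M` and `σ` its restriction (`exists_rst`); `τ (ι c) = ι c`, so `σ c = c`.  With `Z` from `IsLoc e ι a 1` (`sgx τ 1 = 0`): `ι (a' σ) = psi (ι c) (τ Z - Z) + tau (b σ) = τ Z'' - Z'' + tau (b σ)`, `Z'' = psi (ι c) Z` (`act_psi`, `psi_add`, `τ (ι c) = ι c`, `act_tau`), and `b σ = sgx τ' κ` with `κ = ![k_0, k_1, k_0 k_1] ∈ M' ^ 3` (as in `loc_psi`: for `r ∈ Ω` with `r ^ 2 = p i + q i c`, `(ι r) ^ 2 = κ i`, `τ' (ι r) = ι (σ r)`, `sg_iff`).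
From `IsLoc e' ι a' g` with the point `Z'`: `ι (a' σ) = τ Z' - Z' + tau (sgx τ g)`, and `sgx τ g = sgx τ' g` (`g` mapped to `M'`; `sg_iff` with the same root).  So `τ' (Z' - Z'') = (Z' - Z'') + tau (sgx τ' (κ g))` (`sgx_mul`, signs do not matter: `2 tau = 0`), i.e. `IsKum e' Ω' (κ g)` over `M'`.
By `kum_cases` over `M'` there are `γ k ≠ 0` in `M'` such that `κ k g k γ k ^ 2` is `1` for all `k`, or `x - e' k` for a point `(x, y)` with `y ≠ 0`, or `kt e' j k`.  Let `v'` be the valuation of `exists_val` on `M'` (`inert`: `hvN`, `hns`).  Then `vl v' (κ k g k γ k ^ 2)` is even: `0`; `even_pt` (with `e' k` in `M'`, valuations `≤ 1`, differences `1`; `y ^ 2 = ∏ (x - e' k)` from the curve equation: `H94.MW`); `kt e' j k` is a product of differences, valuation `1`.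
`v' (k_i) = max (v (p i)) (v (q i)) = v (m i)` (`inert_max`: `max ^ 2 = v (x i m i ^ 2) = v (m i) ^ 2`), so `vl v' (κ k)` is even (for `k = 2` the sum), so `vl v' (g k) = vl v (g k)` is even.
-/

namespace Pool.Agent.H40.FS

open WithZero WeierstrassCurve Pool.Agent.H94.MW Pool.Agent.H94.PL Pool.Agent.H94.PM

variable {K : Type} [Field K] {e e' : Fin 3 → K} {Ω : Type} [Field Ω] [Algebra K Ω]
  [DecidableEq Ω] [IsSepClosed Ω] [IsGalois K Ω]
  {M : Type} [Field M] [Valued M ℤᵐ⁰] [CompleteSpace M] [Algebra K M] {Ω' : Type} [Field Ω']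
  [Algebra M Ω'] [Algebra K Ω'] [IsScalarTower K M Ω'] [DecidableEq Ω'] [IsSepClosed Ω']
  [IsGalois M Ω']

omit [IsSepClosed Ω] [Valued M ℤᵐ⁰] [CompleteSpace M] [DecidableEq Ω] [IsGalois K Ω]
  [DecidableEq Ω'] [IsSepClosed Ω'] [IsGalois M Ω'] [IsScalarTower K M Ω'] [Algebra K Ω']
  [Algebra M Ω'] in
private theorem in3_two (h2 : (2 : K) ≠ 0) : (2 : M) ≠ 0 := by
  have h := (map_ne_zero (algebraMap K M)).2 h2
  rwa [map_ofNat] at h

private theorem in3_bc {L : Type} [Field L] [Algebra K L] :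
    ((crv e)⁄L) = crv (fun k => algebraMap K L (e k)) := by
  unfold crv
  ext
  · exact map_zero _
  · show algebraMap K L _ = _
    simp only [map_neg, map_add]
  · exact map_zero _
  · show algebraMap K L _ = _
    simp only [map_add, map_mul]
  · show algebraMap K L _ = _
    simp only [map_neg, map_mul]

private theorem in3_eqn {L : Type} [Field L] [Algebra K L] (h2 : (2 : L) ≠ 0)
    (he : Function.Injective e) {x y : L} (h : ((crv e)⁄L).toAffine.Nonsingular x y) :
    y ^ 2 = ∏ k, (x - algebraMap K L (e k)) := by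
  rw [in3_bc] at h
  exact (nonsing_iff h2 ((algebraMap K L).injective.comp he) x y).1 h

/-- the class over `M'` -/
private theorem in3_kum {M' : Type} [Field M'] [Algebra M M'] [Algebra M' Ω']
    [IsScalarTower M M' Ω'] [Algebra K M'] [IsScalarTower K M' Ω']
    (h2 : (2 : K) ≠ 0) (he : Function.Injective e) {a : (Ω ≃ₐ[K] Ω) → Pt e Ω}
    {N : K} (hN : N ≠ 0) {c : Ω} (hc : c ^ 2 = algebraMap K Ω N) (hee : ∀ k, e' k = N * e k)
    {b : (Ω ≃ₐ[K] Ω) → XX 3 2} {p q : Fin 2 → K}
    (hb : ∀ σ : Ω ≃ₐ[K] Ω, σ c = c →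
        (∀ r : Ω, r ^ 2 = algebraMap K Ω (p 0) + algebraMap K Ω (q 0) * c →
          (σ r = r ↔ (b σ).1 0 = 0)) ∧
        ∀ r : Ω, r ^ 2 = algebraMap K Ω (p 1) + algebraMap K Ω (q 1) * c →
          (σ r = r ↔ (b σ).1 1 = 0))
    {ι : Ω →ₐ[K] Ω'} {cM : M'} (hcM : ι c = algebraMap M' Ω' cM)
    (hk0 : algebraMap K M' (p 0) + algebraMap K M' (q 0) * cM ≠ 0)
    (hk1 : algebraMap K M' (p 1) + algebraMap K M' (q 1) * cM ≠ 0)
    (h : IsLoc e ι a (1 : Fin 3 → M)) {g : Fin 3 → M} (hg : ∀ k, g k ≠ 0)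
    (hp : ∃ y, ∏ k, g k = y ^ 2)
    (h' : IsLoc e' ι (fun σ => psi e e' c (a σ) + tau e' Ω (b σ)) g) :
    IsKum e' Ω' (![algebraMap K M' (p 0) + algebraMap K M' (q 0) * cM,
        algebraMap K M' (p 1) + algebraMap K M' (q 1) * cM,
        (algebraMap K M' (p 0) + algebraMap K M' (q 0) * cM) *
          (algebraMap K M' (p 1) + algebraMap K M' (q 1) * cM)] *
      fun k => algebraMap M M' (g k)) := by
  obtain ⟨κ, hκ⟩ : ∃ κ : Fin 3 → M', κ = ![algebraMap K M' (p 0) + algebraMap K M' (q 0) * cM,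
        algebraMap K M' (p 1) + algebraMap K M' (q 1) * cM,
        (algebraMap K M' (p 0) + algebraMap K M' (q 0) * cM) *
          (algebraMap K M' (p 1) + algebraMap K M' (q 1) * cM)] := ⟨_, rfl⟩
  rw [← hκ]
  have h2M : (2 : M) ≠ 0 := in3_two h2
  have h2M' : (2 : M') ≠ 0 := in3_two h2
  have he' : Function.Injective e' := by
    intro i j hij
    rw [hee, hee] at hij
    exact he (mul_left_cancel₀ hN hij)
  have hc0 : c ≠ 0 := by
    rintro rfl
    rw [zero_pow two_ne_zero] at hc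
    exact (map_ne_zero (algebraMap K Ω)).2 hN hc.symm
  have hιc0 : ι c ≠ 0 := (map_ne_zero ι).2 hc0
  have hcK : ∀ k, algebraMap K Ω (e' k) = c ^ 2 * algebraMap K Ω (e k) := by
    intro k
    rw [hee, map_mul, hc]
  have hcK' : ∀ k, algebraMap K Ω' (e' k) = (ι c) ^ 2 * algebraMap K Ω' (e k) := by
    intro k
    rw [hee, map_mul, ← map_pow, hc, ι.commutes]
  have hκ0 : ∀ k, κ k ≠ 0 := by
    intro k
    rw [hκ]
    fin_cases k
    · exact hk0
    · exact hk1
    · exact mul_ne_zero hk0 hk1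
  have hκp : ∃ y, ∏ k, κ k = y ^ 2 := by
    refine ⟨(algebraMap K M' (p 0) + algebraMap K M' (q 0) * cM) *
          (algebraMap K M' (p 1) + algebraMap K M' (q 1) * cM), ?_⟩
    rw [Fin.prod_univ_three, hκ]
    show (algebraMap K M' (p 0) + algebraMap K M' (q 0) * cM) *
      (algebraMap K M' (p 1) + algebraMap K M' (q 1) * cM) *
      ((algebraMap K M' (p 0) + algebraMap K M' (q 0) * cM) *
          (algebraMap K M' (p 1) + algebraMap K M' (q 1) * cM)) = _
    ring
  have hgM : ∀ k, algebraMap M M' (g k) ≠ 0 := fun k => (map_ne_zero _).2 (hg k)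
  have hgMp : ∃ y, ∏ k, algebraMap M M' (g k) = y ^ 2 := by
    obtain ⟨y, hy⟩ := hp
    exact ⟨algebraMap M M' y, by rw [← map_prod, hy, map_pow]⟩
  have z2 : ∀ u v : ZMod 2, (u = 0 ↔ v = 0) → u = v := by decide
  have hιinj : Function.Injective (fun x => ι x) := ι.toRingHom.injective
  obtain ⟨Z, hZ⟩ := h
  obtain ⟨Z', hZ'⟩ := h'
  refine ⟨Z' - psi e e' (ι c) Z, fun τ' => ?_⟩
  obtain ⟨τ, hτ⟩ : ∃ τ : Ω' ≃ₐ[M] Ω', τ = τ'.restrictScalars M := ⟨_, rfl⟩
  have hττ : ∀ x, τ x = τ' x := fun x => by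
    rw [hτ]
    rfl
  have hact : actM e' τ' = actM e' τ := by
    rw [hτ]
    rfl
  obtain ⟨σ, hτσ⟩ := exists_rst ι τ
  have hτc : τ (ι c) = ι c := by rw [hττ, hcM, τ'.commutes]
  have hσc : σ c = c := by
    apply hιinj
    show ι (σ c) = ι c
    rw [hτσ, hτc]
  obtain ⟨hb0, hb1⟩ := hb σ hσc
  -- the class
  have hcomp : ∀ (i : Fin 2) (m : M'), m = algebraMap K M' (p i) + algebraMap K M' (q i) * cM →
      m ≠ 0 → ∀ v : ZMod 2, (∀ r : Ω, r ^ 2 = algebraMap K Ω (p i) + algebraMap K Ω (q i) * c →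
        (σ r = r ↔ v = 0)) → sg τ' m = v := by
    intro i m hm hm0 v hv
    obtain ⟨r, hr⟩ := exists_root h2 (algebraMap K Ω (p i) + algebraMap K Ω (q i) * c)
    have hιr : (ι r) ^ 2 = algebraMap M' Ω' m := by
      rw [← map_pow, hr, map_add, map_mul, ι.commutes, ι.commutes, hcM, hm, map_add, map_mul,
        ← IsScalarTower.algebraMap_apply, ← IsScalarTower.algebraMap_apply]
    apply z2
    rw [← sg_iff h2M' hm0 τ' hιr, ← hττ, ← hτσ]
    rw [← hv r hr]
    exact ⟨fun h3 => hιinj h3, fun h3 => by rw [h3]⟩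
  have hsb : sgx τ' κ = b σ := by
    apply Subtype.ext
    have c0 : (sgx τ' κ).1 0 = (b σ).1 0 := by
      rw [sgx_apply h2M' hκ0 hκp]
      exact hcomp 0 (κ 0) (by rw [hκ]; rfl) (hκ0 0) _ hb0
    have c1 : (sgx τ' κ).1 1 = (b σ).1 1 := by
      rw [sgx_apply h2M' hκ0 hκp]
      exact hcomp 1 (κ 1) (by rw [hκ]; rfl) (hκ0 1) _ hb1
    have s1 : ∑ k, (sgx τ' κ).1 k = 0 := (sgx τ' κ).2
    have s2 : ∑ k, (b σ).1 k = 0 := (b σ).2
    rw [Fin.sum_univ_three] at s1 s2
    have c2 : (sgx τ' κ).1 2 = (b σ).1 2 := by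
      rw [c0, c1] at s1
      exact add_left_cancel (s1.trans s2.symm)
    funext k
    fin_cases k
    · exact c0
    · exact c1
    · exact c2
  have hsg : sgx τ' (fun k => algebraMap M M' (g k)) = sgx τ g :=
    sgx_compat h2M hg (AlgHom.id M Ω') fun x => hττ x
  let ψ : Pt e Ω' →+ Pt e' Ω' :=
    { toFun := psi e e' (ι c)
      map_zero' := psi_zero (ι c)
      map_add' := psi_add h2 he hιc0 hcK' }
  have hψ : ∀ P, psi e e' (ι c) P = ψ P := fun _ => rfl
  have hτψ : actM e' τ (psi e e' (ι c) Z) = psi e e' (ι c) (actM e τ Z) := by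
    have h3 := act_psi h2 he hιc0 hcK' ((τ : Ω' →ₐ[M] Ω').restrictScalars K) Z
    have h4 : ((τ : Ω' →ₐ[M] Ω').restrictScalars K) (ι c) = ι c := hτc
    rw [h4] at h3
    exact h3
  have h6 := hZ' τ σ hτσ
  rw [map_add, act_psi h2 he hc0 hcK ι, act_tau h2 he' ι, hZ τ σ hτσ, sgx_one h2M, tau_zero,
    add_zero, hψ, map_sub, ← hψ, ← hψ, ← hτψ] at h6
  have h7 := two_tau (L := Ω') h2 he' (sgx τ g)
  rw [two_nsmul] at h7
  have h8 : -tau e' Ω' (sgx τ g) = tau e' Ω' (sgx τ g) := neg_eq_of_add_eq_zero_left h7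
  rw [hact, map_sub, sgx_mul h2M' hκ0 hκp hgM hgMp, tau_add h2 he', hsb, hsg]
  have h9 : actM e' τ Z' = actM e' τ (psi e e' (ι c) Z) - psi e e' (ι c) Z +
      tau e' Ω' (b σ) - tau e' Ω' (sgx τ g) + Z' := by
    rw [h6]
    abel
  rw [h9, sub_eq_add_neg _ (tau e' Ω' (sgx τ g)), h8]
  abel

private theorem in3_adj {N : M} {γ : Ω'} (hγ : γ ^ 2 = algebraMap M Ω' N)
    (z : IntermediateField.adjoin M {γ}) : ∃ p q : M,
      z = algebraMap M (IntermediateField.adjoin M {γ}) p +
        algebraMap M (IntermediateField.adjoin M {γ}) q * IntermediateField.AdjoinSimple.gen M γ := by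
  have halg : IsAlgebraic M γ := Algebra.IsAlgebraic.isAlgebraic γ
  have key : ∀ w ∈ Algebra.adjoin M {γ}, ∃ p q : M,
      w = algebraMap M Ω' p + algebraMap M Ω' q * γ := by
    intro w hw
    induction hw using Algebra.adjoin_induction with
    | mem x hx =>
      rw [Set.mem_singleton_iff] at hx
      exact ⟨0, 1, by rw [hx, map_zero, map_one]; ring⟩
    | algebraMap m => exact ⟨m, 0, by rw [map_zero]; ring⟩
    | add x y _ _ hx hy =>
      obtain ⟨p, q, h⟩ := hx
      obtain ⟨p', q', h'⟩ := hy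
      exact ⟨p + p', q + q', by rw [h, h', map_add, map_add]; ring⟩
    | mul x y _ _ hx hy =>
      obtain ⟨p, q, h⟩ := hx
      obtain ⟨p', q', h'⟩ := hy
      refine ⟨p * p' + q * q' * N, p * q' + q * p', ?_⟩
      rw [h, h', map_add, map_add, map_mul, map_mul, map_mul, map_mul, map_mul, ← hγ]
      ring
  obtain ⟨p, q, h⟩ := key z (by
    rw [← IntermediateField.adjoin_simple_toSubalgebra_of_isAlgebraic halg]
    exact z.2)
  exact ⟨p, q, Subtype.ext h⟩

theorem vl_inert (hv2 : (Valued.v : Valuation M ℤᵐ⁰) (2 : M) = 1) (h2 : (2 : K) ≠ 0)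
    (he : Function.Injective e)
    (hve : ∀ k, (Valued.v : Valuation M ℤᵐ⁰) (algebraMap K M (e' k)) ≤ 1)
    (hvd : ∀ i j, i ≠ j →
      (Valued.v : Valuation M ℤᵐ⁰) (algebraMap K M (e' i) - algebraMap K M (e' j)) = 1)
    {a : (Ω ≃ₐ[K] Ω) → Pt e Ω} {N : K} (hN : N ≠ 0)
    (hvN : (Valued.v : Valuation M ℤᵐ⁰) (algebraMap K M N) = 1)
    (hns : ¬ IsSquare (algebraMap K M N)) {c : Ω} (hc : c ^ 2 = algebraMap K Ω N)
    (hee : ∀ k, e' k = N * e k) {b : (Ω ≃ₐ[K] Ω) → XX 3 2} {x p q m : Fin 2 → K}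
    (hb : ∀ σ : Ω ≃ₐ[K] Ω, σ c = c →
        (∀ r : Ω, r ^ 2 = algebraMap K Ω (p 0) + algebraMap K Ω (q 0) * c →
          (σ r = r ↔ (b σ).1 0 = 0)) ∧
        ∀ r : Ω, r ^ 2 = algebraMap K Ω (p 1) + algebraMap K Ω (q 1) * c →
          (σ r = r ↔ (b σ).1 1 = 0))
    (hk : ∀ i, p i ^ 2 - N * q i ^ 2 = x i * m i ^ 2)
    (hvx : ∀ i, (Valued.v : Valuation M ℤᵐ⁰) (algebraMap K M (x i)) = 1) (hm : ∀ i, m i ≠ 0)
    (hme : ∀ i, Even (vl (Valued.v : Valuation M ℤᵐ⁰) (algebraMap K M (m i))))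
    {ι : Ω →ₐ[K] Ω'} (h : IsLoc e ι a (1 : Fin 3 → M)) {g : Fin 3 → M} (hg : ∀ k, g k ≠ 0)
    (hp : ∃ y, ∏ k, g k = y ^ 2)
    (h' : IsLoc e' ι (fun σ => psi e e' c (a σ) + tau e' Ω (b σ)) g) (k : Fin 3) :
    Even (vl (Valued.v : Valuation M ℤᵐ⁰) (g k)) := by
  classical
  have he' : Function.Injective e' := by
    intro i j hij
    rw [hee, hee] at hij
    exact he (mul_left_cancel₀ hN hij)
  have hγ : (ι c) ^ 2 = algebraMap M Ω' (algebraMap K M N) := by
    rw [← map_pow, hc, ι.commutes, ← IsScalarTower.algebraMap_apply]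
  have hgen : (IntermediateField.AdjoinSimple.gen M (ι c)) ^ 2 =
      algebraMap M (IntermediateField.adjoin M {ι c}) (algebraMap K M N) := Subtype.ext hγ
  obtain ⟨v', hv', hvm⟩ := exists_val hv2 hvN hns hgen (in3_adj hγ)
  have htow : ∀ y : K, algebraMap K (IntermediateField.adjoin M {ι c}) y =
      algebraMap M (IntermediateField.adjoin M {ι c}) (algebraMap K M y) := fun y =>
    Subtype.ext (by
      show algebraMap K Ω' y = algebraMap M Ω' (algebraMap K M y)
      exact IsScalarTower.algebraMap_apply K M Ω' y)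
  -- the valuations of the two elements
  have hval : ∀ i, v' (algebraMap K (IntermediateField.adjoin M {ι c}) (p i) +
      algebraMap K (IntermediateField.adjoin M {ι c}) (q i) *
        IntermediateField.AdjoinSimple.gen M (ι c)) =
      (Valued.v : Valuation M ℤᵐ⁰) (algebraMap K M (m i)) := by
    intro i
    rw [htow, htow, hvm]
    have h3 := inert_max hv2 hvN hns (algebraMap K M (p i)) (algebraMap K M (q i))
    have h4 : (algebraMap K M (p i)) ^ 2 - algebraMap K M N * (algebraMap K M (q i)) ^ 2 =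
        algebraMap K M (x i) * (algebraMap K M (m i)) ^ 2 := by
      rw [← map_pow, ← map_pow, ← map_mul, ← map_sub, hk, map_mul, map_pow]
    rw [h4, map_mul, hvx, one_mul, map_pow] at h3
    exact ((pow_left_inj₀ zero_le zero_le two_ne_zero).1 h3).symm
  have hk0 : ∀ i, algebraMap K (IntermediateField.adjoin M {ι c}) (p i) +
      algebraMap K (IntermediateField.adjoin M {ι c}) (q i) *
        IntermediateField.AdjoinSimple.gen M (ι c) ≠ 0 := by
    intro i h0
    have h3 := hval i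
    rw [h0, map_zero] at h3
    exact (map_ne_zero (algebraMap K M)).2 (hm i) ((Valuation.zero_iff _).1 h3.symm)
  have _ : IsScalarTower K (IntermediateField.adjoin M {ι c}) Ω' :=
    IsScalarTower.of_algebraMap_eq fun y => rfl
  have hkum := in3_kum (M' := IntermediateField.adjoin M {ι c}) h2 he hN hc hee hb
    (cM := IntermediateField.AdjoinSimple.gen M (ι c)) rfl (hk0 0) (hk0 1) h hg hp h'
  obtain ⟨κ, hκ⟩ : ∃ κ : Fin 3 → IntermediateField.adjoin M {ι c}, κ =
      ![algebraMap K (IntermediateField.adjoin M {ι c}) (p 0) +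
          algebraMap K (IntermediateField.adjoin M {ι c}) (q 0) *
            IntermediateField.AdjoinSimple.gen M (ι c),
        algebraMap K (IntermediateField.adjoin M {ι c}) (p 1) +
          algebraMap K (IntermediateField.adjoin M {ι c}) (q 1) *
            IntermediateField.AdjoinSimple.gen M (ι c),
        (algebraMap K (IntermediateField.adjoin M {ι c}) (p 0) +
          algebraMap K (IntermediateField.adjoin M {ι c}) (q 0) *
            IntermediateField.AdjoinSimple.gen M (ι c)) *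
          (algebraMap K (IntermediateField.adjoin M {ι c}) (p 1) +
          algebraMap K (IntermediateField.adjoin M {ι c}) (q 1) *
            IntermediateField.AdjoinSimple.gen M (ι c))] := ⟨_, rfl⟩
  rw [← hκ] at hkum
  have hκ0 : ∀ k, κ k ≠ 0 := by
    intro k
    rw [hκ]
    fin_cases k
    · exact hk0 0
    · exact hk0 1
    · exact mul_ne_zero (hk0 0) (hk0 1)
  have hκp : ∃ y, ∏ k, κ k = y ^ 2 := by
    refine ⟨(algebraMap K (IntermediateField.adjoin M {ι c}) (p 0) +
          algebraMap K (IntermediateField.adjoin M {ι c}) (q 0) *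
            IntermediateField.AdjoinSimple.gen M (ι c)) *
          (algebraMap K (IntermediateField.adjoin M {ι c}) (p 1) +
          algebraMap K (IntermediateField.adjoin M {ι c}) (q 1) *
            IntermediateField.AdjoinSimple.gen M (ι c)), ?_⟩
    rw [Fin.prod_univ_three, hκ, sq]
    rfl
  have hκe : ∀ k, Even (vl v' (κ k)) := by
    have hvl : ∀ i, vl v' (algebraMap K (IntermediateField.adjoin M {ι c}) (p i) +
      algebraMap K (IntermediateField.adjoin M {ι c}) (q i) *
        IntermediateField.AdjoinSimple.gen M (ι c)) =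
        vl (Valued.v : Valuation M ℤᵐ⁰) (algebraMap K M (m i)) := by
      intro i
      unfold vl
      rw [hval]
    intro k
    rw [hκ]
    fin_cases k
    · show Even (vl v' (algebraMap K (IntermediateField.adjoin M {ι c}) (p 0) +
        algebraMap K (IntermediateField.adjoin M {ι c}) (q 0) *
          IntermediateField.AdjoinSimple.gen M (ι c)))
      rw [hvl]
      exact hme 0
    · show Even (vl v' (algebraMap K (IntermediateField.adjoin M {ι c}) (p 1) +
        algebraMap K (IntermediateField.adjoin M {ι c}) (q 1) *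
          IntermediateField.AdjoinSimple.gen M (ι c)))
      rw [hvl]
      exact hme 1
    · show Even (vl v' ((algebraMap K (IntermediateField.adjoin M {ι c}) (p 0) +
        algebraMap K (IntermediateField.adjoin M {ι c}) (q 0) *
          IntermediateField.AdjoinSimple.gen M (ι c)) *
        (algebraMap K (IntermediateField.adjoin M {ι c}) (p 1) +
        algebraMap K (IntermediateField.adjoin M {ι c}) (q 1) *
          IntermediateField.AdjoinSimple.gen M (ι c))))
      rw [vl_mul (hk0 0) (hk0 1), hvl, hvl]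
      exact (hme 0).add (hme 1)
  have hgM : ∀ k, algebraMap M (IntermediateField.adjoin M {ι c}) (g k) ≠ 0 :=
    fun k => (map_ne_zero _).2 (hg k)
  have hgMp : ∃ y, ∏ k, algebraMap M (IntermediateField.adjoin M {ι c}) (g k) = y ^ 2 := by
    obtain ⟨y, hy⟩ := hp
    exact ⟨algebraMap M (IntermediateField.adjoin M {ι c}) y, by rw [← map_prod, hy, map_pow]⟩
  have hprod : ∃ y, ∏ k, (κ * fun k => algebraMap M (IntermediateField.adjoin M {ι c}) (g k)) k =
      y ^ 2 := by
    obtain ⟨y, hy⟩ := hκp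
    obtain ⟨y', hy'⟩ := hgMp
    refine ⟨y * y', ?_⟩
    rw [mul_pow, ← hy, ← hy', ← Finset.prod_mul_distrib]
    rfl
  obtain ⟨γ, hγ0, hcases⟩ := kum_cases h2 he' (fun k => mul_ne_zero (hκ0 k) (hgM k)) hprod hkum
  -- the valuations of the curve
  have hvE : ∀ k, v' (algebraMap K (IntermediateField.adjoin M {ι c}) (e' k)) ≤ 1 := by
    intro k
    rw [htow, hv']
    exact hve k
  have hvD : ∀ i j, i ≠ j → v' (algebraMap K (IntermediateField.adjoin M {ι c}) (e' i) -
      algebraMap K (IntermediateField.adjoin M {ι c}) (e' j)) = 1 := by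
    intro i j hij
    rw [htow, htow, ← map_sub, hv']
    exact hvd i j hij
  have hev : Even (vl v' (κ k * algebraMap M (IntermediateField.adjoin M {ι c}) (g k) *
      γ k ^ 2)) := by
    rcases hcases with h3 | ⟨X, Y, hXY, hY, h3⟩ | ⟨j, h3⟩
    · have h4 : κ k * algebraMap M (IntermediateField.adjoin M {ι c}) (g k) * γ k ^ 2 = 1 := h3 k
      rw [h4, vl_one]
      exact Even.zero
    · have h4 : κ k * algebraMap M (IntermediateField.adjoin M {ι c}) (g k) * γ k ^ 2 =
          X - algebraMap K (IntermediateField.adjoin M {ι c}) (e' k) := h3 k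
      rw [h4]
      exact even_pt v' hvE hvD (in3_eqn (in3_two h2) he' hXY) hY k
    · have h5 : κ k * algebraMap M (IntermediateField.adjoin M {ι c}) (g k) * γ k ^ 2 =
          algebraMap K (IntermediateField.adjoin M {ι c}) (kt e' j k) := h3 k
      rw [h5]
      have h4 : v' (algebraMap K (IntermediateField.adjoin M {ι c}) (kt e' j k)) = 1 := by
        unfold kt
        split_ifs with hkj
        · rw [map_prod, map_prod]
          refine Finset.prod_eq_one fun i hi => ?_
          rw [map_sub]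
          exact hvD j i (Finset.ne_of_mem_erase hi).symm
        · rw [map_sub]
          exact hvD j k fun h6 => hkj h6.symm
      unfold vl
      rw [h4, log_one, neg_zero]
      exact Even.zero
  have hγv : γ k ^ 2 ≠ 0 := pow_ne_zero 2 (hγ0 k)
  rw [vl_mul (mul_ne_zero (hκ0 k) (hgM k)) hγv] at hev
  have h6 : vl v' (κ k * algebraMap M (IntermediateField.adjoin M {ι c}) (g k)) =
      vl v' (κ k) + vl (Valued.v : Valuation M ℤᵐ⁰) (g k) := by
    rw [vl_mul (hκ0 k) (hgM k)]
    congr 1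
    unfold vl
    rw [hv']
  have h7 := vl_pow (v := v') (γ k) 2
  rw [h6, h7] at hev
  have h8 := hκe k
  rw [Int.even_iff] at hev h8 ⊢
  push_cast at hev
  omega

end Pool.Agent.H40.FS
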