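import Pool.Agent.H40.FS.SG

set_option autoImplicit false

/-!
# [H40 FS KUM] Kummer theory for square roots

`Ω / K` Galois (possibly infinite), separably closed, `2 ≠ 0`.
* `mem_base`: an element fixed by all `σ` is in `K` (`InfiniteGalois.fixedField_bot`, or `IsGalois.mem_bot_iff_fixed`, `IntermediateField.mem_bot`).
* `sq_of_sg`: take `r` with `r ^ 2 = g` (`exists_root`); it is fixed by all `σ` (`sg_iff`), so `r ∈ K`.
* `exists_sg`: `f : G → ZMod 2` a continuous homomorphism.  If `f = 0` take `g = 1`.  Else: let `M` be finite over `K` as in `IsCont` and `N` its normal closure in `Ω` (finite, Galois over `K`; `IsCont` holds for `N` as `M ≤ N`).  `f` depends only on the restriction of `σ` to `N`.  The map `u : Gal(N/K) → N^*`, `u (σ|_N) = (-1) ^ f σ`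
  is a multiplicative cocycle (`± 1` is fixed), so by Hilbert 90 (`groupCohomology.isMulCoboundary₁_of_isMulCocycle₁_of_aut_to_units`) there is `β ∈ N^*` with `σ β / β = ± 1 = (-1) ^ f σ` for all `σ` (check the side; `β⁻¹` if needed).  `β ^ 2` is fixed by all `σ`, so `β ^ 2 = g ∈ K`, `g ≠ 0`, and `sg σ g = f σ` (`sg_iff`, `sg_neg`).
  (Other way: the kernel of `f` is an open subgroup of index two, its fixed field is a quadratic extension `K(β)`, `β ^ 2 ∈ K`.)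
-/

namespace Pool.Agent.H40.FS

open WeierstrassCurve Pool.Agent.H94.MW Pool.Agent.H94.PL

variable {K : Type} [Field K] {Ω : Type} [Field Ω] [Algebra K Ω] [IsSepClosed Ω] [IsGalois K Ω]

omit [IsSepClosed Ω] in
theorem mem_base {x : Ω} (h : ∀ σ : Ω ≃ₐ[K] Ω, σ x = x) : ∃ y : K, algebraMap K Ω y = x :=
  (InfiniteGalois.mem_range_algebraMap_iff_fixed x).2 h

theorem sq_of_sg (h2 : (2 : K) ≠ 0) {g : K} (hg : g ≠ 0) (h : ∀ σ : Ω ≃ₐ[K] Ω, sg σ g = 0) :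
    ∃ y : K, y ≠ 0 ∧ g = y ^ 2 := by
  obtain ⟨r, hr⟩ := exists_root (Ω := Ω) h2 (algebraMap K Ω g)
  obtain ⟨y, hy⟩ := mem_base (K := K) (x := r) fun σ => (sg_iff h2 hg σ hr).2 (h σ)
  have h1 : g = y ^ 2 := by
    apply (algebraMap K Ω).injective
    rw [map_pow, hy, hr]
  refine ⟨y, ?_, h1⟩
  rintro rfl
  apply hg
  rw [h1]
  ring

theorem exists_sg (h2 : (2 : K) ≠ 0) (f : (Ω ≃ₐ[K] Ω) → ZMod 2)
    (hf : ∀ σ τ, f (σ * τ) = f σ + f τ) (hc : IsCont K f) :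
    ∃ g : K, g ≠ 0 ∧ ∀ σ, f σ = sg σ g := by
  have h01 : ∀ a : ZMod 2, a = 0 ∨ a = 1 := by decide
  by_cases hall : ∀ σ, f σ = 0
  · refine ⟨1, one_ne_zero, fun σ => ?_⟩
    have h1 := sg_sq σ (1 : K)
    rw [one_pow] at h1
    rw [h1, hall]
  push Not at hall
  obtain ⟨σ₀, hσ₀⟩ := hall
  have hσ₁ : f σ₀ = 1 := (h01 _).resolve_left hσ₀
  have hone : f 1 = 0 := by
    have h1 := hf 1 1
    rw [mul_one] at h1
    exact left_eq_add.1 h1
  have hinv : ∀ σ, f σ⁻¹ = f σ := by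
    intro σ
    have h1 := hf σ⁻¹ σ
    rw [inv_mul_cancel, hone] at h1
    have h3 : ∀ a b : ZMod 2, 0 = a + b → a = b := by decide
    exact h3 _ _ h1
  obtain ⟨H, hH⟩ : ∃ H : Subgroup (Ω ≃ₐ[K] Ω), ∀ σ, σ ∈ H ↔ f σ = 0 := by
    refine ⟨{ carrier := {σ | f σ = 0}
              mul_mem' := ?_
              one_mem' := hone
              inv_mem' := ?_ }, fun σ => Iff.rfl⟩
    · intro a b ha hb
      have ha' : f a = 0 := ha
      have hb' : f b = 0 := hb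
      show f (a * b) = 0
      rw [hf, ha', hb', add_zero]
    · intro a ha
      have ha' : f a = 0 := ha
      show f a⁻¹ = 0
      rw [hinv, ha']
  obtain ⟨M, hM, hMf⟩ := hc
  have hle : M.fixingSubgroup ≤ H := by
    intro τ hτ
    rw [hH]
    have h1 := hMf 1 τ fun x hx => hτ ⟨x, hx⟩
    rw [one_mul, hone] at h1
    exact h1
  have hop : IsOpen (H : Set (Ω ≃ₐ[K] Ω)) := Subgroup.isOpen_mono hle M.fixingSubgroup_isOpen
  have hcl : IsClosed (H : Set (Ω ≃ₐ[K] Ω)) := OpenSubgroup.isClosed ⟨H, hop⟩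
  have hfix : (IntermediateField.fixedField H).fixingSubgroup = H :=
    InfiniteGalois.fixingSubgroup_fixedField (K := Ω) (k := K) ⟨H, hcl⟩
  have hβ : ∃ β ∈ IntermediateField.fixedField H, σ₀ β ≠ β := by
    by_contra hcon
    push Not at hcon
    have h1 : σ₀ ∈ (IntermediateField.fixedField H).fixingSubgroup := fun x => hcon x x.2
    rw [hfix, hH] at h1
    exact hσ₀ h1
  obtain ⟨β, hβ, hne⟩ := hβ
  have hβf : ∀ σ, f σ = 0 → σ β = β := fun σ hσ => hβ ⟨σ, (hH σ).2 hσ⟩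
  obtain ⟨γ, hγ⟩ : ∃ γ, γ = β - σ₀ β := ⟨_, rfl⟩
  have hγ0 : γ ≠ 0 := by
    rw [hγ]
    exact sub_ne_zero.2 (Ne.symm hne)
  have h11 : (1 : ZMod 2) + 1 = 0 := by decide
  have hσγ : σ₀ γ = -γ := by
    have h1 : σ₀ (σ₀ β) = β := by
      have h3 := hβf (σ₀ * σ₀) (by rw [hf, hσ₁, h11])
      exact h3
    rw [hγ, map_sub, h1]
    ring
  have hf0 : ∀ σ, f σ = 0 → σ γ = γ := by
    intro σ hσ
    have h1 : σ (σ₀ β) = σ₀ β := by
      have h3 := hβf (σ₀⁻¹ * σ * σ₀) (by rw [hf, hf, hinv, hσ, hσ₁, add_zero, h11])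
      have h4 := congrArg σ₀ h3
      have h5 : σ₀ ((σ₀⁻¹ * σ * σ₀) β) = (σ₀ * (σ₀⁻¹ * σ * σ₀)) β := rfl
      rw [h5, ← mul_assoc, ← mul_assoc, mul_inv_cancel, one_mul] at h4
      exact h4
    rw [hγ, map_sub, hβf σ hσ, h1]
  have hf1 : ∀ σ, f σ = 1 → σ γ = -γ := by
    intro σ hσ
    have h1 := hf0 (σ₀⁻¹ * σ) (by rw [hf, hinv, hσ, hσ₁, h11])
    have h3 := congrArg σ₀ h1
    have h5 : σ₀ ((σ₀⁻¹ * σ) γ) = (σ₀ * (σ₀⁻¹ * σ)) γ := rfl
    rw [h5, ← mul_assoc, mul_inv_cancel, one_mul, hσγ] at h3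
    exact h3
  obtain ⟨g, hg⟩ := mem_base (K := K) (x := γ ^ 2) (by
    intro σ
    rcases h01 (f σ) with h | h
    · rw [map_pow, hf0 σ h]
    · rw [map_pow, hf1 σ h, neg_sq])
  have hg0 : g ≠ 0 := by
    rintro rfl
    rw [map_zero] at hg
    exact hγ0 (pow_eq_zero_iff (two_ne_zero) |>.1 hg.symm)
  refine ⟨g, hg0, fun σ => ?_⟩
  rcases h01 (f σ) with h | h
  · rw [h, (sg_iff h2 hg0 σ hg.symm).1 (hf0 σ h)]
  · rw [h, (sg_neg h2 hg0 σ hg.symm).1 (hf1 σ h)]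

end Pool.Agent.H40.FS
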