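import Pool.Agent.H40.FS.GD0

set_option autoImplicit false

/-!
# [H40 FS KV1] Classes of points over the completions

* `two_rf`: `two_ne_w` (with `w = none`) and `map_ofNat (iw w) 2`.  `eD_inj`: `DK c D ≠ 0` (`H94.PL.DK_ne`), `algebraMap` is injective.
* `kum_iff`: `kum_of_vln`, `vln_of_kum` (module `VLK`) with `K = RatFunc F`, `M = Kw F w`, `D := iw w (DK c D)`, `A := fun k => iw w (AK A k)` (`algebraMap K M = iw w`, `map_mul`); `Vw` is `IsVln 2 1 ..` by definition.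
* `kum_res`: let `Z` be the point over `Oc F` and `ι : Oc F → Ow F w` an embedding over `RatFunc F` (`IsSepClosed.lift`, exists since `Ow F w` is separably closed and `Oc F / RatFunc F` separable algebraic); `ι Z` works: for `τ` let `σ` be the restriction (`exists_rst`): `τ (ι Z) = ι (σ Z) = ι (Z + tau (sgx σ x)) = ι Z + tau (sgx τ x)` (`Affine.Point.map_map`, `act_tau`, `sgx_compat`).
-/

namespace Pool.Agent.H40.FS

open Polynomial WithZero Pool.Agent.H74.FS
open Pool.Agent.H94.PL (LChar XX DK AK dl)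
open Pool.Agent.H94.PM (LU vl IsVln IsSln)

variable {F : Type} [Field F] [DecidableEq (RatFunc F)] [Finite F] {c : F} {A : Fin 3 → F[X]}
  {D : F[X]}

private theorem act_comm' {K : Type} [Field K] {e : Fin 3 → K} {Ω : Type} [Field Ω]
    [Algebra K Ω] [DecidableEq Ω] {M : Type} [Field M] [Algebra K M] {Ω' : Type} [Field Ω']
    [Algebra M Ω'] [Algebra K Ω'] [IsScalarTower K M Ω'] [DecidableEq Ω']
    {ι : Ω →ₐ[K] Ω'} {τ : Ω' ≃ₐ[M] Ω'} {σ : Ω ≃ₐ[K] Ω}
    (h : ∀ x, ι (σ x) = τ (ι x)) (P : Pt e Ω) :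
    actM e τ (act e ι P) = act e ι (actM (M := K) e σ P) := by
  unfold actM act
  rw [WeierstrassCurve.Affine.Point.map_map, WeierstrassCurve.Affine.Point.map_map]
  congr 1
  refine congrArg _ (AlgHom.ext fun x => (h x).symm)

theorem two_rf (hq : 2 ∣ Nat.card F - 1) : (2 : RatFunc F) ≠ 0 := by
  intro h
  apply two_ne_w hq (none : Pl F)
  have h1 : iw (none : Pl F) (2 : RatFunc F) = 2 := map_ofNat _ 2
  rw [← h1, h, map_zero]

omit [DecidableEq (RatFunc F)] [Finite F] in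
theorem eD_inj (hc : c ≠ 0) (hA : ∀ i k, i ≠ k → A i ≠ A k) (hD : D ≠ 0) :
    Function.Injective (eD c A D) := by
  intro i j hij
  by_contra hne
  have h0 : DK c D ≠ 0 := by
    rw [DK, Ne, FaithfulSMul.algebraMap_eq_zero_iff]
    exact mul_ne_zero (C_ne_zero.2 hc) hD
  have h1 : AK A i = AK A j := mul_left_cancel₀ h0 hij
  exact hA i j hne (IsFractionRing.injective F[X] (RatFunc F) h1)

variable [∀ w : Pl F, DecidableEq (Ow F w)]

theorem kum_iff (hq : 2 ∣ Nat.card F - 1) (hc : c ≠ 0) (hA : ∀ i k, i ≠ k → A i ≠ A k)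
    (hD : D ≠ 0) {w : Pl F} {g : Fin 3 → Kw F w} (hg : ∀ k, g k ≠ 0)
    (hp : ∃ y, ∏ k, g k = y ^ 2) : IsKum (eD c A D) (Ow F w) g ↔ Vw c A D w g := by
  classical
  have h2 := two_rf (F := F) hq
  have he := eD_inj hc hA hD
  have hD' : iw w (DK c D) ≠ 0 := iw_ne (H94.PL.DK_ne hc hD)
  have hAe : ∀ k, algebraMap (RatFunc F) (Kw F w) (eD c A D k) =
      iw w (DK c D) * iw w (AK A k) := fun k => map_mul _ _ _
  constructor
  · intro h
    exact vln_of_kum h2 he hD' hAe hg hp h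
  · intro h
    exact kum_of_vln h2 he hD' hAe h

theorem kum_res [DecidableEq (Oc F)] (hq : 2 ∣ Nat.card F - 1) (hc : c ≠ 0)
    (hA : ∀ i k, i ≠ k → A i ≠ A k) (hD : D ≠ 0) {x : Fin 3 → RatFunc F} (hx : ∀ k, x k ≠ 0)
    (hp : ∃ y, ∏ k, x k = y ^ 2) (h : IsKum (M := RatFunc F) (eD c A D) (Oc F) x) (w : Pl F) :
    Vw c A D w (fun k => iw w (x k)) := by
  have h2 := two_rf (F := F) hq
  have he := eD_inj hc hA hD
  have hp' : ∃ y, ∏ k, iw w (x k) = y ^ 2 := by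
    obtain ⟨y, hy⟩ := hp
    exact ⟨iw w y, by rw [← map_prod, hy, map_pow]⟩
  rw [← kum_iff hq hc hA hD (fun k => iw_ne (hx k)) hp']
  obtain ⟨Z, hZ⟩ := h
  let ι : Oc F →ₐ[RatFunc F] Ow F w := IsSepClosed.lift
  refine ⟨act (eD c A D) ι Z, fun τ => ?_⟩
  have h3 : sgx τ (fun k => iw w (x k)) = sgx (rst ι τ) x :=
    sgx_compat h2 hx ι (rst_spec ι τ)
  rw [act_comm' (rst_spec ι τ), hZ, map_add, act_tau h2 he, h3]

end Pool.Agent.H40.FS
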