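import Pool.Agent.H40.FS.KV1

set_option autoImplicit false

/-!
# [H40 FS LCA] Local classes of global cocycles

`e = eD c A D`, `e` injective, `2 ≠ 0` (`KV1`); all statements are those of `LOC`, `LOD` with `M = Kw F w`, `Ω' = Ow F w`, and `kum_iff`.
* `lc_ex`: an embedding `ι : Oc F → Ow F w` over `RatFunc F` exists (`IsSepClosed.lift`); `loc_ex`, with `IsKum` from `kum_iff`.
* `lc_dif`: `loc_dif` and `kum_iff` (the product of `g * g'` is a square).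
* `lc_mul`: `loc_kum`.  `lc_tau`: `loc_tau`.  `lc_add`: by `loc_iota` both with the same `ι`, `loc_add`.
* `lc_one`: `loc_one`.  `lc_triv`: `lc_mul` with `g' = g` gives `LC w a (g * g)`, and `IsLoc` for `g * g = 1 * g ^ 2` gives it for `1` (`loc_sq`), `loc_one`.
* `lc_lcl`: `dif_pos`, `choose_spec`.
-/

namespace Pool.Agent.H40.FS

open Polynomial WithZero Pool.Agent.H74.FS
open Pool.Agent.H94.PL (LChar XX DK AK dl)
open Pool.Agent.H94.PM (LU vl IsVln IsSln)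

variable {F : Type} [Field F] [DecidableEq (RatFunc F)] [DecidableEq (Oc F)]
  [∀ w : Pl F, DecidableEq (Ow F w)] {c : F} {A : Fin 3 → F[X]} {D : F[X]} {w : Pl F}
  {a a' : GF F → Pt (eD c A D) (Oc F)} {g g' : Fin 3 → Kw F w}

private theorem lc_sqm {M : Type} [Field M] {δ δ' : Fin 3 → M} (h : ∃ y, ∏ k, δ k = y ^ 2)
    (h' : ∃ y, ∏ k, δ' k = y ^ 2) : ∃ y, ∏ k, (δ * δ') k = y ^ 2 := by
  obtain ⟨y, hy⟩ := h
  obtain ⟨y', hy'⟩ := h'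
  refine ⟨y * y', ?_⟩
  simp only [Pi.mul_apply]
  rw [Finset.prod_mul_distrib, hy, hy', mul_pow]

private theorem lc_nem {M : Type} [Field M] {δ δ' : Fin 3 → M} (h : ∀ k, δ k ≠ 0)
    (h' : ∀ k, δ' k ≠ 0) : ∀ k, (δ * δ') k ≠ 0 := fun k => mul_ne_zero (h k) (h' k)

omit [DecidableEq (Oc F)] [∀ w : Pl F, DecidableEq (Ow F w)] in
private theorem lc_iwp {x : Fin 3 → RatFunc F} (w : Pl F) (hp : ∃ y, ∏ k, x k = y ^ 2) :
    ∃ y, ∏ k, iw w (x k) = y ^ 2 := by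
  obtain ⟨y, hy⟩ := hp
  refine ⟨iw w y, ?_⟩
  rw [← map_pow, ← hy, map_prod]

theorem lc_lcl (h : LC w a g) : LC w a (lcl w a) := by
  have h1 : ∃ g, LC w a g := ⟨g, h⟩
  unfold lcl
  rw [dif_pos h1]
  exact h1.choose_spec

variable [Finite F]

theorem lc_ex (hq : 2 ∣ Nat.card F - 1) (hc : c ≠ 0) (hA : ∀ i k, i ≠ k → A i ≠ A k) (hD : D ≠ 0)
    {x : Fin 3 → RatFunc F} (hx : ∀ k, x k ≠ 0) (hp : ∃ y, ∏ k, x k = y ^ 2) (ha : IsCoc a)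
    (hax : IsCls x fun σ => 2 • a σ) (hv : Vw c A D w fun k => iw w (x k)) : ∃ g, LC w a g := by
  have hk := (kum_iff hq hc hA hD (fun k => iw_ne (w := w) (hx k)) (lc_iwp w hp)).2 hv
  obtain ⟨g, h1, h2, h3⟩ := loc_ex (M := Kw F w) (two_rf hq) (eD_inj hc hA hD) hx hp ha hax
    (IsSepClosed.lift : Oc F →ₐ[RatFunc F] Ow F w) hk
  exact ⟨g, h1, h2, _, h3⟩

theorem lc_dif (hq : 2 ∣ Nat.card F - 1) (hc : c ≠ 0) (hA : ∀ i k, i ≠ k → A i ≠ A k)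
    (hD : D ≠ 0) (ha : IsCoc a) (h : LC w a g) (h' : LC w a g') : Vw c A D w (g * g') := by
  obtain ⟨hg, hp, ι, hl⟩ := h
  obtain ⟨hg', hp', ι', hl'⟩ := h'
  exact (kum_iff hq hc hA hD (lc_nem hg hg') (lc_sqm hp hp')).1
    (loc_dif (two_rf hq) (eD_inj hc hA hD) ha hg hp hg' hp' hl hl')

theorem lc_mul (hq : 2 ∣ Nat.card F - 1) (hc : c ≠ 0) (hA : ∀ i k, i ≠ k → A i ≠ A k)
    (hD : D ≠ 0) (h : LC w a g) (h' : Vw c A D w g') : LC w a (g * g') := by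
  obtain ⟨hg, hp, ι, hl⟩ := h
  have hg' : ∀ k, g' k ≠ 0 := Vw_ne hc hD h'
  have hp' : ∃ y, ∏ k, g' k = y ^ 2 := Vw_prod (by decide) h'
  exact ⟨lc_nem hg hg', lc_sqm hp hp', ι, loc_kum (two_rf hq) (eD_inj hc hA hD) hg hp hg' hp' hl
    ((kum_iff hq hc hA hD hg' hp').2 h')⟩

theorem lc_tau (hq : 2 ∣ Nat.card F - 1) (hc : c ≠ 0) (hA : ∀ i k, i ≠ k → A i ≠ A k)
    (hD : D ≠ 0) {h : Fin 3 → RatFunc F} (hh : ∀ k, h k ≠ 0) (hp : ∃ y, ∏ k, h k = y ^ 2)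
    (hl : LC w a g) :
    LC w (fun σ => a σ + tau (eD c A D) (Oc F) (sgx σ h)) fun k => g k * iw w (h k) := by
  obtain ⟨hg, hgp, ι, hl⟩ := hl
  exact ⟨lc_nem hg (fun k => iw_ne (hh k)), lc_sqm hgp (lc_iwp w hp), ι,
    loc_tau (two_rf hq) (eD_inj hc hA hD) hg hgp hh hp hl⟩

theorem lc_add (hq : 2 ∣ Nat.card F - 1) (hc : c ≠ 0) (hA : ∀ i k, i ≠ k → A i ≠ A k)
    (hD : D ≠ 0) (ha : IsCoc a) (ha' : IsCoc a') (h : LC w a g) (h' : LC w a' g') :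
    LC w (fun σ => a σ + a' σ) (g * g') := by
  have _ := ha
  obtain ⟨hg, hp, ι, hl⟩ := h
  obtain ⟨hg', hp', ι', hl'⟩ := h'
  exact ⟨lc_nem hg hg', lc_sqm hp hp', ι, loc_add (two_rf hq) (eD_inj hc hA hD) hg hp hg' hp' hl
    (loc_iota ha' hl' ι)⟩

theorem lc_one (hq : 2 ∣ Nat.card F - 1) :
    IsTriv (Kw F w) (Ow F w) a ↔ LC w a (1 : Fin 3 → Kw F w) := by
  rw [loc_one (M := Kw F w) (two_rf hq)]
  constructor
  · rintro ⟨ι, h⟩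
    exact ⟨fun k => one_ne_zero, ⟨1, by simp⟩, ι, h⟩
  · rintro ⟨_, _, ι, h⟩
    exact ⟨ι, h⟩

theorem lc_triv (hq : 2 ∣ Nat.card F - 1) (hc : c ≠ 0) (hA : ∀ i k, i ≠ k → A i ≠ A k)
    (hD : D ≠ 0) (h : LC w a g) (h' : Vw c A D w g) : IsTriv (Kw F w) (Ow F w) a := by
  obtain ⟨_, _, ι, hl⟩ := lc_mul hq hc hA hD h h'
  rw [loc_one (M := Kw F w) (two_rf hq)]
  refine ⟨ι, ?_⟩
  have h1 := loc_sq (e := eD c A D) (a := a) (ι := ι) (two_rf hq) (g := (1 : Fin 3 → Kw F w)) (y := g)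
    (fun k => one_ne_zero) h.1
  rw [h1]
  have h2 : (fun k => (1 : Fin 3 → Kw F w) k * g k ^ 2) = g * g := by
    funext k
    rw [Pi.one_apply, one_mul, Pi.mul_apply, sq]
  rw [h2]
  exact hl

end Pool.Agent.H40.FS
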