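import Pool.Agent.H40.FS.COP
import Pool.Agent.H40.FS.RES

set_option autoImplicit false

/-!
# [H40 FS LOP] Local classes of a twisted cocycle

`IsLoc e ι a g`: `ι (a σ) = τ Z - Z + tau (sgx τ g)` for the pairs `σ`, `τ` with `ι σ = τ ι` (every `τ` has exactly one such `σ`, `rst`).
* `loc_psi`: `cM ∈ M`, `ι c = cM` in `Ω'`.  For `τ`, `σ` compatible `τ` fixes `ι c`, so `σ c = c` (`ι` injective).  `ι (a' σ) = psi (ι c) (ι (a σ)) + tau (b σ)` (`act_psi`, `act_tau`) `= psi (τ Z - Z + tau (sgx τ g)) + tau (b σ) = τ (psi Z) - psi Z + tau (sgx τ g) + tau (b σ)` (`psi_add`, `psi_tau`, `act_psi` with `τ (ι c) = ι c`).  `b σ = sgx τ κ`, `κ = ![p 0 + q 0 cM, p 1 + q 1 cM, product]`: for `i = 0, 1`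
  let `r ∈ Ω` with `r² = p i + q i c`, then `(ι r)² = κ i`, `τ (ι r) = ι (σ r)`, `sg_iff`; the third component is the sum on both sides.
-/

namespace Pool.Agent.H40.FS

open WeierstrassCurve Pool.Agent.H94.MW Pool.Agent.H94.PL

variable {K : Type} [Field K] {e e' : Fin 3 → K} {Ω : Type} [Field Ω] [Algebra K Ω]
  [DecidableEq Ω] [IsSepClosed Ω] [IsGalois K Ω]
  {M : Type} [Field M] [Algebra K M] {Ω' : Type} [Field Ω'] [Algebra M Ω'] [Algebra K Ω']
  [IsScalarTower K M Ω'] [DecidableEq Ω'] [IsSepClosed Ω'] [IsGalois M Ω']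

theorem loc_psi (h2 : (2 : K) ≠ 0) (he : Function.Injective e) {a : (Ω ≃ₐ[K] Ω) → Pt e Ω}
    {N : K} (hN : N ≠ 0) {c : Ω} (hc : c ^ 2 = algebraMap K Ω N) (hee : ∀ k, e' k = N * e k)
    {b : (Ω ≃ₐ[K] Ω) → XX 3 2} {p q : Fin 2 → K}
    (hb : ∀ σ : Ω ≃ₐ[K] Ω, σ c = c →
        (∀ r : Ω, r ^ 2 = algebraMap K Ω (p 0) + algebraMap K Ω (q 0) * c →
          (σ r = r ↔ (b σ).1 0 = 0)) ∧
        ∀ r : Ω, r ^ 2 = algebraMap K Ω (p 1) + algebraMap K Ω (q 1) * c →
          (σ r = r ↔ (b σ).1 1 = 0))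
    {ι : Ω →ₐ[K] Ω'} {cM : M} (hcM : ι c = algebraMap M Ω' cM)
    (hk0 : algebraMap K M (p 0) + algebraMap K M (q 0) * cM ≠ 0)
    (hk1 : algebraMap K M (p 1) + algebraMap K M (q 1) * cM ≠ 0)
    {g : Fin 3 → M} (hg : ∀ k, g k ≠ 0) (hp : ∃ y, ∏ k, g k = y ^ 2) (h : IsLoc e ι a g) :
    IsLoc e' ι (fun σ => psi e e' c (a σ) + tau e' Ω (b σ))
      (g * ![algebraMap K M (p 0) + algebraMap K M (q 0) * cM,
        algebraMap K M (p 1) + algebraMap K M (q 1) * cM,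
        (algebraMap K M (p 0) + algebraMap K M (q 0) * cM) *
          (algebraMap K M (p 1) + algebraMap K M (q 1) * cM)]) := by
  obtain ⟨κ, hκ⟩ : ∃ κ : Fin 3 → M, κ = ![algebraMap K M (p 0) + algebraMap K M (q 0) * cM,
        algebraMap K M (p 1) + algebraMap K M (q 1) * cM,
        (algebraMap K M (p 0) + algebraMap K M (q 0) * cM) *
          (algebraMap K M (p 1) + algebraMap K M (q 1) * cM)] := ⟨_, rfl⟩
  rw [← hκ]
  have h2M : (2 : M) ≠ 0 := by
    have h3 := (map_ne_zero (algebraMap K M)).2 h2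
    rwa [map_ofNat] at h3
  have he' : Function.Injective e' := by
    intro i j hij
    rw [hee, hee] at hij
    exact he (mul_left_cancel₀ hN hij)
  have hc0 : c ≠ 0 := by
    rintro rfl
    rw [zero_pow two_ne_zero] at hc
    exact (map_ne_zero (algebraMap K Ω)).2 hN hc.symm
  have hιc0 : ι c ≠ 0 := (map_ne_zero ι).2 hc0
  have hcK : ∀ k, algebraMap K Ω (e' k) = c ^ 2 * algebraMap K Ω (e k) := by
    intro k
    rw [hee, map_mul, hc]
  have hcK' : ∀ k, algebraMap K Ω' (e' k) = (ι c) ^ 2 * algebraMap K Ω' (e k) := by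
    intro k
    rw [hee, map_mul, ← map_pow, hc, ι.commutes]
  have hκ0 : ∀ k, κ k ≠ 0 := by
    intro k
    rw [hκ]
    fin_cases k
    · exact hk0
    · exact hk1
    · exact mul_ne_zero hk0 hk1
  have hκp : ∃ y, ∏ k, κ k = y ^ 2 := by
    refine ⟨(algebraMap K M (p 0) + algebraMap K M (q 0) * cM) *
          (algebraMap K M (p 1) + algebraMap K M (q 1) * cM), ?_⟩
    rw [Fin.prod_univ_three, hκ]
    show (algebraMap K M (p 0) + algebraMap K M (q 0) * cM) *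
      (algebraMap K M (p 1) + algebraMap K M (q 1) * cM) *
      ((algebraMap K M (p 0) + algebraMap K M (q 0) * cM) *
          (algebraMap K M (p 1) + algebraMap K M (q 1) * cM)) = _
    ring
  have z2 : ∀ u v : ZMod 2, (u = 0 ↔ v = 0) → u = v := by decide
  have hιinj : Function.Injective (fun x => ι x) := ι.toRingHom.injective
  obtain ⟨Z, hZ⟩ := h
  refine ⟨psi e e' (ι c) Z, fun τ σ hτσ => ?_⟩
  have hτc : τ (ι c) = ι c := by rw [hcM, τ.commutes]
  have hσc : σ c = c := by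
    apply hιinj
    show ι (σ c) = ι c
    rw [hτσ, hτc]
  obtain ⟨hb0, hb1⟩ := hb σ hσc
  -- the class
  have hcomp : ∀ (i : Fin 2) (m : M), m = algebraMap K M (p i) + algebraMap K M (q i) * cM →
      m ≠ 0 → ∀ v : ZMod 2, (∀ r : Ω, r ^ 2 = algebraMap K Ω (p i) + algebraMap K Ω (q i) * c →
        (σ r = r ↔ v = 0)) → sg τ m = v := by
    intro i m hm hm0 v hv
    obtain ⟨r, hr⟩ := exists_root h2 (algebraMap K Ω (p i) + algebraMap K Ω (q i) * c)
    have hιr : (ι r) ^ 2 = algebraMap M Ω' m := by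
      rw [← map_pow, hr, map_add, map_mul, ι.commutes, ι.commutes, hcM, hm, map_add, map_mul,
        ← IsScalarTower.algebraMap_apply, ← IsScalarTower.algebraMap_apply]
    apply z2
    rw [← sg_iff h2M hm0 τ hιr, ← hτσ]
    rw [← hv r hr]
    exact ⟨fun h3 => hιinj h3, fun h3 => by rw [h3]⟩
  have hsb : sgx τ κ = b σ := by
    apply Subtype.ext
    have c0 : (sgx τ κ).1 0 = (b σ).1 0 := by
      rw [sgx_apply h2M hκ0 hκp]
      exact hcomp 0 (κ 0) (by rw [hκ]; rfl) (hκ0 0) _ hb0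
    have c1 : (sgx τ κ).1 1 = (b σ).1 1 := by
      rw [sgx_apply h2M hκ0 hκp]
      exact hcomp 1 (κ 1) (by rw [hκ]; rfl) (hκ0 1) _ hb1
    have s1 : ∑ k, (sgx τ κ).1 k = 0 := (sgx τ κ).2
    have s2 : ∑ k, (b σ).1 k = 0 := (b σ).2
    rw [Fin.sum_univ_three] at s1 s2
    have c2 : (sgx τ κ).1 2 = (b σ).1 2 := by
      rw [c0, c1] at s1
      exact add_left_cancel (s1.trans s2.symm)
    funext k
    fin_cases k
    · exact c0
    · exact c1
    · exact c2
  let ψ : Pt e Ω' →+ Pt e' Ω' :=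
    { toFun := psi e e' (ι c)
      map_zero' := psi_zero (ι c)
      map_add' := psi_add h2 he hιc0 hcK' }
  have hψ : ∀ P, psi e e' (ι c) P = ψ P := fun _ => rfl
  have hτψ : actM e' τ (psi e e' (ι c) Z) = psi e e' (ι c) (actM e τ Z) := by
    have h3 := act_psi h2 he hιc0 hcK' ((τ : Ω' →ₐ[M] Ω').restrictScalars K) Z
    have h4 : ((τ : Ω' →ₐ[M] Ω').restrictScalars K) (ι c) = ι c := hτc
    rw [h4] at h3
    exact h3
  rw [map_add, act_psi h2 he hc0 hcK ι, act_tau h2 he' ι, hZ τ σ hτσ, hτψ, hψ, hψ, hψ, map_add,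
    map_sub, sgx_mul h2M hg hp hκ0 hκp τ, tau_add h2 he', hsb]
  have h5 : ψ (tau e Ω' (sgx τ g)) = tau e' Ω' (sgx τ g) := psi_tau h2 he hιc0 hcK' _
  rw [h5]
  abel

end Pool.Agent.H40.FS
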