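import Pool.Agent.H40.FS.GV1
import Pool.Agent.H74.FS.GDX

set_option autoImplicit false

/-!
# [H40 FS OU1] The data of the governing element of a pair, with bounds

`gdx` (`H74/FS/GDX`) with `x1 = x 0`, `x2 = x 1`, `y1 = y 0`, `y2 = y 1` gives `d`, `X`, `Z`, `W` with `CD` and degrees at most `C₀ (4 n + 1)`; `gv_ex` gives `g` of degree at most `4 C₀ (4 n + 1) ≤ 16 C₀ (n + 1)`.  `C = 16 C₀`.
(`Matrix.cons_val_zero`, ... for `![x 0, x 1]`.)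
-/

namespace Pool.Agent.H40.FS

open Polynomial WithZero Pool.Agent.H74.FS
open Pool.Agent.H94.PL (LChar XX DK AK dl)
open Pool.Agent.H94.PM (LU vl IsVln IsSln)

variable {F : Type} [Field F] [DecidableEq (RatFunc F)] [Finite F] (χ : LChar F 2)

theorem ou_gd (hq : 2 ∣ Nat.card F - 1) : ∃ C : ℕ, ∀ (x y : Fin 3 → F[X]) (S : Finset (Pl F))
    (n : ℕ), (∀ i, x i ≠ 0) → (∀ i, y i ≠ 0) → ¬ IsSquare (x 0) → ¬ IsSquare (x 1) →
    ¬ IsSquare (x 0 * x 1) → (∀ w : Pl F, hp χ w (x 0) (y 1) + hp χ w (x 1) (y 0) = 0) →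
    (none : Pl F) ∈ S → (∀ w : Pl F, w ∉ S → ∀ k, vw w (pm w (x k)) = 1) →
    (∀ w : Pl F, w ∉ S → ∀ k, vw w (pm w (y k)) = 1) → (∀ k, (x k).natDegree ≤ n) →
    (∀ k, (y k).natDegree ≤ n) →
    ∃ (d g : F[X]) (X Z W : Fin 3 → F[X]), CD ![x 0, x 1] ![y 0, y 1] d X Z W ∧ g ≠ 0 ∧
      (∀ w : Pl F, w ∉ S → vw w (pm w d) = 1 → ev w (pm w (g * (X 0 * X 1 * X 2))) = 0) ∧
      (∀ w : Pl F, w ∉ S → vw w (pm w d) ≠ 1 → ∃ r : Fin 2 → Kw F w,
        (∀ i, r i ^ 2 = pm w (![x 0, x 1] i)) ∧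
        ev w (gle (pm w g) (fun l => pm w (X l)) (fun l => pm w (Z l)) (r 0) (r 1)) = 0) ∧
      g.natDegree ≤ C * (n + 1) ∧
      ∀ l, (X l).natDegree ≤ C * (n + 1) ∧ (Z l).natDegree ≤ C * (n + 1) := by
  obtain ⟨C₀, hC⟩ := gdx χ hq
  refine ⟨16 * C₀, fun x y S n hx hy n0 n1 n01 hh hS hxv hyv hxd hyd => ?_⟩
  obtain ⟨c, X, Z, W, hc0, hcs, hX0, hW0, hprim, he0, he1, he2, hcd, hd⟩ :=
    hC (x 0) (x 1) (y 0) (y 1) (hx 0) (hx 1) (hy 0) (hy 1) n0 n1 n01 hh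
  have hCD : CD ![x 0, x 1] ![y 0, y 1] c X Z W := by
    refine ⟨?_, ?_, hc0, hcs, hX0, hW0, hprim, he0, he1, he2⟩
    · intro i
      fin_cases i
      · exact hx 0
      · exact hx 1
    · intro i
      fin_cases i
      · exact hy 0
      · exact hy 1
  have hxv' : ∀ w : Pl F, w ∉ S → ∀ i, vw w (pm w (![x 0, x 1] i)) = 1 := by
    intro w hw i
    fin_cases i
    · exact hxv w hw 0
    · exact hxv w hw 1
  have hyv' : ∀ w : Pl F, w ∉ S → ∀ i, vw w (pm w (![y 0, y 1] i)) = 1 := by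
    intro w hw i
    fin_cases i
    · exact hyv w hw 0
    · exact hyv w hw 1
  obtain ⟨g, hg0, hgd, hg1, hg2⟩ := gv_ex hq hS hCD hxv' hyv'
  have hN : C₀ * ((x 0).natDegree + (x 1).natDegree + (y 0).natDegree + (y 1).natDegree + 1) ≤
      C₀ * (4 * (n + 1)) := by
    refine Nat.mul_le_mul_left _ ?_
    have := hxd 0
    have := hxd 1
    have := hyd 0
    have := hyd 1
    omega
  have hN2 : C₀ * (4 * (n + 1)) = 4 * (C₀ * (n + 1)) := by ring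
  have hN3 : 16 * C₀ * (n + 1) = 16 * (C₀ * (n + 1)) := by ring
  rw [hN2] at hN
  rw [hN3]
  refine ⟨c, g, X, Z, W, hCD, hg0, hg1, hg2, ?_, fun l => ?_⟩
  · have h0 := (hd 0).1
    have h1 := (hd 1).1
    have h2 := (hd 2).1
    omega
  · have h0 := hd l
    omega

end Pool.Agent.H40.FS
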