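import Pool.Agent.H40.FS.RAD
import Pool.Agent.H3.FS.FRD

set_option autoImplicit false

/-!
# [H40 FS OU3] The number of the lifting classes and the kernel of the alternating matrix

`rad_card`, and `(altm e).mulVec v = 0 ↔ ∀ j, ∑ i, v i * fr χ S (a i) (x j) = 0`: `(altm e) j i = fr χ S (a i) (x j)` for all `i`, `j`: `i = j`: `0 = fr (a i) (x i)` (`fr_alt`); `i < j`: `altm e j i = e (i, j)` (second case of the definition) `= fr (a i) (x j)`; `j < i`: `altm e j i = e (j, i) = fr (a j) (x i) = fr (a i) (x j)` (`fr_symm`).  `kc e` is the number of the `v` with `(altm e).mulVec v = 0` (`Nat.card_congr`, `Equiv.subtypeEquivRight`).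
-/

namespace Pool.Agent.H40.FS

open Polynomial WithZero Pool.Agent.H74.FS
open Pool.Agent.H94.PL (LChar XX DK AK dl)
open Pool.Agent.H94.PM (LU vl IsVln IsSln)

variable {F : Type} [Field F] [DecidableEq (RatFunc F)] [DecidableEq (Oc F)]
  [∀ w : Pl F, DecidableEq (Ow F w)] [Finite F] (χ : LChar F 2) {S : Finset (Pl F)} {c : F}
  {A : Fin 3 → F[X]} {D : F[X]}

theorem rad_kc (hq : 2 ∣ Nat.card F - 1) (hc : c ≠ 0) (hA : ∀ i k, i ≠ k → A i ≠ A k)
    (hD : D ≠ 0) (hS : Bad A D S) {r : ℕ} {x : Fin r → Fin 3 → RatFunc F}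
    (hx : ∀ i, IsSln 2 1 c A D (x i))
    (hu : ∀ δ : Fin 3 → RatFunc F, IsSln 2 1 c A D δ →
      ∃! p : (Fin r → ZMod 2) × Option (Fin 3), ∃ γ : Fin 3 → RatFunc F, (∀ k, γ k ≠ 0) ∧
        ∀ k, δ k * γ k ^ 2 = tr c A D p.2 k * ∏ i, x i k ^ (p.1 i).val)
    {a : Fin r → GF F → Pt (eD c A D) (Oc F)} (ha : ∀ i, GLf S c A D (x i) (a i))
    {e : Fin r × Fin r → ZMod 2} (he : ∀ i j, i < j → e (i, j) = fr χ S (a i) (x j)) :
    Nat.card (S4C c A D) = 4 * H3.FS.kc e := by
  rw [rad_card χ hq hc hA hD hS hx hu ha]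
  congr 1
  unfold H3.FS.kc
  apply Nat.card_congr
  apply Equiv.subtypeEquivRight
  intro v
  have hent : ∀ i j, H3.FS.altm e j i = fr χ S (a i) (x j) := by
    intro i j
    unfold H3.FS.altm
    rcases lt_trichotomy j i with h | h | h
    · rw [if_pos h, he j i h]
      exact fr_symm χ hq hc hA hD hS (hx j) (hx i) (ha j) (ha i)
    · subst h
      rw [if_neg (lt_irrefl _), if_neg (lt_irrefl _)]
      exact (fr_alt χ hq hc hA hD hS (hx j) (ha j)).symm
    · rw [if_neg (lt_asymm h), if_pos h, he i j h]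
  have hrow : ∀ j, (H3.FS.altm e).mulVec v j = ∑ i, v i * fr χ S (a i) (x j) := by
    intro j
    unfold Matrix.mulVec dotProduct
    exact Finset.sum_congr rfl fun i _ => (congrArg (fun z => z * v i) (hent i j)).trans (mul_comm _ _)
  constructor
  · intro h
    funext j
    rw [hrow j, h j]
    rfl
  · intro h j
    rw [← hrow j, h]
    rfl

end Pool.Agent.H40.FS
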