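import Pool.Agent.H40.FS.CMP
import Pool.Agent.H40.FS.OU1
import Pool.Agent.H40.FS.OU3
import Pool.Agent.H74.FS.CLH
import Pool.Agent.H3.FS.FIN

set_option autoImplicit false

/-!
# [H40 FS OUT] The hypothesis on the cells

Assembly of the chapters of helper40 and helper74.
-/

namespace Pool.Agent.H40.FS

open Polynomial WithZero Pool.Agent.H74.FS
open Pool.Agent.H94.PL (LChar XX DK AK dl)
open Pool.Agent.H94.PM (LU vl IsVln IsSln)
open Pool.Agent.H94.PN (SelC SomeDtv)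
open Pool.Agent.H94.PC (pf js mem_pf)
open Pool.Agent.H3.FS (CellD Gd Rt Ind ix prs)

section
variable {F : Type} [Field F]

theorem el_eval {r : ℕ} {a : Fin (r * 2) → F[X]} {i j : Fin r} (G : Gd a i j)
    (ρ : Fin (r * 2) → F[X]) :
    MvPolynomial.eval ρ G.el = gle G.g G.X G.Z (ρ (ix i 0)) (ρ (ix i 1)) := by
  simp only [H3.FS.Gd.el, H3.FS.gel, gle, map_mul, map_add, MvPolynomial.eval_C,
    MvPolynomial.eval_X, map_ofNat]

theorem js_ndvd [Finite F] {f P : F[X]} (hP : P.Monic ∧ Irreducible P) (h : js f P ≠ 0) :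
    ¬ P ∣ f := by
  intro hd
  refine h ((H94.PC.js_eq_zero hP.1).2 fun hc => ?_)
  exact hP.2.not_isUnit (hc.isUnit_of_dvd' hd dvd_rfl)

theorem js_pm [Finite F] {f P : F[X]} (hP : P.Monic ∧ Irreducible P) (h : js f P ≠ 0) :
    js f P = 1 ∨ js f P = -1 := by
  have h1 : IsCoprime f P := by
    by_contra hc
    exact h ((H94.PC.js_eq_zero hP.1).2 hc)
  exact H94.PC.js_cases' hP.1 h1

theorem rt_ex {r : ℕ} {a : Fin r → F[X]} {P : F[X]} {m : ℕ} (hP : P.Monic) (hm : P.natDegree = m)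
    (hm1 : 1 ≤ m) (h : ∀ i, ∃ ρ : F[X], P ∣ ρ ^ 2 - a i) : ∃ ρ, ρ ∈ Rt m P a := by
  choose ρ hρ using h
  refine ⟨fun i => ρ i %ₘ P, fun i => ?_, fun i => ?_⟩
  · rw [← hm]
    refine natDegree_modByMonic_lt _ hP ?_
    rintro rfl
    rw [natDegree_one] at hm
    omega
  · have h1 : P ∣ ρ i %ₘ P - ρ i := by
      have h2 := modByMonic_add_div (ρ i) P
      refine ⟨-(ρ i /ₘ P), ?_⟩
      linear_combination h2
    have h3 : (ρ i %ₘ P) ^ 2 - a i = (ρ i %ₘ P - ρ i) * (ρ i %ₘ P + ρ i) + (ρ i ^ 2 - a i) := by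
      ring
    show P ∣ (ρ i %ₘ P) ^ 2 - a i
    rw [h3]
    exact dvd_add (h1.mul_right _) (hρ i)

end

section
variable {F : Type} [Field F] [DecidableEq (RatFunc F)] {A : Fin 3 → F[X]} {D' : F[X]}

theorem sb_ex (hA : ∀ i k, i ≠ k → A i ≠ A k) (hD : D' ≠ 0) :
    ∃ S : Finset (Pl F), (none : Pl F) ∈ S ∧
      ∀ (v : F[X]) (hv : v.Monic ∧ Irreducible v), some ⟨v, hv⟩ ∈ S ↔ v ∣ D' * dl A := by
  obtain ⟨S, h1, h3⟩ := exists_bad hA hD
  exact ⟨S, h1.inf, fun v hv => ⟨h3 v hv, h1.fin v hv⟩⟩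

omit [DecidableEq (RatFunc F)] in
open Classical in
theorem bad_ins {S : Finset (Pl F)} (h0 : (none : Pl F) ∈ S)
    (h1 : ∀ (v : F[X]) (hv : v.Monic ∧ Irreducible v), some ⟨v, hv⟩ ∈ S ↔ v ∣ D' * dl A)
    {P : F[X]} (hP : P.Monic ∧ Irreducible P) :
    Bad A (D' * P) (insert (some ⟨P, hP⟩) S) := by
  refine ⟨Finset.mem_insert_of_mem h0, fun v hv hd => ?_⟩
  have h2 : v ∣ (D' * dl A) * P := by
    have : D' * dl A * P = D' * P * dl A := by ring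
    rw [this]
    exact hd
  rcases hv.2.prime.dvd_or_dvd h2 with h3 | h3
  · exact Finset.mem_insert_of_mem ((h1 v hv).2 h3)
  · have h4 : v = P := eq_of_monic_of_associated hv.1 hP.1 (hv.2.associated_of_dvd hP.2 h3)
    subst h4
    exact Finset.mem_insert_self _ _

end

section
variable {F : Type} [Field F] [Finite F] [DecidableEq (RatFunc F)] [DecidableEq (Oc F)]
    [∀ w : Pl F, DecidableEq (Ow F w)] (χ : LChar F 2) {A : Fin 3 → F[X]} {c : F} {D' : F[X]}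
    {m : ℕ} {τ : F[X] → ℝ} {S : Finset (Pl F)}

open Classical in
/-- the comparison of two primes of the cell, also if they are equal -/
theorem cmp2 (hq : 2 ∣ Nat.card F - 1) (hc : c ≠ 0) (hA : ∀ i k, i ≠ k → A i ≠ A k)
    (hD : D' ≠ 0) (hm : ∀ v ∈ pf (D' * dl A), v.natDegree < m) (h0 : (none : Pl F) ∈ S)
    (h1 : ∀ (v : F[X]) (hv : v.Monic ∧ Irreducible v), some ⟨v, hv⟩ ∈ S ↔ v ∣ D' * dl A)
    {x y : Fin 3 → F[X]}
    (hxs : Squarefree (x 0) ∧ Squarefree (x 1) ∧ x 2 = x 0 * x 1)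
    (hys : Squarefree (y 0) ∧ Squarefree (y 1) ∧ y 2 = y 0 * y 1)
    (hx : ∀ P ∈ CellD (dl A) D' m τ, IsSln 2 1 c A (D' * P) (up3 x))
    (hy : ∀ P ∈ CellD (dl A) D' m τ, IsSln 2 1 c A (D' * P) (up3 y))
    (sx : ∀ (P : F[X]) (h : P ∈ CellD (dl A) D' m τ) (k : Fin 3),
      IsSquare (iw (some ⟨P, cell_mem h⟩ : Pl F) (up3 x k)))
    (sy : ∀ (P : F[X]) (h : P ∈ CellD (dl A) D' m τ) (k : Fin 3),
      IsSquare (iw (some ⟨P, cell_mem h⟩ : Pl F) (up3 y k)))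
    {d g : F[X]} {X Z W : Fin 3 → F[X]} (hCD : CD ![x 0, x 1] ![y 0, y 1] d X Z W) (hg : g ≠ 0)
    (hg1 : ∀ w : Pl F, w ∉ S → vw w (pm w d) = 1 → ev w (pm w (g * (X 0 * X 1 * X 2))) = 0)
    (hg2 : ∀ w : Pl F, w ∉ S → vw w (pm w d) ≠ 1 → ∃ r : Fin 2 → Kw F w,
        (∀ i, r i ^ 2 = pm w (![x 0, x 1] i)) ∧
        ev w (gle (pm w g) (fun l => pm w (X l)) (fun l => pm w (Z l)) (r 0) (r 1)) = 0)
    {P P₁ : F[X]} (h : P ∈ CellD (dl A) D' m τ) (h₁ : P₁ ∈ CellD (dl A) D' m τ) (hne : P ≠ P₁)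
    {a : GF F → Pt (eD c A (D' * P)) (Oc F)}
    (ha : GLf (insert (some ⟨P, cell_mem h⟩) S) c A (D' * P) (up3 x) a)
    {a₁ : GF F → Pt (eD c A (D' * P₁)) (Oc F)}
    (ha₁ : GLf (insert (some ⟨P₁, cell_mem h₁⟩) S) c A (D' * P₁) (up3 x) a₁)
    {ρ ρ₁ : Fin 2 → F[X]} (hρ : ∀ i, P ∣ ρ i ^ 2 - ![x 0, x 1] i)
    (hρ₁ : ∀ i, P₁ ∣ ρ₁ i ^ 2 - ![x 0, x 1] i) (hn : ¬ P ∣ gle g X Z (ρ 0) (ρ 1))
    (hn₁ : ¬ P₁ ∣ gle g X Z (ρ₁ 0) (ρ₁ 1)) :
    H94.PC.sg (fr χ (insert (some ⟨P, cell_mem h⟩) S) a (up3 y)) *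
      H94.PC.sg (fr χ (insert (some ⟨P₁, cell_mem h₁⟩) S) a₁ (up3 y)) =
      js (gle g X Z (ρ 0) (ρ 1)) P * js (gle g X Z (ρ₁ 0) (ρ₁ 1)) P₁ := by
  have hSU : SU A D' (some ⟨P, cell_mem h⟩) (some ⟨P₁, cell_mem h₁⟩) S
      (insert (some ⟨P, cell_mem h⟩) S) (insert (some ⟨P₁, cell_mem h₁⟩) S) := by
    refine ⟨h0, h1, fun w => ?_, fun w => ?_⟩
    · rw [Finset.mem_insert, or_comm]
    · rw [Finset.mem_insert, or_comm]
  exact cmp χ hq hc hA hD hm h h₁ hne hSU hxs hys (hx P h) (hx P₁ h₁) (hy P h) (hy P₁ h₁)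
    (sx P h) (sx P₁ h₁) (sy P h) (sy P₁ h₁) hCD hg hg1 hg2 ha ha₁ hρ hρ₁ hn hn₁

end

section
variable {F : Type} [Field F] [Finite F] [DecidableEq (RatFunc F)] [DecidableEq (Oc F)]
    [∀ w : Pl F, DecidableEq (Ow F w)] (χ : LChar F 2) {A : Fin 3 → F[X]} {c : F} {D' : F[X]}
    {m : ℕ} {τ : F[X] → ℝ}

theorem sgj {a b j j' : ℝ} (ha : a * a = 1) (h : b * a = j * j') : a * j' * j = b := by
  have h1 : a * j' * j = a * (b * a) := by rw [h]; ring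
  rw [h1]
  calc a * (b * a) = (a * a) * b := by ring
    _ = b := by rw [ha, one_mul]

open Classical in
theorem out_cell (hq : 2 ∣ Nat.card F - 1) (hc : c ≠ 0) (hA : ∀ i k, i ≠ k → A i ≠ A k) {C₀ : ℕ}
    (hC : ∀ (x y : Fin 3 → F[X]) (S : Finset (Pl F))
    (n : ℕ), (∀ i, x i ≠ 0) → (∀ i, y i ≠ 0) → ¬ IsSquare (x 0) → ¬ IsSquare (x 1) →
    ¬ IsSquare (x 0 * x 1) → (∀ w : Pl F, hp χ w (x 0) (y 1) + hp χ w (x 1) (y 0) = 0) →
    (none : Pl F) ∈ S → (∀ w : Pl F, w ∉ S → ∀ k, vw w (pm w (x k)) = 1) →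
    (∀ w : Pl F, w ∉ S → ∀ k, vw w (pm w (y k)) = 1) → (∀ k, (x k).natDegree ≤ n) →
    (∀ k, (y k).natDegree ≤ n) →
    ∃ (d g : F[X]) (X Z W : Fin 3 → F[X]), CD ![x 0, x 1] ![y 0, y 1] d X Z W ∧ g ≠ 0 ∧
      (∀ w : Pl F, w ∉ S → vw w (pm w d) = 1 → ev w (pm w (g * (X 0 * X 1 * X 2))) = 0) ∧
      (∀ w : Pl F, w ∉ S → vw w (pm w d) ≠ 1 → ∃ r : Fin 2 → Kw F w,
        (∀ i, r i ^ 2 = pm w (![x 0, x 1] i)) ∧
        ev w (gle (pm w g) (fun l => pm w (X l)) (fun l => pm w (Z l)) (r 0) (r 1)) = 0) ∧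
      g.natDegree ≤ C₀ * (n + 1) ∧
      ∀ l, (X l).natDegree ≤ C₀ * (n + 1) ∧ (Z l).natDegree ≤ C₀ * (n + 1))
    (hD : D' ≠ 0) (hm1 : 1 ≤ m) (hm : ∀ v ∈ pf (D' * dl A), v.natDegree < m) {r : ℕ} {P₀ : F[X]}
    (h₀ : P₀ ∈ CellD (dl A) D' m τ)
    (hR : Nat.card (SelC 2 1 c A (D' * P₀)) = 2 ^ (2 + r))
    (hI : H94.FS.Idp 1 c A (D' * P₀) P₀) {h : ℕ} (hh1 : 2 * (D' * dl A).natDegree ≤ h)
    (hh2 : C₀ * (2 * (D' * dl A).natDegree + 1) ≤ h) :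
    H3.FS.HCell (dl A) (fun D => Nat.card (SelC 2 1 c A D)) (fun D => Nat.card (S4C c A D))
      (fun D P => H94.FS.Idp 1 c A D P) r h D' m τ := by
  obtain ⟨x, hxs, hxd, hind, hhp, hcell⟩ := cell χ hq hc hA hD hm h₀ hR hI
  obtain ⟨S, h0, h1⟩ := sb_ex hA hD
  have hsln : ∀ i, ∀ P ∈ CellD (dl A) D' m τ, IsSln 2 1 c A (D' * P) (up3 (x i)) :=
    fun i P h => (hcell P h).2.2.1 i
  have hsq : ∀ (i : Fin r) (P : F[X]) (h : P ∈ CellD (dl A) D' m τ) (k : Fin 3),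
      IsSquare (iw (some ⟨P, cell_mem h⟩ : Pl F) (up3 (x i) k)) :=
    fun i P h k => (hcell P h).2.2.2.1 i k
  have hx0 : ∀ i k, x i k ≠ 0 := by
    intro i k hk
    refine (hsln i P₀ h₀).ne k ?_
    show algebraMap F[X] (RatFunc F) (x i k) = 0
    rw [hk, map_zero]
  have hun : ∀ (i : Fin r) (w : Pl F), w ∉ S → ∀ k, vw w (pm w (x i k)) = 1 := by
    intro i w hw k
    have hSU : SU A D' (some ⟨P₀, cell_mem h₀⟩) (some ⟨P₀, cell_mem h₀⟩) S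
        (insert (some ⟨P₀, cell_mem h₀⟩) S) (insert (some ⟨P₀, cell_mem h₀⟩) S) := by
      refine ⟨h0, h1, fun w => ?_, fun w => ?_⟩
      · rw [Finset.mem_insert, or_comm]
      · rw [Finset.mem_insert, or_comm]
    exact cmp_unit hq hc hA hD hSU (bad_ins h0 h1 (cell_mem h₀)) (cell_mem h₀).1.ne_zero
      (hxs i) (hsln i P₀ h₀) (hsq i P₀ h₀) hw k
  have hns0 : ∀ i, ¬ IsSquare (x i 0) := by
    rintro i ⟨g, hg⟩
    refine hind {ix i 0} (Finset.singleton_nonempty _) 1 g ?_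
    rw [Finset.prod_singleton, bas_0, hg, C_1]
    ring
  have hns1 : ∀ i, ¬ IsSquare (x i 1) := by
    rintro i ⟨g, hg⟩
    refine hind {ix i 1} (Finset.singleton_nonempty _) 1 g ?_
    rw [Finset.prod_singleton, bas_1, hg, C_1]
    ring
  have hns2 : ∀ i, ¬ IsSquare (x i 0 * x i 1) := by
    rintro i ⟨g, hg⟩
    refine hind {ix i 0, ix i 1} (Finset.insert_nonempty _ _) 1 g ?_
    have hne : ix i 0 ≠ ix i 1 := by
      intro he
      have h3 : ((i, 0) : Fin r × Fin 2) = (i, 1) := finProdFinEquiv.injective he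
      exact absurd (Prod.mk.inj h3).2 (by decide)
    rw [Finset.prod_pair hne, bas_0, bas_1, hg, C_1]
    ring
  have key := fun p : Fin r × Fin r => hC (x p.1) (x p.2) S (2 * (D' * dl A).natDegree)
    (hx0 p.1) (hx0 p.2) (hns0 p.1) (hns1 p.1) (hns2 p.1) (fun w => hhp p.1 p.2 w) h0
    (hun p.1) (hun p.2) (hxd p.1) (hxd p.2)
  choose d g X Z W hCD hg hg1 hg2 hgd hXd using key
  let G : ∀ p : Fin r × Fin r, p ∈ prs r → Gd (bas x) p.1 p.2 := fun p _ =>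
    { g := g p
      c := d p
      X := X p
      Z := Z p
      W := W p
      g0 := hg p
      c0 := (hCD p).c0
      X0 := (hCD p).X0
      W0 := (hCD p).W0
      e0 := by
        rw [bas_0, bas_1]
        exact (hCD p).e0
      e1 := by
        rw [bas_0, bas_1]
        exact (hCD p).e1
      e2 := by
        rw [bas_0, bas_1]
        exact (hCD p).e2 }
  have hGe : ∀ (p : Fin r × Fin r) (hp : p ∈ prs r) (ρ : Fin (r * 2) → F[X]),
      MvPolynomial.eval ρ (G p hp).el = gle (g p) (X p) (Z p) (ρ (ix p.1 0)) (ρ (ix p.1 1)) :=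
    fun p hp ρ => el_eval (G p hp) ρ
  have hDG : ∀ p hp, (G p hp).Dg h := by
    intro p hp
    exact ⟨(hgd p).trans hh2, fun l => ⟨((hXd p l).1).trans hh2, ((hXd p l).2).trans hh2⟩⟩
  have hl : ∀ (P : F[X]) (hP : P ∈ CellD (dl A) D' m τ) (i : Fin r),
      ∃ a : GF F → Pt (eD c A (D' * P)) (Oc F),
        GLf (insert (some ⟨P, cell_mem hP⟩) S) c A (D' * P) (up3 (x i)) a := by
    intro P hP i
    obtain ⟨a, ha, -⟩ := alt_ex χ hq hc hA (mul_ne_zero hD (cell_mem hP).1.ne_zero)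
      (bad_ins h0 h1 (cell_mem hP)) (hsln i P hP)
    exact ⟨a, ha⟩
  choose aa haa using hl
  have hrt : ∀ (P : F[X]) (hP : P ∈ CellD (dl A) D' m τ), ∃ ρ, ρ ∈ Rt m P (bas x) := by
    intro P hP
    refine rt_ex (cell_mem hP).1 (H94.PC.mem_Pr.1 hP.1).2.1 hm1 fun j => ?_
    exact (hcell P hP).2.2.2.2.1 _ _
  have hroots : ∀ P ∈ CellD (dl A) D' m τ, ∀ j, ∃ ρ, P ∣ ρ ^ 2 - bas x j :=
    fun P hP j => (hcell P hP).2.2.2.2.1 _ _
  have hconst : ∀ P ∈ CellD (dl A) D' m τ, Nat.card (SelC 2 1 c A (D' * P)) = 2 ^ (2 + r) ∧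
      H94.FS.Idp 1 c A (D' * P) P := fun P hP => ⟨(hcell P hP).1, (hcell P hP).2.1⟩
  have hdeg : ∀ i, (bas x i).natDegree ≤ h := fun i => (hxd _ _).trans hh1
  by_cases H : ∃ (P₁ : F[X]) (_ : P₁ ∈ CellD (dl A) D' m τ), ∀ (p : Fin r × Fin r)
      (hp : p ∈ prs r), ∀ ρ ∈ Rt m P₁ (bas x), js (MvPolynomial.eval ρ (G p hp).el) P₁ ≠ 0
  · obtain ⟨P₁, h₁, H⟩ := H
    obtain ⟨ρ₁, hρ₁⟩ := hrt P₁ h₁
    refine ⟨hconst, bas x, G, fun p => if hp : p ∈ prs r then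
      H94.PC.sg (fr χ (insert (some ⟨P₁, cell_mem h₁⟩) S) (aa P₁ h₁ p.1) (up3 (x p.2))) *
        js (MvPolynomial.eval ρ₁ (G p hp).el) P₁ else 1, hind, hdeg, hDG, ?_, hroots, ?_⟩
    · intro p
      beta_reduce
      by_cases hp : p ∈ prs r
      · rw [dif_pos hp]
        rcases H94.PC.sg_cases (fr χ (insert (some ⟨P₁, cell_mem h₁⟩) S) (aa P₁ h₁ p.1)
          (up3 (x p.2))) with h5 | h5 <;>
        rcases js_pm (cell_mem h₁) (H p hp ρ₁ hρ₁) with h6 | h6 <;> rw [h5, h6] <;> norm_num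
      · rw [dif_neg hp]
        exact Or.inl rfl
    · intro P hP hnv e he
      refine rad_kc χ hq hc hA (mul_ne_zero hD (cell_mem hP).1.ne_zero)
        (bad_ins h0 h1 (cell_mem hP)) (fun i => hsln i P hP) (hcell P hP).2.2.2.2.2
        (fun i => haa P hP i) ?_
      intro i j hij
      have hp : (i, j) ∈ prs r := by
        rw [prs, Finset.mem_filter]
        exact ⟨Finset.mem_univ _, hij⟩
      apply H94.PC.sg_inj
      by_cases hPP : P = P₁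
      · subst hPP
        have h5 := he (i, j) hp ρ₁ hρ₁
        beta_reduce at h5
        rw [dif_pos hp] at h5
        rw [h5]
        rcases js_pm (cell_mem h₁) (H (i, j) hp ρ₁ hρ₁) with h6 | h6 <;> rw [h6] <;> ring
      · obtain ⟨ρ, hρ⟩ := hrt P hP
        have h5 := he (i, j) hp ρ hρ
        beta_reduce at h5
        rw [dif_pos hp, hGe (i, j) hp ρ₁, hGe (i, j) hp ρ] at h5
        rw [h5]
        have hn := js_ndvd (cell_mem hP) (hnv (i, j) hp ρ hρ)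
        have hn₁ := js_ndvd (cell_mem h₁) (H (i, j) hp ρ₁ hρ₁)
        rw [hGe (i, j) hp ρ] at hn
        rw [hGe (i, j) hp ρ₁] at hn₁
        refine sgj (H94.PC.sg_mul_self _) ?_
        have hr : ∀ {Q : F[X]} {s : Fin (r * 2) → F[X]}, s ∈ Rt m Q (bas x) →
            ∀ k : Fin 2, Q ∣ ![s (ix i 0), s (ix i 1)] k ^ 2 - ![x i 0, x i 1] k := by
          intro Q s hs k
          fin_cases k
          · have := hs.2 (ix i 0)
            rw [bas_0] at this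
            exact this
          · have := hs.2 (ix i 1)
            rw [bas_1] at this
            exact this
        exact cmp2 χ hq hc hA hD hm h0 h1 (hxs i) (hxs j) (hsln i) (hsln j) (hsq i) (hsq j)
          (hCD (i, j)) (hg (i, j)) (hg1 (i, j)) (hg2 (i, j)) hP h₁ hPP (haa P hP i)
          (haa P₁ h₁ i) (ρ := ![ρ (ix i 0), ρ (ix i 1)]) (ρ₁ := ![ρ₁ (ix i 0), ρ₁ (ix i 1)])
          (hr hρ) (hr hρ₁) hn hn₁
  · refine ⟨hconst, bas x, G, fun _ => 1, hind, hdeg, hDG, fun _ => Or.inl rfl, hroots, ?_⟩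
    intro P hP hnv
    exact absurd ⟨P, hP, hnv⟩ H

end

theorem out (F : Type) [Field F] [Finite F] [DecidableEq (RatFunc F)] [DecidableEq (Oc F)]
    [∀ w : Pl F, DecidableEq (Ow F w)] (h2 : (2 : F) ≠ 0) (A : Fin 3 → F[X])
    (hA : ∀ i k, i ≠ k → A i ≠ A k) (c : F) (hc : c ≠ 0) (T : F[X] → Prop) :
    H3.FS.Hyp (dl A) T (fun D => Nat.card (SelC 2 1 c A D)) (fun D => Nat.card (S4C c A D))
      (fun D P => H94.FS.Idp 1 c A D P) := by
  have hq := H3.FS.fin_q (F := F) h2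
  obtain ⟨χ⟩ := H94.PL.exists_LChar F Nat.prime_two hq
  obtain ⟨C₀, hC₀⟩ := ou_gd χ hq
  intro r
  refine ⟨2 * ((dl A).natDegree + 1) + C₀ * (2 * ((dl A).natDegree + 1) + 1) + 1, ?_⟩
  intro D' m τ hDm _ hm1 hm P₀ h₀ _ hR hI
  have hD : D' ≠ 0 := hDm.ne_zero
  obtain ⟨δ, hδ⟩ : ∃ δ, δ = (dl A).natDegree := ⟨_, rfl⟩
  obtain ⟨n, hn⟩ : ∃ n, n = D'.natDegree + m + 1 := ⟨_, rfl⟩
  have h1 : (D' * dl A).natDegree ≤ (δ + 1) * n := by
    refine natDegree_mul_le.trans ?_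
    rw [← hδ]
    have : D'.natDegree ≤ n := by omega
    have h3 : 1 ≤ n := by omega
    nlinarith
  have hn1 : 1 ≤ n := by omega
  rw [← hδ, ← hn]
  obtain ⟨C, hC⟩ : ∃ C, C = 2 * (δ + 1) + C₀ * (2 * (δ + 1) + 1) + 1 := ⟨_, rfl⟩
  rw [← hC]
  have h3 : C * n ≤ C * n ^ C := by
    refine Nat.mul_le_mul_left _ ?_
    refine Nat.le_self_pow ?_ n
    omega
  refine out_cell χ hq hc hA hC₀ hD hm1 hm h₀ hR hI (le_trans ?_ h3) (le_trans ?_ h3)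
  · calc 2 * (D' * dl A).natDegree ≤ 2 * ((δ + 1) * n) := Nat.mul_le_mul_left _ h1
      _ = 2 * (δ + 1) * n := by ring
      _ ≤ C * n := Nat.mul_le_mul_right _ (by omega)
  · calc C₀ * (2 * (D' * dl A).natDegree + 1) ≤ C₀ * (2 * ((δ + 1) * n) + n) := by
          refine Nat.mul_le_mul_left _ ?_
          omega
      _ = C₀ * (2 * (δ + 1) + 1) * n := by ring
      _ ≤ C * n := Nat.mul_le_mul_right _ (by omega)

end Pool.Agent.H40.FS
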