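import Pool.Agent.H40.FS.TAU

set_option autoImplicit false

/-!
# [H40 FS PSI] Twists

`c ≠ 0` in `L`, `e' k = c² e k` in `L`: `(x, y) ↦ (c² x, c³ y)` maps `y² = ∏ (x - e k)` to `y² = ∏ (x - e' k)` (`eqn_iff`, `nonsing_iff` of `H94/MW/Defs`; nonsingular points go to nonsingular points: here the curves are elliptic, `2 ≠ 0`, `e` injective, so also `e'`).
* `psi_some`: the condition in the definition holds.
* `psi_add`: cases of the addition: `0`; opposite points; otherwise the slope is multiplied by `c` (`slope_of_X_ne`, `slope_of_Y_ne`), so `x`, `y` of the sum by `c²`, `c³`.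
* `psi_tau`: `(e k, 0) ↦ (c² e k, 0)`.  `psi_neg`: `(-c)² = c²`, `(-c)³ = - c³`, `- (x, y) = (x, -y)`.  `act_psi`: by definition.
-/

namespace Pool.Agent.H40.FS

open WeierstrassCurve Pool.Agent.H94.MW Pool.Agent.H94.PL

variable {K : Type} [Field K] {e e' : Fin 3 → K} {L : Type} [Field L] [Algebra K L] [DecidableEq L]
  {L' : Type} [Field L'] [Algebra K L'] [DecidableEq L']

private theorem psi_map (L : Type) [Field L] [Algebra K L] (e : Fin 3 → K) :
    ((crv e)⁄L) = crv fun k => algebraMap K L (e k) := by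
  apply WeierstrassCurve.ext
  · show algebraMap K L 0 = 0
    rw [map_zero]
  · show algebraMap K L (-(e 0 + e 1 + e 2)) = _
    rw [map_neg, map_add, map_add]
    rfl
  · show algebraMap K L 0 = 0
    rw [map_zero]
  · show algebraMap K L (e 0 * e 1 + e 0 * e 2 + e 1 * e 2) = _
    rw [map_add, map_add, map_mul, map_mul, map_mul]
    rfl
  · show algebraMap K L (-(e 0 * e 1 * e 2)) = _
    rw [map_neg, map_mul, map_mul]
    rfl

private theorem psi_two (L : Type) [Field L] [Algebra K L] (h2 : (2 : K) ≠ 0) : (2 : L) ≠ 0 := by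
  intro h
  apply h2
  apply (algebraMap K L).injective
  rw [map_ofNat, map_zero, h]

private theorem psi_ns (L : Type) [Field L] [Algebra K L] (h2 : (2 : K) ≠ 0) {e : Fin 3 → K}
    (he : Function.Injective e) (x y : L) :
    ((crv e)⁄L).toAffine.Nonsingular x y ↔ y ^ 2 = ∏ i, (x - algebraMap K L (e i)) := by
  rw [psi_map]
  exact nonsing_iff (psi_two L h2) ((algebraMap K L).injective.comp he) x y

private theorem psi_inj {c : L} (he : Function.Injective e) (hc : c ≠ 0)
    (h : ∀ k, algebraMap K L (e' k) = c ^ 2 * algebraMap K L (e k)) : Function.Injective e' := by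
  intro i j hij
  apply he
  apply (algebraMap K L).injective
  have h1 := h i
  rw [hij, h j] at h1
  exact (mul_left_cancel₀ (pow_ne_zero 2 hc) h1).symm

private theorem psi_ns' (h2 : (2 : K) ≠ 0) (he : Function.Injective e) {c : L} (hc : c ≠ 0)
    (h : ∀ k, algebraMap K L (e' k) = c ^ 2 * algebraMap K L (e k)) {x y : L}
    (hn : ((crv e)⁄L).toAffine.Nonsingular x y) :
    ((crv e')⁄L).toAffine.Nonsingular (c ^ 2 * x) (c ^ 3 * y) := by
  rw [psi_ns L h2 he] at hn
  rw [psi_ns L h2 (psi_inj he hc h), Fin.prod_univ_three, h, h, h]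
  rw [Fin.prod_univ_three] at hn
  linear_combination c ^ 6 * hn

private theorem psi_some (h2 : (2 : K) ≠ 0) (he : Function.Injective e) {c : L} (hc : c ≠ 0)
    (h : ∀ k, algebraMap K L (e' k) = c ^ 2 * algebraMap K L (e k)) {x y : L}
    (hn : ((crv e)⁄L).toAffine.Nonsingular x y) :
    psi e e' c (.some x y hn) = .some (c ^ 2 * x) (c ^ 3 * y) (psi_ns' h2 he hc h hn) :=
  dif_pos (psi_ns' h2 he hc h hn)

private theorem some_eq {W : WeierstrassCurve L} {x y x' y' : L} {h : W.toAffine.Nonsingular x y}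
    {h' : W.toAffine.Nonsingular x' y'} (hx : x = x') (hy : y = y') :
    Affine.Point.some x y h = Affine.Point.some x' y' h' := by
  subst hx hy
  rfl

private theorem gen_add {W W' : WeierstrassCurve L} {c : L} (hc : c ≠ 0) (h1 : W.a₁ = 0)
    (h3 : W.a₃ = 0) (h1' : W'.a₁ = 0) (h3' : W'.a₃ = 0) (ha2 : W'.a₂ = c ^ 2 * W.a₂)
    (ha4 : W'.a₄ = c ^ 4 * W.a₄) (φ : W.toAffine.Point → W'.toAffine.Point) (h0 : φ 0 = 0)
    (hN : ∀ x y, W.toAffine.Nonsingular x y → W'.toAffine.Nonsingular (c ^ 2 * x) (c ^ 3 * y))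
    (hs : ∀ x y h, φ (.some x y h) = .some _ _ (hN x y h)) (P Q : W.toAffine.Point) :
    φ (P + Q) = φ P + φ Q := by
  have hcc : c ^ 2 ≠ 0 := pow_ne_zero 2 hc
  have hccc : c ^ 3 ≠ 0 := pow_ne_zero 3 hc
  cases P with
  | zero =>
    show φ (0 + Q) = φ 0 + φ Q
    rw [zero_add, h0, zero_add]
  | some x₁ y₁ hn₁ =>
    cases Q with
    | zero =>
      show φ (_ + 0) = _ + φ 0
      rw [add_zero, h0, add_zero]
    | some x₂ y₂ hn₂ =>
      have hnY : ∀ x y, W.toAffine.negY x y = -y := fun x y => by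
        show -y - W.a₁ * x - W.a₃ = _
        rw [h1, h3]
        ring
      have hnY' : ∀ x y, W'.toAffine.negY x y = -y := fun x y => by
        show -y - W'.a₁ * x - W'.a₃ = _
        rw [h1', h3']
        ring
      by_cases hxy : x₁ = x₂ ∧ y₁ = W.toAffine.negY x₂ y₂
      · rw [Affine.Point.add_of_Y_eq hxy.1 hxy.2, h0, hs, hs, Affine.Point.add_of_Y_eq]
        · rw [hxy.1]
        · rw [hxy.2, hnY, hnY', mul_neg]
      · have hxy' : ¬ (c ^ 2 * x₁ = c ^ 2 * x₂ ∧ c ^ 3 * y₁ = W'.toAffine.negY (c ^ 2 * x₂) (c ^ 3 * y₂)) := by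
          rintro ⟨h5, h6⟩
          apply hxy
          refine ⟨mul_left_cancel₀ hcc h5, ?_⟩
          rw [hnY', ← mul_neg] at h6
          rw [hnY]
          exact mul_left_cancel₀ hccc h6
        have hsl : W'.toAffine.slope (c ^ 2 * x₁) (c ^ 2 * x₂) (c ^ 3 * y₁) (c ^ 3 * y₂) =
            c * W.toAffine.slope x₁ x₂ y₁ y₂ := by
          by_cases hx : x₁ = x₂
          · have hy : y₁ ≠ W.toAffine.negY x₂ y₂ := fun h => hxy ⟨hx, h⟩
            have hy' : c ^ 3 * y₁ ≠ W'.toAffine.negY (c ^ 2 * x₂) (c ^ 3 * y₂) :=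
              fun h => hxy' ⟨by rw [hx], h⟩
            rw [Affine.slope_of_Y_ne hx hy, Affine.slope_of_Y_ne (by rw [hx]) hy', hnY, hnY', h1, h1',
              ha2, ha4]
            have hyy : y₁ - -y₁ ≠ 0 := by
              intro h7
              have h8 : y₁ = W.toAffine.negY x₁ y₁ := by
                rw [hnY]
                linear_combination h7
              subst hx
              rcases Affine.Y_eq_of_X_eq hn₁.1 hn₂.1 rfl with h9 | h9
              · apply hy
                rw [h9] at h8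
                rw [h9]
                exact h8
              · exact hy h9
            have hcy : c ^ 3 * y₁ - -(c ^ 3 * y₁) ≠ 0 := by
              have : c ^ 3 * y₁ - -(c ^ 3 * y₁) = c ^ 3 * (y₁ - -y₁) := by ring
              rw [this]
              exact mul_ne_zero hccc hyy
            rw [mul_div_assoc', div_eq_div_iff hcy hyy]
            ring
          · have hx' : c ^ 2 * x₁ ≠ c ^ 2 * x₂ := fun h => hx (mul_left_cancel₀ hcc h)
            rw [Affine.slope_of_X_ne hx, Affine.slope_of_X_ne hx', mul_div_assoc',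
              div_eq_div_iff (sub_ne_zero.2 hx') (sub_ne_zero.2 hx)]
            ring
        rw [Affine.Point.add_some hxy, hs, hs, hs, Affine.Point.add_some hxy']
        have hX : W'.toAffine.addX (c ^ 2 * x₁) (c ^ 2 * x₂)
            (W'.toAffine.slope (c ^ 2 * x₁) (c ^ 2 * x₂) (c ^ 3 * y₁) (c ^ 3 * y₂)) =
            c ^ 2 * W.toAffine.addX x₁ x₂ (W.toAffine.slope x₁ x₂ y₁ y₂) := by
          rw [hsl]
          unfold Affine.addX
          rw [h1, h1', ha2]
          ring
        apply some_eq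
        · exact hX.symm
        · unfold Affine.addY Affine.negAddY
          rw [hnY, hnY', hX, hsl]
          ring

theorem psi_zero (c : L) : psi e e' c 0 = 0 := rfl

theorem psi_add (h2 : (2 : K) ≠ 0) (he : Function.Injective e) {c : L} (hc : c ≠ 0)
    (h : ∀ k, algebraMap K L (e' k) = c ^ 2 * algebraMap K L (e k)) (P Q : Pt e L) :
    psi e e' c (P + Q) = psi e e' c P + psi e e' c Q := by
  refine gen_add hc ?_ ?_ ?_ ?_ ?_ ?_ (psi e e' c) rfl (fun x y hn => psi_ns' h2 he hc h hn)
    (fun x y hn => psi_some h2 he hc h hn) P Q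
  · show algebraMap K L 0 = 0
    rw [map_zero]
  · show algebraMap K L 0 = 0
    rw [map_zero]
  · show algebraMap K L 0 = 0
    rw [map_zero]
  · show algebraMap K L 0 = 0
    rw [map_zero]
  · show algebraMap K L (-(e' 0 + e' 1 + e' 2)) = c ^ 2 * algebraMap K L (-(e 0 + e 1 + e 2))
    rw [map_neg, map_add, map_add, map_neg, map_add, map_add, h, h, h]
    ring
  · show algebraMap K L (e' 0 * e' 1 + e' 0 * e' 2 + e' 1 * e' 2) =
      c ^ 4 * algebraMap K L (e 0 * e 1 + e 0 * e 2 + e 1 * e 2)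
    rw [map_add, map_add, map_add, map_add, map_mul, map_mul, map_mul, map_mul, map_mul, map_mul,
      h, h, h]
    ring

theorem psi_tau (h2 : (2 : K) ≠ 0) (he : Function.Injective e) {c : L} (hc : c ≠ 0)
    (h : ∀ k, algebraMap K L (e' k) = c ^ 2 * algebraMap K L (e k)) (w : XX 3 2) :
    psi e e' c (tau e L w) = tau e' L w := by
  by_cases hw : w = 0
  · rw [hw, tau_zero, tau_zero, psi_zero]
  have hk : ∃ k, w.1 k = 0 := by
    by_contra hcon
    push Not at hcon
    have h1 := XX_sum w
    rw [Fin.sum_univ_three] at h1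
    have h3 : ∀ a b c : ZMod 2, a ≠ 0 → b ≠ 0 → c ≠ 0 → a + b + c ≠ 0 := by decide
    exact h3 _ _ _ (hcon 0) (hcon 1) (hcon 2) h1
  obtain ⟨k, hk⟩ := hk
  rw [tau_some h2 he hw hk, tau_some h2 (psi_inj he hc h) hw hk, psi_some h2 he hc h]
  apply some_eq
  · exact (h k).symm
  · rw [mul_zero]

theorem psi_neg (h2 : (2 : K) ≠ 0) (he : Function.Injective e) {c : L} (hc : c ≠ 0)
    (h : ∀ k, algebraMap K L (e' k) = c ^ 2 * algebraMap K L (e k)) (P : Pt e L) :
    psi e e' (-c) P = -psi e e' c P := by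
  have h' : ∀ k, algebraMap K L (e' k) = (-c) ^ 2 * algebraMap K L (e k) := fun k => by
    rw [h k, neg_sq]
  cases P with
  | zero => rfl
  | some x y hn =>
    rw [psi_some h2 he hc h, psi_some h2 he (neg_ne_zero.2 hc) h', Affine.Point.neg_some]
    apply some_eq
    · rw [neg_sq]
    · show _ = -(c ^ 3 * y) - algebraMap K L 0 * (c ^ 2 * x) - algebraMap K L 0
      rw [map_zero]
      ring

theorem act_psi (h2 : (2 : K) ≠ 0) (he : Function.Injective e) {c : L} (hc : c ≠ 0)
    (h : ∀ k, algebraMap K L (e' k) = c ^ 2 * algebraMap K L (e k)) (f : L →ₐ[K] L')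
    (P : Pt e L) : act e' f (psi e e' c P) = psi e e' (f c) (act e f P) := by
  have h' : ∀ k, algebraMap K L' (e' k) = (f c) ^ 2 * algebraMap K L' (e k) := fun k => by
    rw [← f.commutes, h k, map_mul, map_pow, f.commutes]
  have hc' : f c ≠ 0 := (map_ne_zero _).2 hc
  cases P with
  | zero => rfl
  | some x y hn =>
    rw [psi_some h2 he hc h, Affine.Point.map_some, Affine.Point.map_some, psi_some h2 he hc' h']
    apply some_eq
    · rw [map_mul, map_pow]
    · rw [map_mul, map_pow]

end Pool.Agent.H40.FS
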