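import Pool.Agent.H40.FS.FRV

set_option autoImplicit false

/-!
# [H40 FS RAD] The number of the lifting classes

Let `xv v k = ∏ i, x i k ^ (v i).val`, `B v = {∀ j, ∑ i, v i * fr (a i) (x j) = 0}`.
* `rad_lifts`: `Lifts (xv v) ↔ B v`: let `b` be the lift of `fr_comb`; `fr_lift`: `Lifts ↔ ∀ y, fr b y = 0`.  (→) `y = x j` and `fr_comb`.  (←) `y` a Selmer tuple, `y k * γ k ^ 2 = tr k * ∏ j, x j k ^ (u j).val` (`hu`): `fr b y = fr b (y γ²) = fr b (tr) + ∑ j, u j * fr b (x j) = 0` (`fr_sqr`, `fr_mul`, `fr_tr`; products by induction over a finset; powers with exponent `0` or `1`).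
* `rad_card`: bijection from `S4C` to `{v // B v} × Option (Fin 3)`: `cl`, `cl_eq` of `H74/FS/CLF`.  For a pair `(v, t)` with `B v` the tuple `tr t k * xv v k` is a Selmer tuple (`sln_tr`, `sln_mul` in `H74/FS/CLA`, `fr_comb`) and lifts (`tr_lifts`, `lifts_mul`, `rad_lifts`): its class is in `S4C`.  Injective: two pairs with the same class: the tuples differ by squares, so by the uniqueness in `hu` they are equal.  Surjective: a class in `S4C` with the tuple `δ`: `(v, t)` from `hu`, `tr t k * xv v k = δ k * γ k ^ 2` lifts (`lifts_sq`), so does `xv v k`, up to the square `(tr t k) ^ 2` the product of it with `tr t k` (`lifts_mul`, `lifts_sq`): `B v`.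
  `Nat.card (Option (Fin 3)) = 4`.
-/

namespace Pool.Agent.H40.FS

open Polynomial WithZero Pool.Agent.H74.FS
open Pool.Agent.H94.PL (LChar XX DK AK dl)
open Pool.Agent.H94.PM (LU vl IsVln IsSln)

variable {F : Type} [Field F] [DecidableEq (RatFunc F)] [DecidableEq (Oc F)]
  [∀ w : Pl F, DecidableEq (Ow F w)] [Finite F] (χ : LChar F 2) {S : Finset (Pl F)} {c : F}
  {A : Fin 3 → F[X]} {D : F[X]}

private theorem rad_one {a : GF F → Pt (eD c A D) (Oc F)} :
    fr χ S a (fun _ => (1 : RatFunc F)) = 0 := by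
  have h := fr_mul χ (S := S) (a := a) (y := fun _ => (1 : RatFunc F)) (y' := fun _ => 1)
    (fun _ => one_ne_zero) (fun _ => one_ne_zero)
  simp only [mul_one] at h
  exact left_eq_add.1 h

private theorem rad_pow {a : GF F → Pt (eD c A D) (Oc F)} {y : Fin 3 → RatFunc F} (u : ZMod 2) :
    fr χ S a (fun k => y k ^ u.val) = u * fr χ S a y := by
  have h2 : ∀ w : ZMod 2, w = 0 ∨ w = 1 := by decide
  rcases h2 u with rfl | rfl
  · rw [zero_mul]
    simp only [ZMod.val_zero, pow_zero]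
    exact rad_one χ
  · rw [one_mul]
    have h3 : (1 : ZMod 2).val = 1 := rfl
    simp only [h3, pow_one]

private theorem rad_prod {a : GF F → Pt (eD c A D) (Oc F)} {r : ℕ}
    {x : Fin r → Fin 3 → RatFunc F} (hx : ∀ i k, x i k ≠ 0) (u : Fin r → ZMod 2)
    (s : Finset (Fin r)) : fr χ S a (fun k => ∏ i ∈ s, x i k ^ (u i).val) =
      ∑ i ∈ s, u i * fr χ S a (x i) := by
  classical
  induction s using Finset.induction_on with
  | empty =>
    simp only [Finset.prod_empty, Finset.sum_empty]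
    exact rad_one χ
  | insert j s hj ih =>
    rw [Finset.sum_insert hj, ← ih, ← rad_pow χ (u j),
      ← fr_mul χ (fun k => pow_ne_zero _ (hx j k))
        (fun k => Finset.prod_ne_zero_iff.2 fun i _ => pow_ne_zero _ (hx i k))]
    exact congrArg (fr χ S a) (funext fun k => Finset.prod_insert hj)

theorem rad_lifts (hq : 2 ∣ Nat.card F - 1) (hc : c ≠ 0) (hA : ∀ i k, i ≠ k → A i ≠ A k)
    (hD : D ≠ 0) (hS : Bad A D S) {r : ℕ} {x : Fin r → Fin 3 → RatFunc F}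
    (hx : ∀ i, IsSln 2 1 c A D (x i))
    (hu : ∀ δ : Fin 3 → RatFunc F, IsSln 2 1 c A D δ →
      ∃! p : (Fin r → ZMod 2) × Option (Fin 3), ∃ γ : Fin 3 → RatFunc F, (∀ k, γ k ≠ 0) ∧
        ∀ k, δ k * γ k ^ 2 = tr c A D p.2 k * ∏ i, x i k ^ (p.1 i).val)
    {a : Fin r → GF F → Pt (eD c A D) (Oc F)} (ha : ∀ i, GLf S c A D (x i) (a i))
    (v : Fin r → ZMod 2) : Lifts c A D (fun k => ∏ i, x i k ^ (v i).val) ↔
      ∀ j, ∑ i, v i * fr χ S (a i) (x j) = 0 := by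
  obtain ⟨hs, b, hb, hcomb⟩ := fr_comb χ hq hc hA hD hx ha v
  rw [fr_lift χ hq hc hA hD hS hb hs]
  constructor
  · intro h j
    rw [← hcomb (x j) (hx j)]
    exact h (x j) (hx j)
  · intro h y hy
    obtain ⟨⟨u, t⟩, ⟨γ, hγ, hk⟩, -⟩ := hu y hy
    have hy0 := (sln_iff.1 hy).1
    have hx0 : ∀ i k, x i k ≠ 0 := fun i => (sln_iff.1 (hx i)).1
    have e1 : (fun k => y k * γ k ^ 2) = fun k => tr c A D t k * ∏ i, x i k ^ (u i).val :=
      funext hk
    rw [← fr_sqr χ hy0 hγ, e1, fr_mul χ (tr_ne hc hA hD t)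
      (fun k => Finset.prod_ne_zero_iff.2 fun i _ => pow_ne_zero _ (hx0 i k)),
      fr_tr χ hq hc hA hD hS hs hb t, rad_prod χ hx0 u Finset.univ, zero_add]
    refine Finset.sum_eq_zero fun j _ => ?_
    rw [hcomb (x j) (hx j), h j, mul_zero]

theorem rad_card (hq : 2 ∣ Nat.card F - 1) (hc : c ≠ 0) (hA : ∀ i k, i ≠ k → A i ≠ A k)
    (hD : D ≠ 0) (hS : Bad A D S) {r : ℕ} {x : Fin r → Fin 3 → RatFunc F}
    (hx : ∀ i, IsSln 2 1 c A D (x i))
    (hu : ∀ δ : Fin 3 → RatFunc F, IsSln 2 1 c A D δ →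
      ∃! p : (Fin r → ZMod 2) × Option (Fin 3), ∃ γ : Fin 3 → RatFunc F, (∀ k, γ k ≠ 0) ∧
        ∀ k, δ k * γ k ^ 2 = tr c A D p.2 k * ∏ i, x i k ^ (p.1 i).val)
    {a : Fin r → GF F → Pt (eD c A D) (Oc F)} (ha : ∀ i, GLf S c A D (x i) (a i)) :
    Nat.card (S4C c A D) =
      4 * Nat.card {v : Fin r → ZMod 2 // ∀ j, ∑ i, v i * fr χ S (a i) (x j) = 0} := by
  classical
  have hx0 : ∀ i k, x i k ≠ 0 := fun i => (sln_iff.1 (hx i)).1
  have hT := tr_ne (c := c) (A := A) (D := D) hc hA hD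
  have hX : ∀ (v : Fin r → ZMod 2) (k : Fin 3), ∏ i, x i k ^ (v i).val ≠ 0 := fun v k =>
    Finset.prod_ne_zero_iff.2 fun i _ => pow_ne_zero _ (hx0 i k)
  have hTX : ∀ (v : Fin r → ZMod 2) (t : Option (Fin 3)) (k : Fin 3),
      tr c A D t k * ∏ i, x i k ^ (v i).val ≠ 0 := fun v t k => mul_ne_zero (hT t k) (hX v k)
  have hXs : ∀ v : Fin r → ZMod 2, IsSln 2 1 c A D (fun k => ∏ i, x i k ^ (v i).val) := fun v =>
    (fr_comb χ hq hc hA hD hx ha v).1
  have hTXs : ∀ (v : Fin r → ZMod 2) (t : Option (Fin 3)),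
      IsSln 2 1 c A D (fun k => tr c A D t k * ∏ i, x i k ^ (v i).val) := fun v t =>
    sln_mul (sln_tr hc hA hD t) (hXs v)
  have hmem : ∀ (v : Fin r → ZMod 2) (t : Option (Fin 3)),
      (∀ j, ∑ i, v i * fr χ S (a i) (x j) = 0) → cl _ (hTX v t) ∈ S4C c A D := by
    intro v t hv
    refine ⟨fun k => Units.mk0 _ (hTX v t k), fun k => rfl, hTXs v t, ?_⟩
    have h1 : Lifts c A D (fun k => ∏ i, x i k ^ (v i).val) :=
      (rad_lifts χ hq hc hA hD hS hx hu ha v).2 hv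
    exact lifts_mul hq hc hA hD (hT t) (tr_prod t) (hX v) (sln_iff.1 (hXs v)).2.1
      (tr_lifts hq hc hA hD t) h1
  let φ : {v : Fin r → ZMod 2 // ∀ j, ∑ i, v i * fr χ S (a i) (x j) = 0} × Option (Fin 3) →
      S4C c A D := fun p => ⟨cl _ (hTX p.1.1 p.2), hmem p.1.1 p.2 p.1.2⟩
  have hinj : Function.Injective φ := by
    rintro ⟨⟨v, hv⟩, t⟩ ⟨⟨v', hv'⟩, t'⟩ heq
    have h4 : cl _ (hTX v t) = cl _ (hTX v' t') := congrArg Subtype.val heq
    obtain ⟨γ, hγ, hk⟩ := (cl_eq _ _).1 h4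
    have h5 := (hu _ (hTXs v t)).unique (y₁ := (v, t)) (y₂ := (v', t'))
      ⟨fun _ => 1, fun _ => one_ne_zero, fun k => by rw [one_pow, mul_one]⟩ ⟨γ, hγ, hk⟩
    rw [Prod.mk.injEq] at h5
    obtain ⟨rfl, rfl⟩ := h5
    rfl
  have hsurj : Function.Surjective φ := by
    rintro ⟨g, δ, hg, hs, hl⟩
    obtain ⟨⟨v, t⟩, ⟨γ, hγ, hk⟩, -⟩ := hu _ hs
    have hδ : ∀ k, (δ k : RatFunc F) ≠ 0 := fun k => (δ k).ne_zero
    have e1 : (fun k => (δ k : RatFunc F) * γ k ^ 2) =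
        fun k => tr c A D t k * ∏ i, x i k ^ (v i).val := funext hk
    have h1 : Lifts c A D (fun k => tr c A D t k * ∏ i, x i k ^ (v i).val) := by
      rw [← e1]
      exact lifts_sq hq hδ hγ hl
    have h2 := lifts_mul hq hc hA hD (hT t) (tr_prod t) (hTX v t) (sln_iff.1 (hTXs v t)).2.1
      (tr_lifts hq hc hA hD t) h1
    have h3 := lifts_sq (z := fun k => (tr c A D t k)⁻¹) hq
      (fun k => mul_ne_zero (hT t k) (hTX v t k)) (fun k => inv_ne_zero (hT t k)) h2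
    have e2 : (fun k => tr c A D t k * (tr c A D t k * ∏ i, x i k ^ (v i).val) *
        (tr c A D t k)⁻¹ ^ 2) = fun k => ∏ i, x i k ^ (v i).val := by
      funext k
      have := hT t k
      field_simp
    rw [e2] at h3
    have hv := (rad_lifts χ hq hc hA hD hS hx hu ha v).1 h3
    refine ⟨(⟨v, hv⟩, t), Subtype.ext ?_⟩
    show cl _ (hTX v t) = g
    have h4 : cl _ hδ = cl _ (hTX v t) := (cl_eq _ _).2 ⟨γ, hγ, hk⟩
    rw [← h4]
    funext k
    rw [hg k]
    show (QuotientGroup.mk (Units.mk0 ((δ k : (RatFunc F)ˣ) : RatFunc F) _) : Qc F) = _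
    rw [Units.mk0_val]
  rw [← Nat.card_congr (Equiv.ofBijective φ ⟨hinj, hsurj⟩), Nat.card_prod, mul_comm,
    Nat.card_eq_fintype_card (α := Option (Fin 3))]
  rfl

end Pool.Agent.H40.FS
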