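import Pool.Agent.H94.PM.TVN
import Pool.Agent.H40.FS.HSG

set_option autoImplicit false

/-!
# [H40 FS RD1] Reduction of Mumford pairs

`f = ∏ (X - A k)` (degree 3), `D ≠ 0`, `A` injective, `2 ≠ 0`, `(P, Q)` Mumford for `D y² = f`, `n = deg P ≥ 2`.  Replace `Q` by `Q %ₘ P` (degree `< n`; still `P ∣ D Q² - f`).  `G = C D * Q² - f ≠ 0` (`deg f` is odd, `deg Q²` even), `P ∣ G`, `G = C c * P * P'` with `P'` monic, `c` the leading coefficient of `G`.
Degree of `G`: if `2 deg Q ≤ 2` it is `3` and `c = -1`; otherwise it is `2 deg Q ≤ 2 n - 2` and `c = D l²`, `l` the leading coefficient of `Q`.  So `deg P' = deg G - n ≤ max (n - 2) (3 - n) < n`.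
`J = {k | Q(A k) = 0}`.  For `k ∈ J`: `G(A k) = 0` and `G'(A k) = - f'(A k) ≠ 0`, so `A k` is a simple root of `G`, `P(A k) ≠ 0`, so `P' = P'' * ∏ k ∈ J, (X - C (A k))` with `P''(A k) ≠ 0` for `k ∈ J`; for `k ∉ J`: `c P(A k) P'(A k) = D Q(A k)² ≠ 0`.  `P''` is monic, `P'' ∣ G`, so `(P'', Q)` is Mumford, `deg P'' ≤ deg P' < n`.
Values: write `n'' = deg P''`, `j = card J`, `n + n'' + j = deg G`, `E k = dvn 1 D P (A k) * dvn 1 D P'' (A k) * ∏ i ∈ J, kt (D A) i k`, `dvn 1 D P a = (-D)^n P(a)`.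
* `k ∉ J`: `kt (D A) i k = D (A i - A k) = (-D) (A k - A i)`, so `E k = (-D)^(deg G) P(A k) P''(A k) ∏ i ∈ J, (A k - A i) = (-D)^(deg G) D Q(A k)² / c`: if `deg G = 3`: `= D⁴ Q(A k)²`; if `deg G` is even, `c = D l²`: `= ((-D)^(deg G / 2) Q(A k) / l)²`.
* `k ∈ J`: `kt (D A) k k = D² ∏ i ≠ k, (A k - A i)`; from the derivative `c P(A k) P''(A k) ∏ i ∈ J \ k, (A k - A i) = - ∏ i ≠ k, (A k - A i)`, so `E k = (-D)^(n + n'' + j - 1) D² (∏ i ≠ k, (A k - A i)) * (- ∏ i ≠ k, (A k - A i)) / c`: `deg G = 3`, `c = -1`: `(-D)² D² (..)²`; `deg G` even: `(-D)^(odd) * (-1 / (D l²)) * D² (..)²`, a square.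
All the values are not zero.
-/

namespace Pool.Agent.H40.FS

open Polynomial Pool.Agent.H94.PL Pool.Agent.H94.PM

private theorem fA_monic {M : Type} [Field M] (A : Fin 3 → M) : (fA A).Monic :=
  monic_prod_of_monic _ _ fun k _ => monic_X_sub_C _

private theorem fA_deg {M : Type} [Field M] (A : Fin 3 → M) : (fA A).natDegree = 3 := by
  rw [fA, natDegree_prod_of_monic _ _ fun k _ => monic_X_sub_C _]
  simp

private theorem fA_eval {M : Type} [Field M] (A : Fin 3 → M) (k : Fin 3) :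
    (fA A).eval (A k) = 0 := by
  rw [fA, eval_prod]
  exact Finset.prod_eq_zero (Finset.mem_univ k) (by simp)

private theorem fA_split {M : Type} [Field M] (A : Fin 3 → M) (k : Fin 3) :
    fA A = (X - C (A k)) * ∏ i ∈ Finset.univ.erase k, (X - C (A i)) :=
  (Finset.mul_prod_erase Finset.univ (fun i => X - C (A i)) (Finset.mem_univ k)).symm

/-- the leading coefficient and the degree of `G` -/
private theorem lead_G {M : Type} [Field M] {D : M} (hD : D ≠ 0) (A : Fin 3 → M) {Q : M[X]} {n : ℕ}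
    (hn : 2 ≤ n) (hQ : Q.natDegree < n) :
    ∃ u : M, u ≠ 0 ∧ (C D * Q ^ 2 - fA A).leadingCoeff ≠ 0 ∧
      (C D * Q ^ 2 - fA A).natDegree < 2 * n ∧
      (-D) ^ (C D * Q ^ 2 - fA A).natDegree * D = (C D * Q ^ 2 - fA A).leadingCoeff * u ^ 2 := by
  have hdeg : (C D * Q ^ 2).natDegree = 2 * Q.natDegree := by
    rw [natDegree_C_mul hD, natDegree_pow]
  by_cases h1 : Q.natDegree ≤ 1
  · have hlt : (C D * Q ^ 2).natDegree < (fA A).natDegree := by
      rw [hdeg, fA_deg]
      omega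
    have e1 : (C D * Q ^ 2 - fA A).natDegree = 3 := by
      rw [natDegree_sub_eq_right_of_natDegree_lt hlt, fA_deg]
    have e2 : (C D * Q ^ 2 - fA A).leadingCoeff = -1 := by
      rw [leadingCoeff_sub_of_degree_lt' (degree_lt_degree hlt), (fA_monic A).leadingCoeff]
    refine ⟨D ^ 2, pow_ne_zero _ hD, ?_, ?_, ?_⟩
    · rw [e2]
      exact neg_ne_zero.2 one_ne_zero
    · rw [e1]
      omega
    · rw [e1, e2]
      ring
  · have hlt : (fA A).natDegree < (C D * Q ^ 2).natDegree := by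
      rw [hdeg, fA_deg]
      omega
    have e1 : (C D * Q ^ 2 - fA A).natDegree = 2 * Q.natDegree := by
      rw [natDegree_sub_eq_left_of_natDegree_lt hlt, hdeg]
    have hQ0 : Q.leadingCoeff ≠ 0 := by
      rw [Ne, leadingCoeff_eq_zero]
      intro h0
      rw [h0, natDegree_zero] at h1
      omega
    have e2 : (C D * Q ^ 2 - fA A).leadingCoeff = D * Q.leadingCoeff ^ 2 := by
      rw [leadingCoeff_sub_of_degree_lt (degree_lt_degree hlt), leadingCoeff_mul, leadingCoeff_C,
        leadingCoeff_pow]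
    refine ⟨(-D) ^ Q.natDegree / Q.leadingCoeff,
      div_ne_zero (pow_ne_zero _ (neg_ne_zero.2 hD)) hQ0, ?_, ?_, ?_⟩
    · rw [e2]
      exact mul_ne_zero hD (pow_ne_zero _ hQ0)
    · rw [e1]
      omega
    · rw [e1, e2, div_pow]
      field_simp
      ring

theorem mum_red {M : Type} [Field M] (h2 : (2 : M) ≠ 0) {D : M} (hD : D ≠ 0) {A : Fin 3 → M}
    (hA : Function.Injective A) {P Q : M[X]} (h : IsMum 2 D A P Q) (hn : 2 ≤ P.natDegree) :
    ∃ P' Q' : M[X], IsMum 2 D A P' Q' ∧ P'.natDegree < P.natDegree ∧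
      ∃ (J : Finset (Fin 3)) (γ : Fin 3 → M), (∀ k, γ k ≠ 0) ∧
        ∀ k, dvn 1 D P (A k) * dvn 1 D P' (A k) * ∏ j ∈ J, kt (fun i => D * A i) j k = γ k ^ 2 := by
  classical
  obtain ⟨hPm, hPk, hPd⟩ := h
  obtain ⟨R, hR⟩ : ∃ R : M[X], R = Q %ₘ P := ⟨_, rfl⟩
  have hRdeg : R.natDegree < P.natDegree := by
    rw [hR]
    refine natDegree_modByMonic_lt Q hPm ?_
    intro h1
    rw [h1, natDegree_one] at hn
    omega
  have hRd : P ∣ C D * R ^ 2 - fA A := by
    have h3 : R = Q - P * (Q /ₘ P) := by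
      rw [hR, modByMonic_eq_sub_mul_div]
    have h4 : C D * R ^ 2 - fA A = (C D * Q ^ 2 - fA A) +
        P * (C D * (Q /ₘ P) * (P * (Q /ₘ P) - 2 * Q)) := by
      rw [h3]
      ring
    rw [h4]
    exact dvd_add hPd (dvd_mul_right _ _)
  obtain ⟨u, hu, hlc, hGn, hGu⟩ := lead_G hD A hn hRdeg
  obtain ⟨G, hG⟩ : ∃ G : M[X], G = C D * R ^ 2 - fA A := ⟨_, rfl⟩
  rw [← hG] at hRd hlc hGn hGu
  obtain ⟨S, hS⟩ := hRd
  obtain ⟨c, hc⟩ : ∃ c : M, c = G.leadingCoeff := ⟨_, rfl⟩
  rw [← hc] at hlc hGu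
  have hSlc : S.leadingCoeff = c := by
    rw [hc, hS, leadingCoeff_monic_mul hPm]
  have hS0 : S ≠ 0 := by
    intro h0
    rw [h0, leadingCoeff_zero] at hSlc
    exact hlc hSlc.symm
  have hSdeg : G.natDegree = P.natDegree + S.natDegree := by
    rw [hS, natDegree_mul hPm.ne_zero hS0]
  obtain ⟨J, hJ⟩ : ∃ J : Finset (Fin 3), J = Finset.univ.filter (fun k => R.eval (A k) = 0) :=
    ⟨_, rfl⟩
  have hmJ : ∀ k, k ∈ J ↔ R.eval (A k) = 0 := by
    intro k
    rw [hJ, Finset.mem_filter]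
    simp
  have hGe : ∀ k, G.eval (A k) = D * R.eval (A k) ^ 2 := by
    intro k
    rw [hG, eval_sub, fA_eval, sub_zero, eval_mul, eval_C, eval_pow]
  have hJS : (∏ j ∈ J, (X - C (A j))) ∣ S := by
    refine Finset.prod_dvd_of_coprime ?_ ?_
    · intro i _ j _ hij
      exact isCoprime_X_sub_C_of_isUnit_sub (sub_ne_zero.2 (hA.ne hij)).isUnit
    · intro k hk
      rw [dvd_iff_isRoot, IsRoot.def]
      have h3 := hGe k
      rw [(hmJ k).1 hk, hS, eval_mul] at h3
      rcases mul_eq_zero.1 (h3.trans (by ring)) with h4 | h4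
      · exact absurd h4 (hPk k)
      · exact h4
  obtain ⟨T, hT⟩ := hJS
  have hJm : (∏ j ∈ J, (X - C (A j))).Monic := monic_prod_of_monic _ _ fun k _ => monic_X_sub_C _
  have hJd : (∏ j ∈ J, (X - C (A j))).natDegree = J.card := by
    rw [natDegree_prod_of_monic _ _ fun k _ => monic_X_sub_C _]
    simp
  have hTlc : T.leadingCoeff = c := by
    rw [← hSlc, hT, leadingCoeff_monic_mul hJm]
  have hT0 : T ≠ 0 := by
    intro h0
    rw [h0, leadingCoeff_zero] at hTlc
    exact hlc hTlc.symm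
  have hTdeg : S.natDegree = J.card + T.natDegree := by
    rw [hT, natDegree_mul hJm.ne_zero hT0, hJd]
  have hc' : c⁻¹ ≠ 0 := inv_ne_zero hlc
  -- the two identities
  have F1 : ∀ k, D * R.eval (A k) ^ 2 =
      P.eval (A k) * ((∏ j ∈ J, (A k - A j)) * T.eval (A k)) := by
    intro k
    rw [← hGe k, hS, hT, eval_mul, eval_mul, eval_prod]
    simp only [eval_sub, eval_X, eval_C]
  have F2 : ∀ k ∈ J, -∏ i ∈ Finset.univ.erase k, (A k - A i) =
      P.eval (A k) * ((∏ j ∈ J.erase k, (A k - A j)) * T.eval (A k)) := by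
    intro k hk
    have h3 : C D * R ^ 2 - (X - C (A k)) * ∏ i ∈ Finset.univ.erase k, (X - C (A i)) =
        (X - C (A k)) * (P * ((∏ j ∈ J.erase k, (X - C (A j))) * T)) := by
      rw [← fA_split, ← hG, hS, hT, ← Finset.mul_prod_erase J (fun j => X - C (A j)) hk]
      ring
    have h4 := congrArg (fun p => (derivative p).eval (A k)) h3
    have h5 := (hmJ k).1 hk
    simp only [derivative_sub, derivative_mul, derivative_C, derivative_X, eval_sub, eval_add,
      eval_mul, eval_C, eval_X, sub_self, zero_mul, add_zero, sub_zero, one_mul, derivative_pow,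
      eval_pow, h5, eval_prod, eval_zero, eval_one, mul_zero, Nat.cast_ofNat, zero_add,
      eval_ofNat, pow_one, Nat.add_one_sub_one, zero_sub] at h4
    exact h4
  have hRk : ∀ k, ∏ i ∈ Finset.univ.erase k, (A k - A i) ≠ 0 := by
    intro k
    rw [Finset.prod_ne_zero_iff]
    intro i hi
    exact sub_ne_zero.2 (hA.ne (Finset.ne_of_mem_erase hi).symm)
  have hTk : ∀ k, T.eval (A k) ≠ 0 := by
    intro k hk0
    by_cases hk : k ∈ J
    · have h3 := F2 k hk
      rw [hk0, mul_zero, mul_zero] at h3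
      exact neg_ne_zero.2 (hRk k) h3
    · have h3 := F1 k
      rw [hk0, mul_zero, mul_zero] at h3
      rcases mul_eq_zero.1 h3 with h4 | h4
      · exact hD h4
      · exact hk ((hmJ k).2 (pow_eq_zero_iff two_ne_zero |>.1 h4))
  have hPP : (C c⁻¹ * T).natDegree = T.natDegree := natDegree_C_mul hc'
  refine ⟨C c⁻¹ * T, R, ⟨?_, ?_, ?_⟩, ?_, J,
    fun k => if k ∈ J then u * ∏ i ∈ Finset.univ.erase k, (A k - A i) else u * R.eval (A k),
    ?_, ?_⟩
  · rw [Monic, leadingCoeff_mul, leadingCoeff_C, hTlc, inv_mul_cancel₀ hlc]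
  · intro k
    rw [eval_mul, eval_C]
    exact mul_ne_zero hc' (hTk k)
  · rw [← hG, hS, hT]
    refine ⟨C c * (P * ∏ j ∈ J, (X - C (A j))), ?_⟩
    have h6 : (C c⁻¹ : M[X]) * C c = 1 := by
      rw [← C_mul, inv_mul_cancel₀ hlc, C_1]
    linear_combination (-(P * (∏ j ∈ J, (X - C (A j))) * T)) * h6
  · rw [hPP]
    omega
  · intro k
    dsimp only
    split_ifs with hk
    · exact mul_ne_zero hu (hRk k)
    · exact mul_ne_zero hu fun h0 => hk ((hmJ k).2 h0)
  · intro k
    dsimp only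
    rw [dvn, dvn, pow_one, hPP, eval_mul, eval_C]
    have hkt : ∀ j, j ≠ k → kt (fun i => D * A i) j k = (-D) * (A k - A j) := by
      intro j hj
      unfold kt
      rw [if_neg (Ne.symm hj)]
      ring
    have hsum : G.natDegree = P.natDegree + (J.card + T.natDegree) := by
      rw [hSdeg, hTdeg]
    split_ifs with hk
    · have e1 : ∏ j ∈ J, kt (fun i => D * A i) j k =
          D ^ 2 * (∏ i ∈ Finset.univ.erase k, (A k - A i)) *
            ((-D) ^ (J.card - 1) * ∏ j ∈ J.erase k, (A k - A j)) := by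
        rw [← Finset.mul_prod_erase J _ hk]
        congr 1
        · unfold kt
          rw [if_pos rfl]
          have e2 : ∀ i, D * A k - D * A i = D * (A k - A i) := fun i => by ring
          simp only [e2]
          rw [Finset.prod_mul_distrib, Finset.prod_const, Finset.card_erase_of_mem (Finset.mem_univ k)]
          simp
        · rw [Finset.prod_congr rfl fun j hj => hkt j (Finset.ne_of_mem_erase hj),
            Finset.prod_mul_distrib, Finset.prod_const, Finset.card_erase_of_mem hk]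
      have hJ1 : 1 ≤ J.card := Finset.card_pos.2 ⟨k, hk⟩
      have e3 : (-D) ^ G.natDegree = (-D) ^ P.natDegree * (-D) ^ T.natDegree *
          ((-D) ^ (J.card - 1) * (-D)) := by
        rw [← pow_succ, ← pow_add, ← pow_add]
        congr 1
        omega
      rw [e1]
      have h5 := F2 k hk
      have h6 : c⁻¹ * c = 1 := inv_mul_cancel₀ hlc
      rw [e3] at hGu
      generalize c⁻¹ = ci at h6 ⊢
      generalize (-D) ^ P.natDegree = a at hGu ⊢
      generalize (-D) ^ T.natDegree = b at hGu ⊢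
      generalize (-D) ^ (J.card - 1) = s at hGu ⊢
      generalize ∏ i ∈ Finset.univ.erase k, (A k - A i) = Rk at h5 ⊢
      generalize ∏ j ∈ J.erase k, (A k - A j) = Jk at h5 ⊢
      generalize P.eval (A k) = p at h5 ⊢
      generalize T.eval (A k) = t at h5 ⊢
      linear_combination (-(a * b * s * ci * D ^ 2 * Rk)) * h5 + ci * Rk ^ 2 * hGu +
        u ^ 2 * Rk ^ 2 * h6
    · have e1 : ∏ j ∈ J, kt (fun i => D * A i) j k =
            ((-D) ^ J.card * ∏ j ∈ J, (A k - A j)) := by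
        rw [Finset.prod_congr rfl fun j hj => hkt j (fun hh => hk (hh ▸ hj)),
            Finset.prod_mul_distrib, Finset.prod_const]
      have e3 : (-D) ^ G.natDegree = (-D) ^ P.natDegree * (-D) ^ T.natDegree * (-D) ^ J.card := by
        rw [← pow_add, ← pow_add]
        congr 1
        omega
      rw [e1]
      have h5 := F1 k
      have h6 : c⁻¹ * c = 1 := inv_mul_cancel₀ hlc
      rw [e3] at hGu
      generalize c⁻¹ = ci at h6 ⊢
      generalize (-D) ^ P.natDegree = a at hGu ⊢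
      generalize (-D) ^ T.natDegree = b at hGu ⊢
      generalize (-D) ^ J.card = s at hGu ⊢
      generalize ∏ j ∈ J, (A k - A j) = Jk at h5 ⊢
      generalize P.eval (A k) = p at h5 ⊢
      generalize T.eval (A k) = t at h5 ⊢
      generalize R.eval (A k) = r at h5 ⊢
      linear_combination (-(a * b * s * ci)) * h5 + ci * r ^ 2 * hGu + u ^ 2 * r ^ 2 * h6

end Pool.Agent.H40.FS
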