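import Pool.Agent.H40.FS.DTA

set_option autoImplicit false

/-!
# [H40 FS SG] The characters of square roots

`Ω` separably closed, `2 ≠ 0`.
* `exists_root`: `IsSepClosed.exists_pow_nat_eq`.
* `sg_iff`: if `r ^ 2 = g ≠ 0` the square roots of `g` are `r`, `- r`, and `σ r = ± r` (`(σ r) ^ 2 = g`); `σ r = r` iff `σ (- r) = - r`; `r ≠ - r`.
* `sg_neg`: `σ r = - r` iff `σ r ≠ r`, `sg` is `0` or `1`.
* `sg_mul`: `r r'` is a square root of `g g'`, four cases.  `sg_comp`: `σ (τ r)`.  `sg_sq`: `r = y`.  `sg_sqm`: `sg_mul`, `sg_sq`.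
* `sg_compat`: `ι r` is a square root, `τ (ι r) = ι (σ r)`, `ι` injective.
* `sg_cont`: `M = K(r)` (`IntermediateField.adjoin`, finite: `r` is integral).
-/

namespace Pool.Agent.H40.FS

open WeierstrassCurve Pool.Agent.H94.MW Pool.Agent.H94.PL

variable {K : Type} [Field K] {Ω : Type} [Field Ω] [Algebra K Ω]

private theorem two_ne' (h2 : (2 : K) ≠ 0) : (2 : Ω) ≠ 0 := by
  intro h
  apply h2
  apply (algebraMap K Ω).injective
  rw [map_ofNat, map_zero, h]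

private theorem z2 (a : ZMod 2) : a = 0 ∨ a = 1 := by
  revert a
  decide

private theorem z2_eq {a b : ZMod 2} (h : a = 0 ↔ b = 0) : a = b := by
  revert a b
  decide

theorem exists_root [IsSepClosed Ω] (h2 : (2 : K) ≠ 0) (g : Ω) : ∃ r : Ω, r ^ 2 = g := by
  have h : (2 : Ω) ≠ 0 := two_ne' h2
  have : NeZero ((2 : ℕ) : Ω) := ⟨by exact_mod_cast h⟩
  exact IsSepClosed.exists_pow_nat_eq g 2

theorem sg_iff (h2 : (2 : K) ≠ 0) {g : K} (hg : g ≠ 0) (σ : Ω ≃ₐ[K] Ω) {r : Ω}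
    (hr : r ^ 2 = algebraMap K Ω g) : σ r = r ↔ sg σ g = 0 := by
  have _ := h2
  have _ := hg
  unfold sg
  split_ifs with h
  · refine ⟨fun _ => rfl, fun _ => ?_⟩
    obtain ⟨r', hr', hs⟩ := h
    rw [← hr] at hr'
    rcases sq_eq_sq_iff_eq_or_eq_neg.1 hr' with h1 | h1
    · rw [← h1, hs]
    · have h3 : r = -r' := by rw [h1, neg_neg]
      rw [h3, map_neg, hs]
  · refine ⟨fun h1 => absurd ⟨r, hr, h1⟩ h, fun h1 => absurd h1 one_ne_zero⟩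

private theorem sg_pm {g : K} (σ : Ω ≃ₐ[K] Ω) {r : Ω}
    (hr : r ^ 2 = algebraMap K Ω g) : σ r = r ∨ σ r = -r := by
  apply sq_eq_sq_iff_eq_or_eq_neg.1
  rw [← map_pow, hr, AlgEquiv.commutes]

private theorem root_ne (h2 : (2 : K) ≠ 0) {g : K} (hg : g ≠ 0) {r : Ω}
    (hr : r ^ 2 = algebraMap K Ω g) : r ≠ -r := by
  intro h
  have h1 : (2 : Ω) * r = 0 := by linear_combination h
  rcases mul_eq_zero.1 h1 with h3 | h3
  · exact two_ne' h2 h3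
  · rw [h3, zero_pow two_ne_zero] at hr
    apply hg
    apply (algebraMap K Ω).injective
    rw [← hr, map_zero]

theorem sg_neg (h2 : (2 : K) ≠ 0) {g : K} (hg : g ≠ 0) (σ : Ω ≃ₐ[K] Ω) {r : Ω}
    (hr : r ^ 2 = algebraMap K Ω g) : σ r = -r ↔ sg σ g = 1 := by
  have h1 := sg_iff h2 hg σ hr
  have h3 := root_ne h2 hg hr
  constructor
  · intro h
    refine (z2 _).resolve_left fun h4 => ?_
    rw [← h1, h] at h4
    exact h3 h4.symm
  · intro h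
    refine (sg_pm σ hr).resolve_left fun h4 => ?_
    rw [h1, h] at h4
    exact one_ne_zero h4

theorem sg_sq (σ : Ω ≃ₐ[K] Ω) (y : K) : sg σ (y ^ 2) = 0 := by
  unfold sg
  rw [if_pos]
  exact ⟨algebraMap K Ω y, by rw [map_pow], AlgEquiv.commutes _ _⟩

theorem sg_mul [IsSepClosed Ω] (h2 : (2 : K) ≠ 0) {g g' : K} (hg : g ≠ 0) (hg' : g' ≠ 0)
    (σ : Ω ≃ₐ[K] Ω) : sg σ (g * g') = sg σ g + sg σ g' := by
  obtain ⟨r, hr⟩ := exists_root (Ω := Ω) h2 (algebraMap K Ω g)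
  obtain ⟨r', hr'⟩ := exists_root (Ω := Ω) h2 (algebraMap K Ω g')
  have hrr : (r * r') ^ 2 = algebraMap K Ω (g * g') := by rw [mul_pow, hr, hr', map_mul]
  have hgg := mul_ne_zero hg hg'
  rcases sg_pm σ hr with h | h <;> rcases sg_pm σ hr' with h' | h'
  · rw [(sg_iff h2 hg σ hr).1 h, (sg_iff h2 hg' σ hr').1 h', add_zero, ← sg_iff h2 hgg σ hrr,
      map_mul, h, h']
  · rw [(sg_iff h2 hg σ hr).1 h, (sg_neg h2 hg' σ hr').1 h', zero_add, ← sg_neg h2 hgg σ hrr,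
      map_mul, h, h', mul_neg]
  · rw [(sg_neg h2 hg σ hr).1 h, (sg_iff h2 hg' σ hr').1 h', add_zero, ← sg_neg h2 hgg σ hrr,
      map_mul, h, h', neg_mul]
  · rw [(sg_neg h2 hg σ hr).1 h, (sg_neg h2 hg' σ hr').1 h', show (1 : ZMod 2) + 1 = 0 by decide,
      ← sg_iff h2 hgg σ hrr, map_mul, h, h', neg_mul_neg]

theorem sg_sqm [IsSepClosed Ω] (h2 : (2 : K) ≠ 0) {g y : K} (hg : g ≠ 0) (hy : y ≠ 0)
    (σ : Ω ≃ₐ[K] Ω) : sg σ (g * y ^ 2) = sg σ g := by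
  rw [sg_mul h2 hg (pow_ne_zero 2 hy), sg_sq, add_zero]

theorem sg_comp [IsSepClosed Ω] (h2 : (2 : K) ≠ 0) {g : K} (hg : g ≠ 0) (σ τ : Ω ≃ₐ[K] Ω) :
    sg (σ * τ) g = sg σ g + sg τ g := by
  obtain ⟨r, hr⟩ := exists_root (Ω := Ω) h2 (algebraMap K Ω g)
  rcases sg_pm σ hr with h | h <;> rcases sg_pm τ hr with h' | h'
  · rw [(sg_iff h2 hg σ hr).1 h, (sg_iff h2 hg τ hr).1 h', add_zero, ← sg_iff h2 hg _ hr]
    show σ (τ r) = r
    rw [h', h]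
  · rw [(sg_iff h2 hg σ hr).1 h, (sg_neg h2 hg τ hr).1 h', zero_add, ← sg_neg h2 hg _ hr]
    show σ (τ r) = -r
    rw [h', map_neg, h]
  · rw [(sg_neg h2 hg σ hr).1 h, (sg_iff h2 hg τ hr).1 h', add_zero, ← sg_neg h2 hg _ hr]
    show σ (τ r) = -r
    rw [h', h]
  · rw [(sg_neg h2 hg σ hr).1 h, (sg_neg h2 hg τ hr).1 h', show (1 : ZMod 2) + 1 = 0 by decide,
      ← sg_iff h2 hg _ hr]
    show σ (τ r) = r
    rw [h', map_neg, h, neg_neg]

theorem sg_cont [IsSepClosed Ω] (h2 : (2 : K) ≠ 0) {g : K} (hg : g ≠ 0) :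
    IsCont K (fun σ : Ω ≃ₐ[K] Ω => sg σ g) := by
  obtain ⟨r, hr⟩ := exists_root (Ω := Ω) h2 (algebraMap K Ω g)
  have hint : IsIntegral K r := by
    apply IsIntegral.of_pow (n := 2) two_pos
    rw [hr]
    exact isIntegral_algebraMap
  refine ⟨IntermediateField.adjoin K {r}, IntermediateField.adjoin.finiteDimensional hint, ?_⟩
  intro σ τ h
  show sg (σ * τ) g = sg σ g
  rw [sg_comp h2 hg, (sg_iff h2 hg τ hr).1 (h r (IntermediateField.mem_adjoin_simple_self K r)),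
    add_zero]

theorem sg_compat [IsSepClosed Ω] (h2 : (2 : K) ≠ 0) {M : Type} [Field M] [Algebra K M]
    {Ω' : Type} [Field Ω'] [Algebra M Ω'] [Algebra K Ω'] [IsScalarTower K M Ω'] {g : K}
    (hg : g ≠ 0) (ι : Ω →ₐ[K] Ω') {τ : Ω' ≃ₐ[M] Ω'} {σ : Ω ≃ₐ[K] Ω}
    (h : ∀ x, ι (σ x) = τ (ι x)) : sg τ (algebraMap K M g) = sg σ g := by
  obtain ⟨r, hr⟩ := exists_root (Ω := Ω) h2 (algebraMap K Ω g)
  have hr' : (ι r) ^ 2 = algebraMap M Ω' (algebraMap K M g) := by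
    rw [← map_pow, hr, AlgHom.commutes, IsScalarTower.algebraMap_apply K M Ω']
  have hg' : algebraMap K M g ≠ 0 := (map_ne_zero _).2 hg
  apply z2_eq
  rw [← sg_iff (two_ne' h2) hg' τ hr', ← sg_iff h2 hg σ hr, ← h r]
  exact ι.toRingHom.injective.eq_iff

end Pool.Agent.H40.FS
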