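import Pool.Agent.H94.PM.SY

set_option autoImplicit false

/-!
# [H40 FS SYA] Symbols modulo two: norms and sums

`s : Sy E (ZMod 2)`.  In `ZMod 2` signs do not matter.
* `sy_comm`: `Sy.skew`.  `sy_sql`, `sy_sqr`: `pow_left`, `pow_right` with `n = 2`.
* `sy_norm`: if `b = 0` it is `s (a ^ 2) e = 0`; if `a = 0` it is `s (- e b ^ 2) e = s (- e) e + 0 = 0` (`neg_right`, `sy_comm`); otherwise `Sy.hom` with `x = a ^ 2`, `y = - e b ^ 2`, `z = a ^ 2 - e b ^ 2`: `s z (- e b ^ 2) = s z z = s z (-1)` (`Sy.self`), so `s z e = 0`.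
* `sy_t1`: `k = p + q n`, `k' = p - q n`, `k k' = d`, `k ≠ 0`.  `(k + u) ^ 2 - e w ^ 2 = k ^ 2 + 2 k u + d = k (k + 2 u + k') = k * (2 * (p + u))`, so `s (k * (2 (p + u))) e = 0` (`sy_norm`), and `s (2 (p + u)) (n ^ 2 * e) = s (2 (p + u)) e = s k e`.
* `sy_t2`: `sy_t1` with the two equations interchanged (`p + u = u + p`, `N * ε ^ 2 = ε ^ 2 * N`).
* `sy_t3`: let `Y = z0 ^ 2 - N z1 ^ 2`, `Y' = y0 ^ 2 - e y1 ^ 2`.  `2 (p + u) Y Y' = 2 δ ((z0² + N z1²)(y0² - e y1²) + (y0² + e y1²)(z0² - N z1²)) = 4 δ ((z0 y0)² - N e (z1 y1)²)`.  So `s (2 (p + u)) (N e) = s (δ Y Y') (N e)` by `sy_norm` (with `N * e` for `e`), and this is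
  `s (δ Y) e + s (δ Y') N + s Y N + s Y' e + s δ .. `: expand: `s δ N + s δ e + s Y N + s Y e + s Y' N + s Y' e` with `s Y N = 0 = s Y' e` (`sy_norm`), and `s (δ Y) e + s (δ Y') N = s δ e + s Y e + s δ N + s Y' N`.
* `sy_alt`: (`k i = p i + q i n`, `k' i = p i - q i n`, `k i k' i = x i m i ^ 2`).  `s = q 1 p 0 + q 0 p 1`.  `q 1 * k 0 + q 0 * k' 1 = s`, `q 1 * k' 0 + q 0 * k 1 = s`.  For `a + b = c`, all not zero, `Sy.hom` and `Sy.self` give `s a b = s (a b) c + s (-1) c`.  Apply this to both sums and add; with `s (q 1) (k' 1) + s (q 1) (k 1) = s (q 1) (x 1)`, `s (k 0) (q 0) + s (k' 0) (q 0) = s (x 0) (q 0)`: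
  `s (q 1) (x 1) + s (x 0) (q 0) + s (k 0) (k' 1) + s (k' 0) (k 1) = s (x 0) s + s (x 1) s`, and `s (k 0) (k' 1) = s (k 0) (k 1) + s (k 0) (x 1)`, `s (k' 0) (k 1) = s (k 0) (k 1) + s (x 0) (k 1)`.
-/

namespace Pool.Agent.H40.FS

open Pool.Agent.H94.PM

variable {E : Type} [Field E] (s : Sy E (ZMod 2))

private theorem z2 : (2 : ZMod 2) = 0 := rfl

private theorem add2 (a : ZMod 2) : a + a = 0 := by
  linear_combination a * z2

theorem sy_comm {x y : E} (hx : x ≠ 0) (hy : y ≠ 0) : s.s x y = s.s y x := by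
  rw [s.skew hx hy]
  linear_combination (-s.s y x) * z2

theorem sy_sql {x y : E} (hx : x ≠ 0) (hy : y ≠ 0) : s.s (x ^ 2) y = 0 := by
  rw [pow_two, s.mul_left x x y hx hx hy, add2]

theorem sy_sqr {x y : E} (hx : x ≠ 0) (hy : y ≠ 0) : s.s x (y ^ 2) = 0 := by
  rw [pow_two, s.mul_right x y y hx hy hy, add2]

theorem sy_norm {a b e : E} (he : e ≠ 0) (h : a ^ 2 - e * b ^ 2 ≠ 0) :
    s.s (a ^ 2 - e * b ^ 2) e = 0 := by
  have hne : -e ≠ 0 := neg_ne_zero.2 he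
  have hm : (-1 : E) ≠ 0 := neg_ne_zero.2 one_ne_zero
  by_cases hb : b = 0
  · subst hb
    have e1 : a ^ 2 - e * 0 ^ 2 = a ^ 2 := by ring
    rw [e1] at h ⊢
    exact sy_sql s (fun h0 => h (by rw [h0]; ring)) he
  · by_cases ha : a = 0
    · subst ha
      have e1 : (0 : E) ^ 2 - e * b ^ 2 = (-e) * b ^ 2 := by ring
      rw [e1, s.mul_left _ _ _ hne (pow_ne_zero 2 hb) he, sy_sql s hb he, add_zero,
        sy_comm s hne he, s.neg_right he]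
    · set z := a ^ 2 - e * b ^ 2 with hz
      have hy : (-e) * b ^ 2 ≠ 0 := mul_ne_zero hne (pow_ne_zero 2 hb)
      have h1 := s.hom (pow_ne_zero 2 ha) hy h (by rw [hz]; ring)
      rw [sy_sql s ha hy, sy_sql s ha h, s.self h, s.mul_right z (-e) _ h hne (pow_ne_zero 2 hb),
        sy_sqr s h hb] at h1
      have h2 : s.s z (-e) = s.s z (-1) + s.s z e := by
        rw [← s.mul_right z (-1) e h hm he]
        congr 1
        ring
      rw [h2] at h1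
      linear_combination -h1

theorem sy_t1 (h2 : (2 : E) ≠ 0) {p q n u w e d : E} (hn : n ≠ 0) (he : e ≠ 0) (hd : d ≠ 0)
    (h1 : p ^ 2 - n ^ 2 * q ^ 2 = d) (h3 : u ^ 2 - e * w ^ 2 = d) (hpu : p + u ≠ 0) :
    s.s (2 * (p + u)) (n ^ 2 * e) = s.s (p + q * n) e := by
  have hk : p + q * n ≠ 0 := by
    intro h0
    apply hd
    rw [← h1]
    linear_combination (p - q * n) * h0
  have h2pu : 2 * (p + u) ≠ 0 := mul_ne_zero h2 hpu
  have e1 : (p + q * n + u) ^ 2 - e * w ^ 2 = (p + q * n) * (2 * (p + u)) := by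
    linear_combination h3 - h1
  have h4 := sy_norm s he (a := p + q * n + u) (b := w) (by rw [e1]; exact mul_ne_zero hk h2pu)
  rw [e1, s.mul_left _ _ _ hk h2pu he] at h4
  rw [s.mul_right _ _ _ h2pu (pow_ne_zero 2 hn) he, sy_sqr s h2pu hn]
  linear_combination h4 - s.s (p + q * n) e * z2

theorem sy_t2 (h2 : (2 : E) ≠ 0) {p q N u w ε d : E} (hN : N ≠ 0) (he : ε ≠ 0) (hd : d ≠ 0)
    (h1 : p ^ 2 - N * q ^ 2 = d) (h3 : u ^ 2 - ε ^ 2 * w ^ 2 = d) (hpu : p + u ≠ 0) :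
    s.s (2 * (p + u)) (N * ε ^ 2) = s.s (u + w * ε) N := by
  rw [add_comm p u, mul_comm N]
  exact sy_t1 s h2 he hN hd (by rw [← h3]) h1 (by rwa [add_comm])

theorem sy_t3 (h2 : (2 : E) ≠ 0) {p N u e δ z0 z1 y0 y1 : E} (hN : N ≠ 0) (he : e ≠ 0)
    (hδ : δ ≠ 0) (hz : z0 ^ 2 - N * z1 ^ 2 ≠ 0) (hy : y0 ^ 2 - e * y1 ^ 2 ≠ 0)
    (h1 : p * (z0 ^ 2 - N * z1 ^ 2) = δ * (z0 ^ 2 + N * z1 ^ 2))
    (h3 : u * (y0 ^ 2 - e * y1 ^ 2) = δ * (y0 ^ 2 + e * y1 ^ 2)) (hpu : p + u ≠ 0) :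
    s.s (2 * (p + u)) (N * e) =
      s.s (δ * (z0 ^ 2 - N * z1 ^ 2)) e + s.s (δ * (y0 ^ 2 - e * y1 ^ 2)) N := by
  have hNe : N * e ≠ 0 := mul_ne_zero hN he
  have h2pu : 2 * (p + u) ≠ 0 := mul_ne_zero h2 hpu
  have hYN := sy_norm s hN hz
  have hYe := sy_norm s he hy
  have key : (2 * (p + u)) * ((z0 ^ 2 - N * z1 ^ 2) * (y0 ^ 2 - e * y1 ^ 2)) =
      2 ^ 2 * (δ * ((z0 * y0) ^ 2 - N * e * (z1 * y1) ^ 2)) := by
    linear_combination (2 * (y0 ^ 2 - e * y1 ^ 2)) * h1 + (2 * (z0 ^ 2 - N * z1 ^ 2)) * h3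
  set Y := z0 ^ 2 - N * z1 ^ 2 with hY
  set Y' := y0 ^ 2 - e * y1 ^ 2 with hY'
  have hA : (z0 * y0) ^ 2 - N * e * (z1 * y1) ^ 2 ≠ 0 := by
    intro h0
    rw [h0, mul_zero, mul_zero] at key
    exact mul_ne_zero h2pu (mul_ne_zero hz hy) key
  have hAn := sy_norm s hNe hA
  have e1 : s.s ((2 * (p + u)) * (Y * Y')) (N * e) =
      s.s (2 ^ 2 * (δ * ((z0 * y0) ^ 2 - N * e * (z1 * y1) ^ 2))) (N * e) := by rw [key]
  rw [s.mul_left _ _ _ h2pu (mul_ne_zero hz hy) hNe, s.mul_left _ _ _ hz hy hNe,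
    s.mul_left _ _ _ (pow_ne_zero 2 h2) (mul_ne_zero hδ hA) hNe, sy_sql s h2 hNe,
    s.mul_left _ _ _ hδ hA hNe, hAn, s.mul_right Y N e hz hN he, s.mul_right Y' N e hy hN he,
    hYN, hYe, s.mul_right δ N e hδ hN he] at e1
  rw [s.mul_left _ _ _ hδ hz he, s.mul_left _ _ _ hδ hy hN]
  linear_combination e1 - (s.s Y e + s.s Y' N) * z2

theorem sy_alt (h2 : (2 : E) ≠ 0) {n : E} (hn : n ≠ 0) {x p q m : Fin 2 → E}
    (hx : ∀ i, x i ≠ 0) (hm : ∀ i, m i ≠ 0) (hk : ∀ i, p i ^ 2 - n ^ 2 * q i ^ 2 = x i * m i ^ 2)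
    (hq : ∀ i, q i ≠ 0) (hs : q 1 * p 0 + q 0 * p 1 ≠ 0) :
    s.s (p 0 + q 0 * n) (x 1) + s.s (p 1 + q 1 * n) (x 0) =
      s.s (x 0) (q 0 * (q 1 * p 0 + q 0 * p 1)) + s.s (x 1) (q 1 * (q 1 * p 0 + q 0 * p 1)) := by
  have _ := h2
  have _ := hn
  have hprod : ∀ i, (p i + q i * n) * (p i - q i * n) = x i * m i ^ 2 := by
    intro i
    rw [← hk i]
    ring
  have hk0 : ∀ i, p i + q i * n ≠ 0 := by
    intro i h0
    have := hprod i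
    rw [h0, zero_mul] at this
    exact mul_ne_zero (hx i) (pow_ne_zero 2 (hm i)) this.symm
  have hk0' : ∀ i, p i - q i * n ≠ 0 := by
    intro i h0
    have := hprod i
    rw [h0, mul_zero] at this
    exact mul_ne_zero (hx i) (pow_ne_zero 2 (hm i)) this.symm
  have hm1 : (-1 : E) ≠ 0 := neg_ne_zero.2 one_ne_zero
  set S := q 1 * p 0 + q 0 * p 1 with hS
  -- the rule for a + b = S
  have rule : ∀ a b : E, a ≠ 0 → b ≠ 0 → a + b = S →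
      s.s a b = s.s a S + s.s b S + s.s (-1) S := by
    intro a b ha hb hab
    have h3 := s.hom ha hb hs hab
    rw [s.self hs, sy_comm s hs hb, sy_comm s hs hm1] at h3
    linear_combination h3 - s.s (-1) S * z2
  have r1 := rule (q 1 * (p 0 + q 0 * n)) (q 0 * (p 1 - q 1 * n)) (mul_ne_zero (hq 1) (hk0 0))
    (mul_ne_zero (hq 0) (hk0' 1)) (by rw [hS]; ring)
  have r2 := rule (q 1 * (p 0 - q 0 * n)) (q 0 * (p 1 + q 1 * n)) (mul_ne_zero (hq 1) (hk0' 0))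
    (mul_ne_zero (hq 0) (hk0 1)) (by rw [hS]; ring)
  -- products
  have pr : ∀ (i : Fin 2) (z : E), z ≠ 0 →
      s.s (p i + q i * n) z + s.s (p i - q i * n) z = s.s (x i) z := by
    intro i z hz
    rw [← s.mul_left _ _ _ (hk0 i) (hk0' i) hz, hprod i,
      s.mul_left _ _ _ (hx i) (pow_ne_zero 2 (hm i)) hz, sy_sql s (hm i) hz, add_zero]
  set k0 := p 0 + q 0 * n with hk0d
  set k1 := p 1 + q 1 * n with hk1d
  set l0 := p 0 - q 0 * n with hl0d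
  set l1 := p 1 - q 1 * n with hl1d
  have nk0 : k0 ≠ 0 := hk0 0
  have nk1 : k1 ≠ 0 := hk0 1
  have nl0 : l0 ≠ 0 := hk0' 0
  have nl1 : l1 ≠ 0 := hk0' 1
  have nq0 := hq 0
  have nq1 := hq 1
  rw [s.mul_left _ _ _ nq1 nk0 (mul_ne_zero nq0 nl1), s.mul_right _ _ _ nq1 nq0 nl1,
    s.mul_right _ _ _ nk0 nq0 nl1, s.mul_left _ _ _ nq1 nk0 hs, s.mul_left _ _ _ nq0 nl1 hs] at r1
  rw [s.mul_left _ _ _ nq1 nl0 (mul_ne_zero nq0 nk1), s.mul_right _ _ _ nq1 nq0 nk1,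
    s.mul_right _ _ _ nl0 nq0 nk1, s.mul_left _ _ _ nq1 nl0 hs, s.mul_left _ _ _ nq0 nk1 hs] at r2
  have a1 := pr 1 (q 1) nq1
  have a2 := pr 0 (q 0) nq0
  have a3 := pr 0 S hs
  have a4 := pr 1 S hs
  have a5 := pr 1 k0 nk0
  have a6 := pr 0 k1 nk1
  rw [sy_comm s nk1 nq1, sy_comm s nl1 nq1] at a1
  rw [sy_comm s nk1 nk0, sy_comm s nl1 nk0] at a5
  rw [s.mul_right _ _ _ (hx 0) nq0 hs, s.mul_right _ _ _ (hx 1) nq1 hs, sy_comm s nk0 (hx 1),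
    sy_comm s nk1 (hx 0)]
  linear_combination (exp := 1) r1 + r2 - a1 - a2 + a3 + a4 - a5 - a6 +
    (s.s k0 k1 + s.s (q 1) S + s.s (q 0) S + s.s (-1) S - s.s (x 0) (q 0) - s.s (x 1) (q 1) -
      s.s (q 1) (q 0)) * z2

end Pool.Agent.H40.FS
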