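import Pool.Agent.H40.FS.SYA

set_option autoImplicit false

/-!
# [H40 FS SYB] The sum of symbols `tht`

`TH`: `k_i = p i + q i √N` has norm `x i m i ^ 2` (`i = 0, 1`), `k_0 k_1 = p2 + q2 √N` with `p2 = p 0 p 1 + N q 0 q 1`, norm `x 0 x 1 (m 0 m 1) ^ 2`; three conics `Z 0 ^ 2 - x 0 X 0 ^ 2 = c y 1 W 0 ^ 2`, `Z 1 ^ 2 - x 1 X 1 ^ 2 = c y 0 W 1 ^ 2`, `Z 2 ^ 2 - x 0 x 1 X 2 ^ 2 = c W 2 ^ 2`.
`tht` is the sum of the symbols below.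
* `tht_sq` (`N = n ^ 2`): `sy_t1` three times, with `p = p i / m i`, `q = q i / m i`, `d = x i`, `u = Z i / X i`, `w = W i / X i`, `e = c y 1`, `c y 0`, `c` and for the third `p2 / (m 0 m 1)`, `q2 = p 0 q 1 + q 0 p 1`: the three symbols are `s (k 0 / m 0) (c y 1) + s (k 1 / m 1) (c y 0) + s (k 0 k 1 / (m 0 m 1)) c
  = s (k 0) (y 1) + s (k 1) (y 0) + s (m 0) (y 1) + s (m 1) (y 0)` (all symbols with `c` cancel), `s g (n ^ 2) = 0`.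
* `tht_rt` (`x i = r i ^ 2`): `sy_t3` three times.  `δ = r 0`, `r 1`, `r 0 r 1`.  For the conics: `u = Z 0 / X 0`, `w = W 0 / X 0`, `y0 = u + δ`, `y1 = w`: `y0 ^ 2 - e y1 ^ 2 = u ^ 2 + 2 u δ + δ ^ 2 - e w ^ 2 = 2 δ (u + δ)` (`u ^ 2 - e w ^ 2 = δ ^ 2`), not zero since `u ^ 2 - δ ^ 2 = e w ^ 2 ≠ 0`, and `y0 ^ 2 + e y1 ^ 2 = 2 u (u + δ)`, so `u (y0 ^ 2 - e y1 ^ 2) = δ (y0 ^ 2 + e y1 ^ 2)`.
  `δ * (y0 ^ 2 - e y1 ^ 2) = 2 δ ^ 2 (u + δ)`, up to squares `2 X 0 (Z 0 + X 0 δ)`.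
  For `k`: with `P = p 0 / m 0`, `Q = q 0 / m 0`: if `P + δ ≠ 0` take `z0 = P + δ`, `z1 = Q` (the same computation), if `P + δ = 0` then `N Q ^ 2 = P ^ 2 - δ ^ 2 = 0`, `Q = 0`, take `z0 = 0`, `z1 = 1`: `p * (- N) = δ * N` as `P = - δ`.  In both cases, with `z = z0 + z1 √N`, `z̄` its conjugate, `k / m = δ z / z̄`, i.e. `P (z0 ^ 2 - N z1 ^ 2) = δ (z0 ^ 2 + N z1 ^ 2)` and `Q (z0 ^ 2 - N z1 ^ 2) = 2 δ z0 z1`.
  Let `(z0, z1)`, `(z0', z1')` belong to `k_0`, `k_1`; take for the product `z0'' = z0 z0' + N z1 z1'`, `z1'' = z0 z1' + z1 z0'`: `z0'' ^ 2 - N z1'' ^ 2 = (z0 ^ 2 - N z1 ^ 2)(z0' ^ 2 - N z1' ^ 2)`, and the equation of `sy_t3` for `p2 / (m 0 m 1)` follows by multiplying out: `p2 / (m 0 m 1) = P P' + N Q Q'`.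
  Sum: `s (r 0 n 0) (c y 1) + s (r 1 n 1) (c y 0) + s (r 0 r 1 n 0 n 1) c = s (r 0 n 0) (y 1) + s (r 1 n 1) (y 0)` with `n i` the norms, and the second terms give `s (2 X 0 (Z 0 + X 0 r 0) * 2 X 1 (..) * 2 X 2 (..)) N`, together with `s g N` this is `s (gle g X Z (r 0) (r 1)) N` (`8 = 2 * 2 ^ 2`).
-/

namespace Pool.Agent.H40.FS

open Pool.Agent.H94.PM

/-- the equations -/
structure TH {E : Type} [Field E] (N : E) (x y p q m : Fin 2 → E) (g c : E) (X Z W : Fin 3 → E) :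
    Prop where
  N0 : N ≠ 0
  x0 : ∀ i, x i ≠ 0
  y0 : ∀ i, y i ≠ 0
  m0 : ∀ i, m i ≠ 0
  g0 : g ≠ 0
  c0 : c ≠ 0
  X0 : ∀ l, X l ≠ 0
  W0 : ∀ l, W l ≠ 0
  k : ∀ i, p i ^ 2 - N * q i ^ 2 = x i * m i ^ 2
  e0 : Z 0 ^ 2 - x 0 * X 0 ^ 2 = c * y 1 * W 0 ^ 2
  e1 : Z 1 ^ 2 - x 1 * X 1 ^ 2 = c * y 0 * W 1 ^ 2
  e2 : Z 2 ^ 2 - x 0 * x 1 * X 2 ^ 2 = c * W 2 ^ 2
  n0 : p 0 / m 0 + Z 0 / X 0 ≠ 0
  n1 : p 1 / m 1 + Z 1 / X 1 ≠ 0
  n2 : (p 0 * p 1 + N * (q 0 * q 1)) / (m 0 * m 1) + Z 2 / X 2 ≠ 0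

/-- the governing element (the same formula as `H3.FS.gel`) -/
def gle {E : Type} [CommRing E] (g : E) (X Z : Fin 3 → E) (y1 y2 : E) : E :=
  2 * g * X 0 * X 1 * X 2 * (Z 0 + X 0 * y1) * (Z 1 + X 1 * y2) * (Z 2 + X 2 * (y1 * y2))

/-- the sum of symbols -/
def tht {E : Type} [Field E] (s : Sy E (ZMod 2)) (N : E) (y p q m : Fin 2 → E) (g c : E)
    (X Z : Fin 3 → E) : ZMod 2 :=
  s.s (2 * (p 0 / m 0 + Z 0 / X 0)) (N * (c * y 1)) +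
    s.s (2 * (p 1 / m 1 + Z 1 / X 1)) (N * (c * y 0)) +
    s.s (2 * ((p 0 * p 1 + N * (q 0 * q 1)) / (m 0 * m 1) + Z 2 / X 2)) (N * c) +
    s.s (m 0) (y 1) + s.s (m 1) (y 0) + s.s g N

variable {E : Type} [Field E] (s : Sy E (ZMod 2)) {N : E} {x y p q m : Fin 2 → E} {g c : E}
  {X Z W : Fin 3 → E}

theorem tht_sq (h2 : (2 : E) ≠ 0) (h : TH N x y p q m g c X Z W) {n : E} (hn : n ^ 2 = N) :
    tht s N y p q m g c X Z = s.s (p 0 + q 0 * n) (y 1) + s.s (p 1 + q 1 * n) (y 0) := by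
  subst hn
  have hn0 : n ≠ 0 := by
    intro h0
    exact h.N0 (by rw [h0]; ring)
  have hm0 := h.m0 0
  have hm1 := h.m0 1
  have hX0 := h.X0 0
  have hX1 := h.X0 1
  have hX2 := h.X0 2
  have hc := h.c0
  have hy0 := h.y0 0
  have hy1 := h.y0 1
  have hx0 := h.x0 0
  have hx1 := h.x0 1
  have z2 : (2 : ZMod 2) = 0 := rfl
  have hprod : ∀ i, (p i + q i * n) * (p i - q i * n) = x i * m i ^ 2 := by
    intro i
    rw [← h.k i]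
    ring
  have hk : ∀ i, p i + q i * n ≠ 0 := by
    intro i h0
    have := hprod i
    rw [h0, zero_mul] at this
    exact mul_ne_zero (h.x0 i) (pow_ne_zero 2 (h.m0 i)) this.symm
  have nk0 := hk 0
  have nk1 := hk 1
  have t0 := sy_t1 s h2 (p := p 0 / m 0) (q := q 0 / m 0) (n := n) (u := Z 0 / X 0)
    (w := W 0 / X 0) (e := c * y 1) (d := x 0) hn0 (mul_ne_zero hc hy1) hx0
    (by
      have := h.k 0
      field_simp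
      linear_combination this)
    (by
      have := h.e0
      field_simp
      linear_combination this) h.n0
  have t1 := sy_t1 s h2 (p := p 1 / m 1) (q := q 1 / m 1) (n := n) (u := Z 1 / X 1)
    (w := W 1 / X 1) (e := c * y 0) (d := x 1) hn0 (mul_ne_zero hc hy0) hx1
    (by
      have := h.k 1
      field_simp
      linear_combination this)
    (by
      have := h.e1
      field_simp
      linear_combination this) h.n1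
  have t2 := sy_t1 s h2 (p := (p 0 * p 1 + n ^ 2 * (q 0 * q 1)) / (m 0 * m 1))
    (q := (p 0 * q 1 + q 0 * p 1) / (m 0 * m 1)) (n := n) (u := Z 2 / X 2)
    (w := W 2 / X 2) (e := c) (d := x 0 * x 1) hn0 hc (mul_ne_zero hx0 hx1)
    (by
      have e1 := h.k 0
      have e2 := h.k 1
      field_simp
      linear_combination (p 1 ^ 2 - n ^ 2 * q 1 ^ 2) * e1 + (x 0 * m 0 ^ 2) * e2)
    (by
      have := h.e2
      field_simp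
      linear_combination this) h.n2
  have f0 : p 0 / m 0 + q 0 / m 0 * n = (p 0 + q 0 * n) * (m 0)⁻¹ := by
    field_simp
  have f1 : p 1 / m 1 + q 1 / m 1 * n = (p 1 + q 1 * n) * (m 1)⁻¹ := by
    field_simp
  have f2 : (p 0 * p 1 + n ^ 2 * (q 0 * q 1)) / (m 0 * m 1) +
      (p 0 * q 1 + q 0 * p 1) / (m 0 * m 1) * n =
      ((p 0 + q 0 * n) * (m 0)⁻¹) * ((p 1 + q 1 * n) * (m 1)⁻¹) := by
    field_simp
    ring
  have hcy1 := mul_ne_zero hc hy1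
  have hcy0 := mul_ne_zero hc hy0
  have hi0 := inv_ne_zero hm0
  have hi1 := inv_ne_zero hm1
  rw [f0, s.mul_left _ _ _ nk0 hi0 hcy1, s.inv_left hm0 hcy1, s.mul_right _ _ _ nk0 hc hy1,
    s.mul_right _ _ _ hm0 hc hy1] at t0
  rw [f1, s.mul_left _ _ _ nk1 hi1 hcy0, s.inv_left hm1 hcy0, s.mul_right _ _ _ nk1 hc hy0,
    s.mul_right _ _ _ hm1 hc hy0] at t1
  rw [f2, s.mul_left _ _ _ (mul_ne_zero nk0 hi0) (mul_ne_zero nk1 hi1) hc,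
    s.mul_left _ _ _ nk0 hi0 hc, s.mul_left _ _ _ nk1 hi1 hc, s.inv_left hm0 hc,
    s.inv_left hm1 hc] at t2
  unfold tht
  rw [t0, t1, t2, sy_sqr s h.g0 hn0]
  linear_combination (s.s (p 0 + q 0 * n) c + s.s (p 1 + q 1 * n) c - s.s (m 0) c -
    s.s (m 1) c) * z2

private theorem kk (h2 : (2 : E) ≠ 0) {P Q N δ : E} (hN : N ≠ 0) (hδ : δ ≠ 0)
    (h : P ^ 2 - N * Q ^ 2 = δ ^ 2) : ∃ z0 z1 : E, z0 ^ 2 - N * z1 ^ 2 ≠ 0 ∧
      P * (z0 ^ 2 - N * z1 ^ 2) = δ * (z0 ^ 2 + N * z1 ^ 2) ∧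
      Q * (z0 ^ 2 - N * z1 ^ 2) = 2 * δ * z0 * z1 := by
  by_cases hP : P + δ = 0
  · have hP' : P = -δ := eq_neg_of_add_eq_zero_left hP
    have hQ : Q = 0 := by
      rw [hP'] at h
      have h1 : N * Q ^ 2 = 0 := by linear_combination -h
      exact pow_eq_zero_iff (two_ne_zero) |>.mp ((mul_eq_zero.mp h1).resolve_left hN)
    refine ⟨0, 1, ?_, ?_, ?_⟩
    · have e1 : (0 : E) ^ 2 - N * 1 ^ 2 = -N := by ring
      rw [e1]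
      exact neg_ne_zero.2 hN
    · rw [hP']
      ring
    · rw [hQ]
      ring
  · have e1 : (P + δ) ^ 2 - N * Q ^ 2 = 2 * δ * (P + δ) := by linear_combination h
    have e2 : (P + δ) ^ 2 + N * Q ^ 2 = 2 * P * (P + δ) := by linear_combination -h
    refine ⟨P + δ, Q, ?_, ?_, ?_⟩
    · rw [e1]
      exact mul_ne_zero (mul_ne_zero h2 hδ) hP
    · rw [e1, e2]
      ring
    · rw [e1]
      ring

private theorem t3c (h2 : (2 : E) ≠ 0) {P N Z X W e δ z0 z1 : E} (hN : N ≠ 0) (he : e ≠ 0)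
    (hδ : δ ≠ 0) (hX : X ≠ 0) (hW : W ≠ 0) (hz : z0 ^ 2 - N * z1 ^ 2 ≠ 0)
    (h1 : P * (z0 ^ 2 - N * z1 ^ 2) = δ * (z0 ^ 2 + N * z1 ^ 2))
    (h3 : Z ^ 2 - δ ^ 2 * X ^ 2 = e * W ^ 2) (hpu : P + Z / X ≠ 0) :
    Z + X * δ ≠ 0 ∧ s.s (2 * (P + Z / X)) (N * e) =
      s.s (δ * (z0 ^ 2 - N * z1 ^ 2)) e + s.s (2 * X * (Z + X * δ)) N := by
  have hZ : Z + X * δ ≠ 0 := by
    intro h0
    have h4 : e * W ^ 2 = 0 := by linear_combination (Z - X * δ) * h0 - h3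
    exact mul_ne_zero he (pow_ne_zero 2 hW) h4
  refine ⟨hZ, ?_⟩
  have hc : (Z / X) ^ 2 - e * (W / X) ^ 2 = δ ^ 2 := by
    field_simp
    linear_combination h3
  have hud : Z / X + δ ≠ 0 := by
    intro h0
    apply hZ
    have : Z + X * δ = X * (Z / X + δ) := by field_simp
    rw [this, h0, mul_zero]
  have e1 : (Z / X + δ) ^ 2 - e * (W / X) ^ 2 = 2 * δ * (Z / X + δ) := by linear_combination hc
  have e2 : (Z / X + δ) ^ 2 + e * (W / X) ^ 2 = 2 * (Z / X) * (Z / X + δ) := by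
    linear_combination -hc
  have hy : (Z / X + δ) ^ 2 - e * (W / X) ^ 2 ≠ 0 := by
    rw [e1]
    exact mul_ne_zero (mul_ne_zero h2 hδ) hud
  have h4 := sy_t3 s h2 hN he hδ hz hy h1 (by rw [e1, e2]; ring) hpu
  rw [h4]
  congr 1
  have e3 : δ * ((Z / X + δ) ^ 2 - e * (W / X) ^ 2) =
      (2 * X * (Z + X * δ)) * (δ / X) ^ 2 := by
    rw [e1]
    field_simp
  rw [e3, s.mul_left _ _ _ (mul_ne_zero (mul_ne_zero h2 hX) hZ)
    (pow_ne_zero 2 (div_ne_zero hδ hX)) hN, sy_sql s (div_ne_zero hδ hX) hN, add_zero]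

theorem tht_rt (h2 : (2 : E) ≠ 0) (h : TH N x y p q m g c X Z W) {r : Fin 2 → E}
    (hr : ∀ i, r i ^ 2 = x i) : gle g X Z (r 0) (r 1) ≠ 0 ∧ ∃ z0 z1 : Fin 2 → E,
    (∀ i, z0 i ^ 2 - N * z1 i ^ 2 ≠ 0) ∧ tht s N y p q m g c X Z =
      s.s (r 0 * (z0 0 ^ 2 - N * z1 0 ^ 2) * m 0) (y 1) +
      s.s (r 1 * (z0 1 ^ 2 - N * z1 1 ^ 2) * m 1) (y 0) + s.s (gle g X Z (r 0) (r 1)) N := by
  have hm0 := h.m0 0
  have hm1 := h.m0 1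
  have hX0 := h.X0 0
  have hX1 := h.X0 1
  have hX2 := h.X0 2
  have hc := h.c0
  have hy0 := h.y0 0
  have hy1 := h.y0 1
  have hN := h.N0
  have z2 : (2 : ZMod 2) = 0 := rfl
  have hr0 : ∀ i, r i ≠ 0 := by
    intro i h0
    apply h.x0 i
    rw [← hr i, h0]
    ring
  have nr0 := hr0 0
  have nr1 := hr0 1
  have hkk : ∀ i, (p i / m i) ^ 2 - N * (q i / m i) ^ 2 = r i ^ 2 := by
    intro i
    have e1 := h.k i
    have e2 := h.m0 i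
    rw [hr i]
    field_simp
    linear_combination e1
  choose z0 z1 hz h1 h1' using fun i => kk h2 hN (hr0 i) (hkk i)
  have c0 := t3c s h2 hN (mul_ne_zero hc hy1) nr0 hX0 (h.W0 0) (hz 0) (h1 0)
    (Z := Z 0) (by rw [hr 0]; exact h.e0) h.n0
  have c1 := t3c s h2 hN (mul_ne_zero hc hy0) nr1 hX1 (h.W0 1) (hz 1) (h1 1)
    (Z := Z 1) (by rw [hr 1]; exact h.e1) h.n1
  have nn : (z0 0 * z0 1 + N * (z1 0 * z1 1)) ^ 2 - N * (z0 0 * z1 1 + z1 0 * z0 1) ^ 2 =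
      (z0 0 ^ 2 - N * z1 0 ^ 2) * (z0 1 ^ 2 - N * z1 1 ^ 2) := by ring
  have P2 : (p 0 * p 1 + N * (q 0 * q 1)) / (m 0 * m 1) =
      p 0 / m 0 * (p 1 / m 1) + N * (q 0 / m 0 * (q 1 / m 1)) := by
    field_simp
  have c2 := t3c s h2 (P := (p 0 * p 1 + N * (q 0 * q 1)) / (m 0 * m 1)) hN hc
    (mul_ne_zero nr0 nr1) hX2 (h.W0 2)
    (z0 := z0 0 * z0 1 + N * (z1 0 * z1 1)) (z1 := z0 0 * z1 1 + z1 0 * z0 1)
    (by rw [nn]; exact mul_ne_zero (hz 0) (hz 1))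
    (by
      rw [nn, P2]
      have a0 := h1 0
      have a1 := h1 1
      have b0 := h1' 0
      have b1 := h1' 1
      set Y0 := z0 0 ^ 2 - N * z1 0 ^ 2 with hY0
      set Y1 := z0 1 ^ 2 - N * z1 1 ^ 2 with hY1
      linear_combination (p 1 / m 1 * Y1) * a0 + (r 0 * (z0 0 ^ 2 + N * z1 0 ^ 2)) * a1 +
        (N * (q 1 / m 1) * Y1) * b0 + (N * (2 * r 0 * z0 0 * z1 0)) * b1)
    (Z := Z 2) (by
      have := h.e2
      rw [← hr 0, ← hr 1] at this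
      linear_combination this) h.n2
  obtain ⟨g0, t0⟩ := c0
  obtain ⟨g1, t1⟩ := c1
  obtain ⟨g2, t2⟩ := c2
  have hgl : gle g X Z (r 0) (r 1) ≠ 0 := by
    unfold gle
    exact mul_ne_zero (mul_ne_zero (mul_ne_zero (mul_ne_zero (mul_ne_zero (mul_ne_zero
      (mul_ne_zero h2 h.g0) hX0) hX1) hX2) g0) g1) g2
  refine ⟨hgl, z0, z1, hz, ?_⟩
  have A0 : 2 * X 0 * (Z 0 + X 0 * r 0) ≠ 0 := mul_ne_zero (mul_ne_zero h2 hX0) g0
  have A1 : 2 * X 1 * (Z 1 + X 1 * r 1) ≠ 0 := mul_ne_zero (mul_ne_zero h2 hX1) g1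
  have A2 : 2 * X 2 * (Z 2 + X 2 * (r 0 * r 1)) ≠ 0 := mul_ne_zero (mul_ne_zero h2 hX2) g2
  have hg : s.s (2 * X 0 * (Z 0 + X 0 * r 0)) N + s.s (2 * X 1 * (Z 1 + X 1 * r 1)) N +
      s.s (2 * X 2 * (Z 2 + X 2 * (r 0 * r 1))) N + s.s g N =
      s.s (gle g X Z (r 0) (r 1)) N := by
    rw [← s.mul_left _ _ _ A0 A1 hN, ← s.mul_left _ _ _ (mul_ne_zero A0 A1) A2 hN,
      ← s.mul_left _ _ _ (mul_ne_zero (mul_ne_zero A0 A1) A2) h.g0 hN]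
    have e1 : 2 * X 0 * (Z 0 + X 0 * r 0) * (2 * X 1 * (Z 1 + X 1 * r 1)) *
        (2 * X 2 * (Z 2 + X 2 * (r 0 * r 1))) * g = 2 ^ 2 * gle g X Z (r 0) (r 1) := by
      unfold gle
      ring
    rw [e1, s.mul_left _ _ _ (pow_ne_zero 2 h2) hgl hN, sy_sql s h2 hN, zero_add]
  have n0 : r 0 * (z0 0 ^ 2 - N * z1 0 ^ 2) ≠ 0 := mul_ne_zero nr0 (hz 0)
  have n1 : r 1 * (z0 1 ^ 2 - N * z1 1 ^ 2) ≠ 0 := mul_ne_zero nr1 (hz 1)
  have e3 : r 0 * r 1 * ((z0 0 * z0 1 + N * (z1 0 * z1 1)) ^ 2 -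
      N * (z0 0 * z1 1 + z1 0 * z0 1) ^ 2) =
      (r 0 * (z0 0 ^ 2 - N * z1 0 ^ 2)) * (r 1 * (z0 1 ^ 2 - N * z1 1 ^ 2)) := by
    rw [nn]
    ring
  rw [s.mul_right _ _ _ n0 hc hy1] at t0
  rw [s.mul_right _ _ _ n1 hc hy0] at t1
  rw [e3, s.mul_left _ _ _ n0 n1 hc] at t2
  unfold tht
  rw [t0, t1, t2, s.mul_left _ _ _ n0 hm0 hy1, s.mul_left _ _ _ n1 hm1 hy0]
  linear_combination hg + (s.s (r 0 * (z0 0 ^ 2 - N * z1 0 ^ 2)) c +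
    s.s (r 1 * (z0 1 ^ 2 - N * z1 1 ^ 2)) c) * z2

end Pool.Agent.H40.FS
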