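import Pool.Agent.H40.FS.TRD
import Pool.Agent.H40.FS.IN3
import Pool.Agent.H40.FS.BEX

set_option autoImplicit false

/-!
# [H40 FS TR2] Transfer of a cocycle to another twist

`e₁ = eD c1 A D1`, `e = eD c A D = N e₁`, `N = tn c c1 D D1`.  `k_i = p i + q i √N` has norm `x i m i ^ 2` (`i = 0, 1`), `kap p q n` is the triple `(k_0, k_1, k_0 k_1)` for the root `n` of `N` in `Kw F w`.
Let `cc ∈ Oc F` with `cc ^ 2 = N` (`exists_root`), `b` as in `exists_b` (`BEX`; `p i ^ 2 - N q i ^ 2 = x i * m i ^ 2`), `a' σ = psi cc (a σ) + tau (b σ)`: `coc_psi` (`COP`).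
* At `w` with `iw w N` a square: let `ι` be an embedding (`IsSepClosed.lift`); `(ι cc) ^ 2 = iw w N = n₀ ^ 2`, so `ι cc = ± n₀`, take `n` = this element of `Kw F w`.  `n` depends only on `w` (and `ι`).  If `LC w a g` then `IsLoc` holds for this `ι` (`loc_iota`), `loc_psi` (`k_i ≠ 0` since `(p + q n)(p - q n) = x m ^ 2 ≠ 0`).
* At `w ∉ U`, `w ∉ U1` with `iw w N` not a square: `vl_inert` (`tp_unit`, `tp_int`, `tp_dif`; `IsTriv a` gives `IsLoc .. 1`, `loc_one`; `loc_iota` for the same `ι`; `Even (vl ..)` is `ev = 0`, `Kg.inr`, `hxu`).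
-/

namespace Pool.Agent.H40.FS

open Polynomial WithZero Pool.Agent.H74.FS
open Pool.Agent.H94.PL (LChar XX DK AK dl)
open Pool.Agent.H94.PM (LU vl IsVln IsSln)

variable {F : Type} [Field F] [DecidableEq (RatFunc F)]

/-- the local class of the twisted cocycle at a place where `N = n ^ 2` -/
noncomputable def kap {w : Pl F} (p q : Fin 2 → RatFunc F) (n : Kw F w) : Fin 3 → Kw F w :=
  ![iw w (p 0) + iw w (q 0) * n, iw w (p 1) + iw w (q 1) * n,
    (iw w (p 0) + iw w (q 0) * n) * (iw w (p 1) + iw w (q 1) * n)]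

private theorem tr2_even {w : Pl F} (z : Kw F w) : ev w z = 0 ↔
    Even (vl (vw w) z) := by
  unfold ev
  rw [ZMod.intCast_zmod_eq_zero_iff_dvd, even_iff_two_dvd]
  rfl

private theorem tr2_ne {w : Pl F} {N x p q m : RatFunc F} {n : Kw F w} (hn : n ^ 2 = iw w N)
    (hx : x ≠ 0) (hm : m ≠ 0) (h : p ^ 2 - N * q ^ 2 = x * m ^ 2) :
    iw w p + iw w q * n ≠ 0 := by
  intro h0
  have h1 : (iw w p + iw w q * n) * (iw w p - iw w q * n) = iw w (x * m ^ 2) := by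
    rw [← h, map_sub, map_mul, map_pow, map_pow, ← hn]
    ring
  rw [h0, zero_mul] at h1
  exact iw_ne (mul_ne_zero hx (pow_ne_zero 2 hm)) h1.symm

variable [DecidableEq (Oc F)] [∀ w : Pl F, DecidableEq (Ow F w)] [Finite F]
  {S U U1 : Finset (Pl F)} {c c1 : F} {A : Fin 3 → F[X]} {D D1 : F[X]}

theorem tr_lift (hq : 2 ∣ Nat.card F - 1) (hA : ∀ i k, i ≠ k → A i ≠ A k)
    (h : TP S U U1 c c1 A D D1) {x : Fin 3 → RatFunc F} (hx : ∀ k, x k ≠ 0)
    (hp : ∃ y, ∏ k, x k = y ^ 2)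
    (hxu : ∀ w : Pl F, w ∉ U → w ∉ U1 → ∀ k, vw w (iw w (x k)) = 1)
    {p q m : Fin 2 → RatFunc F}
    (hk : ∀ i : Fin 2, Kg {w | w ∈ U ∨ w ∈ U1} (tn c c1 D D1) (x i.castSucc) (p i) (q i) (m i))
    {a : GF F → Pt (eD c1 A D1) (Oc F)} (ha : IsCoc a) (hax : IsCls x fun σ => 2 • a σ) :
    ∃ a' : GF F → Pt (eD c A D) (Oc F), IsCoc a' ∧ IsCls x (fun σ => 2 • a' σ) ∧
      (∀ w : Pl F, IsSquare (iw w (tn c c1 D D1)) → ∃ n : Kw F w, n ^ 2 = iw w (tn c c1 D D1) ∧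
        ∀ g, LC w a g → LC w a' (g * kap p q n)) ∧
      ∀ w : Pl F, w ∉ U → w ∉ U1 → ¬ IsSquare (iw w (tn c c1 D D1)) →
        IsTriv (Kw F w) (Ow F w) a → ∀ g, LC w a' g → ∀ k, ev w (g k) = 0 := by
  have h2 := two_rf (F := F) hq
  obtain ⟨N, hNdef⟩ : ∃ N, N = tn c c1 D D1 := ⟨_, rfl⟩
  have hN : N ≠ 0 := by
    rw [hNdef]
    exact tn_ne h
  have he := eD_inj h.c10 hA h.D10
  obtain ⟨cc, hcc⟩ := exists_root (Ω := Oc F) h2 (algebraMap (RatFunc F) (Oc F) N)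
  have hee : ∀ k, eD c A D k = N * eD c1 A D1 k := by
    intro k
    rw [hNdef]
    exact tn_eq h k
  rw [← hNdef] at hk ⊢
  obtain ⟨b, hbc, hbm, hbr⟩ := exists_b h2 hN hcc hx hp (fun i => (hk i).m0) (hk 0).eq (hk 1).eq
  obtain ⟨hc1, hc2⟩ := coc_psi h2 he hx hp ha hax hN hcc hee hbc hbm
  refine ⟨_, hc1, hc2, ?_, ?_⟩
  · intro w hsq
    obtain ⟨n₀, hn₀⟩ := hsq
    let ι : Oc F →ₐ[RatFunc F] Ow F w := IsSepClosed.lift
    have h3 : (ι cc) ^ 2 = (algebraMap (Kw F w) (Ow F w) n₀) ^ 2 := by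
      rw [← map_pow, hcc, ι.commutes, ← map_pow, sq n₀, ← hn₀]
      exact IsScalarTower.algebraMap_apply (RatFunc F) (Kw F w) (Ow F w) N
    obtain ⟨n, hn, hιn⟩ : ∃ n : Kw F w, n ^ 2 = iw w N ∧ ι cc = algebraMap (Kw F w) (Ow F w) n := by
      rcases sq_eq_sq_iff_eq_or_eq_neg.1 h3 with h4 | h4
      · exact ⟨n₀, by rw [sq, hn₀], h4⟩
      · exact ⟨-n₀, by rw [neg_sq, sq, hn₀], by rw [map_neg]; exact h4⟩
    have hk0 := tr2_ne hn (hx _) (hk 0).m0 (hk 0).eq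
    have hk1 := tr2_ne hn (hx _) (hk 1).m0 (hk 1).eq
    refine ⟨n, hn, fun g hg => ?_⟩
    obtain ⟨hg1, ⟨y, hy⟩, ι', hl⟩ := hg
    have hl' := loc_iota ha hl ι
    have hkap : ∀ k, kap p q n k ≠ 0 := by
      intro k
      fin_cases k
      · exact hk0
      · exact hk1
      · exact mul_ne_zero hk0 hk1
    refine ⟨fun k => mul_ne_zero (hg1 k) (hkap k), ?_, ι, ?_⟩
    · refine ⟨y * ((iw w (p 0) + iw w (q 0) * n) * (iw w (p 1) + iw w (q 1) * n)), ?_⟩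
      simp only [Pi.mul_apply]
      rw [Finset.prod_mul_distrib, hy, mul_pow]
      congr 1
      rw [Fin.prod_univ_three]
      show (iw w (p 0) + iw w (q 0) * n) * (iw w (p 1) + iw w (q 1) * n) *
        ((iw w (p 0) + iw w (q 0) * n) * (iw w (p 1) + iw w (q 1) * n)) = _
      ring
    · exact loc_psi h2 he hN hcc hee hbr hιn hk0 hk1 hg1 ⟨y, hy⟩ hl'
  · intro w hwU hwU1 hns htr g hg k
    obtain ⟨ι, hl⟩ := (loc_one (M := Kw F w) h2).1 htr
    obtain ⟨hg1, hg2, ι', hl'⟩ := hg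
    have hl2 := loc_iota hc1 hl' ι
    rw [tr2_even]
    have hmem : w ∉ {w : Pl F | w ∈ U ∨ w ∈ U1} := by
      rintro (h5 | h5)
      · exact hwU h5
      · exact hwU1 h5
    have hv2 : vw w (2 : Kw F w) = 1 := by
      have h5 := val_two_w hq w
      rwa [Nat.cast_ofNat] at h5
    have hvN : vw w (iw w N) = 1 := by
      rw [hNdef]
      exact tp_unit h hwU hwU1
    exact vl_inert (M := Kw F w) (x := fun i : Fin 2 => x i.castSucc) (p := p) (q := q) (m := m)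
      hv2 h2 he (fun k => tp_int h hwU k) (fun i j hij => tp_dif h hwU hij) hN hvN
      hns hcc hee hbr (fun i => (hk i).eq) (fun i => hxu w hwU hwU1 _) (fun i => (hk i).m0)
      (fun i => (tr2_even _).1 ((hk i).inr w hmem hns)) hl hg1 hg2 hl2 k

end Pool.Agent.H40.FS
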