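import Pool.Agent.H40.FS.TR2
import Pool.Agent.H40.FS.KGP

set_option autoImplicit false

/-!
# [H40 FS TR3] Transfer of a lift which is locally trivial outside the bad places

Let `a''` be the cocycle of `tr_lift`.  `x` is a square at the places `w ∈ U1 \ U`, so `Vw c A D w x` there (`Vw_sq` for the tuple `1`, or `H94.PM.isVln_one`), so a local class `g_w` of `a''` exists (`lc_ex`).  Let `h` be as in `par3` with `T = U1 \ U` (`none ∈ U`) and `t w k = ev w (g_w k)` (the sum is zero: the product of the `g_w k` is a square, `ev_prod`, `ev_sq`).  `a' σ = a'' σ + tau (sgx σ h)` (`coc_tau`).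
* `w ∈ U1`, `w ∉ U`: `LC w a' (g_w h)` (`lc_tau`), all valuations even, `Vw_good` for `D` (`w ∉ U`, `Bad`), `lc_triv`.
* `w ∉ U`, `w ∉ U1`, `iw w N` a square: `LC w a 1` (`ha.triv`, `lc_one`), `LC w a'' (1 * kap p q n)` (`tr_lift`), `LC w a' (kap p q n * h)`, even by `Kg.sp` and `par3` (`w ≠ none`), `Vw_good`, `lc_triv`.
* `w ∉ U`, `w ∉ U1`, `iw w N` not a square: a local class `g` of `a''` exists (`lc_ex`; `Vw c A D w x` by `Vw_good`, `x` even), it is even (`tr_lift`), so is `g h`; `Vw_good`, `lc_triv`.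
* `w ∈ S`: `h.sq`, `tr_lift`, `lc_tau`.
-/

namespace Pool.Agent.H40.FS

open Polynomial WithZero Pool.Agent.H74.FS
open Pool.Agent.H94.PL (LChar XX DK AK dl)
open Pool.Agent.H94.PM (LU vl IsVln IsSln)

variable {F : Type} [Field F] [DecidableEq (RatFunc F)] [DecidableEq (Oc F)]
  [∀ w : Pl F, DecidableEq (Ow F w)] [Finite F] {S U U1 : Finset (Pl F)} {c c1 : F}
  {A : Fin 3 → F[X]} {D D1 : F[X]}

omit [DecidableEq (Oc F)] [∀ w : Pl F, DecidableEq (Ow F w)] [Finite F] in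
private theorem tr3_ev_one {w : Pl F} {x : Kw F w} (h : vw w x = 1) : ev w x = 0 := by
  unfold ev vl
  rw [h, log_one, neg_zero, Int.cast_zero]

omit [DecidableEq (Oc F)] [∀ w : Pl F, DecidableEq (Ow F w)] [Finite F] in
private theorem tr3_iwp {x : Fin 3 → RatFunc F} (w : Pl F) (hp : ∃ y, ∏ k, x k = y ^ 2) :
    ∃ y, ∏ k, iw w (x k) = y ^ 2 := by
  obtain ⟨y, hy⟩ := hp
  refine ⟨iw w y, ?_⟩
  rw [← map_pow, ← hy, map_prod]

omit [DecidableEq (Oc F)] [∀ w : Pl F, DecidableEq (Ow F w)] in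
private theorem tr3_good (hq : 2 ∣ Nat.card F - 1) (hc : c ≠ 0) (hA : ∀ i k, i ≠ k → A i ≠ A k)
    (hD : D ≠ 0) (hS : Bad A D U) {w : Pl F} (hw : w ∉ U) {δ : Fin 3 → Kw F w} (h0 : ∀ k, δ k ≠ 0)
    (hy : ∃ y : Kw F w, ∏ k, δ k = y ^ 2) (he : ∀ k, ev w (δ k) = 0) : Vw c A D w δ := by
  rcases w with _ | ⟨P, hP⟩
  · exact absurd hS.inf hw
  · refine (Vw_good hq (by norm_num) hc hA hD hP ?_ ?_ h0 hy).2 he
    · intro h
      exact hw (hS.fin P hP (Dvd.dvd.mul_right h _))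
    · intro h
      exact hw (hS.fin P hP (Dvd.dvd.mul_left h _))

omit [DecidableEq (Oc F)] [∀ w : Pl F, DecidableEq (Ow F w)] [Finite F] in
private theorem tr3_sq {w : Pl F} {δ : Fin 3 → Kw F w} (h0 : ∀ k, δ k ≠ 0)
    (h : ∀ k, IsSquare (δ k)) : Vw c A D w δ := by
  choose r hr using h
  have h1 : Vw c A D w (1 : Fin 3 → Kw F w) := H94.PM.isVln_one _ _
  have hr0 : ∀ k, r k ≠ 0 := by
    intro k h2
    apply h0 k
    rw [hr k, h2, mul_zero]
  have h2 := Vw_sq h1 hr0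
  have h3 : (fun k => (1 : Fin 3 → Kw F w) k * r k ^ 2) = δ := by
    funext k
    rw [Pi.one_apply, one_mul, hr k, sq]
  rwa [h3] at h2

theorem tr_good (hq : 2 ∣ Nat.card F - 1) (hA : ∀ i k, i ≠ k → A i ≠ A k)
    (hT : TP S U U1 c c1 A D D1) {x : Fin 3 → RatFunc F} (hx : ∀ k, x k ≠ 0)
    (hp : ∃ y, ∏ k, x k = y ^ 2)
    (hxu : ∀ w : Pl F, w ∉ U → w ∉ U1 → ∀ k, vw w (iw w (x k)) = 1)
    (hxs : ∀ w : Pl F, w ∈ U1 → w ∉ U → ∀ k, IsSquare (iw w (x k)))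
    {p q m : Fin 2 → RatFunc F}
    (hk : ∀ i : Fin 2, Kg {w | w ∈ U ∨ w ∈ U1} (tn c c1 D D1) (x i.castSucc) (p i) (q i) (m i))
    {a : GF F → Pt (eD c1 A D1) (Oc F)} (ha : GLf U1 c1 A D1 x a) :
    ∃ (a' : GF F → Pt (eD c A D) (Oc F)) (h : Fin 3 → RatFunc F) (n : ∀ w : Pl F, Kw F w),
      GLf U c A D x a' ∧ Es U1 h ∧ ∀ w ∈ S, n w ^ 2 = iw w (tn c c1 D D1) ∧
        ∀ g, LC w a g → LC w a' fun k => g k * kap p q (n w) k * iw w (h k) := by
  classical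
  obtain ⟨b, hb, hbx, hsq, hns⟩ := tr_lift hq hA hT hx hp hxu hk ha.coc ha.cls
  have hw0 : ∀ w : Pl F, w ∉ U → w ≠ none := fun w hw h => hw (h ▸ hT.bad.inf)
  -- local classes at the places of `U1` outside `U`
  have hL1 : ∀ w ∈ U1 \ U, LC w b (lcl w b) := by
    intro w hw
    rw [Finset.mem_sdiff] at hw
    obtain ⟨g, hg⟩ := lc_ex hq hT.c0 hA hT.D0 hx hp hb hbx
      (tr3_sq (fun k => iw_ne (hx k)) (hxs w hw.1 hw.2))
    exact lc_lcl hg
  have hT0 : (none : Pl F) ∉ U1 \ U := by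
    rw [Finset.mem_sdiff]
    exact fun h => h.2 hT.bad.inf
  obtain ⟨h, hh, hhp, hh1, hh2⟩ := par3 hT0 (fun w k => ev w (lcl w b k)) (by
    intro w hw
    obtain ⟨h1, ⟨y, h2⟩, -⟩ := hL1 w hw
    rw [← ev_prod Finset.univ (fun k => lcl w b k) fun k _ => h1 k, h2, ev_sq])
  obtain ⟨hc1, hc2⟩ := coc_tau (two_rf hq) (eD_inj hT.c0 hA hT.D0) hx hp hh hhp hb hbx
  have hn : ∀ w : Pl F, ∃ n : Kw F w, w ∈ S → n ^ 2 = iw w (tn c c1 D D1) ∧
      ∀ g, LC w a g → LC w b (g * kap p q n) := by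
    intro w
    by_cases hw : w ∈ S
    · obtain ⟨n, hn⟩ := hsq w (hT.sq w hw)
      exact ⟨n, fun _ => hn⟩
    · exact ⟨0, fun hw' => absurd hw' hw⟩
  choose n hn using hn
  refine ⟨fun σ => b σ + tau (eD c A D) (Oc F) (sgx σ h), h, n, ⟨hc1, hc2, ?_⟩, ⟨hh, hhp, ?_⟩, ?_⟩
  · intro w hw
    -- enough: a local class which is even
    have hfin : ∀ g : Fin 3 → Kw F w, LC w b g → (∀ k, ev w (g k * iw w (h k)) = 0) →
        IsTriv (Kw F w) (Ow F w) fun σ => b σ + tau (eD c A D) (Oc F) (sgx σ h) := by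
      intro g hg hev
      have h4 := lc_tau hq hT.c0 hA hT.D0 hh hhp hg
      exact lc_triv hq hT.c0 hA hT.D0 h4
        (tr3_good hq hT.c0 hA hT.D0 hT.bad hw h4.1 h4.2.1 hev)
    by_cases hw1 : w ∈ U1
    · have hw2 : w ∈ U1 \ U := Finset.mem_sdiff.2 ⟨hw1, hw⟩
      refine hfin _ (hL1 w hw2) fun k => ?_
      rw [ev_mul ((hL1 w hw2).1 k) (iw_ne (hh k)), hh1 w hw2 k]
      exact CharTwo.add_self_eq_zero _
    · have hw2 : w ∉ U1 \ U := fun h => hw1 (Finset.mem_sdiff.1 h).1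
      have hev : ∀ k, ev w (iw w (h k)) = 0 := hh2 w (hw0 w hw) hw2
      have htr := ha.triv w hw1
      by_cases hs : IsSquare (iw w (tn c c1 D D1))
      · obtain ⟨m1, hm1, hm2⟩ := hsq w hs
        have h5 := hm2 1 ((lc_one hq).1 htr)
        rw [one_mul] at h5
        have hS' : w ∉ ({w | w ∈ U ∨ w ∈ U1} : Set (Pl F)) := by
          rintro (h | h)
          · exact hw h
          · exact hw1 h
        have h0 : ev w (iw w (p 0) + iw w (q 0) * m1) = 0 := (hk 0).sp w hS' m1 hm1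
        have h1 : ev w (iw w (p 1) + iw w (q 1) * m1) = 0 := (hk 1).sp w hS' m1 hm1
        have hk0 : iw w (p 0) + iw w (q 0) * m1 ≠ 0 := h5.1 0
        have hk1 : iw w (p 1) + iw w (q 1) * m1 ≠ 0 := h5.1 1
        refine hfin _ h5 fun k => ?_
        rw [ev_mul (h5.1 k) (iw_ne (hh k)), hev k, add_zero]
        fin_cases k
        · exact h0
        · exact h1
        · show ev w ((iw w (p 0) + iw w (q 0) * m1) * (iw w (p 1) + iw w (q 1) * m1)) = 0
          rw [ev_mul hk0 hk1, h0, h1, add_zero]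
      · obtain ⟨g, hg⟩ := lc_ex hq hT.c0 hA hT.D0 hx hp hb hbx
          (tr3_good hq hT.c0 hA hT.D0 hT.bad hw (fun k => iw_ne (hx k)) (tr3_iwp w hp)
            fun k => tr3_ev_one (hxu w hw hw1 k))
        refine hfin g hg fun k => ?_
        rw [ev_mul (hg.1 k) (iw_ne (hh k)), hev k, add_zero]
        exact hns w hw hw1 hs htr g hg k
  · intro w hw k
    refine hh2 w (fun h => hw (h ▸ hT.bad1.inf)) (fun h => hw (Finset.mem_sdiff.1 h).1) k
  · intro w hw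
    exact ⟨(hn w hw).1, fun g hg => lc_tau hq hT.c0 hA hT.D0 hh hhp ((hn w hw).2 g hg)⟩

end Pool.Agent.H40.FS
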